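import Mathlib

/-!
Lattice points and maximal determinants.
-/

namespace Pool.Agent.N852

open Matrix Module

/-- The subgroup generated by the rows of an integer matrix. -/
def rowLat {ι : Type*} [Fintype ι] (A : Matrix ι ι ℤ) : AddSubgroup (ι → ℤ) where
  carrier := {z | ∃ c : ι → ℤ, c ᵥ* A = z}
  zero_mem' := ⟨0, zero_vecMul A⟩
  add_mem' := by
    rintro _ _ ⟨c, rfl⟩ ⟨d, rfl⟩
    exact ⟨c + d, add_vecMul A c d⟩
  neg_mem' := by
    rintro _ ⟨c, rfl⟩
    exact ⟨-c, neg_vecMul c A⟩

theorem mem_rowLat {ι : Type*} [Fintype ι] {A : Matrix ι ι ℤ} {z : ι → ℤ} :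
    z ∈ rowLat A ↔ ∃ c : ι → ℤ, c ᵥ* A = z :=
  Iff.rfl

variable {ι : Type*} [Fintype ι] [DecidableEq ι]

theorem vecMul_inj {A : Matrix ι ι ℤ} (hA : A.det ≠ 0) {c d : ι → ℤ} (h : c ᵥ* A = d ᵥ* A) :
    c = d := by
  have h1 : c ᵥ* (A * A.adjugate) = d ᵥ* (A * A.adjugate) := by
    rw [← vecMul_vecMul, ← vecMul_vecMul, h]
  rw [mul_adjugate] at h1
  simp only [vecMul_smul, vecMul_one] at h1
  funext i
  have := congrFun h1 i
  simp only [Pi.smul_apply, smul_eq_mul] at this
  exact mul_left_cancel₀ hA this

theorem index_rowLat {A : Matrix ι ι ℤ} (hA : A.det ≠ 0) :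
    (rowLat A).index = A.det.natAbs := by
  let f : (ι → ℤ) →ₗ[ℤ] (rowLat A) :=
    { toFun := fun c => ⟨c ᵥ* A, c, rfl⟩
      map_add' := fun c d => by
        apply Subtype.ext
        exact add_vecMul A c d
      map_smul' := fun a c => by
        apply Subtype.ext
        exact smul_vecMul a c A }
  have hf : Function.Bijective f := by
    constructor
    · intro c d h
      exact vecMul_inj hA (congrArg Subtype.val h)
    · rintro ⟨z, c, hc⟩
      exact ⟨c, Subtype.ext hc⟩
  let e : (ι → ℤ) ≃ₗ[ℤ] (rowLat A) := LinearEquiv.ofBijective f hf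
  let b : Basis ι ℤ (rowLat A) := Basis.ofEquivFun e.symm
  have h1 := AddSubgroup.index_eq_natAbs_det (Pi.basisFun ℤ ι) (rowLat A) b
  rw [h1, Pi.basisFun_det_apply]
  congr 1
  congr 1
  ext i j
  have h2 : (b i : ι → ℤ) = Pi.single i 1 ᵥ* A := by
    have : b i = e (Pi.single i 1) := by
      simp [b, Basis.coe_ofEquivFun]
    rw [this]
    rfl
  simp only [of_apply]
  rw [h2, single_one_vecMul]
  rfl

theorem cramer_coord {A : Matrix ι ι ℤ} (s : ι → ℤ) :
    A.det • s = (fun i => (A.updateRow i s).det) ᵥ* A := by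
  have h := Matrix.mulVec_cramer Aᵀ s
  rw [mulVec_transpose, det_transpose] at h
  rw [← h]
  congr 1
  funext i
  rw [cramer_transpose_apply]

/-- **Lemma MD.** If all determinants formed from vectors of the finite set `S` of a lattice are at
most `W` and `S` spans, then `S` has at most `5 ^ rank * W / index` elements. -/
theorem card_mul_index_le (Λ : AddSubgroup (ι → ℤ)) (S : Finset (ι → ℤ)) (hS : ∀ s ∈ S, s ∈ Λ)
    (hspan : ∃ v : ι → ι → ℤ, (∀ i, v i ∈ S) ∧ (Matrix.of v).det ≠ 0) (W : ℕ)
    (hW : ∀ v : ι → ι → ℤ, (∀ i, v i ∈ S) → (Matrix.of v).det.natAbs ≤ W) :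
    S.card * Λ.index ≤ 5 ^ (Fintype.card ι) * W := by
  classical
  obtain ⟨v0, hv0, hd0⟩ := hspan
  haveI : Nonempty (ι → S) := ⟨fun i => ⟨v0 i, hv0 i⟩⟩
  obtain ⟨w, hw⟩ := Finite.exists_max (fun v : ι → S =>
    (Matrix.of (fun i => (v i : ι → ℤ))).det.natAbs)
  set v : ι → ι → ℤ := fun i => (w i : ι → ℤ) with hv
  set A : Matrix ι ι ℤ := Matrix.of v with hAdef
  have hvS : ∀ i, v i ∈ S := fun i => (w i).2
  have hmax : ∀ u : ι → ι → ℤ, (∀ i, u i ∈ S) → (Matrix.of u).det.natAbs ≤ A.det.natAbs := by
    intro u hu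
    exact hw (fun i => ⟨u i, hu i⟩)
  have hA : A.det ≠ 0 := by
    intro h
    have := hmax v0 hv0
    rw [h] at this
    simp only [Int.natAbs_zero, nonpos_iff_eq_zero, Int.natAbs_eq_zero] at this
    exact hd0 this
  have hsub : rowLat A ≤ Λ := by
    rintro _ ⟨c, rfl⟩
    have h1 : c ᵥ* A = ∑ i, c i • v i := by
      funext j
      simp [vecMul, dotProduct, A]
    rw [h1]
    exact AddSubgroup.sum_mem _ fun i _ => AddSubgroup.zsmul_mem _ (hS _ (hvS i)) _
  -- indices
  have hidx := AddSubgroup.relIndex_mul_index hsub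
  rw [index_rowLat hA] at hidx
  have hpos : 0 < A.det.natAbs := Int.natAbs_pos.2 hA
  have hrel : 0 < (rowLat A).relIndex Λ := by
    rcases Nat.eq_zero_or_pos ((rowLat A).relIndex Λ) with h | h
    · rw [h, zero_mul] at hidx
      omega
    · exact h
  -- the map to the quotient
  let Q := Λ ⧸ ((rowLat A).addSubgroupOf Λ)
  have hcard : Nat.card Q = (rowLat A).relIndex Λ := rfl
  haveI : Finite Q := Nat.finite_of_card_ne_zero (by rw [hcard]; omega)
  haveI : Fintype Q := Fintype.ofFinite Q
  let g : (ι → ℤ) → Q := fun s => if h : s ∈ Λ then (QuotientAddGroup.mk (⟨s, h⟩ : Λ) : Q) else 0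
  have hfib : ∀ q ∈ S.image g, (S.filter fun s => g s = q).card ≤ 5 ^ (Fintype.card ι) := by
    intro q _
    rcases (S.filter fun s => g s = q).eq_empty_or_nonempty with h | ⟨s0, hs0⟩
    · rw [h]
      simp
    · rw [Finset.mem_filter] at hs0
      have key : ∀ s ∈ S.filter (fun s => g s = q), ∃ c : ι → ℤ, (∀ i, c i ∈ Finset.Icc (-2 : ℤ) 2)
          ∧ c ᵥ* A = s - s0 := by
        intro s hs
        rw [Finset.mem_filter] at hs
        have h1 : g s = g s0 := by rw [hs.2, hs0.2]
        have h2 : s - s0 ∈ rowLat A := by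
          simp only [g, dif_pos (hS s hs.1), dif_pos (hS s0 hs0.1)] at h1
          rw [QuotientAddGroup.eq] at h1
          have h3 := AddSubgroup.mem_addSubgroupOf.1 h1
          have h4 : -s + s0 ∈ rowLat A := h3
          have h5 := (rowLat A).neg_mem h4
          rwa [neg_add, neg_neg, ← sub_eq_add_neg] at h5
        obtain ⟨c, hc⟩ := h2
        refine ⟨c, fun i => ?_, hc⟩
        have h3 : A.det • c = fun i => (A.updateRow i (s - s0)).det := by
          apply vecMul_inj hA
          rw [smul_vecMul, hc, cramer_coord]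
        have h4 := congrFun h3 i
        have hup : ∀ t ∈ S, (A.updateRow i t).det.natAbs ≤ A.det.natAbs := by
          intro t ht
          have := hmax (Function.update v i t) (by
            intro j
            by_cases hj : j = i
            · subst hj
              simpa using ht
            · simpa [hj] using hvS j)
          exact this
        have h5 : (A.updateRow i (s - s0)).det = (A.updateRow i s).det - (A.updateRow i s0).det := by
          rw [sub_eq_add_neg, det_updateRow_add, ← neg_one_smul ℤ s0, det_updateRow_smul]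
          ring
        simp only [Pi.smul_apply, smul_eq_mul] at h4
        rw [h5] at h4
        have h6 := hup s hs.1
        have h7 := hup s0 hs0.1
        have h8 : (A.det * c i).natAbs ≤ 2 * A.det.natAbs := by
          rw [h4]
          omega
        rw [Int.natAbs_mul] at h8
        have h9 : (c i).natAbs ≤ 2 := by
          by_contra hcon
          push Not at hcon
          have : A.det.natAbs * 3 ≤ A.det.natAbs * (c i).natAbs :=
            Nat.mul_le_mul_left _ hcon
          omega
        rw [Finset.mem_Icc]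
        omega
      choose! c hc1 hc2 using key
      calc (S.filter fun s => g s = q).card
          ≤ (Fintype.piFinset fun _ : ι => Finset.Icc (-2 : ℤ) 2).card := by
            apply Finset.card_le_card_of_injOn c
            · intro s hs
              rw [Finset.mem_coe, Fintype.mem_piFinset]
              exact hc1 s hs
            · intro s hs t ht hst
              have := hc2 s hs
              have h2 := hc2 t ht
              rw [hst, h2] at this
              exact (sub_left_injective this).symm
        _ = 5 ^ (Fintype.card ι) := by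
            rw [Fintype.card_piFinset]
            simp
  have h1 : S.card ≤ 5 ^ (Fintype.card ι) * (S.image g).card :=
    Finset.card_le_mul_card_image S _ hfib
  have h2 : (S.image g).card ≤ (rowLat A).relIndex Λ := by
    rw [← hcard, Nat.card_eq_fintype_card]
    exact Finset.card_le_univ _
  calc S.card * Λ.index ≤ (5 ^ (Fintype.card ι) * (rowLat A).relIndex Λ) * Λ.index :=
        Nat.mul_le_mul_right _ (h1.trans (Nat.mul_le_mul_left _ h2))
    _ = 5 ^ (Fintype.card ι) * A.det.natAbs := by rw [mul_assoc, hidx]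
    _ ≤ 5 ^ (Fintype.card ι) * W := Nat.mul_le_mul_left _ (hW v hvS)

end Pool.Agent.N852
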