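import Mathlib
import Pool.Agent.N852.MD
import Pool.Agent.H548.BK.Order

/-!
Counting integer vectors all whose pairwise minors are small and divisible.
-/

namespace Pool.Agent.N852

open Matrix Module
open Pool.Agent.H548.WM (ht bx le_ht le_ht' ht_le exists_ht mem_bx card_bx ht_pos)

section idx

variable {ι : Type*} [Fintype ι] [DecidableEq ι]

theorem index_lower (Λ : AddSubgroup (ι → ℤ)) (hΛ : Λ.index ≠ 0) (D e : ℕ) (hD : D ≠ 0)
    (he : e ≠ 0) (g : ι → ℤ)
    (h : ∀ z ∈ Λ, ∃ k : ℤ, ∀ b, (e : ℤ) ∣ D * z b - k * (D * g b)) :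
    e ^ (Fintype.card ι) ≤ e * (Λ.index * D ^ (Fintype.card ι)) := by
  have : NeZero e := ⟨he⟩
  let φ : (ι → ℤ) →+ (ι → ZMod e) :=
    { toFun := fun z b => (z b : ZMod e)
      map_zero' := by ext b; simp
      map_add' := fun x y => by ext b; simp }
  let f : (ι → ℤ) →+ (ι → ℤ) :=
    { toFun := fun z b => D * z b
      map_zero' := by ext b; simp
      map_add' := fun x y => by ext b; simp; ring }
  have hφs : Function.Surjective φ := by
    intro y
    exact ⟨fun b => ((y b).val : ℤ), by ext b; simp [φ]⟩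
  set θ := φ.comp f with hθ
  have hθa : ∀ z b, θ z b = ((D * z b : ℤ) : ZMod e) := fun z b => rfl
  -- the range of `f`
  have hfr : f.range.index = D ^ (Fintype.card ι) := by
    have h1 : f.range = rowLat ((D : ℤ) • (1 : Matrix ι ι ℤ)) := by
      ext z
      rw [AddMonoidHom.mem_range, mem_rowLat]
      constructor
      · rintro ⟨c, rfl⟩
        refine ⟨c, ?_⟩
        rw [vecMul_smul, vecMul_one]
        ext b
        simp [f]
      · rintro ⟨c, rfl⟩
        refine ⟨c, ?_⟩
        rw [vecMul_smul, vecMul_one]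
        ext b
        simp [f]
    have h2 : ((D : ℤ) • (1 : Matrix ι ι ℤ)).det = (D : ℤ) ^ (Fintype.card ι) := by
      rw [det_smul, det_one, mul_one]
    rw [h1, index_rowLat]
    · rw [h2, Int.natAbs_pow, Int.natAbs_natCast]
    · rw [h2]
      exact pow_ne_zero _ (by exact_mod_cast hD)
  have hrange : θ.range.index ≤ D ^ (Fintype.card ι) := by
    have h1 : θ.range = f.range.map φ := by
      rw [hθ, AddMonoidHom.range_eq_map, AddMonoidHom.range_eq_map, AddSubgroup.map_map]
    rw [h1]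
    have h2 : (f.range.map φ).index ∣ f.range.index := AddSubgroup.index_map_dvd _ hφs
    rw [hfr] at h2
    exact Nat.le_of_dvd (pow_pos (Nat.pos_of_ne_zero hD) _) h2
  have hK1 : Nat.card (Λ.map θ) ≤ e := by
    have h1 : Λ.map θ ≤ AddSubgroup.zmultiples (θ g) := by
      rintro _ ⟨z, hz, rfl⟩
      obtain ⟨k, hk⟩ := h z hz
      rw [AddSubgroup.mem_zmultiples_iff]
      refine ⟨k, ?_⟩
      ext b
      have h2 := (ZMod.intCast_zmod_eq_zero_iff_dvd (D * z b - k * (D * g b)) e).2 (hk b)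
      rw [Pi.smul_apply, hθa, hθa]
      push_cast at h2 ⊢
      rw [zsmul_eq_mul]
      exact (sub_eq_zero.1 h2).symm
    have h2 : Nat.card (AddSubgroup.zmultiples (θ g)) ≤ e := by
      rw [Nat.card_zmultiples]
      apply addOrderOf_le_of_nsmul_eq_zero (Nat.pos_of_ne_zero he)
      ext b
      simp
    refine le_trans ?_ h2
    exact AddSubgroup.card_le_of_le h1
  have hK2 : (Λ.map θ).index ≤ Λ.index * D ^ (Fintype.card ι) := by
    rw [AddSubgroup.index_map]
    apply Nat.mul_le_mul _ hrange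
    exact Nat.le_of_dvd (Nat.pos_of_ne_zero hΛ) (AddSubgroup.index_dvd_of_le le_sup_left)
  have hK3 := AddSubgroup.card_mul_index (Λ.map θ)
  have hK4 : Nat.card (ι → ZMod e) = e ^ (Fintype.card ι) := by
    rw [Nat.card_fun, Nat.card_zmod, Nat.card_eq_fintype_card]
  rw [← hK4, ← hK3]
  exact Nat.mul_le_mul hK1 hK2

theorem abs_det_le (A : Matrix ι ι ℝ) (r : ι → ℝ) (h : ∀ a b, |A a b| ≤ r a) :
    |A.det| ≤ (Fintype.card ι).factorial * ∏ a, r a := by
  rw [det_apply']
  refine (Finset.abs_sum_le_sum_abs _ _).trans ?_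
  calc ∑ σ : Equiv.Perm ι, |((Equiv.Perm.sign σ : ℤ) : ℝ) * ∏ i, A (σ i) i|
      ≤ ∑ _σ : Equiv.Perm ι, ∏ a, r a := by
        apply Finset.sum_le_sum
        intro σ _
        rw [abs_mul, Finset.abs_prod]
        have h1 : |((Equiv.Perm.sign σ : ℤ) : ℝ)| = 1 := by
          rcases Int.units_eq_one_or (Equiv.Perm.sign σ) with h | h <;> rw [h] <;> simp
        rw [h1, one_mul]
        calc ∏ i, |A (σ i) i| ≤ ∏ i, r (σ i) :=
              Finset.prod_le_prod (fun i _ => abs_nonneg _) fun i _ => h (σ i) i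
          _ = ∏ a, r a := Equiv.prod_comp σ r
    _ = (Fintype.card ι).factorial * ∏ a, r a := by
        rw [Finset.sum_const, Finset.card_univ, Fintype.card_perm, nsmul_eq_mul]

/-- Determinants of nearly parallel vectors are small. -/
theorem det_near {N : ℕ} (s : ι → Fin N → ℤ) (J : ι → Fin N) (X m : ℝ) (hX : 0 < X) (hm : 0 ≤ m)
    (a₀ : ι) (h1 : ∀ a, (ht (s a) : ℝ) ≤ X) (h2 : X < 2 * ht (s a₀))
    (h3 : ∀ a b : ι, ∀ i j, |((s a i * s b j - s a j * s b i : ℤ) : ℝ)| ≤ m) :
    |(((Matrix.of fun a b => s a (J b)).det : ℤ) : ℝ)| ≤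
      (Fintype.card ι).factorial * (X * (2 * m / X) ^ (Fintype.card ι - 1)) := by
  have hN : 0 < N := by
    rcases Nat.eq_zero_or_pos N with h | h
    · subst h
      exact (J a₀).elim0
    · exact h
  obtain ⟨l, hl⟩ := exists_ht hN (s a₀)
  have hl' : |((s a₀ l : ℤ) : ℝ)| = ht (s a₀) := by
    rw [← Int.cast_abs, hl]
    simp
  have hl0 : ((s a₀ l : ℤ) : ℝ) ≠ 0 := by
    intro h
    rw [h, abs_zero] at hl'
    rw [← hl'] at h2
    linarith
  set A : Matrix ι ι ℝ := Matrix.of fun a b => ((s a (J b) : ℤ) : ℝ) with hA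
  have hAdet : (((Matrix.of fun a b => s a (J b)).det : ℤ) : ℝ) = A.det := by
    rw [show (((Matrix.of fun a b => s a (J b)).det : ℤ) : ℝ) =
      (Int.castRingHom ℝ) ((Matrix.of fun a b => s a (J b)).det) from rfl, RingHom.map_det]
    rfl
  rw [hAdet]
  set c : ι → ℝ := fun a => if a = a₀ then 0 else (s a l : ℝ) / (s a₀ l : ℝ) with hc
  set A' : Matrix ι ι ℝ := Matrix.of fun a b => A a b - c a * A a₀ b with hA'
  have hdet : A.det = A'.det := by
    apply Matrix.det_eq_of_forall_row_eq_smul_add_const c a₀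
    · simp [hc]
    · intro i j
      simp [hA', hc]
  rw [hdet]
  set r : ι → ℝ := fun a => if a = a₀ then X else 2 * m / X with hr
  have hprod : ∏ a, r a = X * (2 * m / X) ^ (Fintype.card ι - 1) := by
    rw [← Finset.mul_prod_erase Finset.univ r (Finset.mem_univ a₀)]
    congr 1
    · simp [hr]
    · rw [Finset.prod_congr rfl (g := fun _ => 2 * m / X)]
      · rw [Finset.prod_const, Finset.card_erase_of_mem (Finset.mem_univ _), Finset.card_univ]
      · intro a ha
        simp [hr, Finset.ne_of_mem_erase ha]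
  rw [← hprod]
  apply abs_det_le
  intro a b
  by_cases ha : a = a₀
  · subst ha
    have h4 : A' a b = s a (J b) := by simp [hA', hc, hA]
    rw [h4]
    have h5 : r a = X := by simp [hr]
    rw [h5]
    refine le_trans ?_ (h1 a)
    have := le_ht' (s a) (J b)
    exact_mod_cast this
  · have h4 : A' a b = ((s a (J b) * s a₀ l - s a l * s a₀ (J b) : ℤ) : ℝ) / (s a₀ l : ℝ) := by
      simp only [hA', hc, hA, of_apply, if_neg ha]
      push_cast
      field_simp
    have h5 : r a = 2 * m / X := by simp [hr, ha]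
    rw [h4, h5, abs_div, hl', div_le_div_iff₀ (by linarith) hX]
    have h6 := h3 a a₀ (J b) l
    have h7 : |((s a (J b) * s a₀ l - s a l * s a₀ (J b) : ℤ) : ℝ)| * X ≤ m * X :=
      mul_le_mul_of_nonneg_right h6 hX.le
    nlinarith

end idx

/-- Primitive vectors. -/
def Prm {N : ℕ} (v : Fin N → ℤ) : Prop := ∃ w : Fin N → ℤ, v ⬝ᵥ w = 1

theorem Prm.ne {N : ℕ} {v : Fin N → ℤ} (h : Prm v) : v ≠ 0 := by
  rintro rfl
  obtain ⟨w, hw⟩ := h
  rw [zero_dotProduct] at hw
  exact zero_ne_one hw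

/-- **Lemma MD2.** -/
theorem md2 {N : ℕ} (D : ℕ) (hD : D ≠ 0) (S : Finset (Fin N → ℤ)) (X : ℝ) (m : ℝ) (e : ℕ)
    (hX : 1 ≤ X) (hm : 0 ≤ m) (he : e ≠ 0)
    (hS : ∀ s ∈ S, Prm s ∧ (ht s : ℝ) ≤ X ∧ X < 2 * ht s)
    (hmin : ∀ s ∈ S, ∀ t ∈ S, ∀ i j, |((s i * t j - s j * t i : ℤ) : ℝ)| ≤ m ∧
      (e : ℤ) ∣ D * (s i * t j - s j * t i)) :
    (S.card : ℝ) ≤ ((10 * D) ^ N * N.factorial) * X * (1 + m / (X * e)) ^ (N - 1) := by
  classical
  rcases S.eq_empty_or_nonempty with hemp | ⟨s0, hs0⟩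
  · rw [hemp, Finset.card_empty, Nat.cast_zero]
    positivity
  have he0 : (0 : ℝ) < e := by exact_mod_cast Nat.pos_of_ne_zero he
  -- a basis of the span
  let cst : (Fin N → ℤ) → (Fin N → ℚ) := fun v i => (v i : ℚ)
  have hcst : Function.Injective cst := by
    intro v w h
    funext i
    have : ((v i : ℤ) : ℚ) = ((w i : ℤ) : ℚ) := congrFun h i
    exact_mod_cast this
  obtain ⟨b, hbs, hbspan, hbli⟩ := exists_linearIndependent ℚ (cst '' (S : Set (Fin N → ℤ)))
  have hbfin : b.Finite := (S.finite_toSet.image cst).subset hbs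
  have : Fintype b := hbfin.fintype
  set j := Fintype.card b with hj
  have hex : ∀ q : b, ∃ s ∈ S, cst s = q := fun q => hbs q.2
  choose v hvS hvc using hex
  have hjN : j ≤ N := by
    have := hbli.fintype_card_le_finrank
    rwa [Module.finrank_fin_fun] at this
  let eq : b ≃ Fin j := Fintype.equivFin b
  -- independent over ℤ
  have hli : LinearIndependent ℤ (fun i : Fin j => v (eq.symm i)) := by
    have h1 : LinearIndependent ℚ (fun i : Fin j => cst (v (eq.symm i))) := by
      have h2 := hbli.comp eq.symm eq.symm.injective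
      have h3 : (fun i : Fin j => cst (v (eq.symm i))) =
          (fun x : b => (x : Fin N → ℚ)) ∘ eq.symm := by
        funext i
        exact hvc _
      rw [h3]
      exact h2
    exact (linearIndependent_algebraMap_comp_iff (R := ℤ) (S := ℚ)
      (v := fun i : Fin j => v (eq.symm i))).1 h1
  obtain ⟨J, hJ⟩ := Pool.Agent.H548.BK.exists_minor
    (A := Matrix.of fun i : Fin j => v (eq.symm i)) hli
  set v' : Fin j → Fin N → ℤ := fun i => v (eq.symm i) with hv'
  have hv'S : ∀ i, v' i ∈ S := fun i => hvS _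
  have hbr : Set.range (fun i : Fin j => cst (v' i)) = b := by
    ext q
    constructor
    · rintro ⟨i, rfl⟩
      have : cst (v' i) = (eq.symm i : Fin N → ℚ) := hvc _
      simp only [this]
      exact (eq.symm i).2
    · intro hq
      refine ⟨eq ⟨q, hq⟩, ?_⟩
      have : cst (v' (eq ⟨q, hq⟩)) = (eq.symm (eq ⟨q, hq⟩) : Fin N → ℚ) := hvc _
      simp only [this]
      simp
  let π : (Fin N → ℤ) → (Fin j → ℤ) := fun z a => z (J a)
  have hdetZ : (Matrix.of fun a b => v' a (J b)).det ≠ 0 := hJ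
  have hdetQ : (Matrix.of fun a b => ((v' a (J b) : ℤ) : ℚ)).det ≠ 0 := by
    have h1 : (Matrix.of fun a b => ((v' a (J b) : ℤ) : ℚ)).det =
        (((Matrix.of fun a b => v' a (J b)).det : ℤ) : ℚ) := by
      rw [show (((Matrix.of fun a b => v' a (J b)).det : ℤ) : ℚ) =
        (Int.castRingHom ℚ) ((Matrix.of fun a b => v' a (J b)).det) from rfl, RingHom.map_det]
      rfl
    rw [h1]
    exact_mod_cast hdetZ
  have hinj : Set.InjOn π S := by
    intro s hs t ht hst
    have h1 : ∀ s ∈ S, cst s ∈ Submodule.span ℚ (Set.range fun i : Fin j => cst (v' i)) := by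
      intro s hs
      rw [hbr, hbspan]
      exact Submodule.subset_span ⟨s, hs, rfl⟩
    have h2 := Submodule.sub_mem _ (h1 s hs) (h1 t ht)
    rw [Submodule.mem_span_range_iff_exists_fun] at h2
    obtain ⟨c, hc⟩ := h2
    have h3 : c ᵥ* (Matrix.of fun a b => ((v' a (J b) : ℤ) : ℚ)) = 0 := by
      funext k
      have h4 := congrFun hc (J k)
      have h5 : s (J k) = t (J k) := congrFun hst k
      simp only [Finset.sum_apply, Pi.smul_apply, smul_eq_mul, Pi.sub_apply, cst] at h4
      rw [h5, sub_self] at h4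
      simp only [vecMul, dotProduct, of_apply, Pi.zero_apply]
      exact h4
    have h6 : c = 0 := Matrix.eq_zero_of_vecMul_eq_zero hdetQ h3
    rw [h6] at hc
    simp only [Pi.zero_apply, zero_smul, Finset.sum_const_zero] at hc
    exact hcst (sub_eq_zero.1 hc.symm)
  have hjpos : 0 < j := by
    rcases Nat.eq_zero_or_pos j with h | h
    · exfalso
      have h1 : cst s0 ∈ Submodule.span ℚ b := by
        rw [hbspan]
        exact Submodule.subset_span ⟨s0, hs0, rfl⟩
      have h2 : IsEmpty b := Fintype.card_eq_zero_iff.1 (hj ▸ h)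
      have h3 : b = ∅ := Set.isEmpty_coe_sort.1 h2
      rw [h3, Submodule.span_empty, Submodule.mem_bot] at h1
      have h4 : s0 = 0 := hcst (by rw [h1]; funext i; simp [cst])
      exact (hS s0 hs0).1.ne h4
    · exact h
  set S' := S.image π with hS'
  have hcard : S'.card = S.card := Finset.card_image_of_injOn hinj
  set Λ : AddSubgroup (Fin j → ℤ) := AddSubgroup.closure (S' : Set (Fin j → ℤ)) with hΛ
  have hSΛ : ∀ s ∈ S', s ∈ Λ := fun s hs => AddSubgroup.subset_closure hs
  have hsub : rowLat (Matrix.of fun a b => v' a (J b)) ≤ Λ := by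
    rintro _ ⟨c, rfl⟩
    have h1 : c ᵥ* (Matrix.of fun a b => v' a (J b)) = ∑ i, c i • π (v' i) := by
      funext k
      simp [vecMul, dotProduct, π]
    rw [h1]
    exact AddSubgroup.sum_mem _ fun i _ => AddSubgroup.zsmul_mem _
      (hSΛ _ (Finset.mem_image_of_mem _ (hv'S i))) _
  have hindex : Λ.index ≠ 0 := by
    have h1 := AddSubgroup.index_dvd_of_le hsub
    rw [index_rowLat hdetZ] at h1
    intro h
    rw [h, Nat.zero_dvd, Int.natAbs_eq_zero] at h1
    exact hdetZ h1
  -- the lower bound for the index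
  obtain ⟨w, hw⟩ := (hS s0 hs0).1
  have hlow := index_lower Λ hindex D e hD he (π s0) (by
    intro z hz
    refine AddSubgroup.closure_induction (p := fun z _ =>
      ∃ k : ℤ, ∀ b, (e : ℤ) ∣ D * z b - k * (D * π s0 b)) ?_ ?_ ?_ ?_ hz
    · intro z hz
      obtain ⟨s, hs, rfl⟩ := Finset.mem_image.1 hz
      refine ⟨s ⬝ᵥ w, fun b => ?_⟩
      have h1 : (D : ℤ) * π s b - s ⬝ᵥ w * (D * π s0 b) =
          ∑ k, (D * (s (J b) * s0 k - s k * s0 (J b))) * w k := by
        have h2 : (D : ℤ) * π s b = D * s (J b) * (s0 ⬝ᵥ w) := by rw [hw, mul_one]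
        rw [h2]
        simp only [dotProduct, π, Finset.mul_sum, Finset.sum_mul]
        rw [← Finset.sum_sub_distrib]
        refine Finset.sum_congr rfl fun k _ => ?_
        ring
      rw [h1]
      refine Finset.dvd_sum fun k _ => Dvd.dvd.mul_right ?_ _
      have h3 := (hmin s hs s0 hs0 (J b) k).2
      exact h3
    · exact ⟨0, fun b => by simp⟩
    · rintro x y _ _ ⟨k, hk⟩ ⟨k', hk'⟩
      refine ⟨k + k', fun b => ?_⟩
      have := dvd_add (hk b) (hk' b)
      have h9 : (D : ℤ) * (x + y) b - (k + k') * (D * π s0 b) =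
          D * x b - k * (D * π s0 b) + (D * y b - k' * (D * π s0 b)) := by
        rw [Pi.add_apply]
        ring
      rwa [h9]
    · rintro x _ ⟨k, hk⟩
      refine ⟨-k, fun b => ?_⟩
      have := (dvd_neg (a := (e : ℤ))).2 (hk b)
      have h9 : (D : ℤ) * (-x) b - (-k) * (D * π s0 b) = -(D * x b - k * (D * π s0 b)) := by
        rw [Pi.neg_apply]
        ring
      rwa [h9])
  rw [Fintype.card_fin] at hlow
  set Wr : ℝ := (j.factorial : ℝ) * (X * (2 * m / X) ^ (j - 1)) with hWr
  have hX0 : 0 < X := by linarith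
  have hWr0 : 0 ≤ Wr := by positivity
  have hMD := card_mul_index_le Λ S' hSΛ ⟨fun i => π (v' i),
    fun i => Finset.mem_image_of_mem _ (hv'S i), hdetZ⟩ ⌊Wr⌋₊ (by
    intro u hu
    have hex : ∀ i, ∃ s ∈ S, π s = u i := fun i => Finset.mem_image.1 (hu i)
    choose s hsS hsu using hex
    have h1 : (Matrix.of u) = Matrix.of fun a b => s a (J b) := by
      ext a b
      rw [of_apply, of_apply, ← hsu a]
    rw [h1]
    apply Nat.le_floor
    have h2 := det_near s J X m hX0 hm ⟨0, hjpos⟩ (fun a => (hS _ (hsS a)).2.1)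
      (hS _ (hsS _)).2.2 (fun a b i k => (hmin _ (hsS a) _ (hsS b) i k).1)
    rw [Fintype.card_fin] at h2
    rw [← Int.cast_abs] at h2
    refine le_trans (le_of_eq ?_) h2
    rw [Nat.cast_natAbs])
  rw [Fintype.card_fin, hcard] at hMD
  have h1 : (S.card : ℝ) * Λ.index ≤ 5 ^ j * Wr := by
    calc (S.card : ℝ) * Λ.index ≤ 5 ^ j * (⌊Wr⌋₊ : ℝ) := by exact_mod_cast hMD
      _ ≤ 5 ^ j * Wr := by
        gcongr
        exact Nat.floor_le hWr0
  have h2 : (e : ℝ) ^ j ≤ e * (Λ.index * D ^ j) := by exact_mod_cast hlow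
  have hD0 : (0 : ℝ) < D := by exact_mod_cast Nat.pos_of_ne_zero hD
  have h3 : (S.card : ℝ) * e ^ j ≤ 5 ^ j * Wr * (e * D ^ j) := by
    calc (S.card : ℝ) * e ^ j ≤ S.card * (e * (Λ.index * D ^ j)) := by gcongr
      _ = (S.card * Λ.index) * (e * D ^ j) := by ring
      _ ≤ 5 ^ j * Wr * (e * D ^ j) := by gcongr
  have h4 : (S.card : ℝ) ≤ 5 ^ j * Wr * D ^ j / e ^ (j - 1) := by
    rw [le_div_iff₀ (by positivity)]
    have h5 : (e : ℝ) ^ j = e ^ (j - 1) * e := by
      rw [← pow_succ]
      congr 1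
      omega
    rw [h5] at h3
    have h6 : ((S.card : ℝ) * e ^ (j - 1)) * e ≤ (5 ^ j * Wr * D ^ j) * e := by
      calc ((S.card : ℝ) * e ^ (j - 1)) * e = S.card * (e ^ (j - 1) * e) := by ring
        _ ≤ 5 ^ j * Wr * (e * D ^ j) := h3
        _ = (5 ^ j * Wr * D ^ j) * e := by ring
    exact le_of_mul_le_mul_right h6 he0
  have hD1 : (1 : ℝ) ≤ D := by exact_mod_cast Nat.pos_of_ne_zero hD
  have hme : 0 ≤ m / (X * e) := by positivity
  calc (S.card : ℝ) ≤ 5 ^ j * Wr * D ^ j / e ^ (j - 1) := h4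
    _ = (5 ^ j * D ^ j) * j.factorial * X * (2 ^ (j - 1) * (m / (X * e)) ^ (j - 1)) := by
        rw [hWr]
        have : (2 * m / X) = (2 * (m / (X * e))) * e := by
          field_simp
        rw [this, mul_pow _ (e : ℝ), mul_pow 2]
        field_simp
    _ ≤ (5 ^ j * D ^ j) * j.factorial * X * (2 ^ j * (1 + m / (X * e)) ^ (N - 1)) := by
        gcongr
        · norm_num
        · omega
        · calc (m / (X * e)) ^ (j - 1) ≤ (1 + m / (X * e)) ^ (j - 1) := by
                gcongr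
                linarith
            _ ≤ (1 + m / (X * e)) ^ (N - 1) := by
                apply pow_le_pow_right₀ (by linarith)
                omega
    _ = ((10 * D) ^ j * j.factorial) * X * (1 + m / (X * e)) ^ (N - 1) := by
        rw [show (10 : ℝ) * D = 5 * D * 2 by ring, mul_pow, mul_pow]
        ring
    _ ≤ ((10 * D) ^ N * N.factorial) * X * (1 + m / (X * e)) ^ (N - 1) := by
        gcongr
        linarith

end Pool.Agent.N852
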