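import Mathlib
import Pool.Agent.N852.MD2
import Pool.Agent.N852.Div

/-!
Arithmetic of the pencil: eigenvectors modulo `e`.
-/

namespace Pool.Agent.N852

open Matrix Module Polynomial
open Pool.Agent.H548.WM (ht bx le_ht le_ht' ht_le exists_ht mem_bx card_bx ht_pos)
open Pool.Agent.H548.BL (rv cv Inc inc_iff_rv)

theorem det_two_rows {K : Type*} [CommRing K] {N : ℕ} (u w : Fin N → K) {i j : Fin N}
    (hij : i ≠ j) :
    (((1 : Matrix (Fin N) (Fin N) K).updateRow i u).updateRow j w).det =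
      u i * w j - u j * w i := by
  set U : Matrix (Fin N) (Fin 2) K :=
    (of ![(Pi.single i 1 : Fin N → K), Pi.single j 1])ᵀ with hU
  set V : Matrix (Fin 2) (Fin N) K := of ![u - Pi.single i 1, w - Pi.single j 1] with hV
  have h1 : ((1 : Matrix (Fin N) (Fin N) K).updateRow i u).updateRow j w = 1 + U * V := by
    ext a c
    rw [Matrix.add_apply, mul_apply, Fin.sum_univ_two]
    simp only [hU, hV, of_apply, transpose_apply, Matrix.cons_val_zero, Matrix.cons_val_one,
      Pi.sub_apply]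
    by_cases haj : a = j
    · subst haj
      rw [updateRow_self]
      simp [hij.symm, one_apply, Pi.single_apply, eq_comm]
    · rw [updateRow_ne haj]
      by_cases hai : a = i
      · subst hai
        rw [updateRow_self]
        simp [haj, one_apply, Pi.single_apply, eq_comm]
      · rw [updateRow_ne hai]
        simp [hai, haj]
  have h2 : ∀ a b : Fin 2, (V * U) a b = V a ⬝ᵥ Uᵀ b := fun a b => rfl
  have h3 : Uᵀ 0 = Pi.single i 1 := by
    simp [hU]
    rfl
  have h4 : Uᵀ 1 = Pi.single j 1 := by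
    simp [hU]
    rfl
  have h5 : V 0 = u - Pi.single i 1 := rfl
  have h6 : V 1 = w - Pi.single j 1 := rfl
  rw [h1, det_one_add_mul_comm, det_fin_two]
  simp only [Matrix.add_apply, h2, h3, h4, h5, h6, dotProduct_single_one, Pi.sub_apply]
  simp [hij, hij.symm]

theorem two_rows_mul {K : Type*} [CommRing K] {N : ℕ} (A : Matrix (Fin N) (Fin N) K)
    (u w : Fin N → K) (i j : Fin N) :
    ((1 : Matrix (Fin N) (Fin N) K).updateRow i u).updateRow j w * A =
      (A.updateRow i (u ᵥ* A)).updateRow j (w ᵥ* A) := by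
  ext a c
  by_cases haj : a = j
  · subst haj
    rw [updateRow_self, mul_apply]
    simp only [updateRow_self]
    rfl
  · rw [updateRow_ne haj, mul_apply]
    simp only [updateRow_ne haj]
    by_cases hai : a = i
    · subst hai
      rw [updateRow_self]
      simp only [updateRow_self]
      rfl
    · rw [updateRow_ne hai]
      simp only [updateRow_ne hai]
      simp [one_apply]

/-- Two eigenvectors with the same eigenvalue: their minors kill the derivative. -/
theorem deriv_minor {K : Type*} [CommRing K] {N : ℕ} (P : Matrix (Fin N) (Fin N) K) (b : K)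
    (u w : Fin N → K) (hu : u ᵥ* P = b • u) (hw : w ᵥ* P = b • w) (i j : Fin N) :
    (u i * w j - u j * w i) * (P.charpoly.derivative.eval b) = 0 := by
  by_cases hij : i = j
  · subst hij
    ring
  set A : Matrix (Fin N) (Fin N) K[X] := (X + C b) • (1 : Matrix (Fin N) (Fin N) K[X]) -
    P.map C with hA
  have hdetA : A.det = taylor b P.charpoly := by
    have h1 : taylor b P.charpoly = (taylorAlgHom b : K[X] →ₐ[K] K[X]).toRingHom
      P.charpoly := by
      simp
    rw [h1, Matrix.charpoly, RingHom.map_det]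
    congr 1
    ext a c
    simp only [hA, Matrix.sub_apply, Matrix.smul_apply, map_apply, RingHom.mapMatrix_apply,
      charmatrix_apply, one_apply, diagonal_apply, smul_eq_mul]
    split_ifs <;> simp
  have hrow : ∀ u : Fin N → K, u ᵥ* P = b • u →
      (fun k => C (u k)) ᵥ* A = (X : K[X]) • (fun k => C (u k)) := by
    intro u hu
    rw [hA, vecMul_sub, vecMul_smul, vecMul_one]
    have h1 : (fun k => C (u k)) ᵥ* P.map C = fun k => C ((b • u) k) := by
      rw [← hu]
      funext k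
      simp [vecMul, dotProduct]
    rw [h1]
    funext k
    simp only [Pi.sub_apply, Pi.smul_apply, smul_eq_mul, map_mul]
    ring
  set Q : Matrix (Fin N) (Fin N) K[X] :=
    ((1 : Matrix (Fin N) (Fin N) K[X]).updateRow i (fun k => C (u k))).updateRow j
      (fun k => C (w k)) with hQ
  have hdetQ : Q.det = C (u i * w j - u j * w i) := by
    rw [hQ, det_two_rows _ _ hij]
    simp
  have hQA : (Q * A).det = X * (X * ((A.updateRow i (fun k => C (u k))).updateRow j
      (fun k => C (w k))).det) := by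
    rw [hQ, two_rows_mul, hrow u hu, hrow w hw, det_updateRow_smul, updateRow_comm _ hij,
      det_updateRow_smul, updateRow_comm _ (Ne.symm hij)]
  rw [det_mul, hdetQ, hdetA] at hQA
  have h2 := congrArg (fun p => coeff p 1) hQA
  simp only [coeff_C_mul, taylor_coeff_one] at h2
  rw [h2, show (1 : ℕ) = 0 + 1 from rfl, coeff_X_mul, mul_comm, coeff_mul_X_zero]

/-- Integer version. -/
theorem deriv_minor_dvd {N : ℕ} (P : Matrix (Fin N) (Fin N) ℤ) (b : ℤ) (e : ℕ)
    (u w : Fin N → ℤ) (hu : ∀ k, (e : ℤ) ∣ (u ᵥ* P) k - b * u k)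
    (hw : ∀ k, (e : ℤ) ∣ (w ᵥ* P) k - b * w k) (i j : Fin N) :
    (e : ℤ) ∣ (u i * w j - u j * w i) * (P.charpoly.derivative.eval b) := by
  have h := deriv_minor (K := ZMod e) (P.map (Int.castRingHom (ZMod e))) (b : ZMod e)
    (fun k => (u k : ZMod e)) (fun k => (w k : ZMod e)) ?_ ?_ i j
  · rw [← ZMod.intCast_zmod_eq_zero_iff_dvd]
    rw [Matrix.charpoly_map, derivative_map, eval_intCast_map] at h
    push_cast at h ⊢
    exact h
  · funext k
    have h1 := (ZMod.intCast_zmod_eq_zero_iff_dvd _ _).2 (hu k)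
    simp only [vecMul, dotProduct, Matrix.map_apply, Pi.smul_apply, smul_eq_mul,
      eq_intCast] at h1 ⊢
    push_cast at h1
    exact sub_eq_zero.1 h1
  · funext k
    have h1 := (ZMod.intCast_zmod_eq_zero_iff_dvd _ _).2 (hw k)
    simp only [vecMul, dotProduct, Matrix.map_apply, Pi.smul_apply, smul_eq_mul,
      eq_intCast] at h1 ⊢
    push_cast at h1
    exact sub_eq_zero.1 h1

/-- The matrix `adj(M₀) M₁`. -/
def PM {N : ℕ} (M : Fin 2 → Matrix (Fin N) (Fin N) ℤ) : Matrix (Fin N) (Fin N) ℤ :=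
  (M 0).adjugate * M 1

/-- The minors of the two coefficient vectors. -/
def mm {R : Type*} [CommRing R] {N : ℕ} (M : Fin 2 → Matrix (Fin N) (Fin N) ℤ) (x : Fin N → R)
    (i j : Fin N) : R := rv M x 0 i * rv M x 1 j - rv M x 0 j * rv M x 1 i

theorem rv_int {N : ℕ} (M : Fin 2 → Matrix (Fin N) (Fin N) ℤ) (x : Fin N → ℤ) (i : Fin 2) :
    rv M x i = x ᵥ* M i := by
  unfold rv
  congr 1

theorem rv_PM {N : ℕ} (M : Fin 2 → Matrix (Fin N) (Fin N) ℤ) (x : Fin N → ℤ) :
    rv M x 0 ᵥ* PM M = (M 0).det • rv M x 1 := by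
  rw [rv_int, rv_int, PM, vecMul_vecMul, ← Matrix.mul_assoc, mul_adjugate, smul_mul, one_mul,
    vecMul_smul]

theorem rv_adj {N : ℕ} (M : Fin 2 → Matrix (Fin N) (Fin N) ℤ) (x : Fin N → ℤ) :
    rv M x 0 ᵥ* (M 0).adjugate = (M 0).det • x := by
  rw [rv_int, vecMul_vecMul, mul_adjugate, vecMul_smul, vecMul_one]

theorem arith1 {N : ℕ} (M : Fin 2 → Matrix (Fin N) (Fin N) ℤ) (x : Fin N → ℤ) (hx : Prm x)
    (e : ℕ) (he : e ≠ 0) (h : ∀ i j, (e : ℤ) ∣ mm M x i j) :
    ∃ b : ℕ, b < e ∧ (∀ k, (e : ℤ) ∣ (rv M x 0 ᵥ* PM M) k - b * rv M x 0 k) ∧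
      (e : ℤ) ∣ (M 0).det * (PM M).charpoly.eval (b : ℤ) := by
  obtain ⟨w, hw⟩ := hx
  set w' := (M 0).adjugate *ᵥ w with hw'
  set u := rv M x 0 with hu
  set v := rv M x 1 with hv
  have h1 : u ⬝ᵥ w' = (M 0).det := by
    rw [hw', dotProduct_mulVec, hu, rv_adj, smul_dotProduct, hw, smul_eq_mul, mul_one]
  set β := v ⬝ᵥ w' with hβ
  have h2 : ∀ k, (e : ℤ) ∣ (u ᵥ* PM M) k - β * u k := by
    intro k
    have h3 : (u ᵥ* PM M) k - β * u k = ∑ l, (u l * v k - u k * v l) * w' l := by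
      rw [hu, rv_PM, Pi.smul_apply, smul_eq_mul, ← h1, hβ]
      simp only [dotProduct, Finset.sum_mul]
      rw [← Finset.sum_sub_distrib]
      refine Finset.sum_congr rfl fun l _ => ?_
      ring
    rw [h3]
    exact Finset.dvd_sum fun l _ => Dvd.dvd.mul_right (h l k) _
  have he' : (e : ℤ) ≠ 0 := by exact_mod_cast he
  obtain ⟨b, hb⟩ := Int.eq_ofNat_of_zero_le (Int.emod_nonneg β he')
  have hbe : b < e := by
    have := Int.emod_lt_of_pos β (b := (e : ℤ)) (by positivity)
    omega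
  have hbβ : (e : ℤ) ∣ β - b := by
    rw [← hb]
    exact Int.dvd_self_sub_emod
  have h4 : ∀ k, (e : ℤ) ∣ (u ᵥ* PM M) k - b * u k := by
    intro k
    have h5 : (u ᵥ* PM M) k - b * u k = ((u ᵥ* PM M) k - β * u k) + (β - b) * u k := by ring
    rw [h5]
    exact dvd_add (h2 k) (Dvd.dvd.mul_right hbβ _)
  refine ⟨b, hbe, h4, ?_⟩
  have h6 : (PM M).charpoly.eval (b : ℤ) = (scalar (Fin N) (b : ℤ) - PM M).det :=
    eval_charpoly _ _
  have h7 : ∀ k, (e : ℤ) ∣ ((PM M).charpoly.eval (b : ℤ)) * u k := by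
    intro k
    have h8 : (u ᵥ* (scalar (Fin N) (b : ℤ) - PM M)) ᵥ* (scalar (Fin N) (b : ℤ) - PM M).adjugate =
        ((PM M).charpoly.eval (b : ℤ)) • u := by
      rw [vecMul_vecMul, mul_adjugate, ← h6, vecMul_smul, vecMul_one]
    have h9 := congrFun h8 k
    rw [Pi.smul_apply, smul_eq_mul] at h9
    rw [← h9]
    change (e : ℤ) ∣ ∑ l, (u ᵥ* (scalar (Fin N) (b : ℤ) - PM M)) l *
      (scalar (Fin N) (b : ℤ) - PM M).adjugate l k
    refine Finset.dvd_sum fun l _ => Dvd.dvd.mul_right ?_ _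
    rw [vecMul_sub, Pi.sub_apply]
    have h10 : (u ᵥ* scalar (Fin N) (b : ℤ)) l = b * u l := by
      simp [mul_comm]
    rw [h10]
    have := (dvd_neg (a := (e : ℤ))).2 (h4 l)
    rwa [neg_sub] at this
  rw [← h1, mul_comm]
  have h11 : (PM M).charpoly.eval (b : ℤ) * u ⬝ᵥ w' =
      ∑ k, ((PM M).charpoly.eval (b : ℤ) * u k) * w' k := by
    simp only [dotProduct, Finset.mul_sum]
    refine Finset.sum_congr rfl fun l _ => ?_
    ring
  rw [h11]
  exact Finset.dvd_sum fun k _ => Dvd.dvd.mul_right (h7 k) _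

theorem arith2 {N : ℕ} (M : Fin 2 → Matrix (Fin N) (Fin N) ℤ) (A B : ℤ[X]) (Δ : ℤ)
    (hΔ : A * (PM M).charpoly + B * (PM M).charpoly.derivative = C Δ)
    (x z : Fin N → ℤ) (e : ℕ) (b : ℤ)
    (hx : ∀ k, (e : ℤ) ∣ (rv M x 0 ᵥ* PM M) k - b * rv M x 0 k)
    (hz : ∀ k, (e : ℤ) ∣ (rv M z 0 ᵥ* PM M) k - b * rv M z 0 k)
    (hf : (e : ℤ) ∣ (M 0).det * (PM M).charpoly.eval b) (i j : Fin N) :
    (e : ℤ) ∣ ((M 0).det ^ 3 * Δ) * (x i * z j - x j * z i) := by
  set D := (M 0).det with hD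
  set f := (PM M).charpoly with hfdef
  have h1 : ∀ k l, (e : ℤ) ∣ D * Δ * (rv M x 0 k * rv M z 0 l - rv M x 0 l * rv M z 0 k) := by
    intro k l
    set m := rv M x 0 k * rv M z 0 l - rv M x 0 l * rv M z 0 k with hm
    have h2 : (e : ℤ) ∣ m * (f.derivative.eval b) := deriv_minor_dvd (PM M) b e _ _ hx hz k l
    have h3 : A.eval b * f.eval b + B.eval b * f.derivative.eval b = Δ := by
      have := congrArg (fun p => p.eval b) hΔ
      simpa using this
    have h4 : D * Δ * m = (A.eval b * m) * (D * f.eval b) +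
        (D * B.eval b) * (m * f.derivative.eval b) := by
      rw [← h3]
      ring
    rw [h4]
    exact dvd_add (Dvd.dvd.mul_left hf _) (Dvd.dvd.mul_left h2 _)
  have h5 : ∀ (x : Fin N → ℤ) i, D * x i = ∑ k, rv M x 0 k * (M 0).adjugate k i := by
    intro x i
    have := congrFun (rv_adj M x) i
    simp only [vecMul, dotProduct, Pi.smul_apply, smul_eq_mul] at this
    exact this.symm
  have h6 : (D ^ 3 * Δ) * (x i * z j - x j * z i) = ∑ k, ∑ l,
      (D * Δ * (rv M x 0 k * rv M z 0 l - rv M x 0 l * rv M z 0 k)) *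
        ((M 0).adjugate k i * (M 0).adjugate l j) := by
    have h7 : (D ^ 3 * Δ) * (x i * z j - x j * z i) =
        D * Δ * ((D * x i) * (D * z j) - (D * x j) * (D * z i)) := by ring
    rw [h7, h5 x i, h5 z j, h5 x j, h5 z i, Finset.sum_mul_sum, mul_comm (∑ k, _) (∑ k, _),
      Finset.sum_mul_sum, ← Finset.sum_sub_distrib, Finset.mul_sum]
    refine Finset.sum_congr rfl fun k _ => ?_
    rw [← Finset.sum_sub_distrib, Finset.mul_sum]
    refine Finset.sum_congr rfl fun l _ => ?_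
    ring
  rw [h6]
  exact Finset.dvd_sum fun k _ => Finset.dvd_sum fun l _ => Dvd.dvd.mul_right (h1 k l) _

end Pool.Agent.N852
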