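import Mathlib
import Pool.Agent.N852.Arith

/-!
The norm form of the pencil (determinant of the Krylov matrix).
-/

namespace Pool.Agent.N852

open Matrix Module Polynomial
open Pool.Agent.H548.WM (ht bx le_ht le_ht' ht_le exists_ht mem_bx card_bx ht_pos)
open Pool.Agent.H548.BL (rv cv Inc inc_iff_rv rc norm_rc)

/-- The matrix with rows `u Pᵏ`. -/
def KR {R : Type*} [CommRing R] {N : ℕ} (P : Matrix (Fin N) (Fin N) R) (u : Fin N → R) :
    Matrix (Fin N) (Fin N) R := of fun k => u ᵥ* P ^ (k : ℕ)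

/-- The same determinant, with rows `(u P - a u) Pᵏ`. -/
theorem det_KR {R : Type*} [CommRing R] {n : ℕ} (P : Matrix (Fin (n + 1)) (Fin (n + 1)) R)
    (u : Fin (n + 1) → R) (a : R) :
    (KR P u).det = (of (Fin.cons u fun k : Fin n => (u ᵥ* P - a • u) ᵥ* P ^ (k : ℕ)) :
      Matrix (Fin (n + 1)) (Fin (n + 1)) R).det := by
  apply det_eq_of_forall_row_eq_smul_add_pred (fun _ => a)
  · intro j
    simp [KR]
  · intro i j
    simp only [KR, of_apply, Fin.cons_succ, Fin.val_succ, Fin.val_castSucc, sub_vecMul,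
      smul_vecMul, vecMul_vecMul, Pi.sub_apply, Pi.smul_apply, smul_eq_mul, pow_succ']
    ring

theorem pow_dvd_det {n : ℕ} (e : ℤ) (A : Matrix (Fin (n + 1)) (Fin (n + 1)) ℤ)
    (h : ∀ (k : Fin n) j, e ∣ A k.succ j) : e ^ n ∣ A.det := by
  choose B hB using h
  set A' : Matrix (Fin (n + 1)) (Fin (n + 1)) ℤ := of (Fin.cons (A 0) B) with hA'
  have h1 : A = diagonal (Fin.cons 1 fun _ : Fin n => e) * A' := by
    ext i j
    rw [diagonal_mul]
    refine Fin.cases ?_ (fun k => ?_) i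
    · simp [hA']
    · simp [hA', hB]
  rw [h1, det_mul, det_diagonal, Fin.prod_univ_succ]
  simp

theorem pow_dvd_KR {n : ℕ} (P : Matrix (Fin (n + 1)) (Fin (n + 1)) ℤ) (u : Fin (n + 1) → ℤ)
    (b e : ℤ) (h : ∀ k, e ∣ (u ᵥ* P) k - b * u k) : e ^ n ∣ (KR P u).det := by
  rw [det_KR P u b]
  apply pow_dvd_det
  intro k j
  simp only [of_apply, Fin.cons_succ]
  change e ∣ ∑ l, (u ᵥ* P - b • u) l * (P ^ (k : ℕ)) l j
  exact Finset.dvd_sum fun l _ => Dvd.dvd.mul_right (h l) _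

/-- Irreducibility of the characteristic polynomial: the norm form has no zeros. -/
theorem KR_ne_zero {N : ℕ} (P : Matrix (Fin N) (Fin N) ℤ)
    (hirr : Irreducible (P.charpoly.map (Int.castRingHom ℚ))) {u : Fin N → ℤ} (hu : u ≠ 0) :
    (KR P u).det ≠ 0 := by
  intro h
  set PQ : Matrix (Fin N) (Fin N) ℚ := P.map (Int.castRingHom ℚ) with hPQ
  set uQ : Fin N → ℚ := fun i => (u i : ℚ) with huQ
  have hf : PQ.charpoly = P.charpoly.map (Int.castRingHom ℚ) := charpoly_map _ _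
  have h1 : (KR PQ uQ).det = 0 := by
    have h2 : KR PQ uQ = (KR P u).map (Int.castRingHom ℚ) := by
      ext i j
      simp only [KR, of_apply, Matrix.map_apply, hPQ, ← Matrix.map_pow]
      simp only [vecMul, dotProduct, Matrix.map_apply, map_sum, map_mul, huQ, eq_intCast]
    rw [h2, ← RingHom.mapMatrix_apply, ← RingHom.map_det, h, map_zero]
  obtain ⟨c, hc0, hc⟩ := Matrix.exists_vecMul_eq_zero_iff.2 h1
  set p : ℚ[X] := ∑ k : Fin N, C (c k) * X ^ (k : ℕ) with hp
  have hcoeff : ∀ k : Fin N, p.coeff k = c k := by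
    intro k
    rw [hp, finsetSum_coeff]
    simp only [coeff_C_mul, coeff_X_pow]
    rw [Finset.sum_eq_single k]
    · simp
    · intro l _ hlk
      have : (k : ℕ) ≠ l := fun h => hlk (Fin.ext h.symm)
      simp [this]
    · simp
  have hp0 : p ≠ 0 := by
    intro h0
    apply hc0
    funext k
    rw [← hcoeff k, h0]
    simp
  have hdeg : p.degree < N := degree_sum_fin_lt c
  have hev : uQ ᵥ* (aeval PQ p) = 0 := by
    rw [hp, map_sum]
    rw [← hc]
    funext j
    simp only [vecMul, dotProduct, KR, of_apply, Matrix.sum_apply]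
    simp only [Finset.mul_sum]
    rw [Finset.sum_comm]
    refine Finset.sum_congr rfl fun k _ => ?_
    refine Finset.sum_congr rfl fun l _ => ?_
    simp only [map_mul, aeval_C, map_pow, aeval_X, algebraMap_eq_diagonal, diagonal_mul]
    simp
    ring
  have hcop : IsCoprime p PQ.charpoly := by
    rw [hf]
    refine ((Irreducible.coprime_iff_not_dvd hirr).2 ?_).symm
    intro hdvd
    have h3 := degree_le_of_dvd hdvd hp0
    rw [← hf, charpoly_degree_eq_dim, Fintype.card_fin] at h3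
    exact absurd hdeg (not_lt.2 h3)
  obtain ⟨a, b, hab⟩ := hcop
  have h4 : uQ ᵥ* (aeval PQ (a * p + b * PQ.charpoly)) = 0 := by
    rw [mul_comm a p, map_add, map_mul, map_mul, aeval_self_charpoly, mul_zero, add_zero,
      ← vecMul_vecMul, hev, zero_vecMul]
  rw [hab, map_one, vecMul_one] at h4
  apply hu
  funext i
  have := congrFun h4 i
  simp only [huQ, Pi.zero_apply] at this
  exact_mod_cast this

/-- A uniform bound for a real linear map. -/
theorem exists_vecMul_le {m n : ℕ} (A : Matrix (Fin m) (Fin n) ℝ) :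
    ∃ c : ℝ, 1 ≤ c ∧ ∀ x : Fin m → ℝ, ‖x ᵥ* A‖ ≤ c * ‖x‖ := by
  let f : (Fin m → ℝ) →L[ℝ] (Fin n → ℝ) := LinearMap.toContinuousLinearMap (vecMulLinear A)
  refine ⟨max 1 ‖f‖, le_max_left _ _, fun x => ?_⟩
  calc ‖x ᵥ* A‖ = ‖f x‖ := rfl
    _ ≤ ‖f‖ * ‖x‖ := f.le_opNorm x
    _ ≤ max 1 ‖f‖ * ‖x‖ := by
      gcongr
      exact le_max_right _ _

/-- Real upper bound for the norm form. -/
theorem KR_le {n : ℕ} (P : Matrix (Fin (n + 1)) (Fin (n + 1)) ℝ) : ∃ c : ℝ, 1 ≤ c ∧
    ∀ (u : Fin (n + 1) → ℝ) (a δ : ℝ), ‖u ᵥ* P - a • u‖ ≤ δ →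
      |(KR P u).det| ≤ c * ‖u‖ * δ ^ n := by
  obtain ⟨c, hc1, hc⟩ := exists_vecMul_le P
  refine ⟨(n + 1).factorial * (c ^ n) ^ n, ?_, ?_⟩
  · have h1 : (1 : ℝ) ≤ (n + 1).factorial := by exact_mod_cast Nat.factorial_pos _
    have h2 : (1 : ℝ) ≤ (c ^ n) ^ n := one_le_pow₀ (one_le_pow₀ hc1)
    nlinarith
  · intro u a δ h
    have hδ : 0 ≤ δ := (norm_nonneg _).trans h
    have hpow : ∀ (k : ℕ) (w : Fin (n + 1) → ℝ), ‖w ᵥ* P ^ k‖ ≤ c ^ k * ‖w‖ := by
      intro k
      induction k with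
      | zero =>
        intro w
        simp
      | succ k ih =>
        intro w
        rw [pow_succ, ← vecMul_vecMul]
        calc ‖(w ᵥ* P ^ k) ᵥ* P‖ ≤ c * ‖w ᵥ* P ^ k‖ := hc _
          _ ≤ c * (c ^ k * ‖w‖) := by
            gcongr
            exact ih w
          _ = c ^ (k + 1) * ‖w‖ := by ring
    rw [det_KR P u a]
    have h1 := abs_det_le (of (Fin.cons u fun k : Fin n => (u ᵥ* P - a • u) ᵥ* P ^ (k : ℕ)) :
      Matrix (Fin (n + 1)) (Fin (n + 1)) ℝ) (Fin.cons ‖u‖ fun _ => c ^ n * δ) (by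
      intro i j
      refine Fin.cases ?_ (fun k => ?_) i
      · simp only [of_apply, Fin.cons_zero]
        exact norm_le_pi_norm u j
      · simp only [of_apply, Fin.cons_succ]
        refine (norm_le_pi_norm ((u ᵥ* P - a • u) ᵥ* P ^ (k : ℕ)) j).trans ?_
        refine (hpow _ _).trans ?_
        have : c ^ (k : ℕ) ≤ c ^ n := pow_le_pow_right₀ hc1 k.2.le
        gcongr)
    refine h1.trans (le_of_eq ?_)
    rw [Fin.prod_univ_succ]
    simp only [Fin.cons_zero, Fin.cons_succ, Finset.prod_const, Finset.card_univ,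
      Fintype.card_fin]
    rw [mul_pow]
    ring

end Pool.Agent.N852
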