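import Mathlib
import Pool.Agent.N852.Kry

/-!
Approximate eigenvectors with close approximate eigenvalues are nearly parallel.
-/

namespace Pool.Agent.N852

open Matrix Module Polynomial
open Pool.Agent.H548.BL (rv cv Inc inc_iff_rv rc norm_rc)

theorem exists_abs_eq_norm {N : ℕ} (hN : 0 < N) (u : Fin N → ℝ) : ∃ l, |u l| = ‖u‖ := by
  have : Nonempty (Fin N) := ⟨⟨0, hN⟩⟩
  obtain ⟨l, hl⟩ := Finite.exists_max (fun l => |u l|)
  refine ⟨l, le_antisymm (norm_le_pi_norm u l) ?_⟩
  exact (pi_norm_le_iff_of_nonneg (abs_nonneg _)).2 hl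

theorem two_rows_bound {N : ℕ} (A : Matrix (Fin N) (Fin N) ℝ) (E W : ℝ) (hE : 1 ≤ E)
    (hA : ∀ i j, |A i j| ≤ E) {i j : Fin N} (hij : i ≠ j) (a b : Fin N → ℝ) (hW : 0 ≤ W)
    (h : ∀ k l, |a k * b l - a l * b k| ≤ W) :
    |((A.updateRow i a).updateRow j b).det| ≤ N.factorial * E ^ N * W := by
  have hN : 0 < N := i.pos
  by_cases ha : a = 0
  · have h0 : ((A.updateRow i a).updateRow j b).det = 0 := by
      apply det_eq_zero_of_row_eq_zero i
      intro k
      rw [updateRow_ne hij, updateRow_self, ha]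
      rfl
    rw [h0, abs_zero]
    positivity
  obtain ⟨k, hk⟩ := exists_abs_eq_norm hN a
  have hna : 0 < ‖a‖ := norm_pos_iff.2 ha
  have hak : a k ≠ 0 := by
    intro h0
    rw [h0, abs_zero] at hk
    exact hna.ne hk
  set c : ℝ := -(b k / a k) with hc
  have h1 : ((A.updateRow i a).updateRow j b).det =
      ((A.updateRow i a).updateRow j (b + c • a)).det := by
    have h2 := det_updateRow_add_smul_self ((A.updateRow i a).updateRow j b) (i := j) (j := i)
      hij.symm c
    rw [← h2]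
    congr 1
    ext p q
    by_cases hp : p = j
    · subst hp
      simp [updateRow_self, updateRow_ne hij]
    · simp [updateRow_ne hp]
  rw [h1]
  set r : Fin N → ℝ := fun p => if p = i then ‖a‖ else if p = j then W / ‖a‖ else E with hr
  refine (abs_det_le _ r ?_).trans ?_
  · intro p q
    by_cases hp : p = j
    · subst hp
      rw [updateRow_self]
      have h3 : r p = W / ‖a‖ := by simp [hr, hij.symm]
      rw [h3, le_div_iff₀ hna, ← hk, ← abs_mul]
      have h4 : (b + c • a) q * a k = a k * b q - a q * b k := by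
        simp only [Pi.add_apply, Pi.smul_apply, smul_eq_mul, hc]
        field_simp
        ring
      rw [h4]
      exact h k q
    · rw [updateRow_ne hp]
      by_cases hp2 : p = i
      · subst hp2
        rw [updateRow_self]
        have h3 : r p = ‖a‖ := by simp [hr]
        rw [h3]
        exact norm_le_pi_norm a q
      · rw [updateRow_ne hp2]
        have h3 : r p = E := by simp [hr, hp, hp2]
        rw [h3]
        exact hA p q
  · rw [Fintype.card_fin, mul_assoc]
    apply mul_le_mul_of_nonneg_left _ (by positivity)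
    rw [← Finset.mul_prod_erase Finset.univ r (Finset.mem_univ i),
      ← Finset.mul_prod_erase (Finset.univ.erase i) r
        (Finset.mem_erase.2 ⟨hij.symm, Finset.mem_univ j⟩)]
    have h3 : r i = ‖a‖ := by simp [hr]
    have h4 : r j = W / ‖a‖ := by simp [hr, hij.symm]
    have h5 : ∏ x ∈ (Finset.univ.erase i).erase j, r x ≤ E ^ N := by
      calc ∏ x ∈ (Finset.univ.erase i).erase j, r x
          = ∏ x ∈ (Finset.univ.erase i).erase j, E := by
            refine Finset.prod_congr rfl fun x hx => ?_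
            rw [Finset.mem_erase, Finset.mem_erase] at hx
            simp [hr, hx.1, hx.2.1]
        _ = E ^ ((Finset.univ.erase i).erase j).card := Finset.prod_const _
        _ ≤ E ^ N := by
            apply pow_le_pow_right₀ hE
            calc ((Finset.univ.erase i).erase j).card ≤ (Finset.univ : Finset (Fin N)).card :=
                  Finset.card_le_card ((Finset.erase_subset _ _).trans (Finset.erase_subset _ _))
              _ = N := by simp
    rw [h3, h4, ← mul_assoc, mul_div_cancel₀ _ hna.ne', mul_comm]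
    exact mul_le_mul_of_nonneg_right h5 hW

/-- Uniform bounds on a compact interval of parameters. -/
theorem unif_bounds {N : ℕ} (P : Matrix (Fin N) (Fin N) ℝ) (A B : ℝ[X]) (c : ℝ) :
    ∃ K : ℝ, 1 ≤ K ∧ ∀ t : ℝ, |t| ≤ c →
      (∀ i j, |(scalar (Fin N) t - P) i j| ≤ K) ∧
      (∀ i j, |(scalar (Fin N) t - P).adjugate i j| ≤ K) ∧ |A.eval t| ≤ K ∧ |B.eval t| ≤ K := by
  have hcont1 : Continuous fun t : ℝ => (scalar (Fin N) t - P) := by
    refine Continuous.sub ?_ continuous_const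
    refine continuous_matrix fun i j => ?_
    simp only [scalar_apply, diagonal_apply]
    split_ifs
    · exact continuous_id
    · exact continuous_const
  have hcont2 : Continuous fun t : ℝ => (scalar (Fin N) t - P).adjugate :=
    hcont1.matrix_adjugate
  have hc : Continuous fun t : ℝ => (∑ i, ∑ j, |(scalar (Fin N) t - P) i j|) +
      (∑ i, ∑ j, |(scalar (Fin N) t - P).adjugate i j|) + |A.eval t| + |B.eval t| := by
    refine ((Continuous.add ?_ ?_).add A.continuous.abs).add B.continuous.abs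
    · exact continuous_finsetSum _ fun i _ => continuous_finsetSum _ fun j _ =>
        (hcont1.matrix_elem i j).abs
    · exact continuous_finsetSum _ fun i _ => continuous_finsetSum _ fun j _ =>
        (hcont2.matrix_elem i j).abs
  obtain ⟨K, hK⟩ := (isCompact_Icc (a := -c) (b := c)).exists_bound_of_continuousOn
    hc.continuousOn
  refine ⟨max 1 K, le_max_left _ _, fun t ht => ?_⟩
  have h1 := hK t (abs_le.1 ht)
  rw [Real.norm_eq_abs] at h1
  have hn1 : ∀ i j, |(scalar (Fin N) t - P) i j| ≤ ∑ i, ∑ j, |(scalar (Fin N) t - P) i j| := by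
    intro i j
    refine le_trans ?_ (Finset.single_le_sum (f := fun i => ∑ j, |(scalar (Fin N) t - P) i j|)
      (fun i _ => Finset.sum_nonneg fun j _ => abs_nonneg _) (Finset.mem_univ i))
    exact Finset.single_le_sum (f := fun j => |(scalar (Fin N) t - P) i j|)
      (fun j _ => abs_nonneg _) (Finset.mem_univ j)
  have hn2 : ∀ i j, |(scalar (Fin N) t - P).adjugate i j| ≤
      ∑ i, ∑ j, |(scalar (Fin N) t - P).adjugate i j| := by
    intro i j
    refine le_trans ?_ (Finset.single_le_sum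
      (f := fun i => ∑ j, |(scalar (Fin N) t - P).adjugate i j|)
      (fun i _ => Finset.sum_nonneg fun j _ => abs_nonneg _) (Finset.mem_univ i))
    exact Finset.single_le_sum (f := fun j => |(scalar (Fin N) t - P).adjugate i j|)
      (fun j _ => abs_nonneg _) (Finset.mem_univ j)
  have hp1 : 0 ≤ ∑ i, ∑ j, |(scalar (Fin N) t - P) i j| :=
    Finset.sum_nonneg fun i _ => Finset.sum_nonneg fun j _ => abs_nonneg _
  have hp2 : 0 ≤ ∑ i, ∑ j, |(scalar (Fin N) t - P).adjugate i j| :=
    Finset.sum_nonneg fun i _ => Finset.sum_nonneg fun j _ => abs_nonneg _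
  have hp3 := abs_nonneg (A.eval t)
  have hp4 := abs_nonneg (B.eval t)
  rw [abs_of_nonneg (by linarith)] at h1
  have h2 : K ≤ max 1 K := le_max_right _ _
  refine ⟨fun i j => ?_, fun i j => ?_, ?_, ?_⟩
  · have := hn1 i j
    linarith
  · have := hn2 i j
    linarith
  · linarith
  · linarith

theorem vecMul_entry_le {N : ℕ} (A : Matrix (Fin N) (Fin N) ℝ) (K : ℝ) (hK : 0 ≤ K)
    (hA : ∀ i j, |A i j| ≤ K) (v : Fin N → ℝ) : ‖v ᵥ* A‖ ≤ N * K * ‖v‖ := by
  rw [pi_norm_le_iff_of_nonneg (by positivity)]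
  intro j
  rw [Real.norm_eq_abs]
  change |∑ i, v i * A i j| ≤ _
  refine (Finset.abs_sum_le_sum_abs _ _).trans ?_
  calc ∑ i, |v i * A i j| ≤ ∑ _i : Fin N, ‖v‖ * K := by
        refine Finset.sum_le_sum fun i _ => ?_
        rw [abs_mul]
        exact mul_le_mul (norm_le_pi_norm v i) (hA i j) (abs_nonneg _) (norm_nonneg _)
    _ = N * K * ‖v‖ := by
        rw [Finset.sum_const, Finset.card_univ, Fintype.card_fin, nsmul_eq_mul]
        ring

theorem minor_eval {N : ℕ} (P : Matrix (Fin N) (Fin N) ℝ) (u w : Fin N → ℝ) (t : ℝ) {i j : Fin N}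
    (hij : i ≠ j) : (u i * w j - u j * w i) * P.charpoly.eval t =
      (((scalar (Fin N) t - P).updateRow i (u ᵥ* (scalar (Fin N) t - P))).updateRow j
        (w ᵥ* (scalar (Fin N) t - P))).det := by
  rw [← det_two_rows u w hij, eval_charpoly, ← det_mul, two_rows_mul]

theorem vecMul_scalar_sub {N : ℕ} (P : Matrix (Fin N) (Fin N) ℝ) (u : Fin N → ℝ) (t : ℝ) :
    u ᵥ* (scalar (Fin N) t - P) = t • u - u ᵥ* P := by
  rw [vecMul_sub]
  congr 1
  ext k
  simp [mul_comm]

/-- **The tube lemma.** -/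
theorem tube {N : ℕ} (P : Matrix (Fin N) (Fin N) ℝ) (A B : ℝ[X]) (Δ : ℝ) (hΔ0 : Δ ≠ 0)
    (hΔ : A * P.charpoly + B * P.charpoly.derivative = C Δ) (c κ : ℝ) (hc : 0 ≤ c)
    (hκ : 1 ≤ κ) : ∃ θ δ K : ℝ, 0 < θ ∧ 0 < δ ∧ 0 < K ∧
    ∀ (u w : Fin N → ℝ) (α α' U ε : ℝ), 0 < U → ‖u‖ ≤ U → ‖w‖ ≤ U → U ≤ κ * ‖u‖ → |α| ≤ c →
      ‖u ᵥ* P - α • u‖ ≤ ε → ‖w ᵥ* P - α' • w‖ ≤ ε → ε ≤ θ * U → |α - α'| ≤ δ →
      ∀ i j, |u i * w j - u j * w i| ≤ K * U * ε := by
  obtain ⟨K₁, hK1, hK⟩ := unif_bounds P A B (c + 1)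
  set f := P.charpoly with hf
  have hK0 : 0 < K₁ := by linarith
  have hΔp : 0 < |Δ| := abs_pos.2 hΔ0
  set c₄ : ℝ := |Δ| / (2 * K₁) with hc4
  have hc4p : 0 < c₄ := by positivity
  have huc : UniformContinuousOn (fun t : ℝ => f.derivative.eval t) (Set.Icc (-(c + 1)) (c + 1)) :=
    isCompact_Icc.uniformContinuousOn_of_continuous f.derivative.continuous.continuousOn
  rw [Metric.uniformContinuousOn_iff] at huc
  obtain ⟨δ₁, hδ1, huc⟩ := huc (c₄ / 2) (by positivity)
  set C₇ : ℝ := N.factorial * K₁ ^ N with hC7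
  have hC7p : 0 < C₇ := by positivity
  set τ : ℝ := min (min 1 (δ₁ / 2)) (c₄ / (16 * C₇)) with hτ
  have hτp : 0 < τ := by positivity
  have hτ1 : τ ≤ 1 := (min_le_left _ _).trans (min_le_left _ _)
  have hτ2 : τ ≤ δ₁ / 2 := (min_le_left _ _).trans (min_le_right _ _)
  have hτ3 : τ ≤ c₄ / (16 * C₇) := min_le_right _ _
  have hτ4 : 16 * C₇ * τ ≤ c₄ := by
    rw [le_div_iff₀ (by positivity)] at hτ3
    linarith
  set θ : ℝ := min 1 (τ * c₄ / (4 * (N * K₁ * κ + 1))) with hθ
  have hθp : 0 < θ := by positivity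
  refine ⟨θ, τ, 64 * C₇ / (τ * c₄), hθp, hτp, by positivity, ?_⟩
  intro u w α α' U ε hU huU hwU hUu hα hue hwe hεθ hαα
  have hε0 : 0 ≤ ε := (norm_nonneg _).trans hue
  have hεU : ε ≤ U := by
    have : θ ≤ 1 := min_le_left _ _
    nlinarith
  -- `f α` is small
  have hKα := hK α (by linarith)
  have h1 : |f.eval α| * ‖u‖ ≤ N * K₁ * ε := by
    have h2 : (u ᵥ* (scalar (Fin N) α - P)) ᵥ* (scalar (Fin N) α - P).adjugate =
        (f.eval α) • u := by
      rw [vecMul_vecMul, mul_adjugate, hf, eval_charpoly, vecMul_smul, vecMul_one]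
    have h3 : ‖(f.eval α) • u‖ ≤ N * K₁ * ‖u ᵥ* (scalar (Fin N) α - P)‖ := by
      rw [← h2]
      exact vecMul_entry_le _ K₁ hK0.le hKα.2.1 _
    rw [norm_smul, Real.norm_eq_abs] at h3
    refine h3.trans ?_
    rw [vecMul_scalar_sub, norm_sub_rev]
    gcongr
  have h2 : |f.eval α| ≤ τ * c₄ / 4 := by
    have h3 : |f.eval α| * U ≤ (N * K₁ * κ) * (θ * U) := by
      calc |f.eval α| * U ≤ |f.eval α| * (κ * ‖u‖) := by gcongr
        _ = κ * (|f.eval α| * ‖u‖) := by ring
        _ ≤ κ * (N * K₁ * ε) := by gcongr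
        _ ≤ κ * (N * K₁ * (θ * U)) := by gcongr
        _ = (N * K₁ * κ) * (θ * U) := by ring
    have h4 : |f.eval α| ≤ (N * K₁ * κ) * θ := by
      have : |f.eval α| * U ≤ ((N * K₁ * κ) * θ) * U := by linarith
      exact le_of_mul_le_mul_right this hU
    have h5 : θ ≤ τ * c₄ / (4 * (N * K₁ * κ + 1)) := min_le_right _ _
    rw [le_div_iff₀ (by positivity)] at h5
    nlinarith
  have h3 : c₄ ≤ |f.derivative.eval α| := by
    have h4 : A.eval α * f.eval α + B.eval α * f.derivative.eval α = Δ := by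
      have := congrArg (fun p => p.eval α) hΔ
      simpa using this
    have h5 : |Δ| ≤ K₁ * |f.eval α| + K₁ * |f.derivative.eval α| := by
      rw [← h4]
      refine (abs_add_le _ _).trans ?_
      rw [abs_mul, abs_mul]
      have := hKα.2.2.1
      have := hKα.2.2.2
      gcongr
    have h6 : |f.eval α| ≤ c₄ := by nlinarith
    have h7 : K₁ * c₄ = |Δ| / 2 := by
      rw [hc4]
      field_simp
    have h8 : K₁ * c₄ ≤ K₁ * |f.derivative.eval α| := by nlinarith
    exact le_of_mul_le_mul_left h8 hK0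
  have h4 : τ * c₄ / 4 ≤ |f.eval (α + τ)| := by
    obtain ⟨ξ, hξ, hξ2⟩ := exists_deriv_eq_slope (fun t => f.eval t) (a := α) (b := α + τ)
      (by linarith) f.continuous.continuousOn f.differentiable.differentiableOn
    rw [Polynomial.deriv] at hξ2
    have h5 : f.eval (α + τ) - f.eval α = τ * f.derivative.eval ξ := by
      rw [hξ2, add_sub_cancel_left, mul_div_cancel₀ _ hτp.ne']
    have hαI := abs_le.1 hα
    have h6 : |f.derivative.eval ξ - f.derivative.eval α| < c₄ / 2 := by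
      have := huc ξ ⟨by linarith [hξ.1, hαI.1], by linarith [hξ.2, hαI.2]⟩ α
        ⟨by linarith [hαI.1], by linarith [hαI.2]⟩ (by
          rw [Real.dist_eq, abs_lt]
          constructor <;> linarith [hξ.1, hξ.2])
      rwa [Real.dist_eq] at this
    have h7 : c₄ / 2 ≤ |f.derivative.eval ξ| := by
      have := abs_sub_abs_le_abs_sub (f.derivative.eval α) (f.derivative.eval ξ)
      rw [abs_sub_comm] at this
      linarith
    have h8 : τ * (c₄ / 2) ≤ |f.eval (α + τ) - f.eval α| := by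
      rw [h5, abs_mul, abs_of_pos hτp]
      gcongr
    have h9 : |f.eval (α + τ) - f.eval α| ≤ |f.eval (α + τ)| + |f.eval α| := abs_sub _ _
    linarith
  -- the maximal minor
  intro i₀ j₀
  have : Nonempty (Fin N × Fin N) := ⟨(i₀, j₀)⟩
  obtain ⟨⟨i, j⟩, hmax⟩ := Finite.exists_max (fun p : Fin N × Fin N =>
    |u p.1 * w p.2 - u p.2 * w p.1|)
  refine (hmax (i₀, j₀)).trans ?_
  simp only
  set W := |u i * w j - u j * w i| with hW
  by_cases hij : i = j
  · have : W = 0 := by
      rw [hW, hij]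
      simp
    rw [this]
    positivity
  have hWm : ∀ k l, |u k * w l - u l * w k| ≤ W := fun k l => hmax (k, l)
  have hW0 : 0 ≤ W := abs_nonneg _
  have hKt := hK (α + τ) (by
    refine (abs_add_le _ _).trans ?_
    rw [abs_of_pos hτp]
    linarith)
  set a : Fin N → ℝ := u ᵥ* (scalar (Fin N) (α + τ) - P) with ha
  set b : Fin N → ℝ := w ᵥ* (scalar (Fin N) (α + τ) - P) with hb
  set ε₁ : Fin N → ℝ := α • u - u ᵥ* P with hε1
  set ε₂ : Fin N → ℝ := α' • w - w ᵥ* P with hε2
  set τ₁ : ℝ := τ + (α - α') with hτ1'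
  have hτ1b : |τ₁| ≤ 2 * τ := by
    rw [hτ1']
    refine (abs_add_le _ _).trans ?_
    rw [abs_of_pos hτp]
    linarith
  have hak : ∀ k, a k = τ * u k + ε₁ k := by
    intro k
    rw [ha, vecMul_scalar_sub, hε1]
    simp only [Pi.sub_apply, Pi.smul_apply, smul_eq_mul]
    ring
  have hbk : ∀ k, b k = τ₁ * w k + ε₂ k := by
    intro k
    rw [hb, vecMul_scalar_sub, hε2, hτ1']
    simp only [Pi.sub_apply, Pi.smul_apply, smul_eq_mul]
    ring
  have he1 : ∀ k, |ε₁ k| ≤ ε := by
    intro k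
    refine le_trans ?_ hue
    rw [norm_sub_rev]
    exact norm_le_pi_norm ε₁ k
  have he2 : ∀ k, |ε₂ k| ≤ ε := by
    intro k
    refine le_trans ?_ hwe
    rw [norm_sub_rev]
    exact norm_le_pi_norm ε₂ k
  have huk : ∀ k, |u k| ≤ U := fun k => (norm_le_pi_norm u k).trans huU
  have hwk : ∀ k, |w k| ≤ U := fun k => (norm_le_pi_norm w k).trans hwU
  have hmin : ∀ k l, |a k * b l - a l * b k| ≤ 2 * τ ^ 2 * W + 6 * τ * (U * ε) + 2 * (U * ε) := by
    intro k l
    have h5 : a k * b l - a l * b k = τ * τ₁ * (u k * w l - u l * w k) +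
        τ * (u k * ε₂ l - u l * ε₂ k) + τ₁ * (ε₁ k * w l - ε₁ l * w k) +
        (ε₁ k * ε₂ l - ε₁ l * ε₂ k) := by
      rw [hak, hak, hbk, hbk]
      ring
    have h6 : |τ * τ₁ * (u k * w l - u l * w k)| ≤ 2 * τ ^ 2 * W := by
      rw [abs_mul, abs_mul, abs_of_pos hτp]
      calc τ * |τ₁| * |u k * w l - u l * w k| ≤ τ * (2 * τ) * W := by
            gcongr
            exact hWm k l
        _ = 2 * τ ^ 2 * W := by ring
    have h7 : |τ * (u k * ε₂ l - u l * ε₂ k)| ≤ τ * (2 * (U * ε)) := by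
      rw [abs_mul, abs_of_pos hτp]
      gcongr
      refine (abs_sub _ _).trans ?_
      rw [abs_mul, abs_mul]
      have := mul_le_mul (huk k) (he2 l) (abs_nonneg _) hU.le
      have := mul_le_mul (huk l) (he2 k) (abs_nonneg _) hU.le
      linarith
    have h8 : |τ₁ * (ε₁ k * w l - ε₁ l * w k)| ≤ (2 * τ) * (2 * (U * ε)) := by
      rw [abs_mul]
      gcongr
      refine (abs_sub _ _).trans ?_
      rw [abs_mul, abs_mul]
      have := mul_le_mul (he1 k) (hwk l) (abs_nonneg _) hε0
      have := mul_le_mul (he1 l) (hwk k) (abs_nonneg _) hε0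
      linarith
    have h9 : |ε₁ k * ε₂ l - ε₁ l * ε₂ k| ≤ 2 * (U * ε) := by
      refine (abs_sub _ _).trans ?_
      rw [abs_mul, abs_mul]
      have h10 := mul_le_mul (he1 k) (he2 l) (abs_nonneg _) hε0
      have h11 := mul_le_mul (he1 l) (he2 k) (abs_nonneg _) hε0
      have h12 : ε * ε ≤ U * ε := mul_le_mul_of_nonneg_right hεU hε0
      linarith
    rw [h5]
    refine (abs_add_le _ _).trans ?_
    refine (add_le_add (abs_add_le _ _) le_rfl).trans ?_
    refine (add_le_add (add_le_add (abs_add_le _ _) le_rfl) le_rfl).trans ?_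
    linarith
  have h5 := two_rows_bound _ K₁ _ hK1 hKt.1 hij a b (by positivity) hmin
  rw [ha, hb, ← minor_eval P u w (α + τ) hij, abs_mul] at h5
  have h6 : W * (τ * c₄ / 4) ≤ C₇ * (2 * τ ^ 2 * W + 6 * τ * (U * ε) + 2 * (U * ε)) := by
    refine le_trans ?_ h5
    gcongr
  have h7 : C₇ * (2 * τ ^ 2 * W) ≤ W * (τ * c₄ / 8) := by
    have : C₇ * (2 * τ ^ 2 * W) = (16 * C₇ * τ) * (τ * W) / 8 := by ring
    rw [this]
    have : (16 * C₇ * τ) * (τ * W) ≤ c₄ * (τ * W) :=
      mul_le_mul_of_nonneg_right hτ4 (by positivity)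
    linarith
  have h8 : W * (τ * c₄ / 8) ≤ C₇ * (8 * (U * ε)) := by
    have h9 : 6 * τ * (U * ε) ≤ 6 * (U * ε) := by
      have : 0 ≤ U * ε := by positivity
      nlinarith
    have h10 : C₇ * (6 * τ * (U * ε)) ≤ C₇ * (6 * (U * ε)) :=
      mul_le_mul_of_nonneg_left h9 hC7p.le
    linarith
  rw [show 64 * C₇ / (τ * c₄) * U * ε = C₇ * (8 * (U * ε)) / (τ * c₄ / 8) by
    field_simp
    ring]
  rw [le_div_iff₀ (by positivity)]
  exact h8

end Pool.Agent.N852
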