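import Mathlib
import Pool.Agent.N852.Tube

/-!
Counting primitive vectors in an arithmetic-archimedean cell.
-/

namespace Pool.Agent.N852

open Matrix Module Polynomial
open Pool.Agent.H548.WM (ht bx le_ht le_ht' ht_le exists_ht mem_bx card_bx ht_pos)
open Pool.Agent.H548.BL (rv cv Inc inc_iff_rv rc norm_rc)

/-- The standing hypotheses on the pencil. -/
structure Nice {N : ℕ} (M : Fin 2 → Matrix (Fin N) (Fin N) ℤ) : Prop where
  four : 4 ≤ N
  det : (M 0).det ≠ 0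
  irr : Irreducible ((PM M).charpoly.map (Int.castRingHom ℚ))

/-- Clearing denominators. -/
theorem exists_int_poly (p : ℚ[X]) : ∃ (d : ℤ) (q : ℤ[X]), d ≠ 0 ∧
    q.map (Int.castRingHom ℚ) = C (d : ℚ) * p := by
  obtain ⟨b, hb0, hb⟩ := IsLocalization.integerNormalization_spec (nonZeroDivisors ℤ) (S := ℚ) p
  refine ⟨b, IsLocalization.integerNormalization (nonZeroDivisors ℤ) p,
    nonZeroDivisors.ne_zero hb0, ?_⟩
  have h1 : (IsLocalization.integerNormalization (nonZeroDivisors ℤ) p).map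
      (Int.castRingHom ℚ) = (b : ℤ) • p := hb
  rw [h1]
  ext n
  simp

theorem bezout {f : ℤ[X]} (hirr : Irreducible (f.map (Int.castRingHom ℚ))) :
    ∃ (A B : ℤ[X]) (Δ : ℤ), Δ ≠ 0 ∧ A * f + B * f.derivative = C Δ := by
  have hsep : (f.map (Int.castRingHom ℚ)).Separable := hirr.separable
  obtain ⟨a, b, hab⟩ := hsep
  obtain ⟨d, A, hd, hA⟩ := exists_int_poly a
  obtain ⟨d', B, hd', hB⟩ := exists_int_poly b
  refine ⟨C d' * A, C d * B, d * d', mul_ne_zero hd hd', ?_⟩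
  apply Polynomial.map_injective (Int.castRingHom ℚ) Int.cast_injective
  have e1 : ∀ d : ℤ, (C d : ℤ[X]).map (Int.castRingHom ℚ) = C (d : ℚ) := by
    intro d
    rw [Polynomial.map_C]
    rfl
  rw [Polynomial.map_add, Polynomial.map_mul, Polynomial.map_mul, Polynomial.map_mul,
    Polynomial.map_mul, e1, e1, e1, hA, hB, ← Polynomial.derivative_map]
  have h2 : C (d' : ℚ) * (C (d : ℚ) * a) * f.map (Int.castRingHom ℚ) +
      C (d : ℚ) * (C (d' : ℚ) * b) * derivative (f.map (Int.castRingHom ℚ)) =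
      C (d : ℚ) * C (d' : ℚ) * (a * f.map (Int.castRingHom ℚ) +
        b * derivative (f.map (Int.castRingHom ℚ))) := by ring
  rw [h2, hab, mul_one]
  push_cast
  rw [map_mul]

/-- The real matrix. -/
noncomputable def PR {N : ℕ} (M : Fin 2 → Matrix (Fin N) (Fin N) ℤ) : Matrix (Fin N) (Fin N) ℝ :=
  (PM M).map (Int.castRingHom ℝ)

theorem rv_PR {N : ℕ} (M : Fin 2 → Matrix (Fin N) (Fin N) ℤ) (z : Fin N → ℝ) :
    rv M z 0 ᵥ* PR M = ((M 0).det : ℝ) • rv M z 1 := by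
  have h1 : PR M = ((M 0).map (Int.castRingHom ℝ)).adjugate * (M 1).map (Int.castRingHom ℝ) := by
    unfold PR PM
    rw [Matrix.map_mul]
    congr 1
    exact (RingHom.map_adjugate (Int.castRingHom ℝ) (M 0)).symm ▸ rfl
  have h2 : ((M 0).map (Int.castRingHom ℝ)).det = ((M 0).det : ℝ) :=
    (RingHom.map_det (Int.castRingHom ℝ) (M 0)).symm
  unfold rv
  change (z ᵥ* (M 0).map (Int.castRingHom ℝ)) ᵥ* PR M = _ • (z ᵥ* (M 1).map (Int.castRingHom ℝ))
  rw [h1, vecMul_vecMul, ← Matrix.mul_assoc, mul_adjugate, smul_mul, one_mul,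
    vecMul_smul, h2]

theorem rv_adjR {N : ℕ} (M : Fin 2 → Matrix (Fin N) (Fin N) ℤ) (z : Fin N → ℝ) :
    rv M z 0 ᵥ* ((M 0).map (Int.castRingHom ℝ)).adjugate = ((M 0).det : ℝ) • z := by
  have h2 : ((M 0).map (Int.castRingHom ℝ)).det = ((M 0).det : ℝ) :=
    (RingHom.map_det (Int.castRingHom ℝ) (M 0)).symm
  unfold rv
  change (z ᵥ* (M 0).map (Int.castRingHom ℝ)) ᵥ* _ = _
  rw [vecMul_vecMul, mul_adjugate, vecMul_smul, vecMul_one, h2]

theorem consts {N : ℕ} {M : Fin 2 → Matrix (Fin N) (Fin N) ℤ} (h : (M 0).det ≠ 0) :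
    ∃ c : ℝ, 1 ≤ c ∧ ∀ z : Fin N → ℝ, ‖z‖ ≤ c * ‖rv M z 0‖ ∧ ‖rv M z 0‖ ≤ c * ‖z‖ ∧
      ‖rv M z 1‖ ≤ c * ‖z‖ := by
  obtain ⟨c1, h1, hc1⟩ := exists_vecMul_le ((M 0).map (Int.castRingHom ℝ)).adjugate
  obtain ⟨c2, h2, hc2⟩ := exists_vecMul_le ((M 0).map (Int.castRingHom ℝ))
  obtain ⟨c3, h3, hc3⟩ := exists_vecMul_le ((M 1).map (Int.castRingHom ℝ))
  refine ⟨c1 + c2 + c3, by linarith, fun z => ⟨?_, ?_, ?_⟩⟩
  · have h4 := hc1 (rv M z 0)
    rw [rv_adjR, norm_smul] at h4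
    have h5 : (1 : ℝ) ≤ ‖((M 0).det : ℝ)‖ := by
      rw [Real.norm_eq_abs]
      have := Int.one_le_abs h
      exact_mod_cast this
    have h6 := norm_nonneg z
    have h7 := norm_nonneg (rv M z 0)
    nlinarith
  · have h4 : ‖rv M z 0‖ ≤ c2 * ‖z‖ := hc2 z
    have h6 := norm_nonneg z
    nlinarith
  · have h4 : ‖rv M z 1‖ ≤ c3 * ‖z‖ := hc3 z
    have h6 := norm_nonneg z
    nlinarith

/-- The approximate eigenvalue. -/
theorem exists_al {N : ℕ} (hN : 0 < N) {M : Fin 2 → Matrix (Fin N) (Fin N) ℤ}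
    (h : (M 0).det ≠ 0) : ∃ c : ℝ, 1 ≤ c ∧ ∀ z : Fin N → ℝ, z ≠ 0 → ∃ α : ℝ, |α| ≤ c ∧
      ∀ m : ℝ, (∀ i j, |mm M z i j| ≤ m) → ‖rv M z 0 ᵥ* PR M - α • rv M z 0‖ ≤ c * m / ‖z‖ := by
  obtain ⟨c, hc1, hc⟩ := consts h
  set D : ℝ := |((M 0).det : ℝ)| with hD
  have hD1 : (1 : ℝ) ≤ D := by
    have := Int.one_le_abs h
    rw [hD]
    exact_mod_cast this
  refine ⟨D * c ^ 2, by nlinarith, fun z hz => ?_⟩
  have hzn : 0 < ‖z‖ := norm_pos_iff.2 hz
  obtain ⟨h1, h2, h3⟩ := hc z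
  have hun : 0 < ‖rv M z 0‖ := by
    by_contra hcon
    have : ‖rv M z 0‖ = 0 := le_antisymm (not_lt.1 hcon) (norm_nonneg _)
    rw [this] at h1
    linarith
  obtain ⟨l, hl⟩ := exists_abs_eq_norm hN (rv M z 0)
  have hul : rv M z 0 l ≠ 0 := by
    intro h0
    rw [h0, abs_zero] at hl
    exact hun.ne hl
  refine ⟨((M 0).det : ℝ) * rv M z 1 l / rv M z 0 l, ?_, ?_⟩
  · rw [abs_div, abs_mul, hl, div_le_iff₀ hun]
    have h4 : |rv M z 1 l| ≤ ‖rv M z 1‖ := norm_le_pi_norm (rv M z 1) l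
    calc D * |rv M z 1 l| ≤ D * (c * ‖z‖) := by gcongr; exact h4.trans h3
      _ ≤ D * (c * (c * ‖rv M z 0‖)) := by gcongr
      _ = D * c ^ 2 * ‖rv M z 0‖ := by ring
  · intro m hm
    have hm0 : 0 ≤ m := (abs_nonneg _).trans (hm l l)
    rw [pi_norm_le_iff_of_nonneg (by positivity)]
    intro k
    rw [rv_PR, Real.norm_eq_abs]
    have h4 : (((M 0).det : ℝ) • rv M z 1 - (((M 0).det : ℝ) * rv M z 1 l / rv M z 0 l) •
        rv M z 0) k = ((M 0).det : ℝ) * mm M z l k / rv M z 0 l := by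
      simp only [Pi.sub_apply, Pi.smul_apply, smul_eq_mul, mm]
      field_simp
    rw [h4, abs_div, abs_mul, hl, div_le_div_iff₀ hun hzn]
    calc D * |mm M z l k| * ‖z‖ ≤ D * m * (c * ‖rv M z 0‖) := by
          gcongr
          exact hm l k
      _ ≤ D * m * (c ^ 2 * ‖rv M z 0‖) := by
          have : c ≤ c ^ 2 := by nlinarith
          gcongr
      _ = D * c ^ 2 * m * ‖rv M z 0‖ := by ring

theorem rv_rc {N : ℕ} (M : Fin 2 → Matrix (Fin N) (Fin N) ℤ) (x : Fin N → ℤ) (i : Fin 2) :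
    rv M (rc x) i = rc (rv M x i) := by
  funext j
  simp [rv, rc, vecMul, dotProduct]

theorem mm_rc {N : ℕ} (M : Fin 2 → Matrix (Fin N) (Fin N) ℤ) (x : Fin N → ℤ) (i j : Fin N) :
    mm M (rc x) i j = ((mm M x i j : ℤ) : ℝ) := by
  unfold mm
  rw [rv_rc, rv_rc]
  simp [rc]

theorem minor_back {N : ℕ} {M : Fin 2 → Matrix (Fin N) (Fin N) ℤ} (h : (M 0).det ≠ 0) :
    ∃ K : ℝ, 1 ≤ K ∧ ∀ (x z : Fin N → ℝ) (W : ℝ),
      (∀ k l, |rv M x 0 k * rv M z 0 l - rv M x 0 l * rv M z 0 k| ≤ W) →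
      ∀ i j, |x i * z j - x j * z i| ≤ K * W := by
  set A := ((M 0).map (Int.castRingHom ℝ)).adjugate with hA
  set a : ℝ := ∑ i, ∑ j, |A i j| with ha
  have ha0 : 0 ≤ a := Finset.sum_nonneg fun i _ => Finset.sum_nonneg fun j _ => abs_nonneg _
  have haij : ∀ i j, |A i j| ≤ a := by
    intro i j
    refine le_trans ?_ (Finset.single_le_sum (f := fun i => ∑ j, |A i j|)
      (fun i _ => Finset.sum_nonneg fun j _ => abs_nonneg _) (Finset.mem_univ i))
    exact Finset.single_le_sum (f := fun j => |A i j|)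
      (fun j _ => abs_nonneg _) (Finset.mem_univ j)
  refine ⟨N ^ 2 * a ^ 2 + 1, by nlinarith [mul_nonneg (sq_nonneg (N : ℝ)) (sq_nonneg a)], ?_⟩
  intro x z W hW i j
  set D : ℝ := ((M 0).det : ℝ) with hD
  have hD1 : (1 : ℝ) ≤ D ^ 2 := by
    have h1 := Int.one_le_abs h
    have h2 : (1 : ℝ) ≤ |D| := by
      rw [hD]
      exact_mod_cast h1
    rw [← sq_abs]
    nlinarith
  have hW0 : 0 ≤ W := (abs_nonneg _).trans (hW i i)
  have h5 : ∀ (x : Fin N → ℝ) i, D * x i = ∑ k, rv M x 0 k * A k i := by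
    intro x i
    have := congrFun (rv_adjR M x) i
    simp only [vecMul, dotProduct, Pi.smul_apply, smul_eq_mul] at this
    exact this.symm
  have h6 : D ^ 2 * (x i * z j - x j * z i) = ∑ k, ∑ l,
      (rv M x 0 k * rv M z 0 l - rv M x 0 l * rv M z 0 k) * (A k i * A l j) := by
    have h7 : D ^ 2 * (x i * z j - x j * z i) =
        ((D * x i) * (D * z j) - (D * x j) * (D * z i)) := by ring
    rw [h7, h5 x i, h5 z j, h5 x j, h5 z i, Finset.sum_mul_sum, mul_comm (∑ k, _) (∑ k, _),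
      Finset.sum_mul_sum, ← Finset.sum_sub_distrib]
    refine Finset.sum_congr rfl fun k _ => ?_
    rw [← Finset.sum_sub_distrib]
    refine Finset.sum_congr rfl fun l _ => ?_
    ring
  have h8 : |D ^ 2 * (x i * z j - x j * z i)| ≤ N ^ 2 * a ^ 2 * W := by
    rw [h6]
    refine (Finset.abs_sum_le_sum_abs _ _).trans ?_
    calc ∑ k, |∑ l, (rv M x 0 k * rv M z 0 l - rv M x 0 l * rv M z 0 k) * (A k i * A l j)|
        ≤ ∑ k : Fin N, ∑ l : Fin N, W * (a * a) := by
          refine Finset.sum_le_sum fun k _ => ?_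
          refine (Finset.abs_sum_le_sum_abs _ _).trans ?_
          refine Finset.sum_le_sum fun l _ => ?_
          rw [abs_mul, abs_mul]
          have := hW k l
          have := haij k i
          have := haij l j
          gcongr
      _ = N ^ 2 * a ^ 2 * W := by
          simp only [Finset.sum_const, Finset.card_univ, Fintype.card_fin, nsmul_eq_mul]
          ring
  rw [abs_mul, abs_of_nonneg (by positivity : (0 : ℝ) ≤ D ^ 2)] at h8
  have h9 : |x i * z j - x j * z i| ≤ D ^ 2 * |x i * z j - x j * z i| := by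
    have := abs_nonneg (x i * z j - x j * z i)
    nlinarith
  linarith

theorem map_bezout {N : ℕ} {M : Fin 2 → Matrix (Fin N) (Fin N) ℤ} {A B : ℤ[X]} {Δ : ℤ}
    (h : A * (PM M).charpoly + B * (PM M).charpoly.derivative = C Δ) :
    (A.map (Int.castRingHom ℝ)) * (PR M).charpoly +
      (B.map (Int.castRingHom ℝ)) * (PR M).charpoly.derivative = C (Δ : ℝ) := by
  have h1 : (PR M).charpoly = (PM M).charpoly.map (Int.castRingHom ℝ) := charpoly_map _ _
  rw [h1, derivative_map, ← Polynomial.map_mul, ← Polynomial.map_mul, ← Polynomial.map_add, h,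
    Polynomial.map_C]
  rfl

/-- **The cell lemma.** -/
theorem cell {N : ℕ} {M : Fin 2 → Matrix (Fin N) (Fin N) ℤ} (hM : Nice M) :
    ∃ K : ℝ, 1 ≤ K ∧ ∀ (S : Finset (Fin N → ℤ)) (X m : ℝ) (e : ℕ) (b : ℤ), 1 ≤ X → 0 ≤ m →
      e ≠ 0 → (e : ℤ) ∣ (M 0).det * (PM M).charpoly.eval b →
      (∀ s ∈ S, Prm s ∧ (ht s : ℝ) ≤ X ∧ X < 2 * ht s ∧ (∀ i j, |((mm M s i j : ℤ) : ℝ)| ≤ m) ∧
        ∀ k, (e : ℤ) ∣ (rv M s 0 ᵥ* PM M) k - b * rv M s 0 k) →
      (S.card : ℝ) ≤ K * X * (1 + m / (X * e)) ^ (N - 1) := by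
  have hN : 0 < N := by have := hM.four; omega
  obtain ⟨A, B, Δ, hΔ0, hΔ⟩ := bezout hM.irr
  obtain ⟨c, hc1, hc⟩ := consts hM.det
  obtain ⟨c', hc1', hal⟩ := exists_al hN hM.det
  obtain ⟨K₃, hK3, hback⟩ := minor_back hM.det
  obtain ⟨θ, δ, K₂, hθ, hδ, hK2, htube⟩ := tube (PR M) (A.map (Int.castRingHom ℝ))
    (B.map (Int.castRingHom ℝ)) (Δ : ℝ) (by exact_mod_cast hΔ0) (map_bezout hΔ) c' (2 * c ^ 2)
    (by linarith) (by nlinarith)
  choose! al hal1 hal2 using hal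
  set D₁ : ℕ := ((M 0).det ^ 3 * Δ).natAbs with hD1
  have hD1' : D₁ ≠ 0 := by
    rw [hD1, Int.natAbs_ne_zero]
    exact mul_ne_zero (pow_ne_zero _ hM.det) hΔ0
  set θ' : ℝ := θ * c / (2 * c') with hθ'
  have hθ'p : 0 < θ' := by positivity
  set K₄ : ℝ := 1 + 2 / θ' + K₃ * (2 * K₂ * c * c') with hK4
  have hK4p : 1 ≤ K₄ := by
    have : 0 ≤ 2 / θ' := by positivity
    have : 0 ≤ K₃ * (2 * K₂ * c * c') := by positivity
    linarith
  set L : ℤ := ⌈c' / δ⌉ + 1 with hL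
  have hL0 : 0 ≤ L := by
    have : 0 ≤ ⌈c' / δ⌉ := Int.ceil_nonneg (by positivity)
    omega
  set C₁ : ℝ := ((10 * D₁) ^ N * N.factorial) with hC1
  have hC1p : 0 ≤ C₁ := by positivity
  refine ⟨(2 * L + 1) * (C₁ * K₄ ^ (N - 1)) + 1, ?_, ?_⟩
  · have : (0 : ℝ) ≤ L := by exact_mod_cast hL0
    have : 0 ≤ (2 * (L : ℝ) + 1) * (C₁ * K₄ ^ (N - 1)) := by positivity
    linarith
  intro S X m e b hX hm he hf hS
  have hX0 : 0 < X := by linarith
  have he0 : (0 : ℝ) < e := by exact_mod_cast Nat.pos_of_ne_zero he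
  -- the real vector of an element of S
  have hne : ∀ s ∈ S, rc s ≠ 0 := by
    intro s hs h0
    have h1 := norm_rc s
    rw [h0, norm_zero] at h1
    have h2 := (hS s hs).2.2.1
    rw [← h1] at h2
    linarith
  have key : ∀ s ∈ S, ∀ t ∈ S, |al (rc s) - al (rc t)| ≤ δ → ∀ i j,
      |((s i * t j - s j * t i : ℤ) : ℝ)| ≤ K₄ * m := by
    intro s hs t ht hst i j
    have hsX := (hS s hs).2.1
    have htX := (hS t ht).2.1
    have hsX2 := (hS s hs).2.2.1
    have htX2 := (hS t ht).2.2.1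
    have hcast : ((s i * t j - s j * t i : ℤ) : ℝ) = rc s i * rc t j - rc s j * rc t i := by
      simp [rc]
    rw [hcast]
    rcases le_or_gt m (θ' * X ^ 2) with hcase | hcase
    · have hm1 : ∀ s ∈ S, ‖rv M (rc s) 0 ᵥ* PR M - al (rc s) • rv M (rc s) 0‖ ≤
          2 * c' * m / X := by
        intro s hs
        refine (hal2 (rc s) (hne s hs) m ?_).trans ?_
        · intro i j
          rw [mm_rc]
          exact (hS s hs).2.2.2.1 i j
        · rw [norm_rc, div_le_div_iff₀ (by linarith [(hS s hs).2.2.1]) hX0]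
          have := (hS s hs).2.2.1
          have h0 : 0 ≤ c' * m := by positivity
          nlinarith
      have h1 := htube (rv M (rc s) 0) (rv M (rc t) 0) (al (rc s)) (al (rc t)) (c * X)
        (2 * c' * m / X) (by positivity)
        ((hc (rc s)).2.1.trans (by rw [norm_rc]; gcongr))
        ((hc (rc t)).2.1.trans (by rw [norm_rc]; gcongr))
        (by
          have h2 := (hc (rc s)).1
          rw [norm_rc] at h2
          nlinarith [norm_nonneg (rv M (rc s) 0)])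
        (hal1 _ (hne s hs)) (hm1 s hs) (hm1 t ht)
        (by
          rw [div_le_iff₀ hX0]
          have h3 : θ' * X ^ 2 * (2 * c') = θ * (c * X) * X := by
            rw [hθ']
            field_simp
          calc 2 * c' * m = m * (2 * c') := by ring
            _ ≤ θ' * X ^ 2 * (2 * c') := by gcongr
            _ = θ * (c * X) * X := h3)
        hst
      have h2 := hback (rc s) (rc t) _ h1 i j
      refine h2.trans ?_
      have h3 : K₃ * (K₂ * (c * X) * (2 * c' * m / X)) = K₃ * (2 * K₂ * c * c') * m := by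
        field_simp
      rw [h3, hK4]
      have : 0 ≤ 2 / θ' := by positivity
      have : 0 ≤ (1 + 2 / θ') * m := by positivity
      linarith
    · have h1 : ∀ k, |rc s k| ≤ X := fun k =>
        ((norm_le_pi_norm (rc s) k).trans (norm_rc s).le).trans hsX
      have h2 : ∀ k, |rc t k| ≤ X := fun k =>
        ((norm_le_pi_norm (rc t) k).trans (norm_rc t).le).trans htX
      have h3 : |rc s i * rc t j - rc s j * rc t i| ≤ 2 * X ^ 2 := by
        refine (abs_sub _ _).trans ?_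
        rw [abs_mul, abs_mul]
        have h4 := mul_le_mul (h1 i) (h2 j) (abs_nonneg _) hX0.le
        have h5 := mul_le_mul (h1 j) (h2 i) (abs_nonneg _) hX0.le
        nlinarith
      refine h3.trans ?_
      have h4 : 2 * X ^ 2 ≤ 2 / θ' * m := by
        rw [div_mul_eq_mul_div, le_div_iff₀ hθ'p]
        nlinarith
      have h5 : 0 ≤ (1 + K₃ * (2 * K₂ * c * c')) * m := by positivity
      rw [hK4]
      linarith
  -- partition by the approximate eigenvalue
  set g : (Fin N → ℤ) → ℤ := fun s => ⌊al (rc s) / δ⌋ with hg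
  have hgm : ∀ s ∈ S, g s ∈ Finset.Icc (-L) L := by
    intro s hs
    have h1 := abs_le.1 (hal1 _ (hne s hs))
    rw [Finset.mem_Icc, hg]
    have h2 : -(c' / δ) ≤ al (rc s) / δ := by
      rw [← neg_div]
      exact div_le_div_of_nonneg_right h1.1 hδ.le
    have h3 : al (rc s) / δ ≤ c' / δ := div_le_div_of_nonneg_right h1.2 hδ.le
    have h4 := Int.le_ceil (c' / δ)
    constructor
    · rw [Int.le_floor]
      push_cast [hL]
      linarith
    · have h5 : ⌊al (rc s) / δ⌋ ≤ ⌈c' / δ⌉ := by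
        have := Int.floor_le (al (rc s) / δ)
        have h6 : ((⌊al (rc s) / δ⌋ : ℤ) : ℝ) ≤ ⌈c' / δ⌉ := by linarith
        exact_mod_cast h6
      simp only
      omega
  have hpart : ∀ k ∈ Finset.Icc (-L) L, ((S.filter fun s => g s = k).card : ℝ) ≤
      (C₁ * K₄ ^ (N - 1)) * X * (1 + m / (X * e)) ^ (N - 1) := by
    intro k _
    have h1 := md2 D₁ hD1' (S.filter fun s => g s = k) X (K₄ * m) e hX (by positivity) he
      (fun s hs => by
        rw [Finset.mem_filter] at hs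
        exact ⟨(hS s hs.1).1, (hS s hs.1).2.1, (hS s hs.1).2.2.1⟩)
      (fun s hs t ht i j => by
        rw [Finset.mem_filter] at hs ht
        refine ⟨key s hs.1 t ht.1 ?_ i j, ?_⟩
        · have h2 : ⌊al (rc s) / δ⌋ = ⌊al (rc t) / δ⌋ := hs.2.trans ht.2.symm
          have h3 := Int.abs_sub_lt_one_of_floor_eq_floor h2
          rw [← sub_div, abs_div, abs_of_pos hδ, div_lt_one hδ] at h3
          exact h3.le
        · have h4 := arith2 M A B Δ hΔ s t e b (hS s hs.1).2.2.2.2 (hS t ht.1).2.2.2.2 hf i j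
          have h5 : ((D₁ : ℤ)) = |(M 0).det ^ 3 * Δ| := by
            rw [hD1]
            exact Int.natCast_natAbs _
          rw [h5]
          rcases abs_choice ((M 0).det ^ 3 * Δ) with h6 | h6
          · rw [h6]
            exact h4
          · rw [h6, neg_mul]
            exact (dvd_neg).2 h4)
    refine h1.trans ?_
    have h2 : 1 + K₄ * m / (X * e) ≤ K₄ * (1 + m / (X * e)) := by
      rw [mul_add, mul_one, mul_div_assoc]
      linarith
    have h3 : 0 ≤ K₄ * m / (X * e) := by positivity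
    calc C₁ * X * (1 + K₄ * m / (X * e)) ^ (N - 1)
        ≤ C₁ * X * (K₄ * (1 + m / (X * e))) ^ (N - 1) := by gcongr
      _ = (C₁ * K₄ ^ (N - 1)) * X * (1 + m / (X * e)) ^ (N - 1) := by
          rw [mul_pow]
          ring
  have h1 : (S.card : ℝ) = ∑ k ∈ Finset.Icc (-L) L, ((S.filter fun s => g s = k).card : ℝ) := by
    rw [Finset.card_eq_sum_card_fiberwise (f := g) (t := Finset.Icc (-L) L)
      (fun s hs => hgm s hs)]
    push_cast
    rfl
  rw [h1]
  calc ∑ k ∈ Finset.Icc (-L) L, ((S.filter fun s => g s = k).card : ℝ)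
      ≤ ∑ _k ∈ Finset.Icc (-L) L, (C₁ * K₄ ^ (N - 1)) * X * (1 + m / (X * e)) ^ (N - 1) :=
        Finset.sum_le_sum hpart
    _ = (2 * L + 1) * (C₁ * K₄ ^ (N - 1)) * X * (1 + m / (X * e)) ^ (N - 1) := by
        rw [Finset.sum_const, Int.card_Icc, nsmul_eq_mul]
        have h2 : (((L + 1 - -L).toNat : ℕ) : ℝ) = 2 * L + 1 := by
          have h3 : (((L + 1 - -L).toNat : ℕ) : ℤ) = 2 * L + 1 := by
            rw [Int.toNat_of_nonneg (by omega)]
            ring
          exact_mod_cast congrArg (Int.cast : ℤ → ℝ) h3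
        rw [h2]
        ring
    _ ≤ ((2 * L + 1) * (C₁ * K₄ ^ (N - 1)) + 1) * X * (1 + m / (X * e)) ^ (N - 1) := by
        have h4 : 0 ≤ X * (1 + m / (X * e)) ^ (N - 1) := by positivity
        nlinarith

end Pool.Agent.N852
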