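import Mathlib
import Pool.Agent.N852.Cell

/-!
The number of residue classes of roots of a polynomial, and geometric sums.
-/

namespace Pool.Agent.N852

open Polynomial

/-- Pairs `(e, b)`, `e ≤ E`, `b < e`, with `e ∣ D f(b)`. -/
noncomputable def prs (f : ℤ[X]) (D : ℤ) (E : ℕ) : Finset (ℕ × ℕ) := by
  classical
  exact ((Finset.range (E + 1)) ×ˢ (Finset.range E)).filter fun p =>
    p.1 ≠ 0 ∧ p.2 < p.1 ∧ (p.1 : ℤ) ∣ D * f.eval (p.2 : ℤ)

theorem mem_prs {f : ℤ[X]} {D : ℤ} {E : ℕ} {p : ℕ × ℕ} : p ∈ prs f D E ↔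
    p.1 ≤ E ∧ p.1 ≠ 0 ∧ p.2 < p.1 ∧ (p.1 : ℤ) ∣ D * f.eval (p.2 : ℤ) := by
  classical
  unfold prs
  rw [Finset.mem_filter, Finset.mem_product, Finset.mem_range, Finset.mem_range]
  constructor
  · rintro ⟨⟨h1, h2⟩, h3⟩
    exact ⟨by omega, h3⟩
  · rintro ⟨h1, h2, h3, h4⟩
    exact ⟨⟨by omega, by omega⟩, h2, h3, h4⟩

theorem eval_bound (f : ℤ[X]) : ∃ c : ℕ, 1 ≤ c ∧ ∀ (E b : ℕ), 1 ≤ E → b ≤ E →
    (f.eval (b : ℤ)).natAbs ≤ c * E ^ f.natDegree := by
  refine ⟨1 + ∑ i ∈ Finset.range (f.natDegree + 1), (f.coeff i).natAbs, by omega, ?_⟩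
  intro E b hE hb
  rw [eval_eq_sum_range]
  calc (∑ i ∈ Finset.range (f.natDegree + 1), f.coeff i * (b : ℤ) ^ i).natAbs
      ≤ ∑ i ∈ Finset.range (f.natDegree + 1), (f.coeff i * (b : ℤ) ^ i).natAbs :=
        Int.natAbs_sum_le _ _
    _ ≤ ∑ i ∈ Finset.range (f.natDegree + 1), (f.coeff i).natAbs * E ^ f.natDegree := by
        refine Finset.sum_le_sum fun i hi => ?_
        rw [Finset.mem_range] at hi
        rw [Int.natAbs_mul, Int.natAbs_pow, Int.natAbs_natCast]
        apply Nat.mul_le_mul_left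
        calc b ^ i ≤ E ^ i := Nat.pow_le_pow_left hb i
          _ ≤ E ^ f.natDegree := Nat.pow_le_pow_right hE (by omega)
    _ = (∑ i ∈ Finset.range (f.natDegree + 1), (f.coeff i).natAbs) * E ^ f.natDegree := by
        rw [Finset.sum_mul]
    _ ≤ _ := Nat.mul_le_mul_right _ (by omega)

theorem card_prs (f : ℤ[X]) (hf : f ≠ 0) (D : ℤ) (hD : D ≠ 0) (ε : ℝ) (hε : 0 < ε)
    (hε1 : ε ≤ 1) :
    ∃ C : ℝ, 0 < C ∧ ∀ E : ℕ, 1 ≤ E → ((prs f D E).card : ℝ) ≤ C * (E : ℝ) ^ (1 + ε) := by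
  classical
  set n := f.natDegree with hn
  set δ : ℝ := ε / (n + 1) with hδ
  have hδp : 0 < δ := by positivity
  obtain ⟨C₁, hC1, hdiv⟩ := divisor_bound δ hδp
  obtain ⟨c, hc1, hc⟩ := eval_bound f
  have hc0 : (0 : ℝ) < c := by exact_mod_cast hc1
  set D' : ℝ := ((D.natAbs : ℕ) : ℝ) with hD'
  have hD0 : 0 < D' := by
    rw [hD']
    exact_mod_cast Int.natAbs_pos.2 hD
  refine ⟨C₁ * (D' * c) ^ δ + n + 1, by positivity, ?_⟩
  intro E hE
  have hE0 : (0 : ℝ) < E := by exact_mod_cast hE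
  have hE1 : (1 : ℝ) ≤ E := by exact_mod_cast hE
  -- fibres over `b`
  have h1 : (prs f D E).card = ∑ b ∈ Finset.range E, ((prs f D E).filter fun p => p.2 = b).card := by
    apply Finset.card_eq_sum_card_fiberwise
    intro p hp
    have hp' := mem_prs.1 (Finset.mem_coe.1 hp)
    rw [Finset.mem_coe, Finset.mem_range]
    omega
  have h2 : ∀ b ∈ Finset.range E, f.eval (b : ℤ) ≠ 0 →
      (((prs f D E).filter fun p => p.2 = b).card : ℝ) ≤ C₁ * (D' * c) ^ δ * (E : ℝ) ^ ε := by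
    intro b hb hfb
    rw [Finset.mem_range] at hb
    set v : ℕ := (D * f.eval (b : ℤ)).natAbs with hv
    have hv0 : v ≠ 0 := by
      rw [hv, Int.natAbs_ne_zero]
      exact mul_ne_zero hD hfb
    have h3 : ((prs f D E).filter fun p => p.2 = b).card ≤ v.divisors.card := by
      apply Finset.card_le_card_of_injOn Prod.fst
      · intro p hp
        rw [Finset.mem_coe, Finset.mem_filter] at hp
        rw [Finset.mem_coe, Nat.mem_divisors]
        have h4 := (mem_prs.1 hp.1).2.2.2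
        rw [hp.2] at h4
        exact ⟨Int.natCast_dvd.1 h4, hv0⟩
      · intro p hp q hq hpq
        rw [Finset.mem_coe, Finset.mem_filter] at hp hq
        exact Prod.ext hpq (hp.2.trans hq.2.symm)
    have h4 : (v : ℝ) ≤ (D' * c) * (E : ℝ) ^ n := by
      have h5 := hc E b hE hb.le
      have h6 : v ≤ D.natAbs * (c * E ^ n) := by
        rw [hv, Int.natAbs_mul]
        exact Nat.mul_le_mul_left _ h5
      have h7 : (v : ℝ) ≤ D' * (c * (E : ℝ) ^ n) := by
        rw [hD']
        exact_mod_cast h6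
      linarith
    calc (((prs f D E).filter fun p => p.2 = b).card : ℝ) ≤ (v.divisors.card : ℝ) := by
          exact_mod_cast h3
      _ ≤ C₁ * (v : ℝ) ^ δ := hdiv v hv0
      _ ≤ C₁ * ((D' * c) * (E : ℝ) ^ n) ^ δ := by
          gcongr
      _ = C₁ * (D' * c) ^ δ * (E : ℝ) ^ (n * δ) := by
          rw [Real.mul_rpow (by positivity) (by positivity), ← Real.rpow_natCast,
            ← Real.rpow_mul hE0.le]
          ring
      _ ≤ C₁ * (D' * c) ^ δ * (E : ℝ) ^ ε := by
          have h8 : (n : ℝ) * δ ≤ ε := by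
            rw [hδ, mul_div_assoc', div_le_iff₀ (by positivity)]
            nlinarith
          gcongr
  have h3 : ∀ b ∈ Finset.range E, f.eval (b : ℤ) = 0 →
      (((prs f D E).filter fun p => p.2 = b).card : ℝ) ≤ E := by
    intro b hb _
    have h4 : ((prs f D E).filter fun p => p.2 = b).card ≤ (Finset.Icc 1 E).card := by
      apply Finset.card_le_card_of_injOn Prod.fst
      · intro p hp
        rw [Finset.mem_coe, Finset.mem_filter] at hp
        have := mem_prs.1 hp.1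
        rw [Finset.mem_coe, Finset.mem_Icc]
        omega
      · intro p hp q hq hpq
        rw [Finset.mem_coe, Finset.mem_filter] at hp hq
        exact Prod.ext hpq (hp.2.trans hq.2.symm)
    rw [Nat.card_Icc, Nat.add_sub_cancel] at h4
    exact_mod_cast h4
  have h4 : ((Finset.range E).filter fun b : ℕ => f.eval (b : ℤ) = 0).card ≤ n := by
    calc ((Finset.range E).filter fun b : ℕ => f.eval (b : ℤ) = 0).card
        ≤ f.roots.toFinset.card := by
          apply Finset.card_le_card_of_injOn (fun b : ℕ => (b : ℤ))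
          · intro b hb
            rw [Finset.mem_coe, Finset.mem_filter] at hb
            rw [Finset.mem_coe, Multiset.mem_toFinset, mem_roots hf]
            exact hb.2
          · intro a _ b _ hab
            exact Nat.cast_injective hab
      _ ≤ Multiset.card f.roots := Multiset.toFinset_card_le _
      _ ≤ n := card_roots' f
  rw [h1]
  push_cast
  rw [← Finset.sum_filter_add_sum_filter_not (Finset.range E) (fun b : ℕ => f.eval (b : ℤ) = 0)]
  have h5 : ∑ b ∈ (Finset.range E).filter (fun b : ℕ => f.eval (b : ℤ) = 0),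
      (((prs f D E).filter fun p => p.2 = b).card : ℝ) ≤ n * E := by
    calc _ ≤ ∑ _b ∈ (Finset.range E).filter (fun b : ℕ => f.eval (b : ℤ) = 0), (E : ℝ) := by
          refine Finset.sum_le_sum fun b hb => ?_
          rw [Finset.mem_filter] at hb
          exact h3 b hb.1 hb.2
      _ = (((Finset.range E).filter fun b : ℕ => f.eval (b : ℤ) = 0).card : ℝ) * E := by
          rw [Finset.sum_const, nsmul_eq_mul]
      _ ≤ n * E := by
          gcongr
  have h6 : ∑ b ∈ (Finset.range E).filter (fun b : ℕ => ¬ f.eval (b : ℤ) = 0),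
      (((prs f D E).filter fun p => p.2 = b).card : ℝ) ≤
      E * (C₁ * (D' * c) ^ δ * (E : ℝ) ^ ε) := by
    calc _ ≤ ∑ _b ∈ (Finset.range E).filter (fun b : ℕ => ¬ f.eval (b : ℤ) = 0),
          (C₁ * (D' * c) ^ δ * (E : ℝ) ^ ε) := by
          refine Finset.sum_le_sum fun b hb => ?_
          rw [Finset.mem_filter] at hb
          exact h2 b hb.1 hb.2
      _ = (((Finset.range E).filter fun b : ℕ => ¬ f.eval (b : ℤ) = 0).card : ℝ) *
          (C₁ * (D' * c) ^ δ * (E : ℝ) ^ ε) := by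
          rw [Finset.sum_const, nsmul_eq_mul]
      _ ≤ E * (C₁ * (D' * c) ^ δ * (E : ℝ) ^ ε) := by
          have : (((Finset.range E).filter fun b : ℕ => ¬ f.eval (b : ℤ) = 0).card : ℝ) ≤ E := by
            have := Finset.card_filter_le (Finset.range E) (fun b : ℕ => ¬ f.eval (b : ℤ) = 0)
            rw [Finset.card_range] at this
            exact_mod_cast this
          gcongr
  have h7 : (E : ℝ) ≤ (E : ℝ) ^ (1 + ε) := by
    calc (E : ℝ) = (E : ℝ) ^ (1 : ℝ) := (Real.rpow_one _).symm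
      _ ≤ (E : ℝ) ^ (1 + ε) := Real.rpow_le_rpow_of_exponent_le hE1 (by linarith)
  have h8 : (E : ℝ) * (E : ℝ) ^ ε = (E : ℝ) ^ (1 + ε) := by
    rw [Real.rpow_add hE0, Real.rpow_one]
  have h9 : (E : ℝ) * (C₁ * (D' * c) ^ δ * (E : ℝ) ^ ε) =
      C₁ * (D' * c) ^ δ * (E : ℝ) ^ (1 + ε) := by
    rw [← h8]
    ring
  rw [h9] at h6
  have h10 : (0 : ℝ) ≤ (E : ℝ) ^ (1 + ε) := by positivity
  have h11 : (n : ℝ) * E ≤ n * (E : ℝ) ^ (1 + ε) := by gcongr
  linarith

/-- Geometric sums, upper end. -/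
theorem geo_up (β : ℝ) (hβ : 0 < β) : ∃ C : ℝ, 0 < C ∧ ∀ (Y : ℝ) (F : Finset ℕ), 0 < Y →
    (∀ s ∈ F, (2 : ℝ) ^ s ≤ Y) → ∑ s ∈ F, ((2 : ℝ) ^ s) ^ β ≤ C * Y ^ β := by
  set q : ℝ := (2 : ℝ) ^ β with hq
  have hq1 : 1 < q := Real.one_lt_rpow (by norm_num) hβ
  have hqs : ∀ s : ℕ, ((2 : ℝ) ^ s) ^ β = q ^ s := by
    intro s
    rw [hq, ← Real.rpow_natCast, ← Real.rpow_natCast, ← Real.rpow_mul (by norm_num),
      ← Real.rpow_mul (by norm_num), mul_comm]
  refine ⟨q / (q - 1), div_pos (by linarith) (by linarith), ?_⟩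
  intro Y F hY hF
  rcases F.eq_empty_or_nonempty with h | h
  · rw [h, Finset.sum_empty]
    have : 0 < q / (q - 1) := div_pos (by linarith) (by linarith)
    positivity
  · set m := F.max' h with hm
    have h1 : ∑ s ∈ F, ((2 : ℝ) ^ s) ^ β ≤ ∑ s ∈ Finset.range (m + 1), q ^ s := by
      rw [Finset.sum_congr rfl fun s _ => hqs s]
      apply Finset.sum_le_sum_of_subset_of_nonneg
      · intro s hs
        rw [Finset.mem_range]
        have := F.le_max' s hs
        omega
      · intro s _ _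
        positivity
    have h2 : ∑ s ∈ Finset.range (m + 1), q ^ s ≤ q / (q - 1) * q ^ m := by
      rw [geom_sum_eq hq1.ne', div_mul_eq_mul_div]
      apply div_le_div_of_nonneg_right _ (by linarith)
      rw [pow_succ]
      linarith
    have h3 : q ^ m ≤ Y ^ β := by
      rw [← hqs]
      exact Real.rpow_le_rpow (by positivity) (hF m (F.max'_mem h)) hβ.le
    have h4 : 0 < q / (q - 1) := div_pos (by linarith) (by linarith)
    calc _ ≤ _ := h1
      _ ≤ _ := h2
      _ ≤ _ := by gcongr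

/-- Geometric sums, lower end. -/
theorem geo_down (β : ℝ) (hβ : 0 < β) : ∃ C : ℝ, 0 < C ∧ ∀ (Y : ℝ) (F : Finset ℕ), 0 < Y →
    (∀ s ∈ F, Y ≤ (2 : ℝ) ^ s) → ∑ s ∈ F, ((2 : ℝ) ^ s) ^ (-β) ≤ C * Y ^ (-β) := by
  set q : ℝ := (2 : ℝ) ^ (-β) with hq
  have hq1 : q < 1 := by
    rw [hq]
    exact Real.rpow_lt_one_of_one_lt_of_neg (by norm_num) (by linarith)
  have hq0 : 0 < q := by positivity
  have hqs : ∀ s : ℕ, ((2 : ℝ) ^ s) ^ (-β) = q ^ s := by
    intro s
    rw [hq, ← Real.rpow_natCast, ← Real.rpow_natCast, ← Real.rpow_mul (by norm_num),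
      ← Real.rpow_mul (by norm_num), mul_comm]
  refine ⟨1 / (1 - q), div_pos (by linarith) (by linarith), ?_⟩
  intro Y F hY hF
  have h4 : 0 < 1 / (1 - q) := div_pos (by linarith) (by linarith)
  rcases F.eq_empty_or_nonempty with h | h
  · rw [h, Finset.sum_empty]
    positivity
  · set m := F.min' h with hm
    set M := F.max' h with hM
    have h1 : ∑ s ∈ F, ((2 : ℝ) ^ s) ^ (-β) ≤ ∑ s ∈ Finset.Ico m (M + 1), q ^ s := by
      rw [Finset.sum_congr rfl fun s _ => hqs s]
      apply Finset.sum_le_sum_of_subset_of_nonneg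
      · intro s hs
        rw [Finset.mem_Ico]
        have := F.le_max' s hs
        have := F.min'_le s hs
        omega
      · intro s _ _
        positivity
    have hmM : m ≤ M + 1 := by
      have := F.min'_le_max' h
      omega
    have h2 : ∑ s ∈ Finset.Ico m (M + 1), q ^ s ≤ 1 / (1 - q) * q ^ m := by
      rw [geom_sum_Ico' hq1.ne hmM, div_mul_eq_mul_div]
      apply div_le_div_of_nonneg_right _ (by linarith)
      have : 0 ≤ q ^ (M + 1) := by positivity
      linarith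
    have h3 : q ^ m ≤ Y ^ (-β) := by
      rw [← hqs]
      exact Real.rpow_le_rpow_of_nonpos hY (hF m (F.min'_mem h)) (by linarith)
    calc _ ≤ _ := h1
      _ ≤ _ := h2
      _ ≤ _ := by gcongr

end Pool.Agent.N852
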