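import Mathlib
import Pool.Agent.N852.Prs

/-!
The invariants `mx`, `Gx`, `dd` of the fibre over `x`.
-/

namespace Pool.Agent.N852

open Matrix Module Polynomial
open Pool.Agent.H548.WM (ht bx le_ht le_ht' ht_le exists_ht mem_bx card_bx ht_pos)
open Pool.Agent.H548.BL (rv cv Inc inc_iff_rv rc norm_rc)

variable {N : ℕ}

/-- The linear map `y ↦ (M₀(x,y), M₁(x,y))`. -/
def AA (M : Fin 2 → Matrix (Fin N) (Fin N) ℤ) (x : Fin N → ℤ) : (Fin N → ℤ) →+ (Fin 2 → ℤ) where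
  toFun y k := rv M x k ⬝ᵥ y
  map_zero' := by
    funext k
    simp
  map_add' y z := by
    funext k
    simp [dotProduct_add]

theorem AA_apply (M : Fin 2 → Matrix (Fin N) (Fin N) ℤ) (x y : Fin N → ℤ) (k : Fin 2) :
    AA M x y k = rv M x k ⬝ᵥ y := rfl

/-- The index of the image of `AA M x`. -/
noncomputable def Gx (M : Fin 2 → Matrix (Fin N) (Fin N) ℤ) (x : Fin N → ℤ) : ℕ :=
  (AA M x).range.index

/-- The largest minor. -/
def mx (M : Fin 2 → Matrix (Fin N) (Fin N) ℤ) (x : Fin N → ℤ) : ℕ :=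
  Finset.univ.sup fun p : Fin N × Fin N => (mm M x p.1 p.2).natAbs

theorem le_mx (M : Fin 2 → Matrix (Fin N) (Fin N) ℤ) (x : Fin N → ℤ) (i j : Fin N) :
    (mm M x i j).natAbs ≤ mx M x :=
  Finset.le_sup (f := fun p : Fin N × Fin N => (mm M x p.1 p.2).natAbs) (Finset.mem_univ (i, j))

theorem le_mx' (M : Fin 2 → Matrix (Fin N) (Fin N) ℤ) (x : Fin N → ℤ) (i j : Fin N) :
    |((mm M x i j : ℤ) : ℝ)| ≤ mx M x := by
  have := le_mx M x i j
  have h2 : |((mm M x i j : ℤ) : ℝ)| = (((mm M x i j).natAbs : ℕ) : ℝ) := by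
    rw [Nat.cast_natAbs, Int.cast_abs]
  rw [h2]
  exact_mod_cast this

theorem exists_mx (hN : 0 < N) (M : Fin 2 → Matrix (Fin N) (Fin N) ℤ) (x : Fin N → ℤ) :
    ∃ i j, (mm M x i j).natAbs = mx M x := by
  have : (Finset.univ : Finset (Fin N × Fin N)).Nonempty := ⟨(⟨0, hN⟩, ⟨0, hN⟩), Finset.mem_univ _⟩
  obtain ⟨p, _, hp⟩ := Finset.exists_mem_eq_sup _ this
    (fun p : Fin N × Fin N => (mm M x p.1 p.2).natAbs)
  exact ⟨p.1, p.2, hp.symm⟩

theorem Gx_dvd (M : Fin 2 → Matrix (Fin N) (Fin N) ℤ) (x : Fin N → ℤ) (i j : Fin N) :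
    (Gx M x : ℤ) ∣ mm M x i j := by
  by_cases h : mm M x i j = 0
  · rw [h]
    exact dvd_zero _
  set A : Matrix (Fin 2) (Fin 2) ℤ := of fun a k => rv M x k (![i, j] a) with hA
  have hdet : A.det = mm M x i j := by
    rw [det_fin_two]
    simp [hA, mm]
    ring
  have hsub : rowLat A ≤ (AA M x).range := by
    rintro _ ⟨c, rfl⟩
    refine ⟨∑ a, Pi.single (![i, j] a) (c a), ?_⟩
    funext k
    rw [AA_apply, dotProduct_sum]
    simp only [dotProduct_single, Fin.sum_univ_two]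
    have h9 : (c ᵥ* A) k = c 0 * A 0 k + c 1 * A 1 k := by
      simp [vecMul, dotProduct, Fin.sum_univ_two]
    rw [h9]
    simp [hA, mul_comm]
  have h1 := AddSubgroup.index_dvd_of_le hsub
  rw [index_rowLat (by rw [hdet]; exact h), hdet] at h1
  exact Int.natCast_dvd.2 h1

theorem Gx_dvd_mx (hN : 0 < N) (M : Fin 2 → Matrix (Fin N) (Fin N) ℤ) (x : Fin N → ℤ) :
    Gx M x ∣ mx M x := by
  obtain ⟨i, j, h⟩ := exists_mx hN M x
  rw [← h]
  exact Int.natCast_dvd.1 (Gx_dvd M x i j)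

/-- The quotient `mx / Gx`. -/
noncomputable def dd (M : Fin 2 → Matrix (Fin N) (Fin N) ℤ) (x : Fin N → ℤ) : ℕ :=
  mx M x / Gx M x

theorem Gx_mul_dd (hN : 0 < N) (M : Fin 2 → Matrix (Fin N) (Fin N) ℤ) (x : Fin N → ℤ) :
    Gx M x * dd M x = mx M x := Nat.mul_div_cancel' (Gx_dvd_mx hN M x)

theorem Gx_ne_zero (hN : 0 < N) {M : Fin 2 → Matrix (Fin N) (Fin N) ℤ} {x : Fin N → ℤ}
    (h : mx M x ≠ 0) : Gx M x ≠ 0 := by
  intro h0
  apply h
  rw [← Gx_mul_dd hN, h0, zero_mul]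

theorem dd_ne_zero (hN : 0 < N) {M : Fin 2 → Matrix (Fin N) (Fin N) ℤ} {x : Fin N → ℤ}
    (h : mx M x ≠ 0) : dd M x ≠ 0 := by
  intro h0
  apply h
  rw [← Gx_mul_dd hN, h0, mul_zero]

theorem KR_cast (P : Matrix (Fin N) (Fin N) ℤ) (u : Fin N → ℤ) :
    (((KR P u).det : ℤ) : ℝ) = (KR (P.map (Int.castRingHom ℝ)) (rc u)).det := by
  have h2 : KR (P.map (Int.castRingHom ℝ)) (rc u) = (KR P u).map (Int.castRingHom ℝ) := by
    ext i j
    simp only [KR, of_apply, Matrix.map_apply, ← Matrix.map_pow]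
    simp only [vecMul, dotProduct, Matrix.map_apply, map_sum, map_mul, rc, eq_intCast]
  rw [h2, ← RingHom.mapMatrix_apply, ← RingHom.map_det]
  rfl

/-- The norm form is small if the minors are. -/
theorem norm_le {M : Fin 2 → Matrix (Fin N) (Fin N) ℤ} (hM : Nice M) :
    ∃ K : ℝ, 1 ≤ K ∧ ∀ x : Fin N → ℤ, x ≠ 0 →
      |(((KR (PM M) (rv M x 0)).det : ℤ) : ℝ)| ≤
        K * ht x * ((mx M x : ℝ) / ht x) ^ (N - 1) := by
  have hN : 0 < N := by have := hM.four; omega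
  obtain ⟨c, hc1, hc⟩ := consts hM.det
  obtain ⟨c', hc1', hal⟩ := exists_al hN hM.det
  obtain ⟨n, rfl⟩ : ∃ n, N = n + 1 := ⟨N - 1, by omega⟩
  obtain ⟨c₂, hc2, hKR⟩ := KR_le (PR M)
  refine ⟨c₂ * c * c' ^ n, ?_, ?_⟩
  · have : 1 ≤ c' ^ n := one_le_pow₀ hc1'
    nlinarith [mul_le_mul hc2 hc1 (by norm_num) (by linarith)]
  intro x hx
  have hht : 1 ≤ ht x := ht_pos hx
  have hht0 : (0 : ℝ) < ht x := by exact_mod_cast hht
  have hne : rc x ≠ 0 := by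
    intro h0
    have h1 := norm_rc x
    rw [h0, norm_zero] at h1
    linarith
  obtain ⟨α, hα, hα2⟩ := hal (rc x) hne
  have h1 := hα2 (mx M x) (fun i j => by rw [mm_rc]; exact le_mx' M x i j)
  have h2 := hKR (rv M (rc x) 0) α _ h1
  rw [KR_cast, ← rv_rc]
  change |(KR (PR M) (rv M (rc x) 0)).det| ≤ _
  refine h2.trans ?_
  have h3 := (hc (rc x)).2.1
  rw [norm_rc] at h3 ⊢
  rw [Nat.add_sub_cancel]
  calc c₂ * ‖rv M (rc x) 0‖ * (c' * (mx M x : ℝ) / ht x) ^ n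
      ≤ c₂ * (c * ht x) * (c' * (mx M x : ℝ) / ht x) ^ n := by gcongr
    _ = c₂ * c * c' ^ n * ht x * ((mx M x : ℝ) / ht x) ^ n := by
        rw [mul_div_assoc, mul_pow]
        ring

theorem rv_ne {M : Fin 2 → Matrix (Fin N) (Fin N) ℤ} (h : (M 0).det ≠ 0) {x : Fin N → ℤ}
    (hx : x ≠ 0) : rv M x 0 ≠ 0 := by
  intro h0
  have h1 := rv_adj M x
  rw [h0, zero_vecMul] at h1
  apply hx
  funext i
  have h2 := congrFun h1 i
  simp only [Pi.zero_apply, Pi.smul_apply, smul_eq_mul] at h2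
  exact (mul_eq_zero.1 h2.symm).resolve_left h

theorem mx_ne_zero {M : Fin 2 → Matrix (Fin N) (Fin N) ℤ} (hM : Nice M) {x : Fin N → ℤ}
    (hx : x ≠ 0) : mx M x ≠ 0 := by
  intro h0
  obtain ⟨K, hK1, hK⟩ := norm_le hM
  have h1 := hK x hx
  rw [h0, Nat.cast_zero, zero_div, zero_pow (by have := hM.four; omega), mul_zero] at h1
  have h2 := KR_ne_zero (PM M) hM.irr (rv_ne hM.det hx)
  have h3 : (((KR (PM M) (rv M x 0)).det : ℤ) : ℝ) = 0 := abs_eq_zero.1 (le_antisymm h1 (abs_nonneg _))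
  exact h2 (by exact_mod_cast h3)

/-- Lower bound for `dd`. -/
theorem dd_low {M : Fin 2 → Matrix (Fin N) (Fin N) ℤ} (hM : Nice M) :
    ∃ c : ℝ, 0 < c ∧ ∀ x : Fin N → ℤ, Prm x → c * (ht x : ℝ) ^ (2 / 3 : ℝ) ≤ dd M x := by
  have hN : 0 < N := by have := hM.four; omega
  have h4 := hM.four
  obtain ⟨K, hK1, hK⟩ := norm_le hM
  obtain ⟨n, rfl⟩ : ∃ n, N = n + 1 := ⟨N - 1, by omega⟩
  refine ⟨(K ^ (1 / (n : ℝ)))⁻¹, by positivity, ?_⟩
  intro x hx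
  have hht : 1 ≤ ht x := ht_pos hx.ne
  have hht1 : (1 : ℝ) ≤ ht x := by exact_mod_cast hht
  have hht0 : (0 : ℝ) < ht x := by linarith
  have hmx := mx_ne_zero hM hx.ne
  have hG := Gx_ne_zero hN hmx
  have hG0 : (0 : ℝ) < Gx M x := by exact_mod_cast Nat.pos_of_ne_zero hG
  obtain ⟨b, _, hb, _⟩ := arith1 M x hx (Gx M x) hG (Gx_dvd M x)
  have h1 : ((Gx M x : ℤ)) ^ n ∣ (KR (PM M) (rv M x 0)).det := pow_dvd_KR _ _ _ _ hb
  have h2 := Int.le_of_dvd (abs_pos.2 (KR_ne_zero (PM M) hM.irr (rv_ne hM.det hx.ne)))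
    ((dvd_abs _ _).2 h1)
  have h3 : (Gx M x : ℝ) ^ n ≤ |(((KR (PM M) (rv M x 0)).det : ℤ) : ℝ)| := by
    exact_mod_cast h2
  have h5 := h3.trans (hK x hx.ne)
  rw [Nat.add_sub_cancel] at h5
  have h6 : (mx M x : ℝ) = Gx M x * dd M x := by exact_mod_cast (Gx_mul_dd hN M x).symm
  have hn0 : (n : ℝ) ≠ 0 := by
    have : 0 < n := by omega
    positivity
  have hnp : 0 < (n : ℝ) := by
    have : 0 < n := by omega
    exact_mod_cast this
  have hd0 : (0 : ℝ) < dd M x := by exact_mod_cast Nat.pos_of_ne_zero (dd_ne_zero hN hmx)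
  -- `ht ^ (n-1) ≤ K * dd ^ n`
  have h7 : (ht x : ℝ) ^ n ≤ K * ht x * (dd M x : ℝ) ^ n := by
    rw [h6, mul_div_assoc, mul_pow] at h5
    have h8 : (Gx M x : ℝ) ^ n * 1 ≤ (Gx M x : ℝ) ^ n * (K * ht x * ((dd M x : ℝ) / ht x) ^ n) := by
      rw [mul_one]
      calc (Gx M x : ℝ) ^ n ≤ _ := h5
        _ = _ := by ring
    have h9 := le_of_mul_le_mul_left h8 (by positivity)
    rw [div_pow, ← mul_div_assoc, le_div_iff₀ (by positivity), one_mul] at h9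
    exact h9
  have h8 : (ht x : ℝ) ^ ((2 / 3 : ℝ) * n) ≤ K * (dd M x : ℝ) ^ n := by
    have h9 : (ht x : ℝ) ^ ((2 / 3 : ℝ) * n) * ht x ≤ (ht x : ℝ) ^ n := by
      rw [← Real.rpow_add_one hht0.ne', ← Real.rpow_natCast]
      apply Real.rpow_le_rpow_of_exponent_le hht1
      have : (3 : ℝ) ≤ n := by
        have : 3 ≤ n := by omega
        exact_mod_cast this
      linarith
    have h10 : (ht x : ℝ) ^ ((2 / 3 : ℝ) * n) * ht x ≤ (K * (dd M x : ℝ) ^ n) * ht x := by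
      linarith
    exact le_of_mul_le_mul_right h10 hht0
  have h9 := Real.rpow_le_rpow (by positivity) h8 (by positivity : 0 ≤ 1 / (n : ℝ))
  rw [← Real.rpow_mul hht0.le, Real.mul_rpow (by linarith) (by positivity), ← Real.rpow_natCast,
    ← Real.rpow_mul hd0.le, mul_one_div_cancel hn0, Real.rpow_one, mul_assoc,
    mul_one_div_cancel hn0, mul_one] at h9
  rw [inv_mul_le_iff₀ (by positivity)]
  exact h9

/-- Upper bound for `mx`. -/
theorem mx_up {M : Fin 2 → Matrix (Fin N) (Fin N) ℤ} (hM : Nice M) :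
    ∃ c : ℝ, 1 ≤ c ∧ ∀ x : Fin N → ℤ, (mx M x : ℝ) ≤ c * (ht x : ℝ) ^ 2 := by
  have hN : 0 < N := by have := hM.four; omega
  obtain ⟨c, hc1, hc⟩ := consts hM.det
  refine ⟨2 * c ^ 2, by nlinarith, ?_⟩
  intro x
  obtain ⟨i, j, h⟩ := exists_mx hN M x
  rw [← h]
  have h2 : (((mm M x i j).natAbs : ℕ) : ℝ) = |mm M (rc x) i j| := by
    rw [mm_rc, Nat.cast_natAbs, Int.cast_abs]
  rw [h2]
  unfold mm
  obtain ⟨_, h3, h4⟩ := hc (rc x)
  rw [norm_rc] at h3 h4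
  have h5 : ∀ k, |rv M (rc x) 0 k| ≤ c * ht x := fun k => (norm_le_pi_norm _ k).trans h3
  have h6 : ∀ k, |rv M (rc x) 1 k| ≤ c * ht x := fun k => (norm_le_pi_norm _ k).trans h4
  refine (abs_sub _ _).trans ?_
  rw [abs_mul, abs_mul]
  have h7 := mul_le_mul (h5 i) (h6 j) (abs_nonneg _) (by positivity)
  have h8 := mul_le_mul (h5 j) (h6 i) (abs_nonneg _) (by positivity)
  nlinarith

end Pool.Agent.N852
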