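import Mathlib
import Pool.Agent.N852.Dd

/-!
The domination bound: sums of `1 / dd` over dyadic shells.
-/

namespace Pool.Agent.N852

open Matrix Module Polynomial
open Pool.Agent.H548.WM (ht bx le_ht le_ht' ht_le exists_ht mem_bx card_bx ht_pos)
open Pool.Agent.H548.BL (rv cv Inc inc_iff_rv rc norm_rc)

variable {N : ℕ}

/-- The number of `x` with `2 ^ t ≤ dd x < 2 ^ (t + 1)`. -/
theorem card_level {M : Fin 2 → Matrix (Fin N) (Fin N) ℤ} (hM : Nice M) :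
    ∃ C : ℝ, 0 < C ∧ ∀ (T : Finset (Fin N → ℤ)) (X : ℝ) (t : ℕ), 1 ≤ X →
      (∀ s ∈ T, Prm s ∧ (ht s : ℝ) ≤ X ∧ X < 2 * ht s ∧ 2 ^ t ≤ dd M s ∧ dd M s < 2 ^ (t + 1)) →
      (T.card : ℝ) ≤ C * (X ^ 2 / 2 ^ t) ^ (9 / 8 : ℝ) * X * (1 + ((2 : ℝ) ^ t / X) ^ (N - 1)) := by
  classical
  have hN : 0 < N := by have := hM.four; omega
  obtain ⟨K, hK1, hK⟩ := cell hM
  obtain ⟨c, hc1, hc⟩ := mx_up hM
  have hf0 : (PM M).charpoly ≠ 0 := (charpoly_monic _).ne_zero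
  obtain ⟨C₁, hC1, hprs⟩ := card_prs (PM M).charpoly hf0 (M 0).det hM.det (1 / 8) (by norm_num)
    (by norm_num)
  refine ⟨C₁ * c ^ (9 / 8 : ℝ) * K * 4 ^ (N - 1), by positivity, ?_⟩
  intro T X t hX hT
  have hX0 : 0 < X := by linarith
  rcases T.eq_empty_or_nonempty with hemp | ⟨s0, hs0⟩
  · rw [hemp, Finset.card_empty, Nat.cast_zero]
    positivity
  have hY0 : 0 < X ^ 2 / 2 ^ t := by positivity
  -- `Gx s * 2 ^ t ≤ c X ^ 2`
  have hG : ∀ s ∈ T, (Gx M s : ℝ) ≤ c * (X ^ 2 / 2 ^ t) := by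
    intro s hs
    obtain ⟨h1, h2, h3, h4, h5⟩ := hT s hs
    have h6 : ((Gx M s : ℕ) : ℝ) * dd M s = mx M s := by exact_mod_cast Gx_mul_dd hN M s
    have h7 := hc s
    have h8 : ((2 : ℝ) ^ t) ≤ dd M s := by exact_mod_cast h4
    rw [mul_div_assoc', le_div_iff₀ (by positivity)]
    calc (Gx M s : ℝ) * 2 ^ t ≤ Gx M s * dd M s := by gcongr
      _ = mx M s := h6
      _ ≤ c * (ht s : ℝ) ^ 2 := h7
      _ ≤ c * X ^ 2 := by gcongr
  have hG1 : ∀ s ∈ T, Gx M s ≠ 0 := by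
    intro s hs
    exact Gx_ne_zero hN (mx_ne_zero hM (hT s hs).1.ne)
  set E : ℕ := ⌊c * (X ^ 2 / 2 ^ t)⌋₊ with hE
  have hE1 : 1 ≤ E := by
    apply Nat.le_floor
    have h1 := hG s0 hs0
    have h2 : (1 : ℝ) ≤ Gx M s0 := by exact_mod_cast Nat.pos_of_ne_zero (hG1 s0 hs0)
    push_cast
    linarith
  have hEle : (E : ℝ) ≤ c * (X ^ 2 / 2 ^ t) := Nat.floor_le (by positivity)
  -- the class
  have hcl : ∀ s ∈ T, ∃ b : ℕ, b < Gx M s ∧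
      (∀ k, (Gx M s : ℤ) ∣ (rv M s 0 ᵥ* PM M) k - b * rv M s 0 k) ∧
      (Gx M s : ℤ) ∣ (M 0).det * (PM M).charpoly.eval (b : ℤ) := fun s hs =>
    arith1 M s (hT s hs).1 (Gx M s) (hG1 s hs) (Gx_dvd M s)
  choose! b hb1 hb2 hb3 using hcl
  set g : (Fin N → ℤ) → ℕ × ℕ := fun s => (Gx M s, b s) with hg
  have hgm : ∀ s ∈ T, g s ∈ prs (PM M).charpoly (M 0).det E := by
    intro s hs
    rw [mem_prs]
    exact ⟨Nat.le_floor (hG s hs), hG1 s hs, hb1 s hs, hb3 s hs⟩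
  have hfib : ∀ p ∈ prs (PM M).charpoly (M 0).det E, ((T.filter fun s => g s = p).card : ℝ) ≤
      K * X * (4 ^ (N - 1) * (1 + ((2 : ℝ) ^ t / X) ^ (N - 1))) := by
    intro p hp
    rw [mem_prs] at hp
    have hp0 : (0 : ℝ) < p.1 := by exact_mod_cast Nat.pos_of_ne_zero hp.2.1
    have h1 := hK (T.filter fun s => g s = p) X (2 ^ (t + 1) * p.1) p.1 p.2 hX (by positivity)
      hp.2.1 hp.2.2.2 (by
        intro s hs
        rw [Finset.mem_filter] at hs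
        obtain ⟨hsT, hsp⟩ := hs
        obtain ⟨h1, h2, h3, h4, h5⟩ := hT s hsT
        have hp1 : Gx M s = p.1 := congrArg Prod.fst hsp
        have hp2 : b s = p.2 := congrArg Prod.snd hsp
        refine ⟨h1, h2, h3, fun i j => ?_, fun k => ?_⟩
        · refine (le_mx' M s i j).trans ?_
          have h6 : mx M s ≤ 2 ^ (t + 1) * p.1 := by
            rw [← Gx_mul_dd hN M s, hp1, mul_comm]
            exact Nat.mul_le_mul_right _ h5.le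
          exact_mod_cast h6
        · have := hb2 s hsT k
          rw [hp1, hp2] at this
          exact this)
    refine h1.trans ?_
    have h2 : (2 : ℝ) ^ (t + 1) * p.1 / (X * p.1) = 2 * ((2 : ℝ) ^ t / X) := by
      rw [pow_succ]
      field_simp
    rw [h2]
    apply mul_le_mul_of_nonneg_left _ (by positivity)
    set a : ℝ := (2 : ℝ) ^ t / X with ha
    have ha0 : 0 ≤ a := by positivity
    calc (1 + 2 * a) ^ (N - 1) ≤ (2 * (1 + a)) ^ (N - 1) := by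
          gcongr
          linarith
      _ = 2 ^ (N - 1) * (1 + a) ^ (N - 1) := mul_pow _ _ _
      _ ≤ 2 ^ (N - 1) * (2 ^ (N - 1 - 1) * (1 ^ (N - 1) + a ^ (N - 1))) := by
          gcongr
          exact add_pow_le (by norm_num) ha0 _
      _ ≤ 2 ^ (N - 1) * (2 ^ (N - 1) * (1 + a ^ (N - 1))) := by
          rw [one_pow]
          gcongr
          · norm_num
          · omega
      _ = 4 ^ (N - 1) * (1 + a ^ (N - 1)) := by
          rw [← mul_assoc, ← mul_pow]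
          norm_num
  have h1 : (T.card : ℝ) = ∑ p ∈ prs (PM M).charpoly (M 0).det E,
      ((T.filter fun s => g s = p).card : ℝ) := by
    rw [Finset.card_eq_sum_card_fiberwise (f := g) (t := prs (PM M).charpoly (M 0).det E)
      (fun s hs => hgm s hs)]
    push_cast
    rfl
  rw [h1]
  have hpc := hprs E hE1
  calc ∑ p ∈ prs (PM M).charpoly (M 0).det E, ((T.filter fun s => g s = p).card : ℝ)
      ≤ ∑ _p ∈ prs (PM M).charpoly (M 0).det E,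
        K * X * (4 ^ (N - 1) * (1 + ((2 : ℝ) ^ t / X) ^ (N - 1))) := Finset.sum_le_sum hfib
    _ = ((prs (PM M).charpoly (M 0).det E).card : ℝ) *
        (K * X * (4 ^ (N - 1) * (1 + ((2 : ℝ) ^ t / X) ^ (N - 1)))) := by
        rw [Finset.sum_const, nsmul_eq_mul]
    _ ≤ (C₁ * (E : ℝ) ^ (1 + 1 / 8 : ℝ)) *
        (K * X * (4 ^ (N - 1) * (1 + ((2 : ℝ) ^ t / X) ^ (N - 1)))) := by
        gcongr
    _ ≤ (C₁ * (c * (X ^ 2 / 2 ^ t)) ^ (9 / 8 : ℝ)) *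
        (K * X * (4 ^ (N - 1) * (1 + ((2 : ℝ) ^ t / X) ^ (N - 1)))) := by
        have : (1 + 1 / 8 : ℝ) = 9 / 8 := by norm_num
        rw [this]
        gcongr
    _ = _ := by
        rw [Real.mul_rpow (by linarith) hY0.le]
        ring

/-- **The domination bound.** -/
theorem dom {M : Fin 2 → Matrix (Fin N) (Fin N) ℤ} (hM : Nice M) :
    ∃ C : ℝ, 0 < C ∧ ∀ (X κ : ℝ) (S : Finset (Fin N → ℤ)), 1 ≤ X → 0 < κ → κ ≤ 1 →
      (∀ s ∈ S, Prm s ∧ (ht s : ℝ) ≤ X ∧ X < 2 * ht s ∧ (dd M s : ℝ) ≤ κ * X ^ 2) →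
      ∑ s ∈ S, (dd M s : ℝ)⁻¹ ≤
        C * X ^ (N - 2) * (X ^ (-(1 / 6) : ℝ) + κ ^ (1 / 2 : ℝ)) := by
  classical
  have hN : 0 < N := by have := hM.four; omega
  have hN4 := hM.four
  obtain ⟨C₁, hC1, hlev⟩ := card_level hM
  obtain ⟨c₀, hc0, hlow⟩ := dd_low hM
  set β : ℝ := (N : ℝ) - 1 - 17 / 8 with hβ
  have hN4' : (4 : ℝ) ≤ N := by exact_mod_cast hN4
  have hβp : 7 / 8 ≤ β := by rw [hβ]; linarith
  obtain ⟨C₂, hC2, hup⟩ := geo_up β (by linarith)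
  obtain ⟨C₃, hC3, hdown⟩ := geo_down (17 / 8) (by norm_num)
  set c₁ : ℝ := c₀ / 4 with hc1
  have hc1p : 0 < c₁ := by positivity
  refine ⟨C₁ * (C₂ + C₃ * c₁ ^ (-(17 / 8) : ℝ)), by positivity, ?_⟩
  intro X κ S hX hκ hκ1 hS
  have hX0 : 0 < X := by linarith
  set F : Finset ℕ := S.image (fun s => Nat.log 2 (dd M s)) with hF
  have hdd0 : ∀ s ∈ S, dd M s ≠ 0 := fun s hs => dd_ne_zero hN (mx_ne_zero hM (hS s hs).1.ne)
  have hlog : ∀ s ∈ S, 2 ^ (Nat.log 2 (dd M s)) ≤ dd M s ∧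
      dd M s < 2 ^ (Nat.log 2 (dd M s) + 1) := fun s hs =>
    ⟨Nat.pow_log_le_self 2 (hdd0 s hs), Nat.lt_pow_succ_log_self (by norm_num) _⟩
  have h1 : ∑ s ∈ S, (dd M s : ℝ)⁻¹ = ∑ t ∈ F, ∑ s ∈ S.filter (fun s => Nat.log 2 (dd M s) = t),
      (dd M s : ℝ)⁻¹ := by
    rw [Finset.sum_fiberwise_of_maps_to]
    intro s hs
    exact Finset.mem_image_of_mem _ hs
  rw [h1]
  have h2 : ∀ t ∈ F, ∑ s ∈ S.filter (fun s => Nat.log 2 (dd M s) = t), (dd M s : ℝ)⁻¹ ≤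
      C₁ * (X ^ (13 / 4 : ℝ) * ((2 : ℝ) ^ t) ^ (-(17 / 8) : ℝ) +
        X ^ (13 / 4 - ((N : ℝ) - 1)) * ((2 : ℝ) ^ t) ^ β) := by
    intro t ht
    have h3 := hlev (S.filter fun s => Nat.log 2 (dd M s) = t) X t hX (by
      intro s hs
      rw [Finset.mem_filter] at hs
      obtain ⟨hsS, hst⟩ := hs
      have h4 := hlog s hsS
      rw [hst] at h4
      exact ⟨(hS s hsS).1, (hS s hsS).2.1, (hS s hsS).2.2.1, h4⟩)
    have ha0 : (0 : ℝ) < 2 ^ t := by positivity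
    have h4 : ∑ s ∈ S.filter (fun s => Nat.log 2 (dd M s) = t), (dd M s : ℝ)⁻¹ ≤
        ((S.filter (fun s => Nat.log 2 (dd M s) = t)).card : ℝ) * ((2 : ℝ) ^ t)⁻¹ := by
      rw [← nsmul_eq_mul, ← Finset.sum_const]
      refine Finset.sum_le_sum fun s hs => ?_
      rw [Finset.mem_filter] at hs
      have h5 := (hlog s hs.1).1
      rw [hs.2] at h5
      have h6 : ((2 : ℝ) ^ t) ≤ dd M s := by exact_mod_cast h5
      exact inv_anti₀ ha0 h6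
    refine h4.trans ?_
    calc ((S.filter (fun s => Nat.log 2 (dd M s) = t)).card : ℝ) * ((2 : ℝ) ^ t)⁻¹
        ≤ (C₁ * (X ^ 2 / 2 ^ t) ^ (9 / 8 : ℝ) * X * (1 + ((2 : ℝ) ^ t / X) ^ (N - 1))) *
          ((2 : ℝ) ^ t)⁻¹ := by gcongr
      _ = C₁ * (X ^ (13 / 4 : ℝ) * ((2 : ℝ) ^ t) ^ (-(17 / 8) : ℝ) +
          X ^ (13 / 4 - ((N : ℝ) - 1)) * ((2 : ℝ) ^ t) ^ β) := by
          set a : ℝ := (2 : ℝ) ^ t with ha
          have e1 : (X ^ 2 / a) ^ (9 / 8 : ℝ) = X ^ (9 / 4 : ℝ) * a ^ (-(9 / 8) : ℝ) := by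
            rw [Real.div_rpow (by positivity) ha0.le, ← Real.rpow_natCast, ← Real.rpow_mul hX0.le,
              Real.rpow_neg ha0.le, div_eq_mul_inv]
            norm_num
          have e2 : (a / X) ^ (N - 1) = a ^ ((N : ℝ) - 1) * X ^ (-((N : ℝ) - 1)) := by
            rw [← Real.rpow_natCast, Nat.cast_sub hN, Nat.cast_one,
              Real.div_rpow ha0.le hX0.le, Real.rpow_neg hX0.le, div_eq_mul_inv]
          have e3 : a⁻¹ = a ^ (-1 : ℝ) := (Real.rpow_neg_one a).symm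
          have e4 : X ^ (13 / 4 : ℝ) = X ^ (9 / 4 : ℝ) * X := by
            rw [← Real.rpow_add_one hX0.ne']
            norm_num
          have e5 : X ^ (13 / 4 - ((N : ℝ) - 1)) = X ^ (9 / 4 : ℝ) * X * X ^ (-((N : ℝ) - 1)) := by
            rw [← e4, ← Real.rpow_add hX0]
            ring_nf
          have e6 : a ^ (-(17 / 8) : ℝ) = a ^ (-(9 / 8) : ℝ) * a ^ (-1 : ℝ) := by
            rw [← Real.rpow_add ha0]
            norm_num
          have e7 : a ^ β = a ^ (-(9 / 8) : ℝ) * a ^ (-1 : ℝ) * a ^ ((N : ℝ) - 1) := by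
            rw [← e6, ← Real.rpow_add ha0, hβ]
            ring_nf
          rw [e1, e2, e3, e5, e4, e7, e6]
          ring
  refine (Finset.sum_le_sum h2).trans ?_
  rw [← Finset.mul_sum, Finset.sum_add_distrib, ← Finset.mul_sum, ← Finset.mul_sum]
  have h3 := hdown (c₁ * X ^ (2 / 3 : ℝ)) F (by positivity) (by
    intro t ht
    rw [hF, Finset.mem_image] at ht
    obtain ⟨s, hs, rfl⟩ := ht
    have h4 := hlow s (hS s hs).1
    have h5 := (hlog s hs).2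
    have h6 : (dd M s : ℝ) ≤ 2 * (2 : ℝ) ^ (Nat.log 2 (dd M s)) := by
      have : dd M s ≤ 2 * 2 ^ (Nat.log 2 (dd M s)) := by
        rw [pow_succ] at h5
        omega
      exact_mod_cast this
    have h7 : X ^ (2 / 3 : ℝ) ≤ 2 * (ht s : ℝ) ^ (2 / 3 : ℝ) := by
      calc X ^ (2 / 3 : ℝ) ≤ (2 * (ht s : ℝ)) ^ (2 / 3 : ℝ) := by
            apply Real.rpow_le_rpow hX0.le (hS s hs).2.2.1.le (by norm_num)
        _ = (2 : ℝ) ^ (2 / 3 : ℝ) * (ht s : ℝ) ^ (2 / 3 : ℝ) :=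
            Real.mul_rpow (by norm_num) (by positivity)
        _ ≤ 2 * (ht s : ℝ) ^ (2 / 3 : ℝ) := by
            gcongr
            calc (2 : ℝ) ^ (2 / 3 : ℝ) ≤ (2 : ℝ) ^ (1 : ℝ) :=
                  Real.rpow_le_rpow_of_exponent_le (by norm_num) (by norm_num)
              _ = 2 := Real.rpow_one _
    rw [hc1]
    nlinarith)
  have h4 := hup (κ * X ^ 2) F (by positivity) (by
    intro t ht
    rw [hF, Finset.mem_image] at ht
    obtain ⟨s, hs, rfl⟩ := ht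
    have h5 := (hlog s hs).1
    have h6 : (2 : ℝ) ^ (Nat.log 2 (dd M s)) ≤ dd M s := by exact_mod_cast h5
    exact h6.trans (hS s hs).2.2.2)
  have e1 : (c₁ * X ^ (2 / 3 : ℝ)) ^ (-(17 / 8) : ℝ) = c₁ ^ (-(17 / 8) : ℝ) *
      X ^ (-(17 / 12) : ℝ) := by
    rw [Real.mul_rpow hc1p.le (by positivity), ← Real.rpow_mul hX0.le]
    norm_num
  have e2 : (κ * X ^ 2) ^ β = κ ^ β * X ^ (2 * β) := by
    rw [Real.mul_rpow hκ.le (by positivity), ← Real.rpow_natCast, ← Real.rpow_mul hX0.le]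
    norm_num
  have e3 : X ^ (N - 2) = X ^ ((N : ℝ) - 2) := by
    rw [← Real.rpow_natCast, Nat.cast_sub (by omega)]
    norm_num
  have h5 : X ^ (13 / 4 : ℝ) * (C₃ * (c₁ * X ^ (2 / 3 : ℝ)) ^ (-(17 / 8) : ℝ)) ≤
      C₃ * c₁ ^ (-(17 / 8) : ℝ) * (X ^ (N - 2) * X ^ (-(1 / 6) : ℝ)) := by
    rw [e1, e3, ← Real.rpow_add hX0]
    have h6 : X ^ (13 / 4 : ℝ) * X ^ (-(17 / 12) : ℝ) ≤ X ^ ((N : ℝ) - 2 + -(1 / 6)) := by
      rw [← Real.rpow_add hX0]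
      apply Real.rpow_le_rpow_of_exponent_le hX
      linarith
    calc X ^ (13 / 4 : ℝ) * (C₃ * (c₁ ^ (-(17 / 8) : ℝ) * X ^ (-(17 / 12) : ℝ)))
        = C₃ * c₁ ^ (-(17 / 8) : ℝ) * (X ^ (13 / 4 : ℝ) * X ^ (-(17 / 12) : ℝ)) := by ring
      _ ≤ _ := by gcongr
  have h6 : X ^ (13 / 4 - ((N : ℝ) - 1)) * (C₂ * (κ * X ^ 2) ^ β) ≤
      C₂ * (X ^ (N - 2) * κ ^ (1 / 2 : ℝ)) := by
    have h7 : X ^ (13 / 4 - ((N : ℝ) - 1)) * X ^ (2 * β) = X ^ (N - 2) := by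
      rw [e3, ← Real.rpow_add hX0, hβ]
      ring_nf
    have h8 : κ ^ β ≤ κ ^ (1 / 2 : ℝ) :=
      Real.rpow_le_rpow_of_exponent_ge hκ hκ1 (by linarith)
    rw [e2]
    calc X ^ (13 / 4 - ((N : ℝ) - 1)) * (C₂ * (κ ^ β * X ^ (2 * β)))
        = C₂ * ((X ^ (13 / 4 - ((N : ℝ) - 1)) * X ^ (2 * β)) * κ ^ β) := by ring
      _ = C₂ * (X ^ (N - 2) * κ ^ β) := by rw [h7]
      _ ≤ _ := by gcongr
  have hp1 : 0 ≤ X ^ (N - 2) * X ^ (-(1 / 6) : ℝ) := by positivity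
  have hp2 : 0 ≤ X ^ (N - 2) * κ ^ (1 / 2 : ℝ) := by positivity
  have hp3 : 0 < c₁ ^ (-(17 / 8) : ℝ) := by positivity
  calc C₁ * (X ^ (13 / 4 : ℝ) * ∑ t ∈ F, ((2 : ℝ) ^ t) ^ (-(17 / 8) : ℝ) +
        X ^ (13 / 4 - ((N : ℝ) - 1)) * ∑ t ∈ F, ((2 : ℝ) ^ t) ^ β)
      ≤ C₁ * (X ^ (13 / 4 : ℝ) * (C₃ * (c₁ * X ^ (2 / 3 : ℝ)) ^ (-(17 / 8) : ℝ)) +
        X ^ (13 / 4 - ((N : ℝ) - 1)) * (C₂ * (κ * X ^ 2) ^ β)) := by gcongr
    _ ≤ C₁ * (C₃ * c₁ ^ (-(17 / 8) : ℝ) * (X ^ (N - 2) * X ^ (-(1 / 6) : ℝ)) +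
        C₂ * (X ^ (N - 2) * κ ^ (1 / 2 : ℝ))) := by gcongr
    _ ≤ C₁ * ((C₂ + C₃ * c₁ ^ (-(17 / 8) : ℝ)) * (X ^ (N - 2) * X ^ (-(1 / 6) : ℝ)) +
        (C₂ + C₃ * c₁ ^ (-(17 / 8) : ℝ)) * (X ^ (N - 2) * κ ^ (1 / 2 : ℝ))) := by
        have h7 : 0 ≤ C₃ * c₁ ^ (-(17 / 8) : ℝ) := by positivity
        gcongr
        · linarith
        · linarith
    _ = _ := by ring

end Pool.Agent.N852
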