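import Mathlib
import Pool.Agent.N852.Dom

/-!
The lattice of solutions `y` over a given `x`, and its projections.
-/

namespace Pool.Agent.N852

open Matrix Module
open Pool.Agent.H548.WM (ht bx le_ht le_ht' ht_le exists_ht mem_bx card_bx ht_pos)
open Pool.Agent.H548.BL (rv cv Inc inc_iff_rv rc norm_rc)

variable {N : ℕ}

/-- The complement of two indices. -/
abbrev Ka (i j : Fin N) : Type := {k : Fin N // k ≠ i ∧ k ≠ j}

theorem split_sum {R : Type*} [AddCommMonoid R] {i j : Fin N} (hij : i ≠ j) (f : Fin N → R) :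
    ∑ l, f l = f i + f j + ∑ l : Ka i j, f l := by
  classical
  rw [← Finset.sum_filter_add_sum_filter_not Finset.univ (fun k => k ≠ i ∧ k ≠ j), add_comm]
  congr 1
  · have h1 : (Finset.univ.filter fun x => ¬ (x ≠ i ∧ x ≠ j)) = {i, j} := by
      ext x
      simp only [Finset.mem_filter, Finset.mem_univ, true_and, Finset.mem_insert,
        Finset.mem_singleton]
      tauto
    rw [h1, Finset.sum_pair hij]
  · exact Finset.sum_subtype _ (by simp) f

theorem card_Ka {i j : Fin N} (hij : i ≠ j) : Fintype.card (Ka i j) = N - 2 := by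
  have h := split_sum hij (fun _ => (1 : ℕ))
  simp only [Finset.sum_const, Finset.card_univ, Fintype.card_fin, smul_eq_mul, mul_one] at h
  omega

/-- The restriction to the complement of two indices. -/
def res (i j : Fin N) : (Fin N → ℤ) →+ (Ka i j → ℤ) where
  toFun y l := y l
  map_zero' := rfl
  map_add' _ _ := rfl

/-- The lattice of the solutions `y` of the two equations. -/
def Lx (M : Fin 2 → Matrix (Fin N) (Fin N) ℤ) (x : Fin N → ℤ) : AddSubgroup (Fin N → ℤ) :=
  (AA M x).ker

theorem mem_Lx {M : Fin 2 → Matrix (Fin N) (Fin N) ℤ} {x y : Fin N → ℤ} :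
    y ∈ Lx M x ↔ ∀ k, rv M x k ⬝ᵥ y = 0 := by
  unfold Lx
  rw [AddMonoidHom.mem_ker]
  constructor
  · intro h k
    exact congrFun h k
  · intro h
    funext k
    exact h k

theorem mem_Lx_inc {M : Fin 2 → Matrix (Fin N) (Fin N) ℤ} {x y : Fin N → ℤ} :
    y ∈ Lx M x ↔ Inc M x y := by
  rw [mem_Lx, inc_iff_rv]

/-- Two coordinates of a solution are determined by the others. -/
theorem solve {R : Type*} [CommRing R] {M : Fin 2 → Matrix (Fin N) (Fin N) ℤ} {x y : Fin N → R}
    {i j : Fin N} (hij : i ≠ j) (h : ∀ k, rv M x k ⬝ᵥ y = 0) :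
    mm M x i j * y i = ∑ l : Ka i j, mm M x j l * y l ∧
    mm M x i j * y j = ∑ l : Ka i j, mm M x l i * y l := by
  have h0 := h 0
  have h1 := h 1
  unfold dotProduct at h0 h1
  rw [split_sum hij] at h0 h1
  have e0 : rv M x 0 i * y i + rv M x 0 j * y j = -∑ l : Ka i j, rv M x 0 l * y l := by
    linear_combination h0
  have e1 : rv M x 1 i * y i + rv M x 1 j * y j = -∑ l : Ka i j, rv M x 1 l * y l := by
    linear_combination h1
  constructor
  · have e2 : mm M x i j * y i = rv M x 1 j * (rv M x 0 i * y i + rv M x 0 j * y j) -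
        rv M x 0 j * (rv M x 1 i * y i + rv M x 1 j * y j) := by
      unfold mm
      ring
    rw [e2, e0, e1, mul_neg, mul_neg, Finset.mul_sum, Finset.mul_sum, sub_neg_eq_add, neg_add_eq_sub,
      ← Finset.sum_sub_distrib]
    refine Finset.sum_congr rfl fun l _ => ?_
    unfold mm
    ring
  · have e2 : mm M x i j * y j = rv M x 0 i * (rv M x 1 i * y i + rv M x 1 j * y j) -
        rv M x 1 i * (rv M x 0 i * y i + rv M x 0 j * y j) := by
      unfold mm
      ring
    rw [e2, e0, e1, mul_neg, mul_neg, Finset.mul_sum, Finset.mul_sum, sub_neg_eq_add, neg_add_eq_sub,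
      ← Finset.sum_sub_distrib]
    refine Finset.sum_congr rfl fun l _ => ?_
    unfold mm
    ring

theorem mm_self {R : Type*} [CommRing R] {M : Fin 2 → Matrix (Fin N) (Fin N) ℤ} {x : Fin N → R}
    {i : Fin N} : mm M x i i = 0 := by
  unfold mm
  ring

theorem ne_of_mm {R : Type*} [CommRing R] {M : Fin 2 → Matrix (Fin N) (Fin N) ℤ} {x : Fin N → R}
    {i j : Fin N} (h : mm M x i j ≠ 0) : i ≠ j := by
  rintro rfl
  exact h mm_self

theorem res_inj {M : Fin 2 → Matrix (Fin N) (Fin N) ℤ} {x : Fin N → ℤ} {i j : Fin N}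
    (h : mm M x i j ≠ 0) {y z : Fin N → ℤ} (hy : y ∈ Lx M x) (hz : z ∈ Lx M x)
    (hyz : res i j y = res i j z) : y = z := by
  have hij := ne_of_mm h
  have h1 := solve hij (mem_Lx.1 hy)
  have h2 := solve hij (mem_Lx.1 hz)
  have h3 : ∀ l : Ka i j, y l = z l := fun l => congrFun hyz l
  funext k
  by_cases hki : k = i
  · subst hki
    apply mul_left_cancel₀ h
    rw [h1.1, h2.1]
    exact Finset.sum_congr rfl fun l _ => by rw [h3 l]
  · by_cases hkj : k = j
    · subst hkj
      apply mul_left_cancel₀ h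
      rw [h1.2, h2.2]
      exact Finset.sum_congr rfl fun l _ => by rw [h3 l]
    · exact h3 ⟨k, hki, hkj⟩

/-- **The index formula.** -/
theorem index_res {M : Fin 2 → Matrix (Fin N) (Fin N) ℤ} {x : Fin N → ℤ} {i j : Fin N}
    (h : mm M x i j ≠ 0) :
    ((Lx M x).map (res i j)).index * Gx M x = (mm M x i j).natAbs := by
  have hij := ne_of_mm h
  let B : (Ka i j → ℤ) →+ (Fin 2 → ℤ) :=
    { toFun := fun z k => ∑ l : Ka i j, rv M x k l * z l
      map_zero' := by
        funext k
        simp
      map_add' := fun z w => by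
        funext k
        simp [mul_add, Finset.sum_add_distrib] }
  have hB : ∀ z k, B z k = ∑ l : Ka i j, rv M x k l * z l := fun z k => rfl
  set A : Matrix (Fin 2) (Fin 2) ℤ := of fun a k => rv M x k (![i, j] a) with hA
  have hdet : A.det = mm M x i j := by
    rw [det_fin_two]
    simp [hA, mm]
    ring
  have hAc : ∀ (c : Fin 2 → ℤ) k, (c ᵥ* A) k = c 0 * rv M x k i + c 1 * rv M x k j := by
    intro c k
    simp [hA, vecMul, dotProduct, Fin.sum_univ_two]
  have hAA : ∀ (y : Fin N → ℤ) k, AA M x y k =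
      rv M x k i * y i + rv M x k j * y j + B (res i j y) k := by
    intro y k
    rw [AA_apply, dotProduct, split_sum hij, hB]
    rfl
  -- a vector with prescribed values
  have hex : ∀ (c : Fin 2 → ℤ) (z : Ka i j → ℤ), ∃ y : Fin N → ℤ, y i = c 0 ∧ y j = c 1 ∧
      res i j y = z := by
    intro c z
    refine ⟨fun k => if h : k ≠ i ∧ k ≠ j then z ⟨k, h⟩ else if k = i then c 0 else c 1, ?_, ?_, ?_⟩
    · simp
    · simp [hij.symm]
    · funext l
      change (if h : (l : Fin N) ≠ i ∧ (l : Fin N) ≠ j then z ⟨l, h⟩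
        else if (l : Fin N) = i then c 0 else c 1) = z l
      rw [dif_pos l.2]
  have claim1 : (Lx M x).map (res i j) = (rowLat A).comap B := by
    ext z
    rw [AddSubgroup.mem_map, AddSubgroup.mem_comap, mem_rowLat]
    constructor
    · rintro ⟨y, hy, rfl⟩
      refine ⟨![-(y i), -(y j)], ?_⟩
      funext k
      rw [hAc]
      have h1 := congrFun (AddMonoidHom.mem_ker.1 hy) k
      rw [hAA, Pi.zero_apply] at h1
      simp only [Matrix.cons_val_zero, Matrix.cons_val_one]
      linear_combination -h1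
    · rintro ⟨c, hc⟩
      obtain ⟨y, hy1, hy2, hy3⟩ := hex (-c) z
      refine ⟨y, ?_, hy3⟩
      apply AddMonoidHom.mem_ker.2
      funext k
      rw [hAA, hy1, hy2, hy3, Pi.zero_apply, ← congrFun hc k, hAc, Pi.neg_apply, Pi.neg_apply]
      ring
  have claim2 : rowLat A ⊔ B.range = (AA M x).range := by
    apply le_antisymm
    · apply sup_le
      · rintro _ ⟨c, rfl⟩
        obtain ⟨y, hy1, hy2, hy3⟩ := hex c 0
        refine ⟨y, ?_⟩
        funext k
        rw [hAA, hy1, hy2, hy3, hAc, map_zero, Pi.zero_apply]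
        ring
      · rintro _ ⟨z, rfl⟩
        obtain ⟨y, hy1, hy2, hy3⟩ := hex 0 z
        refine ⟨y, ?_⟩
        funext k
        rw [hAA, hy1, hy2, hy3]
        simp
    · rintro _ ⟨y, rfl⟩
      rw [AddSubgroup.mem_sup]
      refine ⟨![y i, y j] ᵥ* A, ⟨_, rfl⟩, B (res i j y), ⟨_, rfl⟩, ?_⟩
      funext k
      rw [Pi.add_apply, hAc, hAA]
      simp only [Matrix.cons_val_zero, Matrix.cons_val_one]
      ring
  have h1 : ((Lx M x).map (res i j)).index = (rowLat A).relIndex (AA M x).range := by
    rw [claim1, AddSubgroup.index_comap, ← claim2, sup_comm, AddSubgroup.relIndex_sup_right]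
  have h2 : rowLat A ≤ (AA M x).range := by
    rw [← claim2]
    exact le_sup_left
  rw [h1, Gx, AddSubgroup.relIndex_mul_index h2, index_rowLat (by rw [hdet]; exact h), hdet]

end Pool.Agent.N852
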