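import Mathlib
import Pool.Agent.N852.Lat

/-!
The dichotomy: either the small solutions span, or there are few of them.
-/

namespace Pool.Agent.N852

open Matrix Module
open Pool.Agent.H548.WM (ht bx le_ht le_ht' ht_le exists_ht mem_bx card_bx ht_pos)
open Pool.Agent.H548.BL (rv cv Inc inc_iff_rv rc norm_rc)

variable {N : ℕ}

/-- The solutions of height at most `B`. -/
noncomputable def LB (M : Fin 2 → Matrix (Fin N) (Fin N) ℤ) (x : Fin N → ℤ) (B : ℕ) :
    Finset (Fin N → ℤ) := by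
  classical
  exact (bx N B).filter fun y => y ∈ Lx M x

theorem mem_LB {M : Fin 2 → Matrix (Fin N) (Fin N) ℤ} {x y : Fin N → ℤ} {B : ℕ} :
    y ∈ LB M x B ↔ ht y ≤ B ∧ y ∈ Lx M x := by
  classical
  unfold LB
  rw [Finset.mem_filter, mem_bx]

/-- The solutions of height at most `B` span. -/
def Spn (M : Fin 2 → Matrix (Fin N) (Fin N) ℤ) (x : Fin N → ℤ) (B : ℝ) : Prop :=
  ∃ v : Fin (N - 2) → Fin N → ℤ, (∀ a, v a ∈ Lx M x ∧ (ht (v a) : ℝ) ≤ B) ∧
    LinearIndependent ℤ v

theorem Spn.mono {M : Fin 2 → Matrix (Fin N) (Fin N) ℤ} {x : Fin N → ℤ} {B B' : ℝ}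
    (h : Spn M x B) (hB : B ≤ B') : Spn M x B' := by
  obtain ⟨v, hv, hl⟩ := h
  exact ⟨v, fun a => ⟨(hv a).1, (hv a).2.trans hB⟩, hl⟩

/-- Independent solutions project to independent vectors. -/
theorem det_res {M : Fin 2 → Matrix (Fin N) (Fin N) ℤ} {x : Fin N → ℤ} {i j : Fin N}
    (h : mm M x i j ≠ 0) {v : Fin (N - 2) → Fin N → ℤ} (hv : ∀ a, v a ∈ Lx M x)
    (hl : LinearIndependent ℤ v) (e : Ka i j ≃ Fin (N - 2)) :
    (Matrix.of fun a : Ka i j => res i j (v (e a))).det ≠ 0 := by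
  intro h0
  obtain ⟨c, hc0, hc⟩ := Matrix.exists_vecMul_eq_zero_iff.2 h0
  have h1 : res i j (∑ a, c a • v (e a)) = res i j 0 := by
    rw [map_sum, map_zero, ← hc]
    funext k
    simp only [map_zsmul, Finset.sum_apply, Pi.smul_apply, smul_eq_mul]
    rfl
  have h2 : (∑ a, c a • v (e a)) ∈ Lx M x :=
    AddSubgroup.sum_mem _ fun a _ => AddSubgroup.zsmul_mem _ (hv _) _
  have h3 := res_inj h h2 (AddSubgroup.zero_mem _) h1
  have h4 : LinearIndependent ℤ (fun a : Ka i j => v (e a)) := hl.comp e e.injective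
  rw [Fintype.linearIndependent_iff] at h4
  exact hc0 (funext (h4 c h3))

theorem natAbs_det_le {ι : Type*} [Fintype ι] [DecidableEq ι] (A : Matrix ι ι ℤ) (B : ℕ)
    (h : ∀ a b, (A a b).natAbs ≤ B) :
    A.det.natAbs ≤ (Fintype.card ι).factorial * B ^ (Fintype.card ι) := by
  have h1 := abs_det_le (A.map (Int.castRingHom ℝ)) (fun _ => (B : ℝ)) (by
    intro a b
    rw [Matrix.map_apply]
    have h2 : |(Int.castRingHom ℝ) (A a b)| = (((A a b).natAbs : ℕ) : ℝ) := by
      rw [Nat.cast_natAbs, Int.cast_abs]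
      rfl
    rw [h2]
    exact_mod_cast h a b)
  rw [Finset.prod_const, Finset.card_univ] at h1
  have h3 : (A.map (Int.castRingHom ℝ)).det = ((A.det : ℤ) : ℝ) := by
    rw [← RingHom.mapMatrix_apply, ← RingHom.map_det]
    rfl
  rw [h3] at h1
  have h4 : |((A.det : ℤ) : ℝ)| = ((A.det.natAbs : ℕ) : ℝ) := by
    rw [Nat.cast_natAbs, Int.cast_abs]
  rw [h4] at h1
  exact_mod_cast h1

/-- **The spanning case.** -/
theorem good_card {M : Fin 2 → Matrix (Fin N) (Fin N) ℤ} (hM : Nice M) {x : Fin N → ℤ}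
    (hx : x ≠ 0) {B : ℕ} (h : Spn M x B) :
    (LB M x B).card * dd M x ≤ 5 ^ (N - 2) * ((N - 2).factorial * B ^ (N - 2)) := by
  classical
  have hN : 0 < N := by have := hM.four; omega
  obtain ⟨i, j, hij⟩ := exists_mx hN M x
  have hmx := mx_ne_zero hM hx
  have h0 : mm M x i j ≠ 0 := by
    intro h0
    rw [h0, Int.natAbs_zero] at hij
    exact hmx hij.symm
  have hne := ne_of_mm h0
  obtain ⟨v, hv, hl⟩ := h
  have e : Ka i j ≃ Fin (N - 2) := Fintype.equivFinOfCardEq (card_Ka hne)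
  have hidx : ((Lx M x).map (res i j)).index = dd M x := by
    have h1 := index_res h0
    rw [hij, ← Gx_mul_dd hN M x, mul_comm] at h1
    exact Nat.eq_of_mul_eq_mul_left (Nat.pos_of_ne_zero (Gx_ne_zero hN hmx)) h1
  have hinj : Set.InjOn (res i j) (LB M x B : Set (Fin N → ℤ)) := by
    intro y hy z hz hyz
    exact res_inj h0 (mem_LB.1 (Finset.mem_coe.1 hy)).2 (mem_LB.1 (Finset.mem_coe.1 hz)).2 hyz
  have hMD := card_mul_index_le ((Lx M x).map (res i j)) ((LB M x B).image (res i j)) (by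
    intro s hs
    obtain ⟨y, hy, rfl⟩ := Finset.mem_image.1 hs
    exact ⟨y, (mem_LB.1 hy).2, rfl⟩) ⟨fun a : Ka i j => res i j (v (e a)), fun a =>
      Finset.mem_image_of_mem _ (mem_LB.2 ⟨by exact_mod_cast (hv (e a)).2, (hv (e a)).1⟩),
      det_res h0 (fun a => (hv a).1) hl e⟩ ((N - 2).factorial * B ^ (N - 2)) (by
    intro w hw
    have h1 := natAbs_det_le (Matrix.of w) B (by
      intro a b
      obtain ⟨y, hy, hyw⟩ := Finset.mem_image.1 (hw a)
      rw [of_apply, ← hyw]
      exact (le_ht y b).trans (mem_LB.1 hy).1)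
    rwa [card_Ka hne] at h1)
  rw [card_Ka hne, hidx, Finset.card_image_of_injOn hinj] at hMD
  exact hMD

open Classical in
/-- **The non-spanning case.** -/
theorem bad_card {M : Fin 2 → Matrix (Fin N) (Fin N) ℤ} {x : Fin N → ℤ} {B : ℕ}
    (hN : 2 < N) (h : ¬ Spn M x B) (ρ : ℕ) (hρ : 1 ≤ ρ) (hρB : ρ ≤ B) :
    ((LB M x B).card : ℝ) ≤ (3 * B / ρ) ^ (N - 3) * ((LB M x ρ).card : ℝ) := by
  set S : Set (Fin N → ℝ) := rc '' (LB M x B : Set (Fin N → ℤ)) with hS
  set V : Submodule ℝ (Fin N → ℝ) := Submodule.span ℝ S with hV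
  have hrank : finrank ℝ V ≤ N - 3 := by
    by_contra hcon
    apply h
    obtain ⟨b, hbS, hbspan, hbli⟩ := exists_linearIndependent ℝ S
    have hbfin : b.Finite := ((LB M x B).finite_toSet.image rc).subset hbS
    have : Fintype b := hbfin.fintype
    have hcard : finrank ℝ V = Fintype.card b := by
      rw [hV, ← hbspan]
      have h1 := finrank_span_eq_card hbli
      rwa [Subtype.range_coe] at h1
    have hle : N - 2 ≤ Fintype.card b := by omega
    obtain ⟨f⟩ : Nonempty (Fin (N - 2) ↪ b) := by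
      apply Function.Embedding.nonempty_of_card_le
      rwa [Fintype.card_fin]
    have hex : ∀ q : b, ∃ y ∈ LB M x B, rc y = q := fun q => hbS q.2
    choose w hw1 hw2 using hex
    refine ⟨fun a => w (f a), fun a => ⟨(mem_LB.1 (hw1 _)).2, by exact_mod_cast (mem_LB.1 (hw1 _)).1⟩, ?_⟩
    have h2 : LinearIndependent ℝ (fun a : Fin (N - 2) => rc (w (f a))) := by
      have h3 := hbli.comp f f.injective
      have h4 : (fun a : Fin (N - 2) => rc (w (f a))) = (fun q : b => (q : Fin N → ℝ)) ∘ f := by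
        funext a
        exact hw2 _
      rw [h4]
      exact h3
    exact (linearIndependent_algebraMap_comp_iff (R := ℤ) (S := ℝ)
      (v := fun a : Fin (N - 2) => w (f a))).1 h2
  set Λ : AddSubgroup (Fin N → ℤ) := AddSubgroup.closure (LB M x B : Set (Fin N → ℤ)) with hΛ
  have hΛL : Λ ≤ Lx M x := by
    rw [hΛ, AddSubgroup.closure_le]
    intro y hy
    exact (mem_LB.1 hy).2
  have hΛV : ∀ v ∈ Λ, rc v ∈ V := by
    intro v hv
    refine AddSubgroup.closure_induction (p := fun v _ => rc v ∈ V) ?_ ?_ ?_ ?_ hv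
    · intro y hy
      exact Submodule.subset_span ⟨y, hy, rfl⟩
    · have : rc (0 : Fin N → ℤ) = 0 := by
        funext k
        simp [rc]
      rw [this]
      exact V.zero_mem
    · intro y z _ _ hy hz
      have : rc (y + z) = rc y + rc z := by
        funext k
        simp [rc]
      rw [this]
      exact V.add_mem hy hz
    · intro y _ hy
      have : rc (-y) = -rc y := by
        funext k
        simp [rc]
      rw [this]
      exact V.neg_mem hy
  have h1 := Pool.Agent.H548.BL.doubling Λ V hrank hΛV B ρ hρ hρB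
  have h2 : (LB M x B).card ≤ ((bx N B).filter (· ∈ Λ)).card := by
    apply Finset.card_le_card
    intro y hy
    rw [Finset.mem_filter, mem_bx]
    exact ⟨(mem_LB.1 hy).1, AddSubgroup.subset_closure hy⟩
  have h3 : ((bx N ρ).filter (· ∈ Λ)).card ≤ (LB M x ρ).card := by
    apply Finset.card_le_card
    intro y hy
    rw [Finset.mem_filter, mem_bx] at hy
    exact mem_LB.2 ⟨hy.1, hΛL hy.2⟩
  calc ((LB M x B).card : ℝ) ≤ (((bx N B).filter (· ∈ Λ)).card : ℝ) := by exact_mod_cast h2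
    _ ≤ _ := h1
    _ ≤ _ := by
      have : (((bx N ρ).filter (· ∈ Λ)).card : ℝ) ≤ ((LB M x ρ).card : ℝ) := by exact_mod_cast h3
      gcongr

end Pool.Agent.N852
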