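import Mathlib
import Pool.Agent.N852.Dich

/-!
The domination bound over whole boxes.
-/

namespace Pool.Agent.N852

open Matrix Module
open Pool.Agent.H548.WM (ht bx le_ht le_ht' ht_le exists_ht mem_bx card_bx ht_pos)
open Pool.Agent.H548.BL (rv cv Inc inc_iff_rv rc norm_rc)

variable {N : ℕ}

theorem card_le_box {S : Finset (Fin N → ℤ)} {X : ℝ} (hX : 1 ≤ X)
    (h : ∀ s ∈ S, (ht s : ℝ) ≤ X) : (S.card : ℝ) ≤ (3 * X) ^ N := by
  have h1 : S ⊆ bx N ⌊X⌋₊ := by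
    intro s hs
    rw [mem_bx]
    exact Nat.le_floor (h s hs)
  have h2 := Finset.card_le_card h1
  have h3 : 1 ≤ ⌊X⌋₊ := Nat.le_floor (by simpa using hX)
  have h4 := Pool.Agent.H548.WM.card_bx_le N h3
  calc (S.card : ℝ) ≤ ((bx N ⌊X⌋₊).card : ℝ) := by exact_mod_cast h2
    _ ≤ (3 * (⌊X⌋₊ : ℝ)) ^ N := h4
    _ ≤ (3 * X) ^ N := by
      gcongr
      exact Nat.floor_le (by linarith)

/-- One dyadic shell. -/
theorem dom_shell {M : Fin 2 → Matrix (Fin N) (Fin N) ℤ} (hM : Nice M) :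
    ∃ C : ℝ, 0 < C ∧ ∀ (X : ℝ) (S : Finset (Fin N → ℤ)), 1 ≤ X →
      (∀ s ∈ S, Prm s ∧ (ht s : ℝ) ≤ X ∧ X < 2 * ht s) →
      ∑ s ∈ S, (dd M s : ℝ)⁻¹ ≤ C * X ^ (N - 2) := by
  classical
  obtain ⟨C, hC, h⟩ := dom hM
  have h4 := hM.four
  refine ⟨2 * C + 3 ^ N, by positivity, ?_⟩
  intro X S hX hS
  have hX0 : 0 < X := by linarith
  rw [← Finset.sum_filter_add_sum_filter_not S (fun s => (dd M s : ℝ) ≤ 1 * X ^ 2)]
  have h1 := h X 1 (S.filter fun s => (dd M s : ℝ) ≤ 1 * X ^ 2) hX one_pos le_rfl (by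
    intro s hs
    rw [Finset.mem_filter] at hs
    exact ⟨(hS s hs.1).1, (hS s hs.1).2.1, (hS s hs.1).2.2, hs.2⟩)
  have h2 : X ^ (-(1 / 6) : ℝ) ≤ 1 :=
    Real.rpow_le_one_of_one_le_of_nonpos hX (by norm_num)
  have h3 : ∑ s ∈ S.filter (fun s => ¬ (dd M s : ℝ) ≤ 1 * X ^ 2), (dd M s : ℝ)⁻¹ ≤
      3 ^ N * X ^ (N - 2) := by
    calc ∑ s ∈ S.filter (fun s => ¬ (dd M s : ℝ) ≤ 1 * X ^ 2), (dd M s : ℝ)⁻¹
        ≤ ∑ _s ∈ S.filter (fun s => ¬ (dd M s : ℝ) ≤ 1 * X ^ 2), (X ^ 2)⁻¹ := by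
          refine Finset.sum_le_sum fun s hs => ?_
          rw [Finset.mem_filter, not_le, one_mul] at hs
          exact inv_anti₀ (by positivity) hs.2.le
      _ = ((S.filter (fun s => ¬ (dd M s : ℝ) ≤ 1 * X ^ 2)).card : ℝ) * (X ^ 2)⁻¹ := by
          rw [Finset.sum_const, nsmul_eq_mul]
      _ ≤ (3 * X) ^ N * (X ^ 2)⁻¹ := by
          gcongr
          apply card_le_box hX
          intro s hs
          exact (hS s (Finset.mem_filter.1 hs).1).2.1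
      _ = 3 ^ N * X ^ (N - 2) := by
          rw [mul_pow]
          have : X ^ N = X ^ (N - 2) * X ^ 2 := by
            rw [← pow_add]
            congr 1
            omega
          rw [this]
          field_simp
  have h5 : C * X ^ (N - 2) * (X ^ (-(1 / 6) : ℝ) + 1 ^ (1 / 2 : ℝ)) ≤ C * X ^ (N - 2) * 2 := by
    gcongr
    rw [Real.one_rpow]
    linarith
  linarith

/-- **All primitive vectors.** -/
theorem dom_all {M : Fin 2 → Matrix (Fin N) (Fin N) ℤ} (hM : Nice M) :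
    ∃ C : ℝ, 0 < C ∧ ∀ (A : ℝ) (S : Finset (Fin N → ℤ)), 1 ≤ A →
      (∀ s ∈ S, Prm s ∧ (ht s : ℝ) ≤ A) →
      ∑ s ∈ S, (dd M s : ℝ)⁻¹ ≤ C * A ^ (N - 2) := by
  classical
  obtain ⟨C, hC, h⟩ := dom_shell hM
  have h4 := hM.four
  refine ⟨2 * C, by positivity, ?_⟩
  intro A S hA hS
  have hA0 : 0 < A := by linarith
  have hh : ∀ s ∈ S, (1 : ℝ) ≤ ht s := fun s hs => by
    exact_mod_cast ht_pos (hS s hs).1.ne
  set g : (Fin N → ℤ) → ℕ := fun s => Nat.log 2 ⌊A / ht s⌋₊ with hg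
  have hgs : ∀ s ∈ S, (ht s : ℝ) ≤ A / 2 ^ g s ∧ A / 2 ^ g s < 2 * ht s := by
    intro s hs
    have h1 := hh s hs
    have h2 : 1 ≤ ⌊A / ht s⌋₊ := by
      apply Nat.le_floor
      rw [Nat.cast_one, le_div_iff₀ (by linarith), one_mul]
      exact (hS s hs).2
    have h3 := Nat.pow_log_le_self 2 (x := ⌊A / ht s⌋₊) (by omega)
    have h5 := Nat.lt_pow_succ_log_self (b := 2) (by norm_num) ⌊A / ht s⌋₊
    have h6 : ((2 : ℝ) ^ g s) ≤ A / ht s := by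
      calc ((2 : ℝ) ^ g s) ≤ (⌊A / ht s⌋₊ : ℝ) := by exact_mod_cast h3
        _ ≤ A / ht s := Nat.floor_le (by positivity)
    have h7 : A / ht s < 2 ^ (g s + 1) := by
      calc A / ht s < (⌊A / ht s⌋₊ : ℝ) + 1 := Nat.lt_floor_add_one _
        _ ≤ 2 ^ (g s + 1) := by
          have : ⌊A / ht s⌋₊ + 1 ≤ 2 ^ (g s + 1) := h5
          exact_mod_cast this
    constructor
    · rw [le_div_iff₀ (by positivity)]
      rw [le_div_iff₀ (by linarith)] at h6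
      linarith
    · rw [div_lt_iff₀ (by positivity)]
      rw [div_lt_iff₀ (by linarith), pow_succ] at h7
      linarith
  set F := S.image g with hF
  have h1 : ∑ s ∈ S, (dd M s : ℝ)⁻¹ = ∑ t ∈ F, ∑ s ∈ S.filter (fun s => g s = t),
      (dd M s : ℝ)⁻¹ := by
    rw [Finset.sum_fiberwise_of_maps_to]
    intro s hs
    exact Finset.mem_image_of_mem _ hs
  rw [h1]
  have h2 : ∀ t ∈ F, ∑ s ∈ S.filter (fun s => g s = t), (dd M s : ℝ)⁻¹ ≤
      C * A ^ (N - 2) * (1 / 2) ^ t := by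
    intro t ht'
    obtain ⟨s0, hs0, hst0⟩ := Finset.mem_image.1 ht'
    have h3 := h (A / 2 ^ t) (S.filter fun s => g s = t) (by
      have := (hgs s0 hs0).1
      rw [hst0] at this
      exact (hh s0 hs0).trans this) (by
      intro s hs
      rw [Finset.mem_filter] at hs
      have := hgs s hs.1
      rw [hs.2] at this
      exact ⟨(hS s hs.1).1, this⟩)
    refine h3.trans ?_
    rw [div_pow]
    have h5 : (1 : ℝ) / ((2 : ℝ) ^ t) ^ (N - 2) ≤ (1 / 2) ^ t := by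
      rw [_root_.one_div_pow]
      apply one_div_le_one_div_of_le (by positivity)
      apply le_self_pow₀ (one_le_pow₀ (by norm_num)) (by omega)
    calc C * (A ^ (N - 2) / ((2 : ℝ) ^ t) ^ (N - 2))
        = C * A ^ (N - 2) * (1 / ((2 : ℝ) ^ t) ^ (N - 2)) := by ring
      _ ≤ _ := by gcongr
  calc _ ≤ ∑ t ∈ F, C * A ^ (N - 2) * (1 / 2) ^ t := Finset.sum_le_sum h2
    _ = C * A ^ (N - 2) * ∑ t ∈ F, (1 / 2 : ℝ) ^ t := by rw [Finset.mul_sum]
    _ ≤ C * A ^ (N - 2) * 2 := by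
        gcongr
        calc ∑ t ∈ F, (1 / 2 : ℝ) ^ t ≤ ∑' t : ℕ, (1 / 2 : ℝ) ^ t :=
              Summable.sum_le_tsum F (fun _ _ => by positivity) summable_geometric_two
          _ = 2 := tsum_geometric_two
    _ = 2 * C * A ^ (N - 2) := by ring

end Pool.Agent.N852
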