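import Mathlib
import Pool.Agent.N852.DomAll

/-!
The upper bound of the expected order for the number of pairs in boxes.
-/

namespace Pool.Agent.N852

open Matrix Module Polynomial
open Pool.Agent.H548.WM (ht bx le_ht le_ht' ht_le exists_ht mem_bx card_bx ht_pos)
open Pool.Agent.H548.BL (rv cv Inc inc_iff_rv rc norm_rc tr rv_tr cv_tr inc_tr tr_tr)

variable {N : ℕ}

theorem ht_smul (g : ℕ) (z : Fin N → ℤ) : ht ((g : ℤ) • z) = g * ht z := by
  have h1 := norm_rc ((g : ℤ) • z)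
  have h2 : rc ((g : ℤ) • z) = (g : ℝ) • rc z := by
    funext k
    simp [rc]
  rw [h2, norm_smul, norm_rc, Real.norm_natCast] at h1
  exact_mod_cast h1.symm

theorem exists_prim {y : Fin N → ℤ} (hy : y ≠ 0) : ∃ (g : ℕ) (z : Fin N → ℤ), 1 ≤ g ∧ Prm z ∧
    y = (g : ℤ) • z := by
  have hex : ∃ k, y k ≠ 0 := by
    by_contra hc
    push Not at hc
    exact hy (funext hc)
  obtain ⟨g, u, hg, hu, hd⟩ := Pool.Agent.H548.WM.exists_gcd y hex
  choose z hz using hd
  have hgZ : (g : ℤ) ≠ 0 := by exact_mod_cast (by omega : g ≠ 0)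
  refine ⟨g, z, hg, ⟨u, ?_⟩, ?_⟩
  · have : (g : ℤ) * (z ⬝ᵥ u) = g * 1 := by
      calc (g : ℤ) * (z ⬝ᵥ u) = ∑ i, u i * y i := by
            unfold dotProduct
            rw [Finset.mul_sum]
            refine Finset.sum_congr rfl fun k _ => ?_
            rw [hz k]
            ring
        _ = g * 1 := by rw [hu, mul_one]
    exact mul_left_cancel₀ hgZ this
  · funext k
    rw [hz k]
    rfl

/-- Primitive solutions. -/
noncomputable def LP (M : Fin 2 → Matrix (Fin N) (Fin N) ℤ) (x : Fin N → ℤ) (B : ℕ) :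
    Finset (Fin N → ℤ) := by
  classical
  exact (LB M x B).filter Prm

theorem mem_LP {M : Fin 2 → Matrix (Fin N) (Fin N) ℤ} {x y : Fin N → ℤ} {B : ℕ} :
    y ∈ LP M x B ↔ ht y ≤ B ∧ y ∈ Lx M x ∧ Prm y := by
  classical
  unfold LP
  rw [Finset.mem_filter, mem_LB, and_assoc]

theorem smul_mem_Lx {M : Fin 2 → Matrix (Fin N) (Fin N) ℤ} {x z : Fin N → ℤ} {g : ℤ}
    (hg : g ≠ 0) : g • z ∈ Lx M x ↔ z ∈ Lx M x := by
  rw [mem_Lx, mem_Lx]
  refine forall_congr' fun k => ?_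
  rw [dotProduct_smul, smul_eq_mul, mul_eq_zero]
  constructor
  · rintro (h | h)
    · exact absurd h hg
    · exact h
  · exact Or.inr

theorem LB_cover (M : Fin 2 → Matrix (Fin N) (Fin N) ℤ) (x : Fin N → ℤ) (B : ℕ) :
    ((LB M x B).card : ℝ) ≤ 1 + ∑ d ∈ Finset.Icc 1 B, ((LP M x (B / d)).card : ℝ) := by
  classical
  have hcov : LB M x B ⊆ {0} ∪ (Finset.Icc 1 B).biUnion fun d => (LP M x (B / d)).image
      fun z => (d : ℤ) • z := by
    intro y hy
    obtain ⟨hh, hL⟩ := mem_LB.1 hy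
    rw [Finset.mem_union, Finset.mem_singleton]
    by_cases h0 : y = 0
    · left; exact h0
    right
    obtain ⟨g, z, hg, hz, rfl⟩ := exists_prim h0
    have hgZ : (g : ℤ) ≠ 0 := by exact_mod_cast (by omega : g ≠ 0)
    rw [ht_smul] at hh
    have hz1 := ht_pos hz.ne
    rw [Finset.mem_biUnion]
    refine ⟨g, ?_, Finset.mem_image_of_mem _ (mem_LP.2 ⟨?_, (smul_mem_Lx hgZ).1 hL, hz⟩)⟩
    · rw [Finset.mem_Icc]
      exact ⟨hg, le_trans (Nat.le_mul_of_pos_right _ hz1) hh⟩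
    · rw [Nat.le_div_iff_mul_le (by omega)]
      linarith
  have h1 := Finset.card_le_card hcov
  have h2 := Finset.card_union_le {(0 : Fin N → ℤ)} ((Finset.Icc 1 B).biUnion fun d =>
    (LP M x (B / d)).image fun z => (d : ℤ) • z)
  have h3 : ((Finset.Icc 1 B).biUnion fun d => (LP M x (B / d)).image fun z => (d : ℤ) • z).card ≤
      ∑ d ∈ Finset.Icc 1 B, (LP M x (B / d)).card :=
    Finset.card_biUnion_le.trans (Finset.sum_le_sum fun d _ => Finset.card_image_le)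
  rw [Finset.card_singleton] at h2
  have h4 : (LB M x B).card ≤ 1 + ∑ d ∈ Finset.Icc 1 B, (LP M x (B / d)).card := by omega
  exact_mod_cast h4

/-- Primitive vectors in the box. -/
noncomputable def XP (N A : ℕ) : Finset (Fin N → ℤ) := by
  classical
  exact (bx N A).filter Prm

theorem mem_XP {A : ℕ} {x : Fin N → ℤ} : x ∈ XP N A ↔ ht x ≤ A ∧ Prm x := by
  classical
  unfold XP
  rw [Finset.mem_filter, mem_bx]

/-- The number of primitive pairs in the boxes. -/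
noncomputable def PN (M : Fin 2 → Matrix (Fin N) (Fin N) ℤ) (A B : ℕ) : ℕ :=
  ∑ x ∈ XP N A, (LP M x B).card

theorem PN_tr (M : Fin 2 → Matrix (Fin N) (Fin N) ℤ) (A B : ℕ) : PN (tr M) B A = PN M A B := by
  classical
  have h1 : ∀ (M : Fin 2 → Matrix (Fin N) (Fin N) ℤ) (A B : ℕ), PN M A B =
      ∑ x ∈ XP N A, ∑ y ∈ XP N B, if Inc M x y then 1 else 0 := by
    intro M A B
    refine Finset.sum_congr rfl fun x _ => ?_
    rw [← Finset.card_filter]
    congr 1
    ext y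
    rw [mem_LP, Finset.mem_filter, mem_XP, mem_Lx_inc]
    tauto
  rw [h1, h1, Finset.sum_comm]
  refine Finset.sum_congr rfl fun x _ => Finset.sum_congr rfl fun y _ => ?_
  simp only [inc_tr]

theorem nice_tr {M : Fin 2 → Matrix (Fin N) (Fin N) ℤ} (hM : Nice M) : Nice (tr M) := by
  refine ⟨hM.four, ?_, ?_⟩
  · change ((M 0)ᵀ).det ≠ 0
    rw [det_transpose]
    exact hM.det
  · have h1 : PM (tr M) = (M 1 * (M 0).adjugate)ᵀ := by
      change (M 0)ᵀ.adjugate * (M 1)ᵀ = _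
      rw [← adjugate_transpose, ← transpose_mul]
    have h2 : (PM (tr M)).charpoly = (PM M).charpoly := by
      rw [h1, charpoly_transpose, charpoly_mul_comm]
      rfl
    rw [h2]
    exact hM.irr

theorem sum_inv_sq_le (B : ℕ) : ∑ d ∈ Finset.Icc 1 B, (1 / (d : ℝ)) ^ 2 ≤ 2 := by
  have h : ∀ B : ℕ, 1 ≤ B →
      ∑ d ∈ Finset.Icc 1 B, (1 / (d : ℝ)) ^ 2 ≤ (2 : ℝ) - 1 / (B : ℝ) := by
    intro B hB
    induction B, hB using Nat.le_induction with
    | base => norm_num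
    | succ n hn ih =>
      rw [Finset.sum_Icc_succ_top (by omega)]
      have hn0 : (0 : ℝ) < n := by exact_mod_cast hn
      push_cast
      have : (1 / ((n : ℝ) + 1)) ^ 2 ≤ 1 / n - 1 / (n + 1) := by
        rw [div_sub_div _ _ hn0.ne' (by linarith), div_pow, div_le_div_iff₀ (by positivity)
          (by positivity)]
        nlinarith
      linarith
  rcases Nat.eq_zero_or_pos B with h0 | h0
  · subst h0
    simp
  · have h1 := h B h0
    have : (0 : ℝ) ≤ 1 / (B : ℝ) := by positivity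
    linarith

theorem sum_div_pow_le (C ρ : ℝ) (r B : ℕ) (hr : 2 ≤ r) (hC : 0 ≤ C) (hρ : 0 ≤ ρ) :
    ∑ d ∈ Finset.Icc 1 B, C * (ρ / (d : ℝ)) ^ r ≤ 2 * C * ρ ^ r := by
  calc ∑ d ∈ Finset.Icc 1 B, C * (ρ / (d : ℝ)) ^ r
      ≤ ∑ d ∈ Finset.Icc 1 B, C * ρ ^ r * (1 / (d : ℝ)) ^ 2 := by
        refine Finset.sum_le_sum fun d hd => ?_
        rw [Finset.mem_Icc] at hd
        have hd1 : (1 : ℝ) ≤ d := by exact_mod_cast hd.1
        have h1 : (ρ / (d : ℝ)) ^ r = ρ ^ r * (1 / (d : ℝ)) ^ r := by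
          rw [← mul_pow]
          congr 1
          ring
        rw [h1, ← mul_assoc]
        apply mul_le_mul_of_nonneg_left _ (by positivity)
        apply pow_le_pow_of_le_one (by positivity) _ hr
        rw [div_le_one (by linarith)]
        exact hd1
    _ = C * ρ ^ r * ∑ d ∈ Finset.Icc 1 B, (1 / (d : ℝ)) ^ 2 := by rw [Finset.mul_sum]
    _ ≤ C * ρ ^ r * 2 := by
        gcongr
        exact sum_inv_sq_le B
    _ = 2 * C * ρ ^ r := by ring

/-- The induction step. -/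
theorem pairs_step {M : Fin 2 → Matrix (Fin N) (Fin N) ℤ} (hM : Nice M) :
    ∃ K₀ : ℝ, 0 < K₀ ∧ ∀ K : ℝ, K₀ ≤ K → ∀ A B : ℕ, 1 ≤ A → A ≤ B →
      (∀ B' < B, 1 ≤ B' → (PN M A B' : ℝ) ≤ K * ((A : ℝ) * B') ^ (N - 2)) →
      (PN M A B : ℝ) ≤ K * ((A : ℝ) * B) ^ (N - 2) := by
  classical
  have h4 := hM.four
  obtain ⟨C, hC, hdom⟩ := dom_all hM
  set r := N - 2 with hr
  have hr2 : 2 ≤ r := by omega
  obtain ⟨q, hq⟩ : ∃ q : ℕ, q = 4 * 6 ^ (r - 1) := ⟨_, rfl⟩
  have hq2 : 2 ≤ q := by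
    rw [hq]
    have : 0 < 6 ^ (r - 1) := pow_pos (by norm_num) _
    omega
  have hq1 : 1 ≤ q := by omega
  have hq0 : (0 : ℝ) < q := by exact_mod_cast hq1
  set C₁ : ℝ := 5 ^ r * r.factorial with hC1
  set C₂ : ℝ := (6 * q) ^ (r - 1) * 3 ^ N with hC2
  refine ⟨2 * (C₁ * C + C₂) + (3 * q) ^ N * (3 * q) ^ N, by positivity, ?_⟩
  intro K hK A B hA hAB hind
  have hB : 1 ≤ B := hA.trans hAB
  have hA0 : (1 : ℝ) ≤ A := by exact_mod_cast hA
  have hB0 : (1 : ℝ) ≤ B := by exact_mod_cast hB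
  have hABr : (A : ℝ) ≤ B := by exact_mod_cast hAB
  have hK0 : 0 ≤ K := le_trans (by positivity) hK
  have hAB1 : (1 : ℝ) ≤ ((A : ℝ) * B) ^ r := one_le_pow₀ (by nlinarith)
  rcases lt_or_ge B q with hBq | hBq
  · -- small boxes
    have h1 : (PN M A B : ℝ) ≤ (3 * q) ^ N * (3 * q) ^ N := by
      unfold PN
      push_cast
      calc ∑ x ∈ XP N A, ((LP M x B).card : ℝ) ≤ ∑ _x ∈ XP N A, (3 * (q : ℝ)) ^ N := by
            refine Finset.sum_le_sum fun x _ => ?_
            refine card_le_box (by exact_mod_cast hq1) fun y hy => ?_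
            have := (mem_LP.1 hy).1
            exact_mod_cast this.trans hBq.le
        _ = ((XP N A).card : ℝ) * (3 * q) ^ N := by rw [Finset.sum_const, nsmul_eq_mul]
        _ ≤ (3 * q) ^ N * (3 * q) ^ N := by
            gcongr
            refine card_le_box (by exact_mod_cast hq1) fun y hy => ?_
            have := (mem_XP.1 hy).1
            exact_mod_cast (this.trans hAB).trans hBq.le
    have h2 : (3 * (q : ℝ)) ^ N * (3 * q) ^ N ≤ K := by
      have : 0 ≤ C₁ * C + C₂ := by positivity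
      linarith
    calc (PN M A B : ℝ) ≤ K * 1 := by linarith
      _ ≤ K * ((A : ℝ) * B) ^ r := by gcongr
  · obtain ⟨ρ, hρ⟩ : ∃ ρ : ℕ, ρ = B / q := ⟨_, rfl⟩
    have hρ1 : 1 ≤ ρ := by
      rw [hρ]
      exact (Nat.one_le_div_iff (by omega)).2 hBq
    have hρB : ρ ≤ B := by
      rw [hρ]
      exact Nat.div_le_self _ _
    have hρ0 : (1 : ℝ) ≤ ρ := by exact_mod_cast hρ1
    have hρq : (ρ : ℝ) ≤ B / q := by
      rw [hρ]
      exact Nat.cast_div_le
    have hBρ : (3 * (B : ℝ) / ρ) ≤ 6 * q := by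
      rw [div_le_iff₀ (by linarith)]
      have h1 : B < (ρ + 1) * q := by
        rw [hρ]
        have := Nat.lt_div_mul_add (a := B) (show 0 < q by omega)
        linarith
      have h2 : (B : ℝ) ≤ (ρ + 1) * q := by exact_mod_cast h1.le
      nlinarith
    have hx : ∀ x ∈ XP N A, ((LP M x B).card : ℝ) ≤ C₁ * (B : ℝ) ^ r * (dd M x : ℝ)⁻¹ +
        (6 * q) ^ (r - 1) * (1 + ∑ d ∈ Finset.Icc 1 ρ, ((LP M x (ρ / d)).card : ℝ)) := by
      intro x hx
      have hxp := (mem_XP.1 hx).2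
      have hLP : ((LP M x B).card : ℝ) ≤ (LB M x B).card := by
        have : LP M x B ⊆ LB M x B := by
          intro y hy
          rw [mem_LP] at hy
          exact mem_LB.2 ⟨hy.1, hy.2.1⟩
        exact_mod_cast Finset.card_le_card this
      have hd0 : (0 : ℝ) < dd M x := by
        exact_mod_cast Nat.pos_of_ne_zero (dd_ne_zero (by omega) (mx_ne_zero hM hxp.ne))
      by_cases hs : Spn M x B
      · have h1 := good_card hM hxp.ne hs
        have h2 : ((LB M x B).card : ℝ) * dd M x ≤ C₁ * (B : ℝ) ^ r := by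
          have h3 : ((LB M x B).card : ℝ) * dd M x ≤ 5 ^ r * (r.factorial * (B : ℝ) ^ r) := by
            exact_mod_cast h1
          rw [hC1]
          linarith
        have h3 : ((LB M x B).card : ℝ) ≤ C₁ * (B : ℝ) ^ r * (dd M x : ℝ)⁻¹ := by
          rw [← div_eq_mul_inv, le_div_iff₀ hd0]
          exact h2
        have h5 : 0 ≤ (6 * (q : ℝ)) ^ (r - 1) *
            (1 + ∑ d ∈ Finset.Icc 1 ρ, ((LP M x (ρ / d)).card : ℝ)) := by
          have h6 : 0 ≤ ∑ d ∈ Finset.Icc 1 ρ, ((LP M x (ρ / d)).card : ℝ) :=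
            Finset.sum_nonneg fun _ _ => Nat.cast_nonneg _
          exact mul_nonneg (by positivity) (by linarith)
        linarith
      · have h1 := bad_card (by omega) hs ρ hρ1 hρB
        have h2 := LB_cover M x ρ
        have h3 : N - 3 = r - 1 := by omega
        rw [h3] at h1
        have h5 : 0 ≤ C₁ * (B : ℝ) ^ r * (dd M x : ℝ)⁻¹ := by positivity
        calc ((LP M x B).card : ℝ) ≤ (LB M x B).card := hLP
          _ ≤ (3 * B / ρ) ^ (r - 1) * ((LB M x ρ).card : ℝ) := h1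
          _ ≤ (6 * q) ^ (r - 1) *
              (1 + ∑ d ∈ Finset.Icc 1 ρ, ((LP M x (ρ / d)).card : ℝ)) := by gcongr
          _ ≤ _ := by linarith
    have hsum : (PN M A B : ℝ) ≤ ∑ x ∈ XP N A, (C₁ * (B : ℝ) ^ r * (dd M x : ℝ)⁻¹ +
        (6 * q) ^ (r - 1) * (1 + ∑ d ∈ Finset.Icc 1 ρ, ((LP M x (ρ / d)).card : ℝ))) := by
      unfold PN
      push_cast
      exact Finset.sum_le_sum hx
    rw [Finset.sum_add_distrib, ← Finset.mul_sum, ← Finset.mul_sum, Finset.sum_add_distrib,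
      Finset.sum_comm] at hsum
    have h1 : ∑ x ∈ XP N A, (dd M x : ℝ)⁻¹ ≤ C * (A : ℝ) ^ r :=
      hdom A (XP N A) hA0 fun s hs => ⟨(mem_XP.1 hs).2, by exact_mod_cast (mem_XP.1 hs).1⟩
    have h2 : ∑ _x ∈ XP N A, (1 : ℝ) ≤ 3 ^ N * ((A : ℝ) * B) ^ r := by
      rw [Finset.sum_const, nsmul_eq_mul, mul_one]
      refine (card_le_box hA0 fun s hs => by exact_mod_cast (mem_XP.1 hs).1).trans ?_
      rw [mul_pow, mul_pow]
      have h3 : (A : ℝ) ^ N = (A : ℝ) ^ r * (A : ℝ) ^ 2 := by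
        rw [← pow_add]
        congr 1
        omega
      rw [h3]
      gcongr
      calc (A : ℝ) ^ 2 ≤ (B : ℝ) ^ 2 := by gcongr
        _ ≤ (B : ℝ) ^ r := pow_le_pow_right₀ hB0 hr2
    have h3 : ∑ d ∈ Finset.Icc 1 ρ, ∑ x ∈ XP N A, ((LP M x (ρ / d)).card : ℝ) ≤
        2 * (K * (A : ℝ) ^ r) * (ρ : ℝ) ^ r := by
      refine le_trans ?_ (sum_div_pow_le (K * (A : ℝ) ^ r) ρ r ρ hr2 (by positivity)
        (by positivity))
      refine Finset.sum_le_sum fun d hd => ?_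
      rw [Finset.mem_Icc] at hd
      have h5 : ∑ x ∈ XP N A, ((LP M x (ρ / d)).card : ℝ) = (PN M A (ρ / d) : ℝ) := by
        unfold PN
        push_cast
        rfl
      rw [h5]
      have hd1 : 1 ≤ ρ / d := (Nat.one_le_div_iff (by omega)).2 hd.2
      have hlt : ρ / d < B := by
        have h6 : ρ / d ≤ ρ := Nat.div_le_self _ _
        have h7 : ρ < B := by
          rw [hρ]
          exact Nat.div_lt_self (by omega) (by omega)
        omega
      refine (hind (ρ / d) hlt hd1).trans ?_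
      rw [mul_pow, ← mul_assoc]
      gcongr
      exact Nat.cast_div_le
    have h5 : (6 * (q : ℝ)) ^ (r - 1) * (2 * (K * (A : ℝ) ^ r) * (ρ : ℝ) ^ r) ≤
        K / 2 * ((A : ℝ) * B) ^ r := by
      have h6 : (ρ : ℝ) ^ r ≤ (B : ℝ) ^ r / (q : ℝ) ^ r := by
        rw [← div_pow]
        gcongr
      have h7 : (q : ℝ) ^ r = (q : ℝ) ^ (r - 1) * q := by
        rw [← pow_succ]
        congr 1
        omega
      calc (6 * (q : ℝ)) ^ (r - 1) * (2 * (K * (A : ℝ) ^ r) * (ρ : ℝ) ^ r)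
          ≤ (6 * (q : ℝ)) ^ (r - 1) * (2 * (K * (A : ℝ) ^ r) * ((B : ℝ) ^ r / (q : ℝ) ^ r)) := by
            gcongr
        _ = K / 2 * ((A : ℝ) * B) ^ r * (4 * 6 ^ (r - 1) / q) := by
            rw [h7, mul_pow, mul_pow]
            field_simp
            ring
        _ = K / 2 * ((A : ℝ) * B) ^ r := by
            have h8 : (q : ℝ) = 4 * 6 ^ (r - 1) := by
              rw [hq]
              push_cast
              ring
            rw [← h8, div_self hq0.ne', mul_one]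
    have h6 : C₁ * (B : ℝ) ^ r * ∑ x ∈ XP N A, (dd M x : ℝ)⁻¹ ≤ C₁ * C * ((A : ℝ) * B) ^ r := by
      calc C₁ * (B : ℝ) ^ r * ∑ x ∈ XP N A, (dd M x : ℝ)⁻¹
          ≤ C₁ * (B : ℝ) ^ r * (C * (A : ℝ) ^ r) := by gcongr
        _ = _ := by
          rw [mul_pow]
          ring
    have h7 : (6 * (q : ℝ)) ^ (r - 1) * (∑ _x ∈ XP N A, (1 : ℝ) +
        ∑ d ∈ Finset.Icc 1 ρ, ∑ x ∈ XP N A, ((LP M x (ρ / d)).card : ℝ)) ≤
        C₂ * ((A : ℝ) * B) ^ r + K / 2 * ((A : ℝ) * B) ^ r := by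
      rw [mul_add]
      apply add_le_add
      · calc (6 * (q : ℝ)) ^ (r - 1) * ∑ _x ∈ XP N A, (1 : ℝ)
            ≤ (6 * (q : ℝ)) ^ (r - 1) * (3 ^ N * ((A : ℝ) * B) ^ r) := by gcongr
          _ = C₂ * ((A : ℝ) * B) ^ r := by rw [hC2]; ring
      · refine le_trans ?_ h5
        gcongr
    have h8 : C₁ * C + C₂ ≤ K / 2 := by
      have : (0 : ℝ) ≤ (3 * q) ^ N * (3 * q) ^ N := by positivity
      linarith
    have h9 : (C₁ * C + C₂) * ((A : ℝ) * B) ^ r ≤ K / 2 * ((A : ℝ) * B) ^ r := by gcongr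
    linarith

/-- **The bound for the number of pairs.** -/
theorem pairs {M : Fin 2 → Matrix (Fin N) (Fin N) ℤ} (hM : Nice M) :
    ∃ K : ℝ, 0 < K ∧ ∀ A B : ℕ, 1 ≤ A → 1 ≤ B →
      (PN M A B : ℝ) ≤ K * ((A : ℝ) * B) ^ (N - 2) := by
  obtain ⟨K₁, hK1, h1⟩ := pairs_step hM
  obtain ⟨K₂, hK2, h2⟩ := pairs_step (nice_tr hM)
  refine ⟨max K₁ K₂, lt_max_of_lt_left hK1, ?_⟩
  have key : ∀ n A B : ℕ, A + B = n → 1 ≤ A → 1 ≤ B →
      (PN M A B : ℝ) ≤ max K₁ K₂ * ((A : ℝ) * B) ^ (N - 2) := by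
    intro n
    induction n using Nat.strong_induction_on with
    | _ n ih =>
      intro A B hAB hA hB
      rcases le_total A B with h | h
      · exact h1 _ (le_max_left _ _) A B hA h fun B' hB' hB1 => ih (A + B') (by omega) A B' rfl hA hB1
      · have h3 := h2 _ (le_max_right _ _) B A hB h fun A' hA' hA1 => by
          rw [PN_tr, mul_comm (B : ℝ)]
          exact ih (A' + B) (by omega) A' B rfl hA1 hB
        rw [PN_tr, mul_comm (B : ℝ)] at h3
        exact h3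
  intro A B hA hB
  exact key (A + B) A B rfl hA hB

end Pool.Agent.N852
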