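import Mathlib
import Pool.Agent.N852.MD

/-!
Sums of a function over the cosets of a lattice.
-/

namespace Pool.Agent.N852

open Matrix Module

/-- The real vector of an integer vector. -/
def ic {ι : Type*} (z : ι → ℤ) : ι → ℝ := fun k => (z k : ℝ)

theorem ic_add {ι : Type*} (z w : ι → ℤ) : ic (z + w) = ic z + ic w := by
  funext k
  simp [ic]

theorem ic_sub {ι : Type*} (z w : ι → ℤ) : ic (z - w) = ic z - ic w := by
  funext k
  simp [ic]

theorem ic_neg {ι : Type*} (z : ι → ℤ) : ic (-z) = -ic z := by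
  funext k
  simp [ic]

variable {ι : Type*} [Fintype ι]

/-- The integer points of a box. -/
theorem finite_box (B : ℝ) : {z : ι → ℤ | ‖ic z‖ ≤ B}.Finite := by
  classical
  apply Set.Finite.subset (Fintype.piFinset fun _ : ι => Finset.Icc (-⌊B⌋) ⌊B⌋).finite_toSet
  intro z hz
  rw [Finset.mem_coe, Fintype.mem_piFinset]
  intro k
  have h1 : |(z k : ℝ)| ≤ B := (norm_le_pi_norm (ic z) k).trans hz
  rw [abs_le] at h1
  rw [Finset.mem_Icc]
  constructor
  · rw [neg_le, Int.le_floor]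
    push_cast
    linarith
  · exact Int.le_floor.2 h1.2

theorem card_box_le (B : ℝ) (hB : 0 ≤ B) (S : Finset (ι → ℤ)) (hS : ∀ z ∈ S, ‖ic z‖ ≤ B) :
    (S.card : ℝ) ≤ (2 * B + 1) ^ (Fintype.card ι) := by
  classical
  have h0 : 0 ≤ ⌊B⌋ := Int.floor_nonneg.2 hB
  have h1 : S ⊆ Fintype.piFinset fun _ : ι => Finset.Icc (-⌊B⌋) ⌊B⌋ := by
    intro z hz
    rw [Fintype.mem_piFinset]
    intro k
    have h1 : |(z k : ℝ)| ≤ B := (norm_le_pi_norm (ic z) k).trans (hS z hz)
    rw [abs_le] at h1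
    rw [Finset.mem_Icc]
    constructor
    · rw [neg_le, Int.le_floor]
      push_cast
      linarith
    · exact Int.le_floor.2 h1.2
  have h2 := Finset.card_le_card h1
  rw [Fintype.card_piFinset, Finset.prod_const, Finset.card_univ, Int.card_Icc] at h2
  have h3 : (((⌊B⌋ + 1 - -⌊B⌋).toNat : ℕ) : ℝ) = 2 * ⌊B⌋ + 1 := by
    have h4 : (((⌊B⌋ + 1 - -⌊B⌋).toNat : ℕ) : ℤ) = 2 * ⌊B⌋ + 1 := by
      rw [Int.toNat_of_nonneg (by omega)]
      ring
    exact_mod_cast congrArg (Int.cast : ℤ → ℝ) h4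
  calc (S.card : ℝ) ≤ (((⌊B⌋ + 1 - -⌊B⌋).toNat ^ (Fintype.card ι) : ℕ) : ℝ) := by exact_mod_cast h2
    _ = (2 * ⌊B⌋ + 1) ^ (Fintype.card ι) := by
      rw [Nat.cast_pow, h3]
    _ ≤ (2 * B + 1) ^ (Fintype.card ι) := by
      have h5 := Int.floor_le B
      have h6 : (0 : ℝ) ≤ ⌊B⌋ := by exact_mod_cast h0
      gcongr

theorem summable_of_box {g : (ι → ℤ) → ℝ} (B : ℝ) (h : ∀ z, B < ‖ic z‖ → g z = 0) :
    Summable g := by
  apply summable_of_hasFiniteSupport
  apply (finite_box B).subset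
  intro z hz
  rw [Function.mem_support] at hz
  by_contra hcon
  exact hz (h z (not_le.1 hcon))

/-- A short representative of every class. -/
theorem exists_rep [DecidableEq ι] {Λ : AddSubgroup (ι → ℤ)} {v : ι → ι → ℤ}
    (hdet : (Matrix.of v).det ≠ 0) (hvΛ : ∀ i, v i ∈ Λ) {ρ : ℝ} (hv : ∀ i, ‖ic (v i)‖ ≤ ρ)
    (z : ι → ℤ) : ∃ τ : ι → ℤ, z - τ ∈ Λ ∧ ‖ic τ‖ ≤ Fintype.card ι * ρ := by
  set A : Matrix ι ι ℤ := Matrix.of v with hA
  set t : ι → ℝ := fun i => ((A.updateRow i z).det : ℝ) / (A.det : ℝ) with ht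
  have hdR : (A.det : ℝ) ≠ 0 := by exact_mod_cast hdet
  have hz : ∀ k, (z k : ℝ) = ∑ i, t i * (v i k : ℝ) := by
    intro k
    have h1 := congrFun (cramer_coord (A := A) z) k
    have h2 : (A.det : ℝ) * (z k : ℝ) = ∑ i, ((A.updateRow i z).det : ℝ) * (v i k : ℝ) := by
      have h3 : A.det * z k = ∑ i, (A.updateRow i z).det * v i k := h1
      exact_mod_cast congrArg (Int.cast : ℤ → ℝ) h3
    have h4 : (z k : ℝ) = (∑ i, ((A.updateRow i z).det : ℝ) * (v i k : ℝ)) / (A.det : ℝ) := by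
      rw [← h2]
      field_simp
    rw [h4, Finset.sum_div]
    refine Finset.sum_congr rfl fun i _ => ?_
    rw [ht]
    ring
  have hρ0 : 0 ≤ (Fintype.card ι : ℝ) * ρ := by
    rcases isEmpty_or_nonempty ι with h | ⟨⟨i⟩⟩
    · simp
    · exact mul_nonneg (by positivity) ((norm_nonneg _).trans (hv i))
  refine ⟨z - ∑ i, ⌊t i⌋ • v i, ?_, ?_⟩
  · rw [sub_sub_cancel]
    exact AddSubgroup.sum_mem _ fun i _ => AddSubgroup.zsmul_mem _ (hvΛ i) _
  · rw [pi_norm_le_iff_of_nonneg hρ0]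
    intro k
    have h1 : ic (z - ∑ i, ⌊t i⌋ • v i) k = ∑ i, Int.fract (t i) * (v i k : ℝ) := by
      unfold ic
      rw [Pi.sub_apply, Int.cast_sub, hz k, Finset.sum_apply, Int.cast_sum,
        ← Finset.sum_sub_distrib]
      refine Finset.sum_congr rfl fun i _ => ?_
      rw [Pi.smul_apply, smul_eq_mul, Int.cast_mul, ← sub_mul]
      rfl
    rw [h1, Real.norm_eq_abs]
    refine (Finset.abs_sum_le_sum_abs _ _).trans ?_
    calc ∑ i, |Int.fract (t i) * (v i k : ℝ)| ≤ ∑ _i : ι, ρ := by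
          refine Finset.sum_le_sum fun i _ => ?_
          rw [abs_mul, abs_of_nonneg (Int.fract_nonneg _)]
          have h2 : |(v i k : ℝ)| ≤ ρ := (norm_le_pi_norm (ic (v i)) k).trans (hv i)
          have h3 := (Int.fract_lt_one (t i)).le
          have h4 := Int.fract_nonneg (t i)
          have h5 := abs_nonneg (v i k : ℝ)
          nlinarith
      _ = Fintype.card ι * ρ := by
          rw [Finset.sum_const, Finset.card_univ, nsmul_eq_mul]

/-- Decomposition along the cosets. -/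
noncomputable def cosetEquiv (Λ : AddSubgroup (ι → ℤ)) (σ : (ι → ℤ) ⧸ Λ → (ι → ℤ))
    (hσ : ∀ q, (QuotientAddGroup.mk (σ q) : (ι → ℤ) ⧸ Λ) = q) :
    ((ι → ℤ) ⧸ Λ) × Λ ≃ (ι → ℤ) where
  toFun p := σ p.1 + p.2
  invFun z := (QuotientAddGroup.mk z, ⟨-σ (QuotientAddGroup.mk z) + z,
    QuotientAddGroup.eq.1 (hσ (QuotientAddGroup.mk z))⟩)
  left_inv := by
    rintro ⟨q, l, hl⟩
    have h1 : (QuotientAddGroup.mk (σ q + l) : (ι → ℤ) ⧸ Λ) = q := by
      rw [QuotientAddGroup.mk_add_of_mem _ hl]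
      exact hσ q
    refine Prod.ext h1 ?_
    apply Subtype.ext
    change -σ (QuotientAddGroup.mk (σ q + l)) + (σ q + l) = l
    rw [h1]
    abel
  right_inv := by
    intro z
    change σ (QuotientAddGroup.mk z) + (-σ (QuotientAddGroup.mk z) + z) = z
    abel

open Classical in
/-- **The coset sum lemma.** -/
theorem coset_sum [DecidableEq ι] {Λ : AddSubgroup (ι → ℤ)} {v : ι → ι → ℤ}
    (hdet : (Matrix.of v).det ≠ 0) (hvΛ : ∀ i, v i ∈ Λ) {ρ : ℝ} (hv : ∀ i, ‖ic (v i)‖ ≤ ρ)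
    (Ψ : (ι → ℝ) → ℝ) (R Y η : ℝ) (hρ : 0 ≤ ρ) (hR0 : 0 ≤ R) (hY : 0 < Y) (hη : 0 ≤ η)
    (hR : ∀ w, R < ‖w‖ → Ψ w = 0)
    (hmod : ∀ w w', ‖w - w'‖ ≤ 2 * (Fintype.card ι * ρ) / Y → |Ψ w - Ψ w'| ≤ η) (c : ι → ℤ) :
    |(Λ.index : ℝ) * ∑' z : ι → ℤ, (if z - c ∈ Λ then Ψ (Y⁻¹ • ic z) else 0) -
      ∑' z : ι → ℤ, Ψ (Y⁻¹ • ic z)| ≤
      η * (2 * (R * Y + 2 * (Fintype.card ι * ρ)) + 1) ^ (Fintype.card ι) := by
  set s : ℝ := Fintype.card ι * ρ with hs
  have hs0 : 0 ≤ s := by positivity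
  set g : (ι → ℤ) → ℝ := fun z => Ψ (Y⁻¹ • ic z) with hg
  have hgz : ∀ z, R * Y < ‖ic z‖ → g z = 0 := by
    intro z hz
    apply hR
    rw [norm_smul, norm_inv, Real.norm_of_nonneg hY.le, lt_inv_mul_iff₀ hY]
    linarith
  have hgs : Summable g := summable_of_box _ hgz
  -- finiteness of the quotient
  have hindex : Λ.index ≠ 0 := by
    have hsub : rowLat (Matrix.of v) ≤ Λ := by
      rintro _ ⟨c, rfl⟩
      have h1 : c ᵥ* (Matrix.of v) = ∑ i, c i • v i := by
        funext k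
        simp [vecMul, dotProduct]
      rw [h1]
      exact AddSubgroup.sum_mem _ fun i _ => AddSubgroup.zsmul_mem _ (hvΛ i) _
    have h1 := AddSubgroup.index_dvd_of_le hsub
    rw [index_rowLat hdet] at h1
    intro h
    rw [h, Nat.zero_dvd, Int.natAbs_eq_zero] at h1
    exact hdet h1
  have hfin : Finite ((ι → ℤ) ⧸ Λ) := Nat.finite_of_card_ne_zero hindex
  have : Fintype ((ι → ℤ) ⧸ Λ) := Fintype.ofFinite _
  have hcardQ : (Fintype.card ((ι → ℤ) ⧸ Λ) : ℝ) = Λ.index := by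
    rw [← Nat.card_eq_fintype_card]
    rfl
  -- representatives
  have hrep : ∀ q : (ι → ℤ) ⧸ Λ, ∃ τ : ι → ℤ, (QuotientAddGroup.mk τ : (ι → ℤ) ⧸ Λ) = q ∧
      ‖ic τ‖ ≤ s := by
    intro q
    induction q using QuotientAddGroup.induction_on with
    | H z =>
      obtain ⟨τ, h1, h2⟩ := exists_rep hdet hvΛ hv z
      refine ⟨τ, ?_, h2⟩
      rw [QuotientAddGroup.eq]
      have : -τ + z = z - τ := by abel
      rwa [this]
  choose σ hσ1 hσ2 using hrep
  set e := cosetEquiv Λ σ hσ1 with he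
  have hea : ∀ p, e p = σ p.1 + p.2 := fun p => rfl
  -- total sums along cosets
  have htot : ∀ f : (ι → ℤ) → ℝ, Summable f →
      ∑' z, f z = ∑ q : (ι → ℤ) ⧸ Λ, ∑' l : Λ, f (σ q + l) := by
    intro f hf
    rw [← e.tsum_eq f]
    have h1 : Summable fun p : ((ι → ℤ) ⧸ Λ) × Λ => f (e p) := e.summable_iff.2 hf
    rw [h1.tsum_prod, tsum_fintype]
    rfl
  set w : ι → ℤ := σ (QuotientAddGroup.mk c) with hw
  have hwc : ∀ z, z - c ∈ Λ ↔ z - w ∈ Λ := by
    intro z
    have h1 : -w + c ∈ Λ := QuotientAddGroup.eq.1 (hσ1 (QuotientAddGroup.mk c))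
    constructor
    · intro h
      have : z - w = (z - c) + (-w + c) := by abel
      rw [this]
      exact Λ.add_mem h h1
    · intro h
      have : z - c = (z - w) - (-w + c) := by abel
      rw [this]
      exact Λ.sub_mem h h1
  have hone : ∑' z : ι → ℤ, (if z - c ∈ Λ then g z else 0) = ∑' l : Λ, g (w + l) := by
    have h1 : (fun z : ι → ℤ => if z - c ∈ Λ then g z else 0) =
        Set.indicator {z | z - w ∈ Λ} g := by
      funext z
      rw [Set.indicator_apply]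
      exact if_congr (hwc z) rfl rfl
    rw [h1, ← tsum_subtype]
    let e2 : Λ ≃ {z : ι → ℤ | z - w ∈ Λ} :=
      { toFun := fun l => ⟨w + l, by
          change w + (l : ι → ℤ) - w ∈ Λ
          rw [add_sub_cancel_left]
          exact l.2⟩
        invFun := fun z => ⟨z - w, z.2⟩
        left_inv := by
          intro l
          apply Subtype.ext
          exact add_sub_cancel_left _ _
        right_inv := by
          intro z
          apply Subtype.ext
          exact add_sub_cancel _ _ }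
    rw [← e2.tsum_eq (fun z : {z : ι → ℤ | z - w ∈ Λ} => g z)]
    rfl
  have hshift : ∀ u : ι → ℤ, Summable fun l : Λ => g (u + l) := by
    intro u
    have h1 : Summable fun z : ι → ℤ => g (u + z) := (Equiv.addLeft u).summable_iff.2 hgs
    exact h1.comp_injective Subtype.val_injective
  set B : ℝ := R * Y + 2 * s with hB
  have hB0 : 0 ≤ B := by positivity
  set hf : (ι → ℤ) → ℝ := fun z => if ‖ic z‖ ≤ B then η else 0 with hhf
  have hfs : Summable hf := summable_of_box B fun z hz => by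
    rw [hhf]
    simp [not_le.2 hz]
  have hfshift : ∀ u : ι → ℤ, Summable fun l : Λ => hf (u + l) := by
    intro u
    have h1 : Summable fun z : ι → ℤ => hf (u + z) := (Equiv.addLeft u).summable_iff.2 hfs
    exact h1.comp_injective Subtype.val_injective
  have hpt : ∀ (q : (ι → ℤ) ⧸ Λ) (l : Λ), |g (w + l) - g (σ q + l)| ≤ hf (σ q + l) := by
    intro q l
    have hd : ‖ic (w + (l : ι → ℤ)) - ic (σ q + (l : ι → ℤ))‖ ≤ 2 * s := by
      rw [ic_add, ic_add, add_sub_add_right_eq_sub]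
      refine (norm_sub_le _ _).trans ?_
      have := hσ2 (QuotientAddGroup.mk c)
      have := hσ2 q
      linarith
    by_cases hle : ‖ic (σ q + (l : ι → ℤ))‖ ≤ B
    · rw [hhf]
      simp only [if_pos hle]
      apply hmod
      rw [← smul_sub, norm_smul, norm_inv, Real.norm_of_nonneg hY.le, inv_mul_eq_div]
      exact div_le_div_of_nonneg_right hd hY.le
    · rw [hhf]
      simp only [if_neg hle]
      rw [not_le] at hle
      have h1 : g (σ q + l) = 0 := hgz _ (by linarith)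
      have h2 : g (w + l) = 0 := by
        apply hgz
        have h3 : ‖ic (σ q + (l : ι → ℤ))‖ ≤ ‖ic (w + (l : ι → ℤ))‖ + 2 * s := by
          calc ‖ic (σ q + (l : ι → ℤ))‖ = ‖ic (w + (l : ι → ℤ)) -
                (ic (w + (l : ι → ℤ)) - ic (σ q + (l : ι → ℤ)))‖ := by
                rw [sub_sub_cancel]
            _ ≤ ‖ic (w + (l : ι → ℤ))‖ + ‖ic (w + (l : ι → ℤ)) - ic (σ q + (l : ι → ℤ))‖ :=
                norm_sub_le _ _
            _ ≤ _ := by linarith
        linarith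
      rw [h1, h2, sub_zero, abs_zero]
  rw [hone, htot g hgs]
  have h1 : (Λ.index : ℝ) * ∑' l : Λ, g (w + l) - ∑ q : (ι → ℤ) ⧸ Λ, ∑' l : Λ, g (σ q + l) =
      ∑ q : (ι → ℤ) ⧸ Λ, ∑' l : Λ, (g (w + l) - g (σ q + l)) := by
    have h2 : ∀ q : (ι → ℤ) ⧸ Λ, ∑' l : Λ, (g (w + l) - g (σ q + l)) =
        ∑' l : Λ, g (w + l) - ∑' l : Λ, g (σ q + l) := fun q =>
      (hshift w).tsum_sub (hshift (σ q))
    rw [Finset.sum_congr rfl fun q _ => h2 q, Finset.sum_sub_distrib, Finset.sum_const,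
      Finset.card_univ, nsmul_eq_mul, hcardQ]
  rw [h1]
  have h2 : |∑ q : (ι → ℤ) ⧸ Λ, ∑' l : Λ, (g (w + l) - g (σ q + l))| ≤ ∑' z, hf z := by
    rw [htot hf hfs]
    refine (Finset.abs_sum_le_sum_abs _ _).trans ?_
    refine Finset.sum_le_sum fun q _ => ?_
    rw [← Real.norm_eq_abs]
    exact tsum_of_norm_bounded (hfshift (σ q)).hasSum fun l => hpt q l
  refine h2.trans ?_
  have h3 : ∑' z, hf z = ∑ z ∈ (finite_box (ι := ι) B).toFinset, hf z := by
    apply tsum_eq_sum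
    intro z hz
    rw [Set.Finite.mem_toFinset] at hz
    rw [hhf]
    exact if_neg hz
  rw [h3]
  calc ∑ z ∈ (finite_box (ι := ι) B).toFinset, hf z
      ≤ ∑ _z ∈ (finite_box (ι := ι) B).toFinset, η := by
        refine Finset.sum_le_sum fun z _ => ?_
        rw [hhf]
        simp only
        split_ifs
        · exact le_rfl
        · exact hη
    _ = ((finite_box (ι := ι) B).toFinset.card : ℝ) * η := by
        rw [Finset.sum_const, nsmul_eq_mul]
    _ ≤ (2 * B + 1) ^ (Fintype.card ι) * η := by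
        gcongr
        apply card_box_le B hB0
        intro z hz
        exact (Set.Finite.mem_toFinset (finite_box B)).1 hz
    _ = _ := by ring

end Pool.Agent.N852
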