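import Mathlib
import Pool.Agent.N852.Coset

/-!
Riemann sums of continuous compactly supported functions.
-/

namespace Pool.Agent.N852

open Matrix Module MeasureTheory Filter Topology Pointwise

variable {ι : Type*} [Fintype ι]

theorem riemann_nat (F : (ι → ℝ) → ℝ) (hF : Continuous F) (R : ℝ) (hR : ∀ w, R < ‖w‖ → F w = 0) :
    Tendsto (fun n : ℕ => (∑' z : ι → ℤ, F ((n : ℝ)⁻¹ • ic z)) / (n : ℝ) ^ (Fintype.card ι)) atTop
      (𝓝 (∫ x, F x)) := by
  classical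
  set s : Set (ι → ℝ) := Metric.closedBall 0 R with hs
  have h1 := tendsto_tsum_div_pow_atTop_integral s F hF Metric.isBounded_closedBall
    Metric.isClosed_closedBall.measurableSet
    ((convex_closedBall (0 : ι → ℝ) R).addHaar_frontier volume)
  have h2 : ∫ x in s, F x = ∫ x, F x := by
    apply setIntegral_eq_integral_of_forall_compl_eq_zero
    intro x hx
    apply hR
    rw [hs, Metric.mem_closedBall, dist_zero_right, not_le] at hx
    exact hx
  rw [h2] at h1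
  refine h1.congr' ?_
  filter_upwards [eventually_ge_atTop 1] with n hn
  congr 1
  have hn0 : (n : ℝ) ≠ 0 := by
    have : 0 < n := hn
    positivity
  have : NeZero n := ⟨by omega⟩
  set g : (ι → ℤ) → (ι → ℝ) := fun z => (n : ℝ)⁻¹ • ic z with hg
  have hgi : Function.Injective g := by
    intro z w h
    have h3 := smul_right_injective (ι → ℝ) (inv_ne_zero hn0) h
    funext k
    have h4 : ((z k : ℤ) : ℝ) = ((w k : ℤ) : ℝ) := congrFun h3 k
    exact_mod_cast h4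
  have hmem : ∀ x : ι → ℝ, x ∈ (n : ℝ)⁻¹ •
      (Submodule.span ℤ (Set.range (Pi.basisFun ℝ ι)) : Set (ι → ℝ)) ↔ x ∈ Set.range g := by
    intro x
    have h3 := BoxIntegral.unitPartition.mem_smul_span_iff (n := n) (v := x)
    constructor
    · intro h
      have h4 := h3.1 h
      choose z hz using h4
      refine ⟨z, ?_⟩
      funext k
      have h5 : ((z k : ℤ) : ℝ) = n * x k := hz k
      rw [hg]
      simp only [Pi.smul_apply, smul_eq_mul, ic, h5]
      field_simp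
    · rintro ⟨z, rfl⟩
      apply h3.2
      intro k
      refine ⟨z k, ?_⟩
      rw [hg]
      simp only [Pi.smul_apply, smul_eq_mul, ic]
      field_simp
      rfl
  rw [tsum_subtype, ← hgi.tsum_eq]
  · refine tsum_congr fun z => ?_
    by_cases h : g z ∈ s
    · rw [Set.indicator_of_mem]
      exact ⟨h, (hmem _).2 ⟨z, rfl⟩⟩
    · rw [Set.indicator_of_notMem fun h' => h h'.1]
      symm
      apply hR
      rw [hs, Metric.mem_closedBall, dist_zero_right, not_le] at h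
      exact h
  · intro x hx
    rw [Function.mem_support] at hx
    by_contra hcon
    apply hx
    rw [Set.indicator_of_notMem]
    intro h
    exact hcon ((hmem x).1 h.2)

variable [DecidableEq ι]

theorem det_smul_one (n : ℕ) (hn : n ≠ 0) :
    (Matrix.of fun i : ι => (n : ℤ) • (Pi.single i 1 : ι → ℤ)).det ≠ 0 := by
  have h1 : (Matrix.of fun i : ι => (n : ℤ) • (Pi.single i 1 : ι → ℤ)) =
      (n : ℤ) • (1 : Matrix ι ι ℤ) := by
    ext i j
    simp [one_apply, Pi.single_apply, eq_comm]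
  rw [h1, det_smul, det_one, mul_one]
  exact pow_ne_zero _ (by exact_mod_cast hn)

theorem index_mulLat (n : ℕ) (hn : n ≠ 0) :
    (rowLat ((n : ℤ) • (1 : Matrix ι ι ℤ))).index = n ^ (Fintype.card ι) := by
  have h2 : ((n : ℤ) • (1 : Matrix ι ι ℤ)).det = (n : ℤ) ^ (Fintype.card ι) := by
    rw [det_smul, det_one, mul_one]
  rw [index_rowLat]
  · rw [h2, Int.natAbs_pow, Int.natAbs_natCast]
  · rw [h2]
    exact pow_ne_zero _ (by exact_mod_cast hn)

theorem mem_mulLat {n : ℕ} {z : ι → ℤ} :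
    z ∈ rowLat ((n : ℤ) • (1 : Matrix ι ι ℤ)) ↔ ∃ w : ι → ℤ, z = (n : ℤ) • w := by
  rw [mem_rowLat]
  constructor
  · rintro ⟨c, rfl⟩
    exact ⟨c, by rw [vecMul_smul, vecMul_one]⟩
  · rintro ⟨c, rfl⟩
    exact ⟨c, by rw [vecMul_smul, vecMul_one]⟩

open Classical in
theorem mul_coset_sum (n : ℕ) (hn : n ≠ 0) (Ψ : (ι → ℝ) → ℝ) (R Y η : ℝ) (hR0 : 0 ≤ R)
    (hY : 0 < Y) (hη : 0 ≤ η) (hR : ∀ w, R < ‖w‖ → Ψ w = 0)
    (hmod : ∀ w w', ‖w - w'‖ ≤ 2 * (Fintype.card ι * n) / Y → |Ψ w - Ψ w'| ≤ η) (c : ι → ℤ) :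
    |(n : ℝ) ^ (Fintype.card ι) *
        ∑' z : ι → ℤ, (if ∃ w : ι → ℤ, z - c = (n : ℤ) • w then Ψ (Y⁻¹ • ic z) else 0) -
      ∑' z : ι → ℤ, Ψ (Y⁻¹ • ic z)| ≤
      η * (2 * (R * Y + 2 * (Fintype.card ι * n)) + 1) ^ (Fintype.card ι) := by
  have h1 := coset_sum (Λ := rowLat ((n : ℤ) • (1 : Matrix ι ι ℤ)))
    (v := fun i : ι => (n : ℤ) • (Pi.single i 1 : ι → ℤ)) (det_smul_one n hn)
    (fun i => mem_mulLat.2 ⟨_, rfl⟩) (ρ := n) (by
      intro i
      rw [pi_norm_le_iff_of_nonneg (by positivity)]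
      intro k
      simp only [ic, Pi.smul_apply, Pi.single_apply, smul_eq_mul]
      split_ifs
      · simp
      · simp) Ψ R Y η (by positivity) hR0 hY hη hR hmod c
  rw [index_mulLat n hn, Nat.cast_pow] at h1
  simp only [mem_mulLat] at h1
  exact h1

/-- Riemann sums with a uniform error. -/
theorem riem_err (F : (ι → ℝ) → ℝ) (hF : Continuous F) (R η Y : ℝ) (hR0 : 0 ≤ R)
    (hη : 0 ≤ η) (hY : 1 ≤ Y) (hR : ∀ w, R < ‖w‖ → F w = 0)
    (hmod : ∀ w w', ‖w - w'‖ ≤ 2 * Fintype.card ι / Y → |F w - F w'| ≤ η) :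
    |∑' z : ι → ℤ, F (Y⁻¹ • ic z) - Y ^ (Fintype.card ι) * ∫ x, F x| ≤
      η * ((2 * R + 4 * Fintype.card ι + 1) * Y) ^ (Fintype.card ι) := by
  classical
  have hY0 : 0 < Y := by linarith
  set r := Fintype.card ι with hr
  have hFY : Continuous fun w : ι → ℝ => F (Y⁻¹ • w) := hF.comp (continuous_const_smul _)
  have h1 := riemann_nat (fun w : ι → ℝ => F (Y⁻¹ • w)) hFY (R * Y) (by
    intro w hw
    apply hR
    rw [norm_smul, norm_inv, Real.norm_of_nonneg hY0.le, lt_inv_mul_iff₀ hY0]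
    linarith)
  have h2 : ∫ x, F (Y⁻¹ • x) = Y ^ r * ∫ x : ι → ℝ, F x := by
    rw [Measure.integral_comp_smul, Module.finrank_fintype_fun_eq_card, inv_pow, inv_inv,
      abs_of_nonneg (by positivity), smul_eq_mul]
  rw [h2] at h1
  have h3 : ∀ n : ℕ, 1 ≤ n → |∑' z : ι → ℤ, F (Y⁻¹ • ic z) -
      (∑' z : ι → ℤ, F (Y⁻¹ • ((n : ℝ)⁻¹ • ic z))) / (n : ℝ) ^ r| ≤
      η * ((2 * R + 4 * r + 1) * Y) ^ r := by
    intro n hn
    have hn0 : (0 : ℝ) < n := by exact_mod_cast hn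
    have hn1 : (1 : ℝ) ≤ n := by exact_mod_cast hn
    have h4 := mul_coset_sum n (by omega) F R (n * Y) η hR0 (by positivity) hη hR (by
      intro w w' hw
      apply hmod
      refine hw.trans (le_of_eq ?_)
      rw [← hr]
      field_simp) (0 : ι → ℤ)
    have h5 : ∑' z : ι → ℤ, (if ∃ w : ι → ℤ, z - 0 = (n : ℤ) • w then
        F (((n : ℝ) * Y)⁻¹ • ic z) else 0) = ∑' z : ι → ℤ, F (Y⁻¹ • ic z) := by
      set g : (ι → ℤ) → (ι → ℤ) := fun w => (n : ℤ) • w with hg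
      have hgi : Function.Injective g :=
        smul_right_injective (ι → ℤ) (by exact_mod_cast (by omega : n ≠ 0))
      rw [← hgi.tsum_eq]
      · refine tsum_congr fun w => ?_
        rw [if_pos ⟨w, by rw [sub_zero]⟩]
        congr 1
        have : ic (g w) = (n : ℝ) • ic w := by
          funext k
          simp [ic, hg]
        rw [this, smul_smul]
        congr 1
        field_simp
      · intro z hz
        rw [Function.mem_support] at hz
        by_contra hcon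
        apply hz
        rw [if_neg]
        rintro ⟨w, hw⟩
        rw [sub_zero] at hw
        exact hcon ⟨w, hw.symm⟩
    rw [h5] at h4
    have h6 : ∀ z : ι → ℤ, ((n : ℝ) * Y)⁻¹ • ic z = Y⁻¹ • ((n : ℝ)⁻¹ • ic z) := by
      intro z
      rw [smul_smul, mul_inv, mul_comm]
    simp only [h6] at h4
    have hnr : (0 : ℝ) < (n : ℝ) ^ r := by positivity
    have h7 : |(n : ℝ) ^ r * (∑' z : ι → ℤ, F (Y⁻¹ • ic z) -
        (∑' z : ι → ℤ, F (Y⁻¹ • ((n : ℝ)⁻¹ • ic z))) / (n : ℝ) ^ r)| ≤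
        (n : ℝ) ^ r * (η * ((2 * R + 4 * r + 1) * Y) ^ r) := by
      have h8 : (n : ℝ) ^ r * (∑' z : ι → ℤ, F (Y⁻¹ • ic z) -
          (∑' z : ι → ℤ, F (Y⁻¹ • ((n : ℝ)⁻¹ • ic z))) / (n : ℝ) ^ r) =
          (n : ℝ) ^ r * ∑' z : ι → ℤ, F (Y⁻¹ • ic z) -
          ∑' z : ι → ℤ, F (Y⁻¹ • ((n : ℝ)⁻¹ • ic z)) := by
        rw [mul_sub, mul_div_cancel₀ _ hnr.ne']
      rw [h8]
      refine h4.trans ?_
      have h9 : 2 * (R * (n * Y) + 2 * (r * n)) + 1 ≤ n * ((2 * R + 4 * r + 1) * Y) := by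
        have h10 : (r : ℝ) * n ≤ r * n * Y := by
          have : 0 ≤ (r : ℝ) * n := by positivity
          nlinarith
        have h11 : (1 : ℝ) ≤ n * Y := by nlinarith
        nlinarith
      calc η * (2 * (R * (n * Y) + 2 * (r * n)) + 1) ^ r
          ≤ η * (n * ((2 * R + 4 * r + 1) * Y)) ^ r := by gcongr
        _ = _ := by
          rw [mul_pow (n : ℝ)]
          ring
    rw [abs_mul, abs_of_pos hnr] at h7
    exact le_of_mul_le_mul_left h7 hnr
  have h4 : Tendsto (fun n : ℕ => |∑' z : ι → ℤ, F (Y⁻¹ • ic z) -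
      (∑' z : ι → ℤ, F (Y⁻¹ • ((n : ℝ)⁻¹ • ic z))) / (n : ℝ) ^ r|) atTop
      (𝓝 |∑' z : ι → ℤ, F (Y⁻¹ • ic z) - Y ^ r * ∫ x, F x|) :=
    (tendsto_const_nhds.sub h1).abs
  exact le_of_tendsto h4 (eventually_atTop.2 ⟨1, h3⟩)

end Pool.Agent.N852
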