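import Mathlib
import Pool.Agent.N852.Riem

/-!
Mean values of periodic functions against continuous weights.
-/

namespace Pool.Agent.N852

open Matrix Module MeasureTheory Filter Topology

theorem conv_of_approx (f : ℕ → ℝ) (h : ∀ ε : ℝ, 0 < ε → ∃ g : ℕ → ℝ,
    (∃ β : ℝ, Tendsto g atTop (𝓝 β)) ∧ ∀ᶠ i in atTop, |f i - g i| ≤ ε) :
    ∃ β : ℝ, Tendsto f atTop (𝓝 β) := by
  apply cauchySeq_tendsto_of_complete
  rw [Metric.cauchySeq_iff']
  intro ε hε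
  obtain ⟨g, ⟨β, hg⟩, hfg⟩ := h (ε / 8) (by positivity)
  have h1 := (Metric.tendsto_atTop.1 hg) (ε / 8) (by positivity)
  obtain ⟨n1, hn1⟩ := h1
  obtain ⟨n2, hn2⟩ := eventually_atTop.1 hfg
  refine ⟨max n1 n2, fun n hn => ?_⟩
  have e1 := hn1 n (le_trans (le_max_left _ _) hn)
  have e2 := hn1 (max n1 n2) (le_max_left _ _)
  have e3 := hn2 n (le_trans (le_max_right _ _) hn)
  have e4 := hn2 (max n1 n2) (le_max_right _ _)
  rw [Real.dist_eq] at e1 e2 ⊢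
  rw [abs_le] at e3 e4
  rw [abs_lt] at e1 e2 ⊢
  constructor <;> linarith [e1.1, e1.2, e2.1, e2.2, e3.1, e3.2, e4.1, e4.2]

variable {N : ℕ}

theorem unif_mod {ι : Type*} [Fintype ι] (F : (ι → ℝ) → ℝ) (hF : Continuous F) (R : ℝ)
    (hR : ∀ w, R < ‖w‖ → F w = 0) (η : ℝ) (hη : 0 < η) :
    ∃ δ : ℝ, 0 < δ ∧ ∀ w w', ‖w - w'‖ ≤ δ → |F w - F w'| ≤ η := by
  have hsupp : HasCompactSupport F := by
    apply HasCompactSupport.of_support_subset_isCompact (isCompact_closedBall (0 : ι → ℝ) R)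
    intro x hx
    rw [Function.mem_support] at hx
    rw [Metric.mem_closedBall, dist_zero_right]
    by_contra hcon
    exact hx (hR x (not_le.1 hcon))
  have huc : UniformContinuous F := Continuous.uniformContinuous_of_tendsto_cocompact hF
    hsupp.is_zero_at_infty
  rw [Metric.uniformContinuous_iff] at huc
  obtain ⟨δ, hδ, h⟩ := huc η hη
  refine ⟨δ / 2, by positivity, fun w w' hw => ?_⟩
  have := h (a := w) (b := w') (by rw [dist_eq_norm]; linarith)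
  rw [Real.dist_eq] at this
  exact this.le

open Classical in
theorem class_mean (Q : ℕ) (hQ : Q ≠ 0) (F : (Fin N → ℝ) → ℝ) (hF : Continuous F) (R : ℝ)
    (hR0 : 0 ≤ R) (hR : ∀ w, R < ‖w‖ → F w = 0) (c : Fin N → ℤ) :
    Tendsto (fun i : ℕ => (∑' x : Fin N → ℤ, (if ∃ w : Fin N → ℤ, x - c = (Q : ℤ) • w then
      F (((2 : ℝ) ^ i)⁻¹ • ic x) else 0)) / ((2 : ℝ) ^ i) ^ N) atTop
      (𝓝 ((∫ x, F x) / (Q : ℝ) ^ N)) := by
  have hQ0 : (0 : ℝ) < (Q : ℝ) ^ N := by positivity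
  have h1 := riemann_nat F hF R hR
  rw [Fintype.card_fin] at h1
  have h2 : Tendsto (fun i : ℕ => (2 : ℕ) ^ i) atTop atTop :=
    tendsto_pow_atTop_atTop_of_one_lt (by norm_num)
  have h3 := h1.comp h2
  simp only [Function.comp_def, Nat.cast_pow, Nat.cast_ofNat] at h3
  -- the difference tends to zero
  have h4 : Tendsto (fun i : ℕ => (∑' x : Fin N → ℤ,
      (if ∃ w : Fin N → ℤ, x - c = (Q : ℤ) • w then F (((2 : ℝ) ^ i)⁻¹ • ic x) else 0)) /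
        ((2 : ℝ) ^ i) ^ N - (∑' x : Fin N → ℤ, F (((2 : ℝ) ^ i)⁻¹ • ic x)) / ((2 : ℝ) ^ i) ^ N /
        (Q : ℝ) ^ N) atTop (𝓝 0) := by
    rw [Metric.tendsto_atTop]
    intro ε hε
    set C : ℝ := (2 * R + 4 * (N * Q) + 1) ^ N / (Q : ℝ) ^ N with hC
    have hC0 : 0 < C := by positivity
    obtain ⟨δ, hδ, hmod⟩ := unif_mod F hF R hR (ε / (2 * C)) (by positivity)
    have h5 : Tendsto (fun i : ℕ => 2 * ((N : ℝ) * Q) / (2 : ℝ) ^ i) atTop (𝓝 0) :=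
      tendsto_const_nhds.div_atTop (tendsto_pow_atTop_atTop_of_one_lt (by norm_num))
    obtain ⟨i0, hi0⟩ := eventually_atTop.1 (h5.eventually (ge_mem_nhds hδ))
    refine ⟨i0, fun i hi => ?_⟩
    have hi1 := hi0 i hi
    have hp0 : (0 : ℝ) < (2 : ℝ) ^ i := by positivity
    have hp1 : (1 : ℝ) ≤ (2 : ℝ) ^ i := one_le_pow₀ (by norm_num)
    have h6 := mul_coset_sum Q hQ F R ((2 : ℝ) ^ i) (ε / (2 * C)) hR0 hp0 (by positivity) hR (by
      intro w w' hw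
      apply hmod
      rw [Fintype.card_fin] at hw
      exact hw.trans hi1) c
    rw [Fintype.card_fin] at h6
    rw [Real.dist_eq, sub_zero]
    set S1 := ∑' x : Fin N → ℤ,
      (if ∃ w : Fin N → ℤ, x - c = (Q : ℤ) • w then F (((2 : ℝ) ^ i)⁻¹ • ic x) else 0) with hS1
    set S2 := ∑' x : Fin N → ℤ, F (((2 : ℝ) ^ i)⁻¹ • ic x) with hS2
    have hpN : (0 : ℝ) < ((2 : ℝ) ^ i) ^ N := by positivity
    have h7 : S1 / ((2 : ℝ) ^ i) ^ N - S2 / ((2 : ℝ) ^ i) ^ N / (Q : ℝ) ^ N =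
        ((Q : ℝ) ^ N * S1 - S2) / (((2 : ℝ) ^ i) ^ N * (Q : ℝ) ^ N) := by
      field_simp
    rw [h7, abs_div, abs_of_pos (mul_pos hpN hQ0), div_lt_iff₀ (mul_pos hpN hQ0)]
    refine lt_of_le_of_lt h6 ?_
    have h8 : 2 * (R * (2 : ℝ) ^ i + 2 * (N * Q)) + 1 ≤ (2 * R + 4 * (N * Q) + 1) * (2 : ℝ) ^ i := by
      have : 0 ≤ (N : ℝ) * Q := by positivity
      nlinarith
    calc ε / (2 * C) * (2 * (R * (2 : ℝ) ^ i + 2 * (N * Q)) + 1) ^ N
        ≤ ε / (2 * C) * ((2 * R + 4 * (N * Q) + 1) * (2 : ℝ) ^ i) ^ N := by gcongr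
      _ = ε / (2 * C) * (C * (Q : ℝ) ^ N) * ((2 : ℝ) ^ i) ^ N := by
          rw [hC, mul_pow, div_mul_cancel₀ _ hQ0.ne']
          ring
      _ = ε / 2 * (((2 : ℝ) ^ i) ^ N * (Q : ℝ) ^ N) := by
          field_simp
      _ < ε * (((2 : ℝ) ^ i) ^ N * (Q : ℝ) ^ N) := by
          have := mul_pos hpN hQ0
          nlinarith
  have h5 := h4.add (h3.div_const ((Q : ℝ) ^ N))
  rw [zero_add] at h5
  refine h5.congr fun i => ?_
  ring

/-- The residue of a vector. -/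
def rsd (Q : ℕ) (x : Fin N → ℤ) : Fin N → ℤ := fun k => x k % Q

theorem rsd_spec (Q : ℕ) (x : Fin N → ℤ) : ∃ w : Fin N → ℤ, x - rsd Q x = (Q : ℤ) • w := by
  refine ⟨fun k => x k / Q, ?_⟩
  funext k
  simp only [rsd, Pi.sub_apply, Pi.smul_apply, smul_eq_mul]
  have := Int.emod_add_mul_ediv (x k) Q
  linarith

theorem rsd_unique (Q : ℕ) (x c : Fin N → ℤ)
    (hc : c ∈ Fintype.piFinset fun _ : Fin N => Finset.Ico (0 : ℤ) Q) :
    (∃ w : Fin N → ℤ, x - c = (Q : ℤ) • w) ↔ c = rsd Q x := by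
  constructor
  · rintro ⟨w, hw⟩
    funext k
    have h1 := congrFun hw k
    simp only [Pi.sub_apply, Pi.smul_apply, smul_eq_mul] at h1
    rw [Fintype.mem_piFinset] at hc
    have h2 := Finset.mem_Ico.1 (hc k)
    unfold rsd
    have h3 : x k = c k + Q * w k := by linarith
    rw [h3, Int.add_mul_emod_self_left, Int.emod_eq_of_lt h2.1 h2.2]
  · rintro rfl
    exact rsd_spec Q x

theorem periodic_mean (Q : ℕ) (hQ : Q ≠ 0) (w : (Fin N → ℤ) → ℝ)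
    (hw : ∀ x y : Fin N → ℤ, w (x + (Q : ℤ) • y) = w x) (F : (Fin N → ℝ) → ℝ) (hF : Continuous F)
    (R : ℝ) (hR0 : 0 ≤ R) (hR : ∀ w, R < ‖w‖ → F w = 0) :
    ∃ β : ℝ, Tendsto (fun i : ℕ => (∑' x : Fin N → ℤ, w x * F (((2 : ℝ) ^ i)⁻¹ • ic x)) /
      ((2 : ℝ) ^ i) ^ N) atTop (𝓝 β) := by
  classical
  set I : Finset (Fin N → ℤ) := Fintype.piFinset fun _ : Fin N => Finset.Ico (0 : ℤ) Q with hI
  refine ⟨∑ c ∈ I, w c * ((∫ x, F x) / (Q : ℝ) ^ N), ?_⟩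
  have h1 : ∀ c ∈ I, Tendsto (fun i : ℕ => w c * ((∑' x : Fin N → ℤ,
      (if ∃ v : Fin N → ℤ, x - c = (Q : ℤ) • v then
      F (((2 : ℝ) ^ i)⁻¹ • ic x) else 0)) / ((2 : ℝ) ^ i) ^ N)) atTop
      (𝓝 (w c * ((∫ x, F x) / (Q : ℝ) ^ N))) := fun c _ =>
    (class_mean Q hQ F hF R hR0 hR c).const_mul _
  refine (tendsto_finsetSum I h1).congr fun i => ?_
  have hp0 : (0 : ℝ) < (2 : ℝ) ^ i := by positivity
  have hres : ∀ x : Fin N → ℤ, rsd Q x ∈ I := by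
    intro x
    rw [hI, Fintype.mem_piFinset]
    intro k
    rw [Finset.mem_Ico]
    have hQ' : (0 : ℤ) < Q := by exact_mod_cast Nat.pos_of_ne_zero hQ
    exact ⟨Int.emod_nonneg _ hQ'.ne', Int.emod_lt_of_pos _ hQ'⟩
  have hwr : ∀ x : Fin N → ℤ, w (rsd Q x) = w x := by
    intro x
    obtain ⟨v, hv⟩ := rsd_spec Q x
    have : x = rsd Q x + (Q : ℤ) • v := by
      rw [← hv]
      abel
    conv_rhs => rw [this]
    rw [hw]
  have h2 : ∀ x : Fin N → ℤ, w x * F (((2 : ℝ) ^ i)⁻¹ • ic x) =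
      ∑ c ∈ I, w c * (if ∃ v : Fin N → ℤ, x - c = (Q : ℤ) • v then
        F (((2 : ℝ) ^ i)⁻¹ • ic x) else 0) := by
    intro x
    rw [Finset.sum_eq_single (rsd Q x)]
    · rw [if_pos (rsd_spec Q x), hwr]
    · intro c hc hne
      rw [if_neg, mul_zero]
      intro h
      exact hne ((rsd_unique Q x c hc).1 h)
    · intro h
      exact absurd (hres x) h
  have h3 : ∀ c ∈ I, Summable fun x : Fin N → ℤ =>
      w c * (if ∃ v : Fin N → ℤ, x - c = (Q : ℤ) • v then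
        F (((2 : ℝ) ^ i)⁻¹ • ic x) else 0) := by
    intro c _
    apply summable_of_box (R * (2 : ℝ) ^ i)
    intro z hz
    have : F (((2 : ℝ) ^ i)⁻¹ • ic z) = 0 := by
      apply hR
      rw [norm_smul, norm_inv, Real.norm_of_nonneg hp0.le, lt_inv_mul_iff₀ hp0]
      linarith
    rw [this]
    simp
  rw [tsum_congr h2, Summable.tsum_finsetSum h3, Finset.sum_div]
  refine Finset.sum_congr rfl fun c _ => ?_
  rw [tsum_mul_left]
  ring

end Pool.Agent.N852
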