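import Mathlib
import Pool.Agent.N852.Per
import Pool.Agent.N852.Pairs

/-!
The arithmetic weights and their periodic approximations.
-/

namespace Pool.Agent.N852

open Matrix Module
open Pool.Agent.H548.WM (ht bx le_ht le_ht' ht_le exists_ht mem_bx card_bx ht_pos)
open Pool.Agent.H548.BL (rv cv Inc inc_iff_rv rc norm_rc)

variable {N : ℕ}

/-- Congruence of vectors. -/
def Cg {ι : Type*} (q : ℕ) (x a : ι → ℤ) : Prop := ∃ w : ι → ℤ, x - a = (q : ℤ) • w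

/-- `Q ℤ²`. -/
def QZ (Q : ℕ) : AddSubgroup (Fin 2 → ℤ) := rowLat ((Q : ℤ) • (1 : Matrix (Fin 2) (Fin 2) ℤ))

theorem mem_QZ {Q : ℕ} {z : Fin 2 → ℤ} : z ∈ QZ Q ↔ ∃ w : Fin 2 → ℤ, z = (Q : ℤ) • w := mem_mulLat

open Classical in
/-- The weight of `x`. -/
noncomputable def Wt (M : Fin 2 → Matrix (Fin N) (Fin N) ℤ) (q : ℕ) (a b x : Fin N → ℤ) : ℝ :=
  if Prm x ∧ Cg q x a ∧ (∃ y ∈ Lx M x, Cg q y b) then (Gx M x : ℝ) else 0

/-- The truncated index. -/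
noncomputable def GE (M : Fin 2 → Matrix (Fin N) (Fin N) ℤ) (Q : ℕ) (x : Fin N → ℤ) : ℕ :=
  ((AA M x).range ⊔ QZ Q).index

open Classical in
/-- The truncated weight. -/
noncomputable def WE (M : Fin 2 → Matrix (Fin N) (Fin N) ℤ) (q : ℕ) (a b : Fin N → ℤ) (E : ℕ)
    (x : Fin N → ℤ) : ℝ :=
  if (∀ p : ℕ, p.Prime → p ≤ E → ¬ ∀ k, (p : ℤ) ∣ x k) ∧ Cg q x a ∧
    (∃ z : Fin N → ℤ, ∃ w : Fin 2 → ℤ, AA M x (b + (q : ℤ) • z) = ((q * E.factorial : ℕ) : ℤ) • w)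
  then (GE M E.factorial x : ℝ) else 0

theorem AA_add (M : Fin 2 → Matrix (Fin N) (Fin N) ℤ) (x y z : Fin N → ℤ) (c : ℤ) :
    AA M (x + c • y) z = AA M x z + c • AA M y z := by
  funext k
  rw [Pi.add_apply, Pi.smul_apply, AA_apply, AA_apply, AA_apply, rv_int, rv_int, rv_int,
    add_vecMul, smul_vecMul, add_dotProduct, smul_dotProduct]

theorem AA_smul (M : Fin 2 → Matrix (Fin N) (Fin N) ℤ) (x z : Fin N → ℤ) (c : ℤ) :
    AA M (c • x) z = c • AA M x z := by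
  have h := AA_add M 0 x z c
  rw [zero_add] at h
  rw [h]
  have h0 : AA M 0 z = 0 := by
    funext k
    rw [AA_apply, rv_int, zero_vecMul, zero_dotProduct]
    rfl
  rw [h0, zero_add]

theorem sup_le_of_period (M : Fin 2 → Matrix (Fin N) (Fin N) ℤ) (Q : ℕ) (x y : Fin N → ℤ) (c : ℤ)
    (hc : (Q : ℤ) ∣ c) :
    (AA M (x + c • y)).range ⊔ QZ Q ≤ (AA M x).range ⊔ QZ Q := by
  apply sup_le _ le_sup_right
  rintro _ ⟨z, rfl⟩
  rw [AA_add]
  apply AddSubgroup.add_mem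
  · exact (le_sup_left : (AA M x).range ≤ _) ⟨z, rfl⟩
  · obtain ⟨d, rfl⟩ := hc
    apply (le_sup_right : QZ Q ≤ (AA M x).range ⊔ QZ Q)
    exact mem_QZ.2 ⟨d • AA M y z, by rw [smul_smul]⟩

theorem GE_period (M : Fin 2 → Matrix (Fin N) (Fin N) ℤ) (Q : ℕ) (x y : Fin N → ℤ) (c : ℤ)
    (hc : (Q : ℤ) ∣ c) : GE M Q (x + c • y) = GE M Q x := by
  unfold GE
  congr 1
  apply le_antisymm (sup_le_of_period M Q x y c hc)
  have h := sup_le_of_period M Q (x + c • y) (-y) c hc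
  have h2 : x + c • y + c • (-y) = x := by
    rw [smul_neg, add_neg_cancel_right]
  rw [h2] at h
  exact h

/-- The condition of `WE`. -/
def CE (M : Fin 2 → Matrix (Fin N) (Fin N) ℤ) (q : ℕ) (a b : Fin N → ℤ) (E : ℕ)
    (x : Fin N → ℤ) : Prop :=
  (∀ p : ℕ, p.Prime → p ≤ E → ¬ ∀ k, (p : ℤ) ∣ x k) ∧ Cg q x a ∧
    (∃ z : Fin N → ℤ, ∃ w : Fin 2 → ℤ, AA M x (b + (q : ℤ) • z) = ((q * E.factorial : ℕ) : ℤ) • w)

theorem CE_period (M : Fin 2 → Matrix (Fin N) (Fin N) ℤ) (q : ℕ) (a b : Fin N → ℤ) (E : ℕ)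
    (x y : Fin N → ℤ) (h : CE M q a b E x) :
    CE M q a b E (x + ((q * E.factorial : ℕ) : ℤ) • y) := by
  obtain ⟨h1, ⟨w0, hw0⟩, z, w, hzw⟩ := h
  refine ⟨fun p hp hpE hall => h1 p hp hpE fun k => ?_, ⟨w0 + (E.factorial : ℤ) • y, ?_⟩,
    z, w + AA M y (b + (q : ℤ) • z), ?_⟩
  · have h2 := hall k
    rw [Pi.add_apply, Pi.smul_apply, smul_eq_mul] at h2
    have h3 : (p : ℤ) ∣ ((q * E.factorial : ℕ) : ℤ) * y k := by
      apply Dvd.dvd.mul_right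
      exact_mod_cast Dvd.dvd.mul_left (hp.dvd_factorial.2 hpE) q
    exact (dvd_add_left h3).1 h2
  · rw [smul_add, ← hw0, smul_smul]
    push_cast
    abel
  · rw [AA_add, hzw, smul_add]

theorem WE_eq (M : Fin 2 → Matrix (Fin N) (Fin N) ℤ) (q : ℕ) (a b : Fin N → ℤ) (E : ℕ)
    (x : Fin N → ℤ) [Decidable (CE M q a b E x)] :
    WE M q a b E x = if CE M q a b E x then (GE M E.factorial x : ℝ) else 0 := by
  unfold WE CE
  congr

theorem WE_period (M : Fin 2 → Matrix (Fin N) (Fin N) ℤ) (q : ℕ) (a b : Fin N → ℤ) (E : ℕ)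
    (x y : Fin N → ℤ) : WE M q a b E (x + ((q * E.factorial : ℕ) : ℤ) • y) = WE M q a b E x := by
  classical
  rw [WE_eq, WE_eq, GE_period M E.factorial x y _ (by exact_mod_cast Dvd.intro_left q rfl)]
  have h : CE M q a b E (x + ((q * E.factorial : ℕ) : ℤ) • y) ↔ CE M q a b E x := by
    constructor
    · intro h
      have h1 := CE_period M q a b E _ (-y) h
      have h2 : x + ((q * E.factorial : ℕ) : ℤ) • y + ((q * E.factorial : ℕ) : ℤ) • (-y) = x := by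
        rw [smul_neg, add_neg_cancel_right]
      rwa [h2] at h1
    · exact CE_period M q a b E x y
  exact if_congr h rfl rfl

theorem GE_le {M : Fin 2 → Matrix (Fin N) (Fin N) ℤ} {Q : ℕ} {x : Fin N → ℤ}
    (h : Gx M x ≠ 0) : GE M Q x ≤ Gx M x :=
  Nat.le_of_dvd (Nat.pos_of_ne_zero h) (AddSubgroup.index_dvd_of_le le_sup_left)

theorem Wt_nonneg (M : Fin 2 → Matrix (Fin N) (Fin N) ℤ) (q : ℕ) (a b x : Fin N → ℤ) :
    0 ≤ Wt M q a b x := by
  unfold Wt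
  split_ifs
  · exact Nat.cast_nonneg _
  · exact le_rfl

theorem Wt_le (M : Fin 2 → Matrix (Fin N) (Fin N) ℤ) (q : ℕ) (a b x : Fin N → ℤ) :
    Wt M q a b x ≤ Gx M x := by
  unfold Wt
  split_ifs
  · exact le_rfl
  · exact Nat.cast_nonneg _

theorem WE_nonneg (M : Fin 2 → Matrix (Fin N) (Fin N) ℤ) (q : ℕ) (a b : Fin N → ℤ) (E : ℕ)
    (x : Fin N → ℤ) : 0 ≤ WE M q a b E x := by
  unfold WE
  split_ifs
  · exact Nat.cast_nonneg _
  · exact le_rfl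

theorem WE_le {M : Fin 2 → Matrix (Fin N) (Fin N) ℤ} {q : ℕ} {a b : Fin N → ℤ} {E : ℕ}
    {x : Fin N → ℤ} (h : Gx M x ≠ 0) : WE M q a b E x ≤ Gx M x := by
  unfold WE
  split_ifs
  · exact_mod_cast GE_le h
  · exact Nat.cast_nonneg _

theorem not_dvd_prm {x : Fin N → ℤ} (hx : Prm x) {p : ℕ} (hp : p.Prime) :
    ¬ ∀ k, (p : ℤ) ∣ x k := by
  intro h
  obtain ⟨w, hw⟩ := hx
  have h1 : (p : ℤ) ∣ x ⬝ᵥ w := Finset.dvd_sum fun k _ => Dvd.dvd.mul_right (h k) _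
  rw [hw] at h1
  have h2 : (p : ℤ) ∣ ((1 : ℕ) : ℤ) := by exact_mod_cast h1
  have h3 := Int.natCast_dvd_natCast.1 h2
  exact hp.one_lt.ne' (Nat.dvd_one.1 h3)

/-- For primitive `x` with small index the truncation is exact. -/
theorem WE_eq_Wt {M : Fin 2 → Matrix (Fin N) (Fin N) ℤ} {q : ℕ} {a b : Fin N → ℤ} {E : ℕ}
    {x : Fin N → ℤ} (hx : Prm x) (hG : Gx M x ≠ 0) (hGE : Gx M x ≤ E) :
    WE M q a b E x = Wt M q a b x := by
  classical
  have hdvd : Gx M x ∣ E.factorial := Nat.dvd_factorial (Nat.pos_of_ne_zero hG) hGE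
  have hmem : ∀ w : Fin 2 → ℤ, ((E.factorial : ℕ) : ℤ) • w ∈ (AA M x).range := by
    intro w
    obtain ⟨d, hd⟩ := hdvd
    have h1 : Gx M x • w ∈ (AA M x).range := AddSubgroup.nsmul_index_mem _ w
    have h2 : ((E.factorial : ℕ) : ℤ) • w = (d : ℤ) • (Gx M x • w) := by
      rw [hd, ← natCast_zsmul w (Gx M x), smul_smul]
      push_cast
      rw [mul_comm]
    rw [h2]
    exact AddSubgroup.zsmul_mem _ h1 _
  have hsub : QZ E.factorial ≤ (AA M x).range := by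
    intro z hz
    obtain ⟨w, rfl⟩ := mem_QZ.1 hz
    exact hmem w
  have hGeq : GE M E.factorial x = Gx M x := by
    unfold GE Gx
    rw [sup_eq_left.2 hsub]
  unfold WE Wt
  rw [hGeq]
  refine if_congr ?_ rfl rfl
  have hiff : (∃ z : Fin N → ℤ, ∃ w : Fin 2 → ℤ,
      AA M x (b + (q : ℤ) • z) = ((q * E.factorial : ℕ) : ℤ) • w) ↔ ∃ y ∈ Lx M x, Cg q y b := by
    constructor
    · rintro ⟨z, w, h⟩
      obtain ⟨z', hz'⟩ := hmem w
      refine ⟨b + (q : ℤ) • z - (q : ℤ) • z', ?_, z - z', ?_⟩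
      · apply AddMonoidHom.mem_ker.2
        rw [map_sub, h, map_zsmul, hz', smul_smul]
        push_cast
        exact sub_self _
      · rw [smul_sub]
        abel
    · rintro ⟨y, hy, w, hw⟩
      refine ⟨w, 0, ?_⟩
      rw [← hw, smul_zero, add_sub_cancel]
      exact AddMonoidHom.mem_ker.1 hy
  rw [hiff]
  constructor
  · rintro ⟨_, h⟩
    exact ⟨hx, h⟩
  · rintro ⟨_, h⟩
    exact ⟨fun p hp _ => not_dvd_prm hx hp, h⟩

/-- Multiples of primitive vectors. -/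
theorem WE_multiple {M : Fin 2 → Matrix (Fin N) (Fin N) ℤ} {q : ℕ} {a b : Fin N → ℤ} {E k : ℕ}
    {x : Fin N → ℤ} (hk : 2 ≤ k) (h : WE M q a b E ((k : ℤ) • x) ≠ 0) : E < k := by
  by_contra hcon
  apply h
  unfold WE
  rw [if_neg]
  rintro ⟨h1, _⟩
  have hp := Nat.minFac_prime (n := k) (by omega)
  refine h1 k.minFac hp ((Nat.minFac_le (by omega)).trans (not_lt.1 hcon)) fun l => ?_
  rw [Pi.smul_apply, smul_eq_mul]
  apply Dvd.dvd.mul_right
  exact_mod_cast Nat.minFac_dvd k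

theorem mm_smul {R : Type*} [CommRing R] (M : Fin 2 → Matrix (Fin N) (Fin N) ℤ) (x : Fin N → R)
    (c : R) (i j : Fin N) : mm M (c • x) i j = c ^ 2 * mm M x i j := by
  have h : ∀ k, rv M (c • x) k = c • rv M x k := by
    intro k
    unfold rv
    rw [smul_vecMul]
  unfold mm
  rw [h, h]
  simp only [Pi.smul_apply, smul_eq_mul]
  ring

theorem mx_smul (M : Fin 2 → Matrix (Fin N) (Fin N) ℤ) (x : Fin N → ℤ) (k : ℕ) :
    mx M ((k : ℤ) • x) = k ^ 2 * mx M x := by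
  unfold mx
  have h : (fun p : Fin N × Fin N => (mm M ((k : ℤ) • x) p.1 p.2).natAbs) =
      fun p : Fin N × Fin N => k ^ 2 * (mm M x p.1 p.2).natAbs := by
    funext p
    rw [mm_smul, Int.natAbs_mul, Int.natAbs_pow, Int.natAbs_natCast]
  rw [h]
  apply le_antisymm
  · apply Finset.sup_le
    intro p hp
    exact Nat.mul_le_mul_left _
      (Finset.le_sup (f := fun p : Fin N × Fin N => (mm M x p.1 p.2).natAbs) hp)
  · rcases (Finset.univ : Finset (Fin N × Fin N)).eq_empty_or_nonempty with h0 | h0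
    · rw [h0]
      simp
    · obtain ⟨p, hp, hpe⟩ := Finset.exists_mem_eq_sup _ h0
        (fun p : Fin N × Fin N => (mm M x p.1 p.2).natAbs)
      rw [hpe]
      exact Finset.le_sup (f := fun p : Fin N × Fin N => k ^ 2 * (mm M x p.1 p.2).natAbs) hp

theorem Gx_smul (M : Fin 2 → Matrix (Fin N) (Fin N) ℤ) (x : Fin N → ℤ) (k : ℕ) (hk : k ≠ 0) :
    Gx M ((k : ℤ) • x) = k ^ 2 * Gx M x := by
  let f : (Fin 2 → ℤ) →+ (Fin 2 → ℤ) :=
    { toFun := fun z => (k : ℤ) • z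
      map_zero' := smul_zero _
      map_add' := fun z w => smul_add _ _ _ }
  have hf : Function.Injective f := smul_right_injective (Fin 2 → ℤ) (by exact_mod_cast hk)
  have h1 : (AA M ((k : ℤ) • x)).range = (AA M x).range.map f := by
    ext z
    rw [AddMonoidHom.mem_range, AddSubgroup.mem_map]
    constructor
    · rintro ⟨y, rfl⟩
      exact ⟨AA M x y, ⟨y, rfl⟩, (AA_smul M x y k).symm⟩
    · rintro ⟨_, ⟨y, rfl⟩, rfl⟩
      exact ⟨y, AA_smul M x y k⟩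
  have h2 : f.range = rowLat ((k : ℤ) • (1 : Matrix (Fin 2) (Fin 2) ℤ)) := by
    ext z
    rw [AddMonoidHom.mem_range, mem_mulLat]
    exact ⟨fun ⟨w, hw⟩ => ⟨w, hw.symm⟩, fun ⟨w, hw⟩ => ⟨w, hw.symm⟩⟩
  unfold Gx
  rw [h1, AddSubgroup.index_map_of_injective _ hf, h2, index_mulLat k hk, Fintype.card_fin,
    mul_comm]

theorem dd_smul (M : Fin 2 → Matrix (Fin N) (Fin N) ℤ) (x : Fin N → ℤ) (k : ℕ) (hk : k ≠ 0) :
    dd M ((k : ℤ) • x) = dd M x := by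
  unfold dd
  rw [mx_smul, Gx_smul M x k hk, Nat.mul_div_mul_left _ _ (by positivity)]

end Pool.Agent.N852
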