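import Mathlib
import Pool.Agent.N852.Wts

/-!
The mean value theorem for the arithmetic weights.
-/

namespace Pool.Agent.N852

open Matrix Module Filter Topology
open Pool.Agent.H548.WM (ht bx le_ht le_ht' ht_le exists_ht mem_bx card_bx ht_pos)
open Pool.Agent.H548.BL (rv cv Inc inc_iff_rv rc norm_rc)

variable {N : ℕ}

/-- The size of the minors at a real point. -/
noncomputable def mr (M : Fin 2 → Matrix (Fin N) (Fin N) ℤ) (x : Fin N → ℝ) : ℝ :=
  ‖fun p : Fin N × Fin N => mm M x p.1 p.2‖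

theorem mr_nonneg (M : Fin 2 → Matrix (Fin N) (Fin N) ℤ) (x : Fin N → ℝ) : 0 ≤ mr M x :=
  norm_nonneg _

theorem le_mr (M : Fin 2 → Matrix (Fin N) (Fin N) ℤ) (x : Fin N → ℝ) (i j : Fin N) :
    |mm M x i j| ≤ mr M x :=
  norm_le_pi_norm (fun p : Fin N × Fin N => mm M x p.1 p.2) (i, j)

theorem rv_cont (M : Fin 2 → Matrix (Fin N) (Fin N) ℤ) (k : Fin 2) (i : Fin N) :
    Continuous fun x : Fin N → ℝ => rv M x k i := by
  unfold rv
  change Continuous fun x : Fin N → ℝ => ∑ l, x l * _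
  exact continuous_finsetSum _ fun l _ => (continuous_apply l).mul continuous_const

theorem mm_cont (M : Fin 2 → Matrix (Fin N) (Fin N) ℤ) (i j : Fin N) :
    Continuous fun x : Fin N → ℝ => mm M x i j := by
  unfold mm
  exact ((rv_cont M 0 i).mul (rv_cont M 1 j)).sub ((rv_cont M 0 j).mul (rv_cont M 1 i))

theorem mr_cont (M : Fin 2 → Matrix (Fin N) (Fin N) ℤ) : Continuous (mr M) :=
  (continuous_pi fun p : Fin N × Fin N => mm_cont M p.1 p.2).norm

theorem mr_smul (M : Fin 2 → Matrix (Fin N) (Fin N) ℤ) (x : Fin N → ℝ) (c : ℝ) :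
    mr M (c • x) = c ^ 2 * mr M x := by
  unfold mr
  have h : (fun p : Fin N × Fin N => mm M (c • x) p.1 p.2) =
      c ^ 2 • fun p : Fin N × Fin N => mm M x p.1 p.2 := by
    funext p
    rw [mm_smul]
    rfl
  rw [h, norm_smul, Real.norm_of_nonneg (by positivity)]

theorem mr_ic (hN : 0 < N) (M : Fin 2 → Matrix (Fin N) (Fin N) ℤ) (x : Fin N → ℤ) :
    mr M (ic x) = mx M x := by
  unfold mr
  apply le_antisymm
  · rw [pi_norm_le_iff_of_nonneg (by positivity)]
    intro p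
    change ‖mm M (rc x) p.1 p.2‖ ≤ _
    rw [mm_rc, Real.norm_eq_abs]
    exact le_mx' M x p.1 p.2
  · obtain ⟨i, j, h⟩ := exists_mx hN M x
    rw [← h, Nat.cast_natAbs, Int.cast_abs]
    have h2 := norm_le_pi_norm (fun p : Fin N × Fin N => mm M (ic x) p.1 p.2) (i, j)
    have h3 : mm M (ic x) i j = ((mm M x i j : ℤ) : ℝ) := mm_rc M x i j
    rw [← h3]
    exact h2

theorem cont_cut {M : Fin 2 → Matrix (Fin N) (Fin N) ℤ} {Φ : (Fin N → ℝ) → ℝ}
    (hcont : ContinuousOn Φ {x | mr M x ≠ 0}) {κ : ℝ} (hκ : 0 < κ) :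
    Continuous fun x => Φ x * min 1 (max 0 (mr M x / κ - 1)) := by
  rw [continuous_iff_continuousAt]
  intro x
  by_cases hx : mr M x = 0
  · have h1 : ∀ᶠ y in 𝓝 x, mr M y < κ :=
      (mr_cont M).continuousAt.eventually_lt continuousAt_const (by rw [hx]; exact hκ)
    have h2 : (fun y => Φ y * min 1 (max 0 (mr M y / κ - 1))) =ᶠ[𝓝 x] fun _ => 0 := by
      filter_upwards [h1] with y hy
      have h3 : mr M y / κ - 1 ≤ 0 := by
        rw [sub_nonpos, div_le_one hκ]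
        exact hy.le
      rw [max_eq_left h3, min_eq_right (by norm_num), mul_zero]
    exact continuousAt_const.congr h2.symm
  · have hopen : IsOpen {x : Fin N → ℝ | mr M x ≠ 0} :=
      isOpen_ne_fun (mr_cont M) continuous_const
    have h1 : ContinuousAt Φ x := hcont.continuousAt (hopen.mem_nhds hx)
    refine h1.mul ?_
    exact (continuous_const.min (continuous_const.max (((mr_cont M).div_const κ).sub
      continuous_const))).continuousAt

theorem sum_tail_sq (E n : ℕ) (hE : 1 ≤ E) :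
    ∑ k ∈ Finset.Icc (E + 1) n, (1 / (k : ℝ)) ^ 2 ≤ (1 : ℝ) / (E : ℝ) := by
  have h : ∀ n : ℕ, E ≤ n →
      ∑ k ∈ Finset.Icc (E + 1) n, (1 / (k : ℝ)) ^ 2 ≤ (1 : ℝ) / (E : ℝ) - (1 : ℝ) / (n : ℝ) := by
    intro n hn
    induction n, hn using Nat.le_induction with
    | base => simp
    | succ n hn ih =>
      rw [Finset.sum_Icc_succ_top (by omega)]
      have hn0 : (0 : ℝ) < n := by exact_mod_cast (by omega : 0 < n)
      push_cast
      have : (1 / ((n : ℝ) + 1)) ^ 2 ≤ 1 / n - 1 / (n + 1) := by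
        rw [div_sub_div _ _ hn0.ne' (by linarith), div_pow, div_le_div_iff₀ (by positivity)
          (by positivity)]
        nlinarith
      linarith
  rcases le_or_gt E n with h1 | h1
  · have h2 := h n h1
    have : (0 : ℝ) ≤ 1 / (n : ℝ) := by positivity
    linarith
  · rw [Finset.Icc_eq_empty (by omega), Finset.sum_empty]
    positivity

/-- The sum over multiples of primitive vectors with large multiplier. -/
theorem mult_sum {M : Fin 2 → Matrix (Fin N) (Fin N) ℤ} (hM : Nice M) :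
    ∃ C : ℝ, 0 < C ∧ ∀ (E t : ℕ) (D : Finset (Fin N → ℤ)), 1 ≤ E → 1 ≤ t →
      (∀ x ∈ D, ht x ≤ t ∧ ∃ (k : ℕ) (z : Fin N → ℤ), E < k ∧ Prm z ∧ x = (k : ℤ) • z) →
      ∑ x ∈ D, (dd M x : ℝ)⁻¹ ≤ C * (t : ℝ) ^ (N - 2) / E := by
  classical
  obtain ⟨C, hC, hdom⟩ := dom_all hM
  have h4 := hM.four
  refine ⟨C, hC, ?_⟩
  intro E t D hE ht1 hD
  have hE0 : (0 : ℝ) < E := by exact_mod_cast hE
  have hcov : D ⊆ (Finset.Icc (E + 1) t).biUnion fun k => (XP N (t / k)).image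
      fun z => (k : ℤ) • z := by
    intro x hx
    obtain ⟨h1, k, z, h2, h3, rfl⟩ := hD x hx
    rw [ht_smul] at h1
    have hz1 := ht_pos h3.ne
    rw [Finset.mem_biUnion]
    refine ⟨k, ?_, Finset.mem_image_of_mem _ (mem_XP.2 ⟨?_, h3⟩)⟩
    · rw [Finset.mem_Icc]
      exact ⟨h2, le_trans (Nat.le_mul_of_pos_right _ hz1) h1⟩
    · rw [Nat.le_div_iff_mul_le (by omega)]
      linarith
  calc ∑ x ∈ D, (dd M x : ℝ)⁻¹
      ≤ ∑ x ∈ (Finset.Icc (E + 1) t).biUnion fun k => (XP N (t / k)).image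
          fun z => (k : ℤ) • z, (dd M x : ℝ)⁻¹ :=
        Finset.sum_le_sum_of_subset_of_nonneg hcov fun x _ _ => by positivity
    _ ≤ ∑ k ∈ Finset.Icc (E + 1) t, ∑ x ∈ (XP N (t / k)).image (fun z => (k : ℤ) • z),
        (dd M x : ℝ)⁻¹ :=
        Pool.Agent.H548.WM.sum_biUnion_le _ _ _ fun x => by positivity
    _ ≤ ∑ k ∈ Finset.Icc (E + 1) t, C * (t : ℝ) ^ (N - 2) * (1 / (k : ℝ)) ^ 2 := by
        refine Finset.sum_le_sum fun k hk => ?_
        rw [Finset.mem_Icc] at hk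
        have hk0 : (0 : ℝ) < k := by exact_mod_cast (by omega : 0 < k)
        have hk1 : (1 : ℝ) ≤ k := by exact_mod_cast (by omega : 1 ≤ k)
        have hinj : Function.Injective fun z : Fin N → ℤ => (k : ℤ) • z :=
          smul_right_injective (Fin N → ℤ) (by exact_mod_cast (by omega : k ≠ 0))
        rw [Finset.sum_image fun x _ y _ h => hinj h]
        have h5 : ∑ z ∈ XP N (t / k), (dd M ((k : ℤ) • z) : ℝ)⁻¹ =
            ∑ z ∈ XP N (t / k), (dd M z : ℝ)⁻¹ :=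
          Finset.sum_congr rfl fun z _ => by rw [dd_smul M z k (by omega)]
        rw [h5]
        have h6 := hdom ((t : ℝ) / k) (XP N (t / k)) (by
          rw [le_div_iff₀ hk0, one_mul]
          exact_mod_cast hk.2) (fun s hs => by
          obtain ⟨h7, h8⟩ := mem_XP.1 hs
          refine ⟨h8, ?_⟩
          calc (ht s : ℝ) ≤ ((t / k : ℕ) : ℝ) := by exact_mod_cast h7
            _ ≤ (t : ℝ) / k := Nat.cast_div_le)
        refine h6.trans ?_
        rw [div_eq_mul_one_div (t : ℝ), mul_pow, ← mul_assoc]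
        apply mul_le_mul_of_nonneg_left _ (by positivity)
        apply pow_le_pow_of_le_one (by positivity) _ (by omega)
        rw [div_le_one hk0]
        exact hk1
    _ = C * (t : ℝ) ^ (N - 2) * ∑ k ∈ Finset.Icc (E + 1) t, (1 / (k : ℝ)) ^ 2 := by
        rw [Finset.mul_sum]
    _ ≤ C * (t : ℝ) ^ (N - 2) * (1 / E) := by
        gcongr
        exact sum_tail_sq E t hE
    _ = _ := by ring

theorem Gx_div_mx (hN : 0 < N) {M : Fin 2 → Matrix (Fin N) (Fin N) ℤ} {x : Fin N → ℤ}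
    (h : mx M x ≠ 0) : (Gx M x : ℝ) / mx M x = (dd M x : ℝ)⁻¹ := by
  have h1 : (mx M x : ℝ) = Gx M x * dd M x := by exact_mod_cast (Gx_mul_dd hN M x).symm
  have h2 : (Gx M x : ℝ) ≠ 0 := by exact_mod_cast Gx_ne_zero hN h
  have h3 : (dd M x : ℝ) ≠ 0 := by exact_mod_cast dd_ne_zero hN h
  rw [h1]
  field_simp

/-- **The mean value theorem.** -/
theorem mean_value {M : Fin 2 → Matrix (Fin N) (Fin N) ℤ} (hM : Nice M) {q : ℕ} (hq : q ≠ 0)
    (a b : Fin N → ℤ) (Φ : (Fin N → ℝ) → ℝ) (C₀ : ℝ) (hC0 : 0 ≤ C₀)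
    (hcont : ContinuousOn Φ {x | mr M x ≠ 0}) (hbd : ∀ x, mr M x ≠ 0 → |Φ x| ≤ C₀ / mr M x)
    (hsupp : ∀ x, Φ x ≠ 0 → 1 / 2 < ‖x‖ ∧ ‖x‖ ≤ 2) :
    ∃ β : ℝ, Tendsto (fun i : ℕ => (∑' x : Fin N → ℤ, Wt M q a b x *
      Φ (((2 : ℝ) ^ i)⁻¹ • ic x)) / ((2 : ℝ) ^ i) ^ N) atTop (𝓝 β) := by
  classical
  have hN : 0 < N := by have := hM.four; omega
  have hN4 := hM.four
  obtain ⟨C₁, hC1, hdom⟩ := dom hM
  obtain ⟨C₂, hC2, hmult⟩ := mult_sum hM
  obtain ⟨c, hc1, hc⟩ := mx_up hM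
  obtain ⟨r, hr⟩ : ∃ r, r = N - 2 := ⟨_, rfl⟩
  rw [← hr] at hdom hmult
  set K₁ : ℝ := 2 * C₀ * C₁ * (2 ^ r + 1) with hK1
  set K₂ : ℝ := C₀ * C₂ * 2 ^ r with hK2
  have hK1p : 0 ≤ K₁ := by positivity
  have hK2p : 0 ≤ K₂ := by positivity
  apply conv_of_approx
  intro ε hε
  -- parameters
  obtain ⟨κ', hκ'⟩ : ∃ κ' : ℝ, κ' = min 1 ((ε / (3 * (K₁ + 1))) ^ 2) := ⟨_, rfl⟩
  have hκ0 : 0 < κ' := by rw [hκ']; positivity
  have hκ1 : κ' ≤ 1 := by rw [hκ']; exact min_le_left _ _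
  have hκs : K₁ * κ' ^ (1 / 2 : ℝ) ≤ ε / 3 := by
    have h1 : κ' ^ (1 / 2 : ℝ) ≤ ε / (3 * (K₁ + 1)) := by
      calc κ' ^ (1 / 2 : ℝ) ≤ ((ε / (3 * (K₁ + 1))) ^ 2) ^ (1 / 2 : ℝ) := by
            apply Real.rpow_le_rpow hκ0.le _ (by norm_num)
            rw [hκ']
            exact min_le_right _ _
        _ = ε / (3 * (K₁ + 1)) := by
            rw [← Real.sqrt_eq_rpow, Real.sqrt_sq (by positivity)]
    calc K₁ * κ' ^ (1 / 2 : ℝ) ≤ (K₁ + 1) * (ε / (3 * (K₁ + 1))) := by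
          gcongr
          linarith
      _ = ε / 3 := by field_simp
  obtain ⟨E, hE⟩ : ∃ E : ℕ, E = ⌈4 * c / κ'⌉₊ + ⌈3 * K₂ / ε⌉₊ + 1 := ⟨_, rfl⟩
  have hE1 : 1 ≤ E := by omega
  have hE0 : (0 : ℝ) < E := by exact_mod_cast hE1
  have hEc : 4 * c / E ≤ κ' := by
    rw [div_le_iff₀ hE0]
    have h1 : 4 * c / κ' ≤ E := by
      calc 4 * c / κ' ≤ (⌈4 * c / κ'⌉₊ : ℝ) := Nat.le_ceil _
        _ ≤ E := by
          have : ⌈4 * c / κ'⌉₊ ≤ E := by omega
          exact_mod_cast this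
    rw [div_le_iff₀ hκ0] at h1
    linarith
  have hEk : K₂ / E ≤ ε / 3 := by
    rw [div_le_iff₀ hE0]
    have h1 : 3 * K₂ / ε ≤ E := by
      calc 3 * K₂ / ε ≤ (⌈3 * K₂ / ε⌉₊ : ℝ) := Nat.le_ceil _
        _ ≤ E := by
          have : ⌈3 * K₂ / ε⌉₊ ≤ E := by omega
          exact_mod_cast this
    rw [div_le_iff₀ hε] at h1
    linarith
  set χ : (Fin N → ℝ) → ℝ := fun x => min 1 (max 0 (mr M x / (κ' / 2) - 1)) with hχ
  have hχ0 : ∀ x, 0 ≤ χ x := fun x => le_min (by norm_num) (le_max_left _ _)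
  have hχ1 : ∀ x, χ x ≤ 1 := fun x => min_le_left _ _
  set F : (Fin N → ℝ) → ℝ := fun x => Φ x * χ x with hF
  have hFc : Continuous F := cont_cut hcont (by positivity)
  have hFs : ∀ w, 2 < ‖w‖ → F w = 0 := by
    intro w hw
    have : Φ w = 0 := by
      by_contra h
      linarith [(hsupp w h).2]
    rw [hF]
    simp only
    rw [this, zero_mul]
  refine ⟨fun i : ℕ => (∑' x : Fin N → ℤ, WE M q a b E x *
      F (((2 : ℝ) ^ i)⁻¹ • ic x)) / ((2 : ℝ) ^ i) ^ N, ?_, ?_⟩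
  · exact periodic_mean (q * E.factorial) (mul_ne_zero hq (Nat.factorial_ne_zero E))
      (WE M q a b E) (WE_period M q a b E) F hFc 2 (by norm_num) hFs
  · -- the difference
    have hlim : Tendsto (fun i : ℕ => K₁ * ((2 : ℝ) ^ i) ^ (-(1 / 6) : ℝ)) atTop (𝓝 (K₁ * 0)) := by
      apply Tendsto.const_mul
      exact (tendsto_rpow_neg_atTop (by norm_num : (0 : ℝ) < 1 / 6)).comp
        (tendsto_pow_atTop_atTop_of_one_lt (by norm_num))
    rw [mul_zero] at hlim
    filter_upwards [hlim.eventually (ge_mem_nhds (by positivity : (0 : ℝ) < ε / 3))] with i hi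
    obtain ⟨t, ht'⟩ : ∃ t : ℕ, t = 2 ^ i := ⟨_, rfl⟩
    have htR : (2 : ℝ) ^ i = t := by rw [ht']; push_cast; rfl
    rw [htR] at hi ⊢
    have ht1 : 1 ≤ t := by rw [ht']; exact Nat.one_le_two_pow
    have ht0 : (0 : ℝ) < t := by exact_mod_cast ht1
    have ht1' : (1 : ℝ) ≤ t := by exact_mod_cast ht1
    set S : Finset (Fin N → ℤ) := bx N (2 * t) with hS
    have hscale : ∀ x : Fin N → ℤ, ‖((t : ℝ))⁻¹ • ic x‖ = (ht x : ℝ) / t := by
      intro x
      rw [norm_smul, norm_inv, Real.norm_of_nonneg ht0.le, inv_mul_eq_div]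
      congr 1
      exact norm_rc x
    have hout : ∀ x : Fin N → ℤ, x ∉ S → Φ (((t : ℝ))⁻¹ • ic x) = 0 := by
      intro x hx
      by_contra h
      have h1 := (hsupp _ h).2
      rw [hscale, div_le_iff₀ ht0] at h1
      apply hx
      rw [hS, mem_bx]
      exact_mod_cast h1
    have hsum1 : ∑' x : Fin N → ℤ, Wt M q a b x * Φ (((t : ℝ))⁻¹ • ic x) =
        ∑ x ∈ S, Wt M q a b x * Φ (((t : ℝ))⁻¹ • ic x) := by
      apply tsum_eq_sum
      intro x hx
      rw [hout x hx, mul_zero]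
    have hsum2 : ∑' x : Fin N → ℤ, WE M q a b E x * F (((t : ℝ))⁻¹ • ic x) =
        ∑ x ∈ S, WE M q a b E x * F (((t : ℝ))⁻¹ • ic x) := by
      apply tsum_eq_sum
      intro x hx
      rw [hF]
      simp only
      rw [hout x hx, zero_mul, mul_zero]
    rw [hsum1, hsum2, ← sub_div, ← Finset.sum_sub_distrib, abs_div,
      abs_of_pos (by positivity : (0 : ℝ) < (t : ℝ) ^ N)]
    rw [div_le_iff₀ (by positivity)]
    set A : (Fin N → ℤ) → Prop := fun x => Prm x ∧ (ht x : ℝ) ≤ 2 * t ∧ 2 * (t : ℝ) < 2 * ht x ∧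
      (dd M x : ℝ) ≤ κ' * (2 * t) ^ 2 with hA
    set B : (Fin N → ℤ) → Prop := fun x => Prm x ∧ (ht x : ℝ) ≤ t ∧ (t : ℝ) < 2 * ht x ∧
      (dd M x : ℝ) ≤ κ' * (t : ℝ) ^ 2 with hB
    set D : (Fin N → ℤ) → Prop := fun x => ht x ≤ 2 * t ∧ ∃ (k : ℕ) (z : Fin N → ℤ), E < k ∧
      Prm z ∧ x = (k : ℤ) • z with hD
    have hpt : ∀ x ∈ S, |Wt M q a b x * Φ (((t : ℝ))⁻¹ • ic x) -
        WE M q a b E x * F (((t : ℝ))⁻¹ • ic x)| ≤
        (if A x then 2 * C₀ * t ^ 2 * (dd M x : ℝ)⁻¹ else 0) +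
        (if B x then 2 * C₀ * t ^ 2 * (dd M x : ℝ)⁻¹ else 0) +
        (if D x then C₀ * t ^ 2 * (dd M x : ℝ)⁻¹ else 0) := by
      intro x hx
      have hdi : (0 : ℝ) ≤ (dd M x : ℝ)⁻¹ := by positivity
      have hnn1 : (0 : ℝ) ≤ (if A x then 2 * C₀ * t ^ 2 * (dd M x : ℝ)⁻¹ else 0) := by
        split_ifs <;> positivity
      have hnn2 : (0 : ℝ) ≤ (if B x then 2 * C₀ * t ^ 2 * (dd M x : ℝ)⁻¹ else 0) := by
        split_ifs <;> positivity
      have hnn3 : (0 : ℝ) ≤ (if D x then C₀ * t ^ 2 * (dd M x : ℝ)⁻¹ else 0) := by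
        split_ifs <;> positivity
      by_cases hΦ : Φ (((t : ℝ))⁻¹ • ic x) = 0
      · rw [hF]
        simp only
        rw [hΦ, zero_mul, mul_zero, mul_zero, sub_zero, abs_zero]
        positivity
      obtain ⟨h1, h2⟩ := hsupp _ hΦ
      rw [hscale, div_le_iff₀ ht0] at h2
      rw [hscale, lt_div_iff₀ ht0] at h1
      have hx0 : x ≠ 0 := by
        rintro rfl
        have : ht (0 : Fin N → ℤ) = 0 := by
          have := ht_le (v := (0 : Fin N → ℤ)) (X := 0) (fun i => by simp)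
          omega
        rw [this] at h1
        push_cast at h1
        linarith
      have hmx := mx_ne_zero hM hx0
      have hmx0 : (0 : ℝ) < mx M x := by exact_mod_cast Nat.pos_of_ne_zero hmx
      have hG := Gx_ne_zero hN hmx
      have hG0 : (0 : ℝ) < Gx M x := by exact_mod_cast Nat.pos_of_ne_zero hG
      have hmr : mr M (((t : ℝ))⁻¹ • ic x) = mx M x / t ^ 2 := by
        rw [mr_smul, mr_ic hN, inv_pow, inv_mul_eq_div]
      have hΦb : |Φ (((t : ℝ))⁻¹ • ic x)| ≤ C₀ * t ^ 2 / mx M x := by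
        have h3 := hbd (((t : ℝ))⁻¹ • ic x) (by rw [hmr]; positivity)
        rw [hmr] at h3
        refine h3.trans (le_of_eq ?_)
        field_simp
      have hGΦ : (Gx M x : ℝ) * |Φ (((t : ℝ))⁻¹ • ic x)| ≤ C₀ * t ^ 2 * (dd M x : ℝ)⁻¹ := by
        calc (Gx M x : ℝ) * |Φ (((t : ℝ))⁻¹ • ic x)| ≤ Gx M x * (C₀ * t ^ 2 / mx M x) := by gcongr
          _ = C₀ * t ^ 2 * ((Gx M x : ℝ) / mx M x) := by ring
          _ = C₀ * t ^ 2 * (dd M x : ℝ)⁻¹ := by rw [Gx_div_mx hN hmx]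
      have hFb : |F (((t : ℝ))⁻¹ • ic x)| ≤ |Φ (((t : ℝ))⁻¹ • ic x)| := by
        rw [hF]
        simp only
        rw [abs_mul, abs_of_nonneg (hχ0 _)]
        exact mul_le_of_le_one_right (abs_nonneg _) (hχ1 _)
      have hWEb : |WE M q a b E x * F (((t : ℝ))⁻¹ • ic x)| ≤ C₀ * t ^ 2 * (dd M x : ℝ)⁻¹ := by
        rw [abs_mul, abs_of_nonneg (WE_nonneg _ _ _ _ _ _)]
        refine le_trans ?_ hGΦ
        exact mul_le_mul (WE_le hG) hFb (abs_nonneg _) hG0.le
      have hWtb : |Wt M q a b x * Φ (((t : ℝ))⁻¹ • ic x)| ≤ C₀ * t ^ 2 * (dd M x : ℝ)⁻¹ := by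
        rw [abs_mul, abs_of_nonneg (Wt_nonneg _ _ _ _ _)]
        refine le_trans ?_ hGΦ
        exact mul_le_mul_of_nonneg_right (Wt_le _ _ _ _ _) (abs_nonneg _)
      by_cases hprm : Prm x
      · by_cases hsmall : Gx M x ≤ E ∧ κ' ≤ mr M (((t : ℝ))⁻¹ • ic x)
        · rw [WE_eq_Wt hprm hG hsmall.1]
          have h3 : χ (((t : ℝ))⁻¹ • ic x) = 1 := by
            rw [hχ]
            simp only
            apply min_eq_left
            apply le_max_of_le_right
            rw [le_sub_iff_add_le, le_div_iff₀ (by positivity)]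
            linarith [hsmall.2]
          rw [hF]
          simp only
          rw [h3, mul_one, sub_self, abs_zero]
          positivity
        · -- `dd` is small
          have hdd : (dd M x : ℝ) ≤ κ' * t ^ 2 := by
            rw [not_and_or] at hsmall
            rcases hsmall with h3 | h3
            · rw [not_le] at h3
              have h5 : (mx M x : ℝ) = Gx M x * dd M x := by
                exact_mod_cast (Gx_mul_dd hN M x).symm
              have h6 := hc x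
              have h7 : (E : ℝ) * dd M x ≤ c * (2 * t) ^ 2 := by
                calc (E : ℝ) * dd M x ≤ Gx M x * dd M x := by
                      gcongr
                  _ ≤ c * (ht x : ℝ) ^ 2 := by rw [← h5]; exact h6
                  _ ≤ c * (2 * t) ^ 2 := by gcongr
              have h8 : (dd M x : ℝ) ≤ 4 * c / E * t ^ 2 := by
                rw [div_mul_eq_mul_div, le_div_iff₀ hE0]
                linarith
              refine h8.trans ?_
              gcongr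
            · rw [not_le, hmr, div_lt_iff₀ (by positivity)] at h3
              have h5 : (dd M x : ℝ) ≤ mx M x := by
                exact_mod_cast Nat.div_le_self _ _
              linarith
          have habs : |Wt M q a b x * Φ (((t : ℝ))⁻¹ • ic x) -
              WE M q a b E x * F (((t : ℝ))⁻¹ • ic x)| ≤ 2 * C₀ * t ^ 2 * (dd M x : ℝ)⁻¹ := by
            refine (abs_sub _ _).trans ?_
            linarith
          by_cases hbig : (t : ℝ) < ht x
          · have hAx : A x := by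
              refine ⟨hprm, h2, by linarith, ?_⟩
              refine hdd.trans ?_
              have : (t : ℝ) ^ 2 ≤ (2 * t) ^ 2 := by nlinarith
              gcongr
            rw [if_pos hAx]
            linarith
          · have hBx : B x := ⟨hprm, not_lt.1 hbig, by linarith, hdd⟩
            rw [if_pos hBx]
            linarith
      · have hWt0 : Wt M q a b x = 0 := by
          unfold Wt
          rw [if_neg]
          exact fun h => hprm h.1
        rw [hWt0, zero_mul, zero_sub, abs_neg]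
        by_cases hWE0 : WE M q a b E x = 0
        · rw [hWE0, zero_mul, abs_zero]
          positivity
        · obtain ⟨k, z, hk, hz, hxz⟩ := exists_prim hx0
          have hk2 : 2 ≤ k := by
            rcases Nat.lt_or_ge k 2 with h | h
            · exfalso
              apply hprm
              have : k = 1 := by omega
              rw [hxz, this]
              simpa using hz
            · exact h
          have hEk : E < k := by
            apply WE_multiple hk2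
            rw [← hxz]
            exact hWE0
          have hDx : D x := ⟨by exact_mod_cast h2, k, z, hEk, hz, hxz⟩
          rw [if_pos hDx]
          linarith
    have hS1 : ∑ x ∈ S, (if A x then 2 * C₀ * t ^ 2 * (dd M x : ℝ)⁻¹ else 0) ≤
        2 * C₀ * t ^ 2 * (C₁ * (2 * t) ^ r * ((t : ℝ) ^ (-(1 / 6) : ℝ) + κ' ^ (1 / 2 : ℝ))) := by
      rw [← Finset.sum_filter, ← Finset.mul_sum]
      apply mul_le_mul_of_nonneg_left _ (by positivity)
      have h1 := hdom (2 * t) κ' (S.filter A) (by linarith) hκ0 hκ1 (fun s hs =>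
        (Finset.mem_filter.1 hs).2)
      refine h1.trans ?_
      have h2 : (2 * (t : ℝ)) ^ (-(1 / 6) : ℝ) ≤ (t : ℝ) ^ (-(1 / 6) : ℝ) :=
        Real.rpow_le_rpow_of_nonpos ht0 (by linarith) (by norm_num)
      gcongr
    have hS2 : ∑ x ∈ S, (if B x then 2 * C₀ * t ^ 2 * (dd M x : ℝ)⁻¹ else 0) ≤
        2 * C₀ * t ^ 2 * (C₁ * t ^ r * ((t : ℝ) ^ (-(1 / 6) : ℝ) + κ' ^ (1 / 2 : ℝ))) := by
      rw [← Finset.sum_filter, ← Finset.mul_sum]
      apply mul_le_mul_of_nonneg_left _ (by positivity)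
      exact hdom t κ' (S.filter B) ht1' hκ0 hκ1 (fun s hs => (Finset.mem_filter.1 hs).2)
    have hS3 : ∑ x ∈ S, (if D x then C₀ * t ^ 2 * (dd M x : ℝ)⁻¹ else 0) ≤
        C₀ * t ^ 2 * (C₂ * (2 * t) ^ r / E) := by
      rw [← Finset.sum_filter, ← Finset.mul_sum]
      apply mul_le_mul_of_nonneg_left _ (by positivity)
      have h1 := hmult E (2 * t) (S.filter D) hE1 (by omega) (fun s hs =>
        (Finset.mem_filter.1 hs).2)
      push_cast at h1
      exact h1
    have htN : (t : ℝ) ^ N = t ^ 2 * t ^ r := by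
      rw [← pow_add]
      congr 1
      omega
    calc |∑ x ∈ S, (Wt M q a b x * Φ (((t : ℝ))⁻¹ • ic x) -
          WE M q a b E x * F (((t : ℝ))⁻¹ • ic x))|
        ≤ ∑ x ∈ S, |Wt M q a b x * Φ (((t : ℝ))⁻¹ • ic x) -
          WE M q a b E x * F (((t : ℝ))⁻¹ • ic x)| := Finset.abs_sum_le_sum_abs _ _
      _ ≤ ∑ x ∈ S, ((if A x then 2 * C₀ * t ^ 2 * (dd M x : ℝ)⁻¹ else 0) +
          (if B x then 2 * C₀ * t ^ 2 * (dd M x : ℝ)⁻¹ else 0) +
          (if D x then C₀ * t ^ 2 * (dd M x : ℝ)⁻¹ else 0)) := Finset.sum_le_sum hpt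
      _ ≤ 2 * C₀ * t ^ 2 * (C₁ * (2 * t) ^ r * ((t : ℝ) ^ (-(1 / 6) : ℝ) + κ' ^ (1 / 2 : ℝ))) +
          2 * C₀ * t ^ 2 * (C₁ * t ^ r * ((t : ℝ) ^ (-(1 / 6) : ℝ) + κ' ^ (1 / 2 : ℝ))) +
          C₀ * t ^ 2 * (C₂ * (2 * t) ^ r / E) := by
          rw [Finset.sum_add_distrib, Finset.sum_add_distrib]
          linarith
      _ = (K₁ * (t : ℝ) ^ (-(1 / 6) : ℝ) + K₁ * κ' ^ (1 / 2 : ℝ) + K₂ / E) * t ^ N := by
          rw [htN, hK1, hK2, mul_pow]
          ring
      _ ≤ ε * t ^ N := by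
          gcongr
          linarith

end Pool.Agent.N852
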