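import Mathlib
import Pool.Agent.N852.Mean

/-!
The sum over one fibre, in a chart.
-/

namespace Pool.Agent.N852

open Matrix Module Filter Topology MeasureTheory
open Pool.Agent.H548.WM (ht bx le_ht le_ht' ht_le exists_ht mem_bx card_bx ht_pos)
open Pool.Agent.H548.BL (rv cv Inc inc_iff_rv rc norm_rc)

variable {N : ℕ}

/-- The point of the fibre with given coordinates outside `i`, `j`. -/
noncomputable def lft (M : Fin 2 → Matrix (Fin N) (Fin N) ℤ) (i j : Fin N) (x : Fin N → ℝ)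
    (z : Ka i j → ℝ) : Fin N → ℝ := fun k =>
  if h : k ≠ i ∧ k ≠ j then z ⟨k, h⟩
  else if k = i then (∑ l : Ka i j, mm M x j l * z l) / mm M x i j
  else (∑ l : Ka i j, mm M x l i * z l) / mm M x i j

theorem lft_off (M : Fin 2 → Matrix (Fin N) (Fin N) ℤ) (i j : Fin N) (x : Fin N → ℝ)
    (z : Ka i j → ℝ) (l : Ka i j) : lft M i j x z l = z l := by
  unfold lft
  rw [dif_pos l.2]

theorem lft_i (M : Fin 2 → Matrix (Fin N) (Fin N) ℤ) (i j : Fin N) (x : Fin N → ℝ)
    (z : Ka i j → ℝ) : lft M i j x z i = (∑ l : Ka i j, mm M x j l * z l) / mm M x i j := by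
  unfold lft
  rw [dif_neg (fun h => h.1 rfl), if_pos rfl]

theorem lft_j (M : Fin 2 → Matrix (Fin N) (Fin N) ℤ) {i j : Fin N} (hij : i ≠ j)
    (x : Fin N → ℝ) (z : Ka i j → ℝ) :
    lft M i j x z j = (∑ l : Ka i j, mm M x l i * z l) / mm M x i j := by
  unfold lft
  rw [dif_neg (fun h => h.2 rfl), if_neg hij.symm]

theorem lft_inc {M : Fin 2 → Matrix (Fin N) (Fin N) ℤ} {i j : Fin N} {x : Fin N → ℝ}
    (h : mm M x i j ≠ 0) (z : Ka i j → ℝ) (k : Fin 2) : rv M x k ⬝ᵥ lft M i j x z = 0 := by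
  have hij := ne_of_mm h
  unfold dotProduct
  rw [split_sum hij, lft_i, lft_j M hij]
  simp only [lft_off]
  have h1 : (rv M x k i * ((∑ l : Ka i j, mm M x j l * z l) / mm M x i j) +
      rv M x k j * ((∑ l : Ka i j, mm M x l i * z l) / mm M x i j) +
      ∑ l : Ka i j, rv M x k l * z l) =
      (∑ l : Ka i j, (rv M x k i * mm M x j l + rv M x k j * mm M x l i +
        rv M x k l * mm M x i j) * z l) / mm M x i j := by
    rw [eq_div_iff h]
    simp only [add_mul, Finset.sum_add_distrib]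
    rw [mul_assoc, div_mul_cancel₀ _ h, mul_assoc, div_mul_cancel₀ _ h, Finset.mul_sum,
      Finset.mul_sum, Finset.sum_mul]
    congr 1
    · congr 1
      · exact Finset.sum_congr rfl fun l _ => by ring
      · exact Finset.sum_congr rfl fun l _ => by ring
    · exact Finset.sum_congr rfl fun l _ => by ring
  rw [h1]
  have h2 : ∀ l : Ka i j, rv M x k i * mm M x j l + rv M x k j * mm M x l i +
      rv M x k l * mm M x i j = 0 := by
    intro l
    unfold mm
    fin_cases k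
    · simp
      ring
    · simp
      ring
  simp only [h2, zero_mul, Finset.sum_const_zero, zero_div]

theorem eq_lft {M : Fin 2 → Matrix (Fin N) (Fin N) ℤ} {i j : Fin N} {x y : Fin N → ℝ}
    (h : mm M x i j ≠ 0) (hy : ∀ k, rv M x k ⬝ᵥ y = 0) :
    y = lft M i j x fun l => y l := by
  have hij := ne_of_mm h
  obtain ⟨h1, h2⟩ := solve hij hy
  funext k
  by_cases hki : k = i
  · subst hki
    rw [lft_i, eq_div_iff h, mul_comm]
    exact h1
  · by_cases hkj : k = j
    · subst hkj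
      rw [lft_j M hij, eq_div_iff h, mul_comm]
      exact h2
    · exact (lft_off M i j x (fun l => y l) ⟨k, hki, hkj⟩).symm

theorem lft_smul_right (M : Fin 2 → Matrix (Fin N) (Fin N) ℤ) (i j : Fin N) (x : Fin N → ℝ)
    (z : Ka i j → ℝ) (c : ℝ) : lft M i j x (c • z) = c • lft M i j x z := by
  funext k
  unfold lft
  simp only [Pi.smul_apply, smul_eq_mul]
  split_ifs
  · rfl
  · rw [mul_div_assoc', Finset.mul_sum]
    congr 1
    exact Finset.sum_congr rfl fun l _ => by ring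
  · rw [mul_div_assoc', Finset.mul_sum]
    congr 1
    exact Finset.sum_congr rfl fun l _ => by ring

theorem lft_smul_left (M : Fin 2 → Matrix (Fin N) (Fin N) ℤ) (i j : Fin N) (x : Fin N → ℝ)
    (z : Ka i j → ℝ) (c : ℝ) (hc : c ≠ 0) : lft M i j (c • x) z = lft M i j x z := by
  funext k
  unfold lft
  simp only [mm_smul]
  have hc2 : c ^ 2 ≠ 0 := pow_ne_zero _ hc
  split_ifs
  · rfl
  · simp only [mul_assoc, ← Finset.mul_sum]
    rw [mul_div_mul_left _ _ hc2]
  · simp only [mul_assoc, ← Finset.mul_sum]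
    rw [mul_div_mul_left _ _ hc2]

theorem norm_le_lft (M : Fin 2 → Matrix (Fin N) (Fin N) ℤ) (i j : Fin N) (x : Fin N → ℝ)
    (z : Ka i j → ℝ) : ‖z‖ ≤ ‖lft M i j x z‖ := by
  rw [pi_norm_le_iff_of_nonneg (norm_nonneg _)]
  intro l
  rw [← lft_off M i j x z l]
  exact norm_le_pi_norm _ _

theorem lft_cont (M : Fin 2 → Matrix (Fin N) (Fin N) ℤ) (i j : Fin N) :
    ContinuousOn (fun p : (Fin N → ℝ) × (Ka i j → ℝ) => lft M i j p.1 p.2)
      {p | mm M p.1 i j ≠ 0} := by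
  rw [continuousOn_pi]
  intro k
  unfold lft
  have hz : ∀ l : Ka i j, Continuous fun p : (Fin N → ℝ) × (Ka i j → ℝ) => p.2 l :=
    fun l => (continuous_apply l).comp continuous_snd
  have hm : ∀ a b : Fin N, Continuous fun p : (Fin N → ℝ) × (Ka i j → ℝ) => mm M p.1 a b :=
    fun a b => (mm_cont M a b).comp continuous_fst
  by_cases h : k ≠ i ∧ k ≠ j
  · simp only [dif_pos h]
    exact ((continuous_apply _).comp continuous_snd).continuousOn
  · simp only [dif_neg h]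
    by_cases hki : k = i
    · simp only [if_pos hki]
      refine ContinuousOn.div ?_ ?_ fun p hp => hp
      · exact (continuous_finsetSum _ fun (l : Ka i j) _ => (hm j l).mul (hz l)).continuousOn
      · exact (hm i j).continuousOn
    · simp only [if_neg hki]
      refine ContinuousOn.div ?_ ?_ fun p hp => hp
      · exact (continuous_finsetSum _ fun (l : Ka i j) _ => (hm l i).mul (hz l)).continuousOn
      · exact (hm i j).continuousOn

theorem ne_zero_of_mm {M : Fin 2 → Matrix (Fin N) (Fin N) ℤ} {i j : Fin N} {x : Fin N → ℝ}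
    (h : mm M x i j ≠ 0) : x ≠ 0 := by
  rintro rfl
  apply h
  have := mm_smul M (0 : Fin N → ℝ) 0 i j
  rw [zero_smul] at this
  rw [this]
  ring

/-- Admissible weight functions on the fibres. -/
structure TH (M : Fin 2 → Matrix (Fin N) (Fin N) ℤ) (Θ : (Fin N → ℝ) → (Fin N → ℝ) → ℝ)
    (R : ℝ) : Prop where
  R1 : 1 ≤ R
  cont : ContinuousOn (fun p : (Fin N → ℝ) × (Fin N → ℝ) => Θ p.1 p.2)
    {p | p.1 ≠ 0 ∧ ∀ k, rv M p.1 k ⬝ᵥ p.2 = 0}
  nonneg : ∀ x y, 0 ≤ Θ x y
  le_one : ∀ x y, Θ x y ≤ 1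
  supp : ∀ x y, x ≠ 0 → (∀ k, rv M x k ⬝ᵥ y = 0) → R < ‖y‖ → Θ x y = 0
  homog : ∀ (c : ℝ) x y, 0 < c → x ≠ 0 → (∀ k, rv M x k ⬝ᵥ y = 0) → Θ (c • x) y = Θ x y

variable {M : Fin 2 → Matrix (Fin N) (Fin N) ℤ} {Θ : (Fin N → ℝ) → (Fin N → ℝ) → ℝ} {R : ℝ}

/-- The weight in the chart. -/
noncomputable def Psi (M : Fin 2 → Matrix (Fin N) (Fin N) ℤ)
    (Θ : (Fin N → ℝ) → (Fin N → ℝ) → ℝ) (i j : Fin N) (x : Fin N → ℝ) (z : Ka i j → ℝ) : ℝ :=
  Θ x (lft M i j x z)

theorem Psi_cont (h : TH M Θ R) (i j : Fin N) :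
    ContinuousOn (fun p : (Fin N → ℝ) × (Ka i j → ℝ) => Psi M Θ i j p.1 p.2)
      {p | mm M p.1 i j ≠ 0} := by
  have h1 : ContinuousOn (fun p : (Fin N → ℝ) × (Ka i j → ℝ) => (p.1, lft M i j p.1 p.2))
      {p | mm M p.1 i j ≠ 0} := continuousOn_fst.prodMk (lft_cont M i j)
  exact h.cont.comp h1 fun p hp => ⟨ne_zero_of_mm hp, lft_inc hp p.2⟩

theorem Psi_cont_right (h : TH M Θ R) {i j : Fin N} {x : Fin N → ℝ} (hx : mm M x i j ≠ 0) :
    Continuous (Psi M Θ i j x) := by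
  have h1 : ContinuousOn (fun z : Ka i j → ℝ => Psi M Θ i j x z) Set.univ :=
    (Psi_cont h i j).comp (f := fun z : Ka i j → ℝ => (x, z))
      (by fun_prop) fun z _ => hx
  exact continuousOn_univ.1 h1

theorem Psi_supp (h : TH M Θ R) {i j : Fin N} {x : Fin N → ℝ} (hx : mm M x i j ≠ 0)
    (z : Ka i j → ℝ) (hz : R < ‖z‖) : Psi M Θ i j x z = 0 :=
  h.supp _ _ (ne_zero_of_mm hx) (lft_inc hx z) (lt_of_lt_of_le hz (norm_le_lft M i j x z))

theorem Psi_homog (h : TH M Θ R) {i j : Fin N} {x : Fin N → ℝ} (hx : mm M x i j ≠ 0) {c : ℝ}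
    (hc : 0 < c) (z : Ka i j → ℝ) : Psi M Θ i j (c • x) z = Psi M Θ i j x z := by
  unfold Psi
  rw [lft_smul_left M i j x z c hc.ne']
  exact h.homog c _ _ hc (ne_zero_of_mm hx) (lft_inc hx z)

/-- Uniform modulus of continuity on a compact set of base points. -/
theorem Psi_mod (h : TH M Θ R) (i j : Fin N) (κ : ℝ) (hκ : 0 < κ) (η : ℝ) (hη : 0 < η) :
    ∃ s : ℝ, 0 < s ∧ ∀ x : Fin N → ℝ, ‖x‖ ≤ 2 → κ ≤ |mm M x i j| →
      ∀ z w : Ka i j → ℝ, ‖z - w‖ ≤ s → |Psi M Θ i j x z - Psi M Θ i j x w| ≤ η := by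
  set A : Set (Fin N → ℝ) := {x | ‖x‖ ≤ 2 ∧ κ ≤ |mm M x i j|} with hA
  have hAc : IsCompact A := by
    apply Metric.isCompact_of_isClosed_isBounded
    · exact (isClosed_le continuous_norm continuous_const).inter
        (isClosed_le continuous_const (mm_cont M i j).abs)
    · apply (Metric.isBounded_closedBall (x := (0 : Fin N → ℝ)) (r := 2)).subset
      intro x hx
      rw [Metric.mem_closedBall, dist_zero_right]
      exact hx.1
  have hcomp : IsCompact (A ×ˢ Metric.closedBall (0 : Ka i j → ℝ) (R + 1)) :=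
    hAc.prod (isCompact_closedBall _ _)
  have hcont : ContinuousOn (fun p : (Fin N → ℝ) × (Ka i j → ℝ) => Psi M Θ i j p.1 p.2)
      (A ×ˢ Metric.closedBall (0 : Ka i j → ℝ) (R + 1)) := by
    apply (Psi_cont h i j).mono
    rintro ⟨x, z⟩ ⟨hx, _⟩
    change mm M x i j ≠ 0
    intro h0
    have := hx.2
    rw [h0, abs_zero] at this
    linarith
  have huc := hcomp.uniformContinuousOn_of_continuous hcont
  rw [Metric.uniformContinuousOn_iff] at huc
  obtain ⟨δ, hδ, huc⟩ := huc η hη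
  refine ⟨min 1 (δ / 2), by positivity, ?_⟩
  intro x hx1 hx2 z w hzw
  have hx0 : mm M x i j ≠ 0 := by
    intro h0
    rw [h0, abs_zero] at hx2
    linarith
  have hzw1 : ‖z - w‖ ≤ 1 := hzw.trans (min_le_left _ _)
  have hzw2 : ‖z - w‖ < δ := by
    have := hzw.trans (min_le_right _ _)
    linarith
  by_cases hz : ‖z‖ ≤ R + 1 ∧ ‖w‖ ≤ R + 1
  · have h1 := huc (x, z) ⟨⟨hx1, hx2⟩, by rw [Metric.mem_closedBall, dist_zero_right]; exact hz.1⟩
      (x, w) ⟨⟨hx1, hx2⟩, by rw [Metric.mem_closedBall, dist_zero_right]; exact hz.2⟩ (by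
        rw [Prod.dist_eq]
        simp only [dist_self, dist_eq_norm]
        exact max_lt hδ hzw2)
    rw [Real.dist_eq] at h1
    exact h1.le
  · rw [not_and_or, not_le, not_le] at hz
    have h3 : R < ‖z‖ ∧ R < ‖w‖ := by
      have h4 : ‖z‖ ≤ ‖w‖ + ‖z - w‖ := by
        calc ‖z‖ = ‖w + (z - w)‖ := by rw [add_sub_cancel]
          _ ≤ _ := norm_add_le _ _
      have h5 : ‖w‖ ≤ ‖z‖ + ‖z - w‖ := by
        calc ‖w‖ = ‖z - (z - w)‖ := by rw [sub_sub_cancel]
          _ ≤ _ := norm_sub_le _ _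
      rcases hz with h | h <;> constructor <;> linarith
    rw [Psi_supp h hx0 z h3.1, Psi_supp h hx0 w h3.2, sub_zero, abs_zero]
    exact hη.le

/-- The volume in the chart. -/
noncomputable def Vol (M : Fin 2 → Matrix (Fin N) (Fin N) ℤ)
    (Θ : (Fin N → ℝ) → (Fin N → ℝ) → ℝ) (i j : Fin N) (x : Fin N → ℝ) : ℝ :=
  ∫ z : Ka i j → ℝ, Psi M Θ i j x z

theorem Vol_cont (h : TH M Θ R) (i j : Fin N) : ContinuousOn (Vol M Θ i j) {x | mm M x i j ≠ 0} := by
  unfold Vol
  apply continuousOn_integral_of_compact_support (isCompact_closedBall (0 : Ka i j → ℝ) R)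
  · apply (Psi_cont h i j).mono
    rintro ⟨x, z⟩ ⟨hx, _⟩
    exact hx
  · intro x z hx hz
    apply Psi_supp h hx
    rw [Metric.mem_closedBall, dist_zero_right, not_le] at hz
    exact hz

theorem Vol_bound (h : TH M Θ R) (i j : Fin N) : ∃ C : ℝ, 0 < C ∧ ∀ x : Fin N → ℝ,
    mm M x i j ≠ 0 → |Vol M Θ i j x| ≤ C := by
  refine ⟨volume.real (Metric.closedBall (0 : Ka i j → ℝ) R) + 1, by positivity, ?_⟩
  intro x hx
  have h1 : Vol M Θ i j x = ∫ z in Metric.closedBall (0 : Ka i j → ℝ) R, Psi M Θ i j x z := by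
    unfold Vol
    symm
    apply setIntegral_eq_integral_of_forall_compl_eq_zero
    intro z hz
    apply Psi_supp h hx
    rw [Metric.mem_closedBall, dist_zero_right, not_le] at hz
    exact hz
  rw [h1, ← Real.norm_eq_abs]
  have h2 := norm_setIntegral_le_of_norm_le_const (f := fun z => Psi M Θ i j x z) (C := 1)
    (μ := volume) (s := Metric.closedBall (0 : Ka i j → ℝ) R)
    (isCompact_closedBall (0 : Ka i j → ℝ) R).measure_lt_top (fun z _ => by
      unfold Psi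
      rw [Real.norm_eq_abs, abs_of_nonneg (h.nonneg _ _)]
      exact h.le_one _ _)
  linarith

theorem Vol_homog (h : TH M Θ R) {i j : Fin N} {x : Fin N → ℝ} (hx : mm M x i j ≠ 0) {c : ℝ}
    (hc : 0 < c) : Vol M Θ i j (c • x) = Vol M Θ i j x := by
  unfold Vol
  congr 1
  funext z
  exact Psi_homog h hx hc z

end Pool.Agent.N852
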