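import Mathlib
import Pool.Agent.N852.Fib

/-!
The lattice point sum over one fibre is approximated by the volume.
-/

namespace Pool.Agent.N852

open Matrix Module Filter Topology MeasureTheory
open Pool.Agent.H548.WM (ht bx le_ht le_ht' ht_le exists_ht mem_bx card_bx ht_pos)
open Pool.Agent.H548.BL (rv cv Inc inc_iff_rv rc norm_rc)

variable {N : ℕ} {M : Fin 2 → Matrix (Fin N) (Fin N) ℤ} {Θ : (Fin N → ℝ) → (Fin N → ℝ) → ℝ}
  {R : ℝ}

theorem rv_ic (M : Fin 2 → Matrix (Fin N) (Fin N) ℤ) (x : Fin N → ℤ) (k : Fin 2) :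
    rv M (ic x) k = ic (rv M x k) := rv_rc M x k

theorem mm_ic (M : Fin 2 → Matrix (Fin N) (Fin N) ℤ) (x : Fin N → ℤ) (i j : Fin N) :
    mm M (ic x) i j = ((mm M x i j : ℤ) : ℝ) := mm_rc M x i j

theorem norm_ic (x : Fin N → ℤ) : ‖ic x‖ = ht x := norm_rc x

theorem mem_Lx_real {x y : Fin N → ℤ} (hy : y ∈ Lx M x) (k : Fin 2) :
    rv M (ic x) k ⬝ᵥ ic y = 0 := by
  rw [rv_ic]
  have h := mem_Lx.1 hy k
  unfold dotProduct ic at *
  exact_mod_cast h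

open Classical in
/-- The weighted sum over the fibre. -/
noncomputable def SX (M : Fin 2 → Matrix (Fin N) (Fin N) ℤ) (Θ : (Fin N → ℝ) → (Fin N → ℝ) → ℝ)
    (q : ℕ) (b x : Fin N → ℤ) (τ : ℝ) : ℝ :=
  ∑' y : Fin N → ℤ, if y ∈ Lx M x ∧ Cg q y b then Θ (ic x) (τ⁻¹ • ic y) else 0

/-- The lattice `q res(L)`. -/
def qL (M : Fin 2 → Matrix (Fin N) (Fin N) ℤ) (x : Fin N → ℤ) (q : ℕ) (i j : Fin N) :
    AddSubgroup (Ka i j → ℤ) where
  carrier := {z | ∃ y ∈ Lx M x, z = (q : ℤ) • res i j y}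
  zero_mem' := ⟨0, AddSubgroup.zero_mem _, by rw [map_zero, smul_zero]⟩
  add_mem' := by
    rintro _ _ ⟨y, hy, rfl⟩ ⟨z, hz, rfl⟩
    exact ⟨y + z, AddSubgroup.add_mem _ hy hz, by rw [map_add, smul_add]⟩
  neg_mem' := by
    rintro _ ⟨y, hy, rfl⟩
    exact ⟨-y, AddSubgroup.neg_mem _ hy, by rw [map_neg, smul_neg]⟩

theorem mem_qL {x : Fin N → ℤ} {q : ℕ} {i j : Fin N} {z : Ka i j → ℤ} :
    z ∈ qL M x q i j ↔ ∃ y ∈ Lx M x, z = (q : ℤ) • res i j y := Iff.rfl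

theorem index_qL {x : Fin N → ℤ} {q : ℕ} (hq : q ≠ 0) {i j : Fin N} (h : mm M x i j ≠ 0) :
    (qL M x q i j).index * Gx M x = q ^ (N - 2) * (mm M x i j).natAbs := by
  classical
  let f : (Ka i j → ℤ) →+ (Ka i j → ℤ) :=
    { toFun := fun z => (q : ℤ) • z
      map_zero' := smul_zero _
      map_add' := fun z w => smul_add _ _ _ }
  have hf : Function.Injective f := smul_right_injective (Ka i j → ℤ) (by exact_mod_cast hq)
  have h1 : qL M x q i j = ((Lx M x).map (res i j)).map f := by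
    ext z
    rw [mem_qL, AddSubgroup.mem_map]
    constructor
    · rintro ⟨y, hy, rfl⟩
      exact ⟨res i j y, ⟨y, hy, rfl⟩, rfl⟩
    · rintro ⟨_, ⟨y, hy, rfl⟩, rfl⟩
      exact ⟨y, hy, rfl⟩
  have h2 : f.range = rowLat ((q : ℤ) • (1 : Matrix (Ka i j) (Ka i j) ℤ)) := by
    ext z
    rw [AddMonoidHom.mem_range, mem_mulLat]
    exact ⟨fun ⟨w, hw⟩ => ⟨w, hw.symm⟩, fun ⟨w, hw⟩ => ⟨w, hw.symm⟩⟩
  rw [h1, AddSubgroup.index_map_of_injective _ hf, h2, index_mulLat q hq,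
    card_Ka (ne_of_mm h), ← index_res h]
  ring

theorem SX_chart {x : Fin N → ℤ} {q : ℕ} (hq : q ≠ 0) {i j : Fin N}
    (h : mm M x i j ≠ 0) {b y₀ : Fin N → ℤ} (hy₀ : y₀ ∈ Lx M x) (hyb : Cg q y₀ b) (τ : ℝ)
    [DecidablePred fun z : Ka i j → ℤ => z - res i j y₀ ∈ qL M x q i j] :
    SX M Θ q b x τ = ∑' z : Ka i j → ℤ, if z - res i j y₀ ∈ qL M x q i j then
      Psi M Θ i j (ic x) (τ⁻¹ • ic z) else 0 := by
  classical
  have hmR : mm M (ic x) i j ≠ 0 := by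
    rw [mm_ic]
    exact_mod_cast h
  unfold SX
  set A : Set (Fin N → ℤ) := {y | y ∈ Lx M x ∧ Cg q y b} with hA
  set B : Set (Ka i j → ℤ) := {z | z - res i j y₀ ∈ qL M x q i j} with hB
  have h1 : (fun y : Fin N → ℤ => if y ∈ Lx M x ∧ Cg q y b then Θ (ic x) (τ⁻¹ • ic y) else 0) =
      A.indicator fun y => Θ (ic x) (τ⁻¹ • ic y) := by
    funext y
    rw [Set.indicator_apply]
    exact if_congr Iff.rfl rfl rfl
  have h2 : (fun z : Ka i j → ℤ => if z - res i j y₀ ∈ qL M x q i j then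
      Psi M Θ i j (ic x) (τ⁻¹ • ic z) else 0) =
      B.indicator fun z => Psi M Θ i j (ic x) (τ⁻¹ • ic z) := by
    funext z
    rw [Set.indicator_apply]
    exact if_congr Iff.rfl rfl rfl
  rw [h1, h2, ← tsum_subtype, ← tsum_subtype]
  have hqZ : (q : ℤ) ≠ 0 := by exact_mod_cast hq
  -- the bijection
  have hmaps : ∀ y ∈ A, res i j y ∈ B := by
    rintro y ⟨hy, w, hw⟩
    obtain ⟨w₀, hw₀⟩ := hyb
    have h3 : y - y₀ = (q : ℤ) • (w - w₀) := by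
      rw [smul_sub, ← hw, ← hw₀]
      abel
    have h4 : w - w₀ ∈ Lx M x := by
      rw [← smul_mem_Lx hqZ, ← h3]
      exact AddSubgroup.sub_mem _ hy hy₀
    change res i j y - res i j y₀ ∈ qL M x q i j
    rw [← map_sub, h3]
    exact ⟨w - w₀, h4, map_zsmul _ _ _⟩
  let f : A → B := fun y => ⟨res i j y, hmaps y y.2⟩
  have hf : Function.Bijective f := by
    constructor
    · rintro ⟨y, hy⟩ ⟨z, hz⟩ hyz
      apply Subtype.ext
      exact res_inj h hy.1 hz.1 (congrArg Subtype.val hyz)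
    · rintro ⟨z, hz⟩
      obtain ⟨w, hw, hzw⟩ := mem_qL.1 hz
      obtain ⟨w₀, hw₀⟩ := hyb
      refine ⟨⟨y₀ + (q : ℤ) • w, AddSubgroup.add_mem _ hy₀ (AddSubgroup.zsmul_mem _ hw _),
        w₀ + w, ?_⟩, ?_⟩
      · rw [smul_add, ← hw₀]
        abel
      · apply Subtype.ext
        change res i j (y₀ + (q : ℤ) • w) = z
        rw [map_add, map_zsmul, ← hzw]
        abel
  rw [← (Equiv.ofBijective f hf).tsum_eq (fun z : B => Psi M Θ i j (ic x) (τ⁻¹ • ic (z : Ka i j → ℤ)))]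
  refine tsum_congr fun y => ?_
  change Θ (ic x) (τ⁻¹ • ic (y : Fin N → ℤ)) =
    Psi M Θ i j (ic x) (τ⁻¹ • ic (res i j (y : Fin N → ℤ)))
  unfold Psi
  rw [lft_smul_right]
  congr 1
  congr 1
  exact eq_lft hmR (mem_Lx_real y.2.1)

/-- **The fibre lemma.** -/
theorem fibre_chart (hΘ : TH M Θ R) {x : Fin N → ℤ} {q : ℕ} (hq : q ≠ 0) {i j : Fin N}
    (h : mm M x i j ≠ 0) {b y₀ : Fin N → ℤ} (hy₀ : y₀ ∈ Lx M x) (hyb : Cg q y₀ b) {τ ρ η : ℝ}
    (hτ : 1 ≤ τ) (hρ : 0 ≤ ρ) (hρτ : q * ρ ≤ τ) (hη : 0 ≤ η) (hs : Spn M x ρ)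
    (hmod1 : ∀ z w, ‖z - w‖ ≤ 2 * ((N - 2 : ℕ) * (q * ρ)) / τ →
      |Psi M Θ i j (ic x) z - Psi M Θ i j (ic x) w| ≤ η)
    (hmod2 : ∀ z w, ‖z - w‖ ≤ 2 * (N - 2 : ℕ) / τ →
      |Psi M Θ i j (ic x) z - Psi M Θ i j (ic x) w| ≤ η) :
    |((q : ℝ) ^ (N - 2) * |((mm M x i j : ℤ) : ℝ)| / Gx M x) * SX M Θ q b x τ -
      τ ^ (N - 2) * Vol M Θ i j (ic x)| ≤
      2 * (η * ((2 * R + 4 * (N - 2 : ℕ) + 1) * τ) ^ (N - 2)) := by
  classical
  have hτ0 : 0 < τ := by linarith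
  have hR1 := hΘ.R1
  have hij := ne_of_mm h
  have hcard : Fintype.card (Ka i j) = N - 2 := card_Ka hij
  have hmR : mm M (ic x) i j ≠ 0 := by
    rw [mm_ic]
    exact_mod_cast h
  obtain ⟨v, hv, hl⟩ := hs
  have e : Ka i j ≃ Fin (N - 2) := Fintype.equivFinOfCardEq hcard
  set v' : Ka i j → Ka i j → ℤ := fun a => (q : ℤ) • res i j (v (e a)) with hv'
  have hdet : (Matrix.of v').det ≠ 0 := by
    have h1 : (Matrix.of v') = (q : ℤ) • Matrix.of fun a : Ka i j => res i j (v (e a)) := by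
      ext a c
      rfl
    rw [h1, det_smul]
    exact mul_ne_zero (pow_ne_zero _ (by exact_mod_cast hq)) (det_res h (fun a => (hv a).1) hl e)
  have hv'L : ∀ a, v' a ∈ qL M x q i j := fun a => ⟨v (e a), (hv _).1, rfl⟩
  have hv'n : ∀ a, ‖ic (v' a)‖ ≤ q * ρ := by
    intro a
    rw [pi_norm_le_iff_of_nonneg (by positivity)]
    intro k
    have h1 : ic (v' a) k = (q : ℝ) * (v (e a) k : ℝ) := by
      simp [ic, hv', res]
    rw [h1, norm_mul, Real.norm_natCast]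
    apply mul_le_mul_of_nonneg_left _ (by positivity)
    have h2 := norm_le_pi_norm (ic (v (e a))) k
    rw [norm_ic] at h2
    exact h2.trans (hv (e a)).2
  have hG : Gx M x ≠ 0 := by
    intro h0
    have h1 := index_res h
    rw [h0, mul_zero] at h1
    exact h (Int.natAbs_eq_zero.1 h1.symm)
  have hG0 : (0 : ℝ) < Gx M x := by exact_mod_cast Nat.pos_of_ne_zero hG
  have hidx : ((qL M x q i j).index : ℝ) = (q : ℝ) ^ (N - 2) * |((mm M x i j : ℤ) : ℝ)| / Gx M x := by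
    rw [eq_div_iff hG0.ne']
    have h1 := index_qL (M := M) hq h
    have h2 : |((mm M x i j : ℤ) : ℝ)| = (((mm M x i j).natAbs : ℕ) : ℝ) := by
      rw [Nat.cast_natAbs, Int.cast_abs]
    rw [h2]
    exact_mod_cast h1
  have h1 := coset_sum hdet hv'L hv'n (Psi M Θ i j (ic x)) R τ η (by positivity) (by linarith)
    hτ0 hη (Psi_supp hΘ hmR) (by
      intro z w hzw
      apply hmod1
      rw [hcard] at hzw
      exact hzw) (res i j y₀)
  rw [← SX_chart hq h hy₀ hyb τ, hidx, hcard] at h1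
  have h2 := riem_err (Psi M Θ i j (ic x)) (Psi_cont_right hΘ hmR) R η τ (by linarith) hη hτ
    (Psi_supp hΘ hmR) (by
      intro z w hzw
      apply hmod2
      rw [hcard] at hzw
      exact hzw)
  rw [hcard] at h2
  have h3 : η * (2 * (R * τ + 2 * ((N - 2 : ℕ) * (q * ρ))) + 1) ^ (N - 2) ≤
      η * ((2 * R + 4 * (N - 2 : ℕ) + 1) * τ) ^ (N - 2) := by
    apply mul_le_mul_of_nonneg_left _ hη
    apply pow_le_pow_left₀ (by positivity)
    have h4 : ((N - 2 : ℕ) : ℝ) * (q * ρ) ≤ ((N - 2 : ℕ) : ℝ) * τ := by gcongr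
    linarith
  have h4 : ((q : ℝ) ^ (N - 2) * |((mm M x i j : ℤ) : ℝ)| / Gx M x) * SX M Θ q b x τ -
      τ ^ (N - 2) * Vol M Θ i j (ic x) =
      (((q : ℝ) ^ (N - 2) * |((mm M x i j : ℤ) : ℝ)| / Gx M x) * SX M Θ q b x τ -
        ∑' z : Ka i j → ℤ, Psi M Θ i j (ic x) (τ⁻¹ • ic z)) +
      (∑' z : Ka i j → ℤ, Psi M Θ i j (ic x) (τ⁻¹ • ic z) -
        τ ^ (N - 2) * Vol M Θ i j (ic x)) := by ring
  rw [h4]
  refine (abs_add_le _ _).trans ?_
  have h5 := h1.trans h3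
  have h6 : |∑' z : Ka i j → ℤ, Psi M Θ i j (ic x) (τ⁻¹ • ic z) -
      τ ^ (N - 2) * Vol M Θ i j (ic x)| ≤
      η * ((2 * R + 4 * (N - 2 : ℕ) + 1) * τ) ^ (N - 2) := h2
  linarith

end Pool.Agent.N852
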