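import Mathlib
import Pool.Agent.N852.Chart

/-!
The degenerate fibres contribute little; a lower bound by the pigeonhole principle.
-/

namespace Pool.Agent.N852

open Matrix Module
open Pool.Agent.H548.WM (ht bx le_ht le_ht' ht_le exists_ht mem_bx card_bx ht_pos)
open Pool.Agent.H548.BL (rv cv Inc inc_iff_rv rc norm_rc)

variable {N : ℕ} {M : Fin 2 → Matrix (Fin N) (Fin N) ℤ}

theorem LB_mono {x : Fin N → ℤ} {B B' : ℕ} (h : B ≤ B') : LB M x B ⊆ LB M x B' := by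
  intro y hy
  rw [mem_LB] at hy ⊢
  exact ⟨hy.1.trans h, hy.2⟩

open Classical in
/-- Doubling in the full dimension. -/
theorem full_doubling {x : Fin N → ℤ} {B ρ : ℕ} (hρ : 1 ≤ ρ) (hρB : ρ ≤ B) :
    ((LB M x B).card : ℝ) ≤ (3 * B / ρ) ^ N * ((LB M x ρ).card : ℝ) := by
  have h1 := Pool.Agent.H548.BL.doubling (b := N) (Lx M x) ⊤ (by
    rw [finrank_top, Module.finrank_fin_fun]) (fun v _ => Submodule.mem_top) B ρ hρ hρB
  have h2 : ∀ B, LB M x B = (bx N B).filter (· ∈ Lx M x) := by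
    intro B
    unfold LB
    congr
  rw [h2, h2]
  exact h1

theorem sum_LB_le (hM : Nice M) : ∃ C : ℝ, 0 < C ∧ ∀ (A ρ : ℕ) (S : Finset (Fin N → ℤ)),
    1 ≤ A → 1 ≤ ρ → (∀ x ∈ S, Prm x ∧ ht x ≤ A) →
    ∑ x ∈ S, ((LB M x ρ).card : ℝ) ≤ C * ((A : ℝ) ^ N + ((A : ℝ) * ρ) ^ (N - 2)) := by
  classical
  obtain ⟨K, hK, hp⟩ := pairs hM
  have h4 := hM.four
  refine ⟨3 ^ N + 2 * K, by positivity, ?_⟩
  intro A ρ S hA hρ hS
  have hA1 : (1 : ℝ) ≤ A := by exact_mod_cast hA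
  have hsub : S ⊆ XP N A := by
    intro x hx
    exact mem_XP.2 ⟨(hS x hx).2, (hS x hx).1⟩
  calc ∑ x ∈ S, ((LB M x ρ).card : ℝ) ≤ ∑ x ∈ XP N A, ((LB M x ρ).card : ℝ) :=
        Finset.sum_le_sum_of_subset_of_nonneg hsub fun _ _ _ => Nat.cast_nonneg _
    _ ≤ ∑ x ∈ XP N A, (1 + ∑ d ∈ Finset.Icc 1 ρ, ((LP M x (ρ / d)).card : ℝ)) :=
        Finset.sum_le_sum fun x _ => LB_cover M x ρ
    _ = ((XP N A).card : ℝ) + ∑ d ∈ Finset.Icc 1 ρ, ∑ x ∈ XP N A, ((LP M x (ρ / d)).card : ℝ) := by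
        rw [Finset.sum_add_distrib, Finset.sum_const, nsmul_eq_mul, mul_one, Finset.sum_comm]
    _ ≤ 3 ^ N * (A : ℝ) ^ N + 2 * (K * (A : ℝ) ^ (N - 2)) * (ρ : ℝ) ^ (N - 2) := by
        apply add_le_add
        · rw [← mul_pow]
          exact card_le_box hA1 fun s hs => by exact_mod_cast (mem_XP.1 hs).1
        · refine le_trans ?_ (sum_div_pow_le (K * (A : ℝ) ^ (N - 2)) ρ (N - 2) ρ (by omega)
            (by positivity) (by positivity))
          refine Finset.sum_le_sum fun d hd => ?_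
          rw [Finset.mem_Icc] at hd
          have h5 : ∑ x ∈ XP N A, ((LP M x (ρ / d)).card : ℝ) = (PN M A (ρ / d) : ℝ) := by
            unfold PN
            push_cast
            rfl
          rw [h5]
          have hd1 : 1 ≤ ρ / d := (Nat.one_le_div_iff (by omega)).2 hd.2
          refine (hp A (ρ / d) hA hd1).trans ?_
          rw [mul_pow, ← mul_assoc]
          gcongr
          exact Nat.cast_div_le
    _ ≤ (3 ^ N + 2 * K) * ((A : ℝ) ^ N + ((A : ℝ) * ρ) ^ (N - 2)) := by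
        rw [mul_pow]
        have h6 : (0 : ℝ) ≤ (A : ℝ) ^ (N - 2) * (ρ : ℝ) ^ (N - 2) := by positivity
        have h7 : (0 : ℝ) ≤ (A : ℝ) ^ N := by positivity
        have h8 : (0 : ℝ) ≤ 3 ^ N := by positivity
        nlinarith [mul_nonneg h8 h6, mul_nonneg hK.le h7]

/-- **The degenerate fibres.** -/
theorem bad_sum (hM : Nice M) (δ R : ℝ) (hδ : 0 < δ) (hδ1 : δ ≤ 1) (hR : 1 ≤ R) :
    ∃ C T₀ : ℝ, 0 < C ∧ 1 ≤ T₀ ∧ ∀ (T : ℝ) (t : ℕ) (S : Finset (Fin N → ℤ)), T₀ ≤ T → 1 ≤ t →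
      (t : ℝ) ^ 2 ≤ T →
      (∀ x ∈ S, Prm x ∧ ht x ≤ 2 * t ∧ t ≤ 2 * ht x ∧ ¬ Spn M x (δ * (T / ht x))) →
      ∑ x ∈ S, ((LB M x ⌈R * (T / ht x)⌉₊).card : ℝ) ≤ C * T ^ (N - 3) * (t : ℝ) ^ 2 := by
  classical
  obtain ⟨C₁, hC1, hsum⟩ := sum_LB_le hM
  have h4 := hM.four
  obtain ⟨r, hr⟩ : ∃ r, N = r + 3 := ⟨N - 3, by omega⟩
  have hr1 : 1 ≤ r := by omega
  set Cδ : ℝ := 3 * (2 * R + 1) * 4 / δ with hCδ
  have hCδ0 : 0 < Cδ := by positivity
  refine ⟨Cδ ^ N * (3 ^ r * (C₁ * (2 ^ N + 2 ^ N))), (4 / δ) ^ 2, by positivity, ?_, ?_⟩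
  · have : 1 ≤ 4 / δ := by
      rw [le_div_iff₀ hδ]
      linarith
    nlinarith
  intro T t S hT ht1 htT hS
  have ht0 : (0 : ℝ) < t := by exact_mod_cast ht1
  have ht1' : (1 : ℝ) ≤ t := by exact_mod_cast ht1
  have hT0 : 0 < T := lt_of_lt_of_le (by positivity) hT
  have hT1 : 1 ≤ T := by nlinarith
  -- `T / t ≥ 4 / δ`
  have hTt : 4 / δ ≤ T / t := by
    rw [le_div_iff₀ ht0]
    by_contra hcon
    rw [not_le] at hcon
    have h5 : T ^ 2 < (4 / δ * t) ^ 2 := by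
      apply pow_lt_pow_left₀ hcon hT0.le (by norm_num)
    have h6 : (4 / δ * t) ^ 2 = (4 / δ) ^ 2 * t ^ 2 := by ring
    have h7 : (4 / δ) ^ 2 * (t : ℝ) ^ 2 ≤ T * T := by gcongr
    nlinarith
  have hTt1 : 1 ≤ T / t := by
    rw [le_div_iff₀ ht0, one_mul]
    nlinarith
  obtain ⟨ρ₀, hρ₀⟩ : ∃ ρ₀ : ℕ, ρ₀ = ⌊δ * T / (2 * t)⌋₊ := ⟨_, rfl⟩
  have hδT : 2 ≤ δ * T / (2 * t) := by
    rw [div_le_iff₀ hδ] at hTt
    rw [le_div_iff₀ (by positivity)]
    have : T / t * δ * t = T * δ := by field_simp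
    nlinarith
  have hρ₀1 : 1 ≤ ρ₀ := by
    rw [hρ₀]
    apply Nat.le_floor
    push_cast
    linarith
  have hρ₀le : (ρ₀ : ℝ) ≤ δ * T / (2 * t) := by
    rw [hρ₀]
    exact Nat.floor_le (by positivity)
  have hρ₀ge : δ * T / (4 * t) ≤ ρ₀ := by
    have h5 : δ * T / (2 * t) < ρ₀ + 1 := by
      rw [hρ₀]
      exact Nat.lt_floor_add_one _
    have h6 : δ * T / (4 * t) = δ * T / (2 * t) / 2 := by
      field_simp
      norm_num
    rw [h6]
    linarith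
  have hρ₀p : (0 : ℝ) < ρ₀ := by exact_mod_cast hρ₀1
  obtain ⟨B, hB⟩ : ∃ B : ℕ, B = ⌈2 * R * (T / t)⌉₊ := ⟨_, rfl⟩
  have hBle : (B : ℝ) ≤ (2 * R + 1) * (T / t) := by
    rw [hB]
    have := Nat.ceil_lt_add_one (a := 2 * R * (T / t)) (by positivity)
    linarith
  have hρB : ρ₀ ≤ B := by
    have h5 : (ρ₀ : ℝ) ≤ B := by
      calc (ρ₀ : ℝ) ≤ δ * T / (2 * t) := hρ₀le
        _ = δ / 2 * (T / t) := by field_simp
        _ ≤ 2 * R * (T / t) := by
          gcongr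
          linarith
        _ ≤ B := by
          rw [hB]
          exact Nat.le_ceil _
    exact_mod_cast h5
  have hratio : 3 * (B : ℝ) / ρ₀ ≤ Cδ := by
    rw [div_le_iff₀ hρ₀p]
    calc 3 * (B : ℝ) ≤ 3 * ((2 * R + 1) * (T / t)) := by gcongr
      _ = Cδ * (δ * T / (4 * t)) := by
          rw [hCδ]
          field_simp
      _ ≤ Cδ * ρ₀ := by gcongr
  -- the scale ρ₁
  obtain ⟨ρ₁, hρ₁⟩ : ∃ ρ₁ : ℕ, ρ₁ = min ρ₀ t := ⟨_, rfl⟩
  have hρ₁1 : 1 ≤ ρ₁ := by rw [hρ₁]; exact le_min hρ₀1 ht1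
  have hρ₁ρ₀ : ρ₁ ≤ ρ₀ := by rw [hρ₁]; exact min_le_left _ _
  have hρ₁t : ρ₁ ≤ t := by rw [hρ₁]; exact min_le_right _ _
  have hρ₁p : (0 : ℝ) < ρ₁ := by exact_mod_cast hρ₁1
  have hx : ∀ x ∈ S, ((LB M x ⌈R * (T / ht x)⌉₊).card : ℝ) ≤
      Cδ ^ N * ((3 * ρ₀ / ρ₁) ^ r * ((LB M x ρ₁).card : ℝ)) := by
    intro x hx
    obtain ⟨h5, h6, h7, h8⟩ := hS x hx
    have hhx : 1 ≤ ht x := ht_pos h5.ne
    have hhx0 : (0 : ℝ) < ht x := by exact_mod_cast hhx
    have h6' : (ht x : ℝ) ≤ 2 * t := by exact_mod_cast h6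
    have h7' : (t : ℝ) ≤ 2 * ht x := by exact_mod_cast h7
    have h9 : ⌈R * (T / ht x)⌉₊ ≤ B := by
      rw [hB]
      apply Nat.ceil_le_ceil
      have : T / ht x ≤ 2 * (T / t) := by
        rw [div_le_iff₀ hhx0]
        calc T = T / t * t := by field_simp
          _ ≤ T / t * (2 * ht x) := by gcongr
          _ = 2 * (T / t) * ht x := by ring
      nlinarith
    have h10 : ¬ Spn M x ρ₀ := by
      intro hs
      apply h8
      apply hs.mono
      refine hρ₀le.trans ?_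
      rw [mul_div_assoc]
      gcongr
    have h11 := bad_card (M := M) (by omega) h10 ρ₁ hρ₁1 hρ₁ρ₀
    rw [show N - 3 = r by omega] at h11
    calc ((LB M x ⌈R * (T / ht x)⌉₊).card : ℝ) ≤ ((LB M x B).card : ℝ) := by
          exact_mod_cast Finset.card_le_card (LB_mono h9)
      _ ≤ (3 * B / ρ₀) ^ N * ((LB M x ρ₀).card : ℝ) := full_doubling hρ₀1 hρB
      _ ≤ Cδ ^ N * ((3 * ρ₀ / ρ₁) ^ r * ((LB M x ρ₁).card : ℝ)) := by gcongr
  have hS1 := hsum (2 * t) ρ₁ S (by omega) hρ₁1 fun x hx => ⟨(hS x hx).1, (hS x hx).2.1⟩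
  have hN2 : N - 2 = r + 1 := by omega
  have hN3 : N - 3 = r := by omega
  rw [hN2] at hS1
  rw [hN3]
  push_cast at hS1
  -- the main estimate
  have hmain : ((ρ₀ : ℝ) / ρ₁) ^ r * ((2 * (t : ℝ)) ^ N + ((2 * (t : ℝ)) * ρ₁) ^ (r + 1)) ≤
      (2 ^ N + 2 ^ N) * (T ^ r * (t : ℝ) ^ 2) := by
    have h5 : ((2 * (t : ℝ)) * ρ₁) ^ (r + 1) ≤ 2 ^ N * ((t : ℝ) ^ (r + 1) * (t : ℝ) ^ (r + 1)) := by
      calc ((2 * (t : ℝ)) * ρ₁) ^ (r + 1) ≤ ((2 * (t : ℝ)) * t) ^ (r + 1) := by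
            have : (ρ₁ : ℝ) ≤ t := by exact_mod_cast hρ₁t
            gcongr
        _ = 2 ^ (r + 1) * ((t : ℝ) ^ (r + 1) * (t : ℝ) ^ (r + 1)) := by
            rw [mul_pow, mul_pow]
            ring
        _ ≤ 2 ^ N * ((t : ℝ) ^ (r + 1) * (t : ℝ) ^ (r + 1)) := by
            gcongr
            · norm_num
            · omega
    have h6 : (2 * (t : ℝ)) ^ N ≤ 2 ^ N * ((t : ℝ) ^ (r + 1) * (t : ℝ) ^ (r + 1)) := by
      rw [mul_pow, ← pow_add]
      gcongr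
      omega
    have h7 : (2 * (t : ℝ)) ^ N + ((2 * (t : ℝ)) * ρ₁) ^ (r + 1) ≤
        (2 ^ N + 2 ^ N) * ((t : ℝ) ^ 2 * ((t : ℝ) ^ 2) ^ r) := by
      have h8 : (t : ℝ) ^ 2 * ((t : ℝ) ^ 2) ^ r = (t : ℝ) ^ (r + 1) * (t : ℝ) ^ (r + 1) := by
        rw [← pow_mul, ← pow_add, ← pow_add]
        congr 1
        ring
      rw [h8]
      linarith
    have h8 : ((ρ₀ : ℝ) / ρ₁) ^ r * ((t : ℝ) ^ 2) ^ r ≤ T ^ r := by
      rw [← mul_pow]
      apply pow_le_pow_left₀ (by positivity)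
      rcases le_total ρ₀ t with h | h
      · have : ρ₁ = ρ₀ := by rw [hρ₁]; exact min_eq_left h
        rw [this, div_self hρ₀p.ne', one_mul]
        exact htT
      · have : ρ₁ = t := by rw [hρ₁]; exact min_eq_right h
        rw [this]
        have h9 : (ρ₀ : ℝ) / t * (t : ℝ) ^ 2 = ρ₀ * t := by field_simp
        rw [h9]
        calc (ρ₀ : ℝ) * t ≤ δ * T / (2 * t) * t := by gcongr
          _ = δ / 2 * T := by field_simp
          _ ≤ T := by nlinarith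
    calc ((ρ₀ : ℝ) / ρ₁) ^ r * ((2 * (t : ℝ)) ^ N + ((2 * (t : ℝ)) * ρ₁) ^ (r + 1))
        ≤ ((ρ₀ : ℝ) / ρ₁) ^ r * ((2 ^ N + 2 ^ N) * ((t : ℝ) ^ 2 * ((t : ℝ) ^ 2) ^ r)) := by gcongr
      _ = (2 ^ N + 2 ^ N) * ((((ρ₀ : ℝ) / ρ₁) ^ r * ((t : ℝ) ^ 2) ^ r) * (t : ℝ) ^ 2) := by ring
      _ ≤ _ := by gcongr
  calc ∑ x ∈ S, ((LB M x ⌈R * (T / ht x)⌉₊).card : ℝ)
      ≤ ∑ x ∈ S, Cδ ^ N * ((3 * ρ₀ / ρ₁) ^ r * ((LB M x ρ₁).card : ℝ)) := Finset.sum_le_sum hx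
    _ = Cδ ^ N * ((3 * ρ₀ / ρ₁) ^ r * ∑ x ∈ S, ((LB M x ρ₁).card : ℝ)) := by
        rw [Finset.mul_sum, Finset.mul_sum]
    _ ≤ Cδ ^ N * ((3 * ρ₀ / ρ₁) ^ r * (C₁ * ((2 * (t : ℝ)) ^ N +
          ((2 * (t : ℝ)) * ρ₁) ^ (r + 1)))) := by gcongr
    _ = Cδ ^ N * (3 ^ r * (C₁ * (((ρ₀ : ℝ) / ρ₁) ^ r * ((2 * (t : ℝ)) ^ N +
          ((2 * (t : ℝ)) * ρ₁) ^ (r + 1))))) := by
        rw [mul_div_assoc, mul_pow]
        ring
    _ ≤ Cδ ^ N * (3 ^ r * (C₁ * ((2 ^ N + 2 ^ N) * (T ^ r * (t : ℝ) ^ 2)))) := by gcongr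
    _ = _ := by ring

/-- **The pigeonhole lower bound.** -/
theorem pigeon (hM : Nice M) {x : Fin N → ℤ} (hx : x ≠ 0) (B : ℕ) :
    (B + 1) ^ (N - 2) ≤ dd M x * (LB M x (N * B)).card := by
  classical
  have hN : 0 < N := by have := hM.four; omega
  obtain ⟨i, j, hij⟩ := exists_mx hN M x
  have hmx := mx_ne_zero hM hx
  have h0 : mm M x i j ≠ 0 := by
    intro h0
    rw [h0, Int.natAbs_zero] at hij
    exact hmx hij.symm
  have hne := ne_of_mm h0
  set Λ := (Lx M x).map (res i j) with hΛ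
  have hidx : Λ.index = dd M x := by
    have h1 := index_res h0
    rw [hij, ← Gx_mul_dd hN M x, mul_comm] at h1
    exact Nat.eq_of_mul_eq_mul_left (Nat.pos_of_ne_zero (Gx_ne_zero hN hmx)) h1
  have hdd0 := dd_ne_zero hN hmx
  have hfin : Finite ((Ka i j → ℤ) ⧸ Λ) := Nat.finite_of_card_ne_zero (by
    change Λ.index ≠ 0
    rw [hidx]
    exact hdd0)
  have : Fintype ((Ka i j → ℤ) ⧸ Λ) := Fintype.ofFinite _
  have hcardQ : Fintype.card ((Ka i j → ℤ) ⧸ Λ) = dd M x := by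
    rw [← hidx, ← Nat.card_eq_fintype_card]
    rfl
  set Bx : Finset (Ka i j → ℤ) := Fintype.piFinset fun _ => Finset.Icc (0 : ℤ) B with hBx
  have hBcard : Bx.card = (B + 1) ^ (N - 2) := by
    rw [hBx, Fintype.card_piFinset, Finset.prod_const, Finset.card_univ, card_Ka hne,
      Int.card_Icc]
    congr 1
  -- every fibre of the quotient map is small
  have hfib : ∀ c ∈ (Finset.univ : Finset ((Ka i j → ℤ) ⧸ Λ)),
      (Bx.filter fun z => (QuotientAddGroup.mk z : (Ka i j → ℤ) ⧸ Λ) = c).card ≤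
      (LB M x (N * B)).card := by
    intro c _
    rcases (Bx.filter fun z => (QuotientAddGroup.mk z : (Ka i j → ℤ) ⧸ Λ) = c).eq_empty_or_nonempty
      with he | ⟨z0, hz0⟩
    · rw [he]
      simp
    · rw [Finset.mem_filter] at hz0
      have hex : ∀ z ∈ Bx.filter (fun z => (QuotientAddGroup.mk z : (Ka i j → ℤ) ⧸ Λ) = c),
          ∃ y ∈ LB M x (N * B), res i j y = z - z0 := by
        intro z hz
        rw [Finset.mem_filter] at hz
        have h1 : (QuotientAddGroup.mk z0 : (Ka i j → ℤ) ⧸ Λ) = QuotientAddGroup.mk z := by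
          rw [hz0.2, hz.2]
        rw [QuotientAddGroup.eq] at h1
        have h2 : -z0 + z = z - z0 := by abel
        rw [h2, hΛ, AddSubgroup.mem_map] at h1
        obtain ⟨y, hy, hyz⟩ := h1
        refine ⟨y, mem_LB.2 ⟨?_, hy⟩, hyz⟩
        have hzb : ∀ l : Ka i j, |y l| ≤ (B : ℤ) := by
          intro l
          have h3 : y l = z l - z0 l := congrFun hyz l
          rw [hBx, Fintype.mem_piFinset] at hz hz0
          have h4 := Finset.mem_Icc.1 (hz.1 l)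
          have h5 := Finset.mem_Icc.1 (hz0.1 l)
          rw [h3, abs_le]
          constructor <;> omega
        obtain ⟨e1, e2⟩ := solve hne (mem_Lx.1 hy)
        have hm0 : (0 : ℤ) < |mm M x i j| := abs_pos.2 h0
        have hmax : ∀ a b : Fin N, |mm M x a b| ≤ |mm M x i j| := by
          intro a b
          rw [Int.abs_eq_natAbs, Int.abs_eq_natAbs]
          exact_mod_cast hij ▸ le_mx M x a b
        have hsumb : ∀ f : Ka i j → ℤ, (∀ l, |f l| ≤ |mm M x i j|) →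
            |∑ l : Ka i j, f l * y l| ≤ |mm M x i j| * ((N * B : ℕ) : ℤ) := by
          intro f hf
          refine (Finset.abs_sum_le_sum_abs _ _).trans ?_
          calc ∑ l : Ka i j, |f l * y l| ≤ ∑ _l : Ka i j, |mm M x i j| * (B : ℤ) := by
                refine Finset.sum_le_sum fun l _ => ?_
                rw [abs_mul]
                exact mul_le_mul (hf l) (hzb l) (abs_nonneg _) hm0.le
            _ = ((N - 2 : ℕ) : ℤ) * (|mm M x i j| * (B : ℤ)) := by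
                rw [Finset.sum_const, Finset.card_univ, card_Ka hne, nsmul_eq_mul]
            _ ≤ (N : ℤ) * (|mm M x i j| * (B : ℤ)) := by
                apply mul_le_mul_of_nonneg_right _ (by positivity)
                have : N - 2 ≤ N := Nat.sub_le _ _
                exact_mod_cast this
            _ = |mm M x i j| * ((N * B : ℕ) : ℤ) := by
                push_cast
                ring
        apply ht_le
        intro k
        by_cases hki : k = i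
        · subst hki
          have h3 := hsumb (fun l => mm M x j l) (fun l => hmax _ _)
          rw [← e1, abs_mul] at h3
          exact le_of_mul_le_mul_left h3 hm0
        · by_cases hkj : k = j
          · subst hkj
            have h3 := hsumb (fun l => mm M x l i) (fun l => hmax _ _)
            rw [← e2, abs_mul] at h3
            exact le_of_mul_le_mul_left h3 hm0
          · refine (hzb ⟨k, hki, hkj⟩).trans ?_
            have : B ≤ N * B := Nat.le_mul_of_pos_left _ hN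
            exact_mod_cast this
      choose! g hg1 hg2 using hex
      apply Finset.card_le_card_of_injOn g hg1
      intro z hz w hw hzw
      have h1 := hg2 z hz
      have h2 := hg2 w hw
      rw [hzw, h2] at h1
      exact (sub_left_injective h1).symm
  have h1 := Finset.card_le_mul_card_image_of_maps_to
    (f := fun z => (QuotientAddGroup.mk z : (Ka i j → ℤ) ⧸ Λ)) (s := Bx) (t := Finset.univ)
    (fun z _ => Finset.mem_univ _) _ hfib
  rw [Finset.card_univ, hcardQ, hBcard] at h1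
  rw [mul_comm]
  exact h1

end Pool.Agent.N852
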