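import Mathlib
import Pool.Agent.N852.Bad

/-!
Partition of the charts, the density, and the dyadic weight.
-/

namespace Pool.Agent.N852

open Matrix Module Filter Topology
open Pool.Agent.H548.WM (ht bx le_ht le_ht' ht_le exists_ht mem_bx card_bx ht_pos)
open Pool.Agent.H548.BL (rv cv Inc inc_iff_rv rc norm_rc)

variable {N : ℕ} {M : Fin 2 → Matrix (Fin N) (Fin N) ℤ} {Θ : (Fin N → ℝ) → (Fin N → ℝ) → ℝ}
  {R : ℝ}

/-- The weight of a chart. -/
noncomputable def wj (M : Fin 2 → Matrix (Fin N) (Fin N) ℤ) (i j : Fin N) (x : Fin N → ℝ) : ℝ :=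
  max 0 (|mm M x i j| - mr M x / 2)

/-- The total weight. -/
noncomputable def wt (M : Fin 2 → Matrix (Fin N) (Fin N) ℤ) (x : Fin N → ℝ) : ℝ :=
  ∑ i, ∑ j, wj M i j x

/-- The partition. -/
noncomputable def pj (M : Fin 2 → Matrix (Fin N) (Fin N) ℤ) (i j : Fin N) (x : Fin N → ℝ) : ℝ :=
  wj M i j x / wt M x

theorem wj_nonneg (i j : Fin N) (x : Fin N → ℝ) : 0 ≤ wj M i j x := le_max_left _ _

theorem wj_cont (i j : Fin N) : Continuous (wj M i j) :=
  continuous_const.max ((mm_cont M i j).abs.sub ((mr_cont M).div_const 2))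

theorem wt_cont : Continuous (wt M) :=
  continuous_finsetSum _ fun i _ => continuous_finsetSum _ fun j _ => wj_cont i j

theorem exists_mr (hN : 0 < N) (x : Fin N → ℝ) : ∃ i j, |mm M x i j| = mr M x := by
  have : Nonempty (Fin N × Fin N) := ⟨(⟨0, hN⟩, ⟨0, hN⟩)⟩
  obtain ⟨p, hp⟩ := Finite.exists_max (fun p : Fin N × Fin N => |mm M x p.1 p.2|)
  refine ⟨p.1, p.2, le_antisymm (le_mr M x p.1 p.2) ?_⟩
  unfold mr
  rw [pi_norm_le_iff_of_nonneg (abs_nonneg _)]
  exact hp

theorem wt_lower (hN : 0 < N) (x : Fin N → ℝ) : mr M x / 2 ≤ wt M x := by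
  obtain ⟨i, j, h⟩ := exists_mr (M := M) hN x
  have h1 : mr M x / 2 ≤ wj M i j x := by
    unfold wj
    rw [h]
    refine le_max_of_le_right ?_
    linarith
  refine h1.trans ?_
  unfold wt
  refine le_trans ?_ (Finset.single_le_sum (f := fun i => ∑ j, wj M i j x)
    (fun i _ => Finset.sum_nonneg fun j _ => wj_nonneg i j x) (Finset.mem_univ i))
  exact Finset.single_le_sum (f := fun j => wj M i j x) (fun j _ => wj_nonneg i j x)
    (Finset.mem_univ j)

theorem wt_pos (hN : 0 < N) {x : Fin N → ℝ} (hx : mr M x ≠ 0) : 0 < wt M x := by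
  have h1 := wt_lower (M := M) hN x
  have h2 : 0 < mr M x := lt_of_le_of_ne (mr_nonneg M x) hx.symm
  linarith

theorem pj_nonneg (i j : Fin N) (x : Fin N → ℝ) : 0 ≤ pj M i j x :=
  div_nonneg (wj_nonneg i j x) (Finset.sum_nonneg fun i _ => Finset.sum_nonneg fun j _ =>
    wj_nonneg i j x)

theorem pj_sum (hN : 0 < N) {x : Fin N → ℝ} (hx : mr M x ≠ 0) : ∑ i, ∑ j, pj M i j x = 1 := by
  unfold pj
  simp only [← Finset.sum_div]
  exact div_self (wt_pos hN hx).ne'

theorem pj_ne {i j : Fin N} {x : Fin N → ℝ} (h : pj M i j x ≠ 0) : mr M x / 2 < |mm M x i j| := by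
  by_contra hcon
  rw [not_lt] at hcon
  apply h
  unfold pj wj
  rw [max_eq_left (by linarith), zero_div]

theorem wj_smul (i j : Fin N) (x : Fin N → ℝ) (c : ℝ) :
    wj M i j (c • x) = c ^ 2 * wj M i j x := by
  unfold wj
  rw [mm_smul, mr_smul, abs_mul, abs_of_nonneg (by positivity : 0 ≤ c ^ 2), mul_div_assoc,
    ← mul_sub, mul_max_of_nonneg _ _ (by positivity), mul_zero]

theorem pj_smul (i j : Fin N) (x : Fin N → ℝ) {c : ℝ} (hc : c ≠ 0) :
    pj M i j (c • x) = pj M i j x := by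
  unfold pj wt
  simp only [wj_smul, ← Finset.mul_sum]
  exact mul_div_mul_left _ _ (pow_ne_zero _ hc)

/-- The density. -/
noncomputable def den (M : Fin 2 → Matrix (Fin N) (Fin N) ℤ)
    (Θ : (Fin N → ℝ) → (Fin N → ℝ) → ℝ) (x : Fin N → ℝ) : ℝ :=
  ∑ i, ∑ j, pj M i j x * (Vol M Θ i j x / |mm M x i j|)

theorem den_cont (hN : 0 < N) (hΘ : TH M Θ R) : ContinuousOn (den M Θ) {x | mr M x ≠ 0} := by
  unfold den
  refine continuousOn_finsetSum _ fun i _ => continuousOn_finsetSum _ fun j _ => ?_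
  intro x hx
  by_cases h0 : mm M x i j = 0
  · have hpos : 0 < mr M x := lt_of_le_of_ne (mr_nonneg M x) (Ne.symm hx)
    have h1 : ∀ᶠ y in 𝓝 x, |mm M y i j| < mr M y / 2 := by
      apply (mm_cont M i j).abs.continuousAt.eventually_lt
        ((mr_cont M).div_const 2).continuousAt
      rw [h0, abs_zero]
      linarith
    have h2 : (fun y => pj M i j y * (Vol M Θ i j y / |mm M y i j|)) =ᶠ[𝓝 x] fun _ => 0 := by
      filter_upwards [h1] with y hy
      by_cases h3 : pj M i j y = 0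
      · rw [h3, zero_mul]
      · exact absurd (pj_ne h3) (not_lt.2 hy.le)
    exact (continuousAt_const.congr h2.symm).continuousWithinAt
  · have hopen : IsOpen {x : Fin N → ℝ | mm M x i j ≠ 0} :=
      isOpen_ne_fun (mm_cont M i j) continuous_const
    have h1 : ContinuousAt (Vol M Θ i j) x := (Vol_cont hΘ i j).continuousAt (hopen.mem_nhds h0)
    have h2 : ContinuousAt (pj M i j) x :=
      (wj_cont i j).continuousAt.div wt_cont.continuousAt (wt_pos hN hx).ne'
    exact (h2.mul (h1.div (mm_cont M i j).abs.continuousAt (abs_ne_zero.2 h0))).continuousWithinAt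

theorem den_bound (hN : 0 < N) (hΘ : TH M Θ R) : ∃ C : ℝ, 0 < C ∧ ∀ x : Fin N → ℝ,
    mr M x ≠ 0 → |den M Θ x| ≤ C / mr M x := by
  have h := fun i j => Vol_bound hΘ i j
  choose C hC hV using h
  refine ⟨2 * (1 + ∑ i, ∑ j, C i j), ?_, ?_⟩
  · have : 0 ≤ ∑ i, ∑ j, C i j := Finset.sum_nonneg fun i _ => Finset.sum_nonneg fun j _ =>
      (hC i j).le
    linarith
  intro x hx
  have hpos : 0 < mr M x := lt_of_le_of_ne (mr_nonneg M x) (Ne.symm hx)
  set S : ℝ := 1 + ∑ i, ∑ j, C i j with hS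
  have hCS : ∀ i j, C i j ≤ S := by
    intro i j
    have h1 : C i j ≤ ∑ i, ∑ j, C i j := by
      refine le_trans ?_ (Finset.single_le_sum (f := fun i => ∑ j, C i j)
        (fun i _ => Finset.sum_nonneg fun j _ => (hC i j).le) (Finset.mem_univ i))
      exact Finset.single_le_sum (f := fun j => C i j) (fun j _ => (hC i j).le)
        (Finset.mem_univ j)
    linarith
  have hS0 : 0 < S := lt_of_lt_of_le (hC ⟨0, hN⟩ ⟨0, hN⟩) (hCS _ _)
  unfold den
  refine (Finset.abs_sum_le_sum_abs _ _).trans ?_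
  calc ∑ i, |∑ j, pj M i j x * (Vol M Θ i j x / |mm M x i j|)|
      ≤ ∑ i, ∑ j, pj M i j x * (2 * S / mr M x) := by
        refine Finset.sum_le_sum fun i _ => ?_
        refine (Finset.abs_sum_le_sum_abs _ _).trans ?_
        refine Finset.sum_le_sum fun j _ => ?_
        rw [abs_mul, abs_of_nonneg (pj_nonneg i j x)]
        by_cases h0 : pj M i j x = 0
        · rw [h0, zero_mul, zero_mul]
        · have h1 := pj_ne h0
          have h2 : mm M x i j ≠ 0 := by
            intro h3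
            rw [h3, abs_zero] at h1
            linarith
          apply mul_le_mul_of_nonneg_left _ (pj_nonneg i j x)
          rw [abs_div, abs_abs, div_le_div_iff₀ (abs_pos.2 h2) hpos]
          have h3 := (hV i j x h2).trans (hCS i j)
          calc |Vol M Θ i j x| * mr M x ≤ S * (2 * |mm M x i j|) := by
                apply mul_le_mul h3 (by linarith) hpos.le hS0.le
            _ = 2 * S * |mm M x i j| := by ring
    _ = 2 * S / mr M x := by
        simp only [← Finset.sum_mul]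
        rw [pj_sum hN hx, one_mul]

theorem den_smul (hΘ : TH M Θ R) (x : Fin N → ℝ) {c : ℝ} (hc : 0 < c) :
    den M Θ (c • x) = (c ^ 2)⁻¹ * den M Θ x := by
  unfold den
  rw [Finset.mul_sum]
  refine Finset.sum_congr rfl fun i _ => ?_
  rw [Finset.mul_sum]
  refine Finset.sum_congr rfl fun j _ => ?_
  rw [pj_smul i j x hc.ne']
  by_cases h0 : mm M x i j = 0
  · rw [mm_smul, h0, mul_zero, abs_zero, div_zero, div_zero]
    ring
  · rw [Vol_homog hΘ h0 hc, mm_smul, abs_mul, abs_of_pos (by positivity : 0 < c ^ 2)]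
    field_simp

/-- The cutoff function. -/
noncomputable def lam (s : ℝ) : ℝ := max 0 (min 1 (2 - s))

theorem lam_nonneg (s : ℝ) : 0 ≤ lam s := le_max_left _ _

theorem lam_le_one (s : ℝ) : lam s ≤ 1 := max_le (by norm_num) (min_le_left _ _)

theorem lam_one {s : ℝ} (h : s ≤ 1) : lam s = 1 := by
  unfold lam
  rw [min_eq_left (by linarith), max_eq_right (by norm_num)]

theorem lam_zero {s : ℝ} (h : 2 ≤ s) : lam s = 0 := by
  unfold lam
  rw [min_eq_right (by linarith), max_eq_left (by linarith)]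

theorem lam_anti {s t : ℝ} (h : s ≤ t) : lam t ≤ lam s := by
  unfold lam
  gcongr

theorem lam_cont : Continuous lam :=
  continuous_const.max (continuous_const.min (continuous_const.sub continuous_id))

/-- The dyadic weight. -/
noncomputable def phi (s : ℝ) : ℝ := lam s - lam (2 * s)

theorem phi_cont : Continuous phi :=
  lam_cont.sub (lam_cont.comp (continuous_const.mul continuous_id))

theorem phi_nonneg {s : ℝ} (hs : 0 ≤ s) : 0 ≤ phi s := by
  unfold phi
  have := lam_anti (s := s) (t := 2 * s) (by linarith)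
  linarith

theorem phi_le_one (s : ℝ) : phi s ≤ 1 := by
  unfold phi
  have := lam_le_one s
  have := lam_nonneg (2 * s)
  linarith

theorem phi_supp {s : ℝ} (h : phi s ≠ 0) : 1 / 2 < s ∧ s < 2 := by
  constructor
  · by_contra hcon
    apply h
    unfold phi
    rw [lam_one (by linarith), lam_one (by linarith), sub_self]
  · by_contra hcon
    apply h
    unfold phi
    rw [lam_zero (by linarith), lam_zero (by linarith), sub_self]

theorem phi_sum (s : ℝ) (n : ℕ) :
    ∑ i ∈ Finset.range (n + 1), phi (s / 2 ^ i) = lam (s / 2 ^ n) - lam (2 * s) := by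
  induction n with
  | zero => simp [phi]
  | succ n ih =>
    rw [Finset.sum_range_succ, ih]
    unfold phi
    have : 2 * (s / 2 ^ (n + 1)) = s / 2 ^ n := by
      rw [pow_succ]
      field_simp
    rw [this]
    ring

/-- The function whose mean value governs the counts. -/
noncomputable def Phi (M : Fin 2 → Matrix (Fin N) (Fin N) ℤ)
    (Θ : (Fin N → ℝ) → (Fin N → ℝ) → ℝ) (x : Fin N → ℝ) : ℝ :=
  phi ‖x‖ * (‖x‖ ^ (N - 2))⁻¹ * den M Θ x

theorem mr_zero : mr M (0 : Fin N → ℝ) = 0 := by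
  have := mr_smul M (0 : Fin N → ℝ) 0
  rw [zero_smul] at this
  rw [this]
  ring

theorem Phi_cont (hN : 0 < N) (hΘ : TH M Θ R) : ContinuousOn (Phi M Θ) {x | mr M x ≠ 0} := by
  unfold Phi
  refine ContinuousOn.mul (ContinuousOn.mul (phi_cont.comp continuous_norm).continuousOn ?_)
    (den_cont hN hΘ)
  refine ContinuousOn.inv₀ (continuous_norm.pow _).continuousOn fun x hx => ?_
  apply pow_ne_zero
  rw [norm_ne_zero_iff]
  rintro rfl
  exact hx mr_zero

theorem Phi_supp {x : Fin N → ℝ} (h : Phi M Θ x ≠ 0) : 1 / 2 < ‖x‖ ∧ ‖x‖ ≤ 2 := by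
  have h1 : phi ‖x‖ ≠ 0 := by
    intro h0
    apply h
    unfold Phi
    rw [h0, zero_mul, zero_mul]
  have h2 := phi_supp h1
  exact ⟨h2.1, h2.2.le⟩

theorem Phi_bound (hN : 0 < N) (hΘ : TH M Θ R) : ∃ C : ℝ, 0 ≤ C ∧ ∀ x : Fin N → ℝ,
    mr M x ≠ 0 → |Phi M Θ x| ≤ C / mr M x := by
  obtain ⟨C, hC, h⟩ := den_bound hN hΘ
  refine ⟨2 ^ (N - 2) * C, by positivity, ?_⟩
  intro x hx
  have hpos : 0 < mr M x := lt_of_le_of_ne (mr_nonneg M x) (Ne.symm hx)
  by_cases h0 : Phi M Θ x = 0
  · rw [h0, abs_zero]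
    positivity
  · have h1 := (Phi_supp h0).1
    unfold Phi
    rw [abs_mul, abs_mul, abs_of_nonneg (phi_nonneg (norm_nonneg x)),
      abs_of_nonneg (by positivity)]
    have h2 : (‖x‖ ^ (N - 2))⁻¹ ≤ 2 ^ (N - 2) := by
      rw [← inv_pow]
      apply pow_le_pow_left₀ (by positivity)
      rw [inv_le_comm₀ (by linarith) (by norm_num)]
      linarith
    calc phi ‖x‖ * (‖x‖ ^ (N - 2))⁻¹ * |den M Θ x| ≤ 1 * 2 ^ (N - 2) * (C / mr M x) := by
          have := phi_le_one ‖x‖
          have := h x hx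
          have := phi_nonneg (norm_nonneg x)
          gcongr
      _ = 2 ^ (N - 2) * C / mr M x := by ring

end Pool.Agent.N852
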