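import Mathlib
import Pool.Agent.N852.Part

/-!
One dyadic block.
-/

namespace Pool.Agent.N852

open Matrix Module Filter Topology
open Pool.Agent.H548.WM (ht bx le_ht le_ht' ht_le exists_ht mem_bx card_bx ht_pos)
open Pool.Agent.H548.BL (rv cv Inc inc_iff_rv rc norm_rc)

variable {N : ℕ} {M : Fin 2 → Matrix (Fin N) (Fin N) ℤ} {Θ : (Fin N → ℝ) → (Fin N → ℝ) → ℝ}
  {R : ℝ}

theorem two_shell (hM : Nice M) : ∃ C : ℝ, 0 < C ∧ ∀ (t : ℕ) (κ : ℝ) (S : Finset (Fin N → ℤ)),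
    1 ≤ t → 0 < κ → κ ≤ 1 → (∀ x ∈ S, Prm x ∧ ht x ≤ 2 * t ∧ t < 2 * ht x ∧
      (dd M x : ℝ) ≤ κ * (t : ℝ) ^ 2) →
    ∑ x ∈ S, (dd M x : ℝ)⁻¹ ≤ C * (t : ℝ) ^ (N - 2) * ((t : ℝ) ^ (-(1 / 6) : ℝ) + κ ^ (1 / 2 : ℝ)) := by
  classical
  obtain ⟨C, hC, hdom⟩ := dom hM
  refine ⟨C * (2 ^ (N - 2) + 1), by positivity, ?_⟩
  intro t κ S ht1 hκ hκ1 hS
  have ht0 : (0 : ℝ) < t := by exact_mod_cast ht1
  have ht1' : (1 : ℝ) ≤ t := by exact_mod_cast ht1
  rw [← Finset.sum_filter_add_sum_filter_not S (fun x => t < ht x)]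
  have h1 := hdom (2 * t) κ (S.filter fun x => t < ht x) (by linarith) hκ hκ1 (by
    intro x hx
    rw [Finset.mem_filter] at hx
    obtain ⟨h1, h2, h3, h4⟩ := hS x hx.1
    refine ⟨h1, by exact_mod_cast h2, ?_, h4.trans ?_⟩
    · have : (t : ℝ) < ht x := by exact_mod_cast hx.2
      linarith
    · have : (t : ℝ) ^ 2 ≤ (2 * t) ^ 2 := by nlinarith
      gcongr)
  have h2 := hdom t κ (S.filter fun x => ¬ t < ht x) ht1' hκ hκ1 (by
    intro x hx
    rw [Finset.mem_filter, not_lt] at hx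
    obtain ⟨h1, h2, h3, h4⟩ := hS x hx.1
    exact ⟨h1, by exact_mod_cast hx.2, by exact_mod_cast h3, h4⟩)
  have h3 : (2 * (t : ℝ)) ^ (-(1 / 6) : ℝ) ≤ (t : ℝ) ^ (-(1 / 6) : ℝ) :=
    Real.rpow_le_rpow_of_nonpos ht0 (by linarith) (by norm_num)
  have h4 : C * (2 * (t : ℝ)) ^ (N - 2) * ((2 * (t : ℝ)) ^ (-(1 / 6) : ℝ) + κ ^ (1 / 2 : ℝ)) ≤
      C * (2 * (t : ℝ)) ^ (N - 2) * ((t : ℝ) ^ (-(1 / 6) : ℝ) + κ ^ (1 / 2 : ℝ)) := by gcongr
  rw [mul_pow] at h4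
  rw [mul_pow] at h1
  linarith

theorem SX_bound (hΘ : TH M Θ R) {x : Fin N → ℤ} (hx : x ≠ 0) (q : ℕ) (b : Fin N → ℤ) {τ : ℝ}
    (hτ : 0 < τ) : 0 ≤ SX M Θ q b x τ ∧ SX M Θ q b x τ ≤ ((LB M x ⌈R * τ⌉₊).card : ℝ) := by
  classical
  have hxR : ic x ≠ 0 := by
    intro h0
    have h1 := norm_ic x
    rw [h0, norm_zero] at h1
    have h2 := ht_pos hx
    have h3 : (ht x : ℝ) ≠ 0 := by exact_mod_cast (by omega : ht x ≠ 0)
    exact h3 h1.symm
  have h1 : SX M Θ q b x τ = ∑ y ∈ LB M x ⌈R * τ⌉₊,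
      if y ∈ Lx M x ∧ Cg q y b then Θ (ic x) (τ⁻¹ • ic y) else 0 := by
    apply tsum_eq_sum
    intro y hy
    by_cases h : y ∈ Lx M x ∧ Cg q y b
    · rw [if_pos h]
      apply hΘ.supp _ _ hxR
      · intro k
        rw [dotProduct_smul, mem_Lx_real h.1 k, smul_zero]
      · rw [norm_smul, norm_inv, Real.norm_of_nonneg hτ.le, lt_inv_mul_iff₀ hτ, norm_ic]
        by_contra hcon
        rw [not_lt] at hcon
        apply hy
        rw [mem_LB]
        refine ⟨?_, h.1⟩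
        have h2 : (ht y : ℝ) ≤ (⌈R * τ⌉₊ : ℝ) := by
          refine le_trans ?_ (Nat.le_ceil _)
          linarith
        exact_mod_cast h2
    · rw [if_neg h]
  rw [h1]
  constructor
  · refine Finset.sum_nonneg fun y _ => ?_
    split_ifs
    · exact hΘ.nonneg _ _
    · exact le_rfl
  · calc _ ≤ ∑ _y ∈ LB M x ⌈R * τ⌉₊, (1 : ℝ) := by
          refine Finset.sum_le_sum fun y _ => ?_
          split_ifs
          · exact hΘ.le_one _ _
          · norm_num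
      _ = _ := by rw [Finset.sum_const, nsmul_eq_mul, mul_one]

open Classical in
/-- The index, if the class is soluble. -/
noncomputable def Wx (M : Fin 2 → Matrix (Fin N) (Fin N) ℤ) (q : ℕ) (b x : Fin N → ℤ) : ℝ :=
  if ∃ y ∈ Lx M x, Cg q y b then (Gx M x : ℝ) else 0

/-- The fibre sum, over all charts. -/
theorem fibre_all (hM : Nice M) (hΘ : TH M Θ R) {x : Fin N → ℤ} (hx : x ≠ 0) {q : ℕ} (hq : q ≠ 0)
    (b : Fin N → ℤ) {τ ρ η s : ℝ} (hτ : 1 ≤ τ) (hρ : 0 ≤ ρ) (hρτ : q * ρ ≤ τ) (hη : 0 ≤ η)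
    (hs : Spn M x ρ) (hs1 : 2 * ((N - 2 : ℕ) * (q * ρ)) / τ ≤ s) (hs2 : 2 * (N - 2 : ℕ) / τ ≤ s)
    (hmod : ∀ i j, mr M (ic x) / 2 < |mm M (ic x) i j| → ∀ z w : Ka i j → ℝ, ‖z - w‖ ≤ s →
      |Psi M Θ i j (ic x) z - Psi M Θ i j (ic x) w| ≤ η) :
    |SX M Θ q b x τ - Wx M q b x * (((q : ℝ) ^ (N - 2))⁻¹ * τ ^ (N - 2) * den M Θ (ic x))| ≤
      4 * η * (2 * R + 4 * (N - 2 : ℕ) + 1) ^ (N - 2) * (τ ^ (N - 2) * (dd M x : ℝ)⁻¹) := by
  classical
  have hN : 0 < N := by have := hM.four; omega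
  have hR1 := hΘ.R1
  have hmx := mx_ne_zero hM hx
  have hmx0 : (0 : ℝ) < mx M x := by exact_mod_cast Nat.pos_of_ne_zero hmx
  have hmr : mr M (ic x) = mx M x := mr_ic hN M x
  have hmr0 : mr M (ic x) ≠ 0 := by rw [hmr]; exact hmx0.ne'
  have hG := Gx_ne_zero hN hmx
  have hG0 : (0 : ℝ) < Gx M x := by exact_mod_cast Nat.pos_of_ne_zero hG
  have hτ0 : 0 < τ := by linarith
  have hq1 : (1 : ℝ) ≤ q := by exact_mod_cast Nat.pos_of_ne_zero hq
  have hqr : (1 : ℝ) ≤ (q : ℝ) ^ (N - 2) := one_le_pow₀ hq1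
  unfold Wx
  by_cases hex : ∃ y ∈ Lx M x, Cg q y b
  · rw [if_pos hex]
    obtain ⟨y₀, hy₀, hyb⟩ := hex
    set E : ℝ := ((2 * R + 4 * (N - 2 : ℕ) + 1) * τ) ^ (N - 2) with hE
    have hE0 : 0 ≤ E := by positivity
    have hterm : ∀ i j, |pj M i j (ic x) * (SX M Θ q b x τ - (Gx M x : ℝ) *
        (((q : ℝ) ^ (N - 2))⁻¹ * τ ^ (N - 2) * (Vol M Θ i j (ic x) / |mm M (ic x) i j|)))| ≤
        pj M i j (ic x) * (4 * η * E * (dd M x : ℝ)⁻¹) := by
      intro i j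
      rw [abs_mul, abs_of_nonneg (pj_nonneg i j _)]
      by_cases h0 : pj M i j (ic x) = 0
      · rw [h0, zero_mul, zero_mul]
      · apply mul_le_mul_of_nonneg_left _ (pj_nonneg i j _)
        have h1 := pj_ne h0
        have hmmR : mm M (ic x) i j ≠ 0 := by
          intro h3
          rw [h3, abs_zero, hmr] at h1
          linarith
        have hmm : mm M x i j ≠ 0 := by
          intro h3
          apply hmmR
          rw [mm_ic, h3, Int.cast_zero]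
        have h2 := fibre_chart hΘ hq hmm hy₀ hyb hτ hρ hρτ hη hs
          (fun z w hzw => hmod i j h1 z w (hzw.trans hs1))
          (fun z w hzw => hmod i j h1 z w (hzw.trans hs2))
        rw [← mm_ic] at h2
        set m : ℝ := |mm M (ic x) i j| with hm
        have hm0 : 0 < m := abs_pos.2 hmmR
        set c : ℝ := (q : ℝ) ^ (N - 2) * m / Gx M x with hc
        have hc0 : 0 < c := by positivity
        have h3 : SX M Θ q b x τ - (Gx M x : ℝ) *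
            (((q : ℝ) ^ (N - 2))⁻¹ * τ ^ (N - 2) * (Vol M Θ i j (ic x) / m)) =
            (c * SX M Θ q b x τ - τ ^ (N - 2) * Vol M Θ i j (ic x)) / c := by
          rw [sub_div, mul_div_cancel_left₀ _ hc0.ne', hc]
          congr 1
          field_simp
        rw [h3, abs_div, abs_of_pos hc0, div_le_iff₀ hc0]
        refine h2.trans ?_
        -- `c * dd⁻¹ ≥ 1/2`
        have h4 : 1 / 2 ≤ (dd M x : ℝ)⁻¹ * c := by
          rw [← Gx_div_mx hN hmx, hc]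
          have h5 : (Gx M x : ℝ) / mx M x * ((q : ℝ) ^ (N - 2) * m / Gx M x) =
              (q : ℝ) ^ (N - 2) * m / mx M x := by
            field_simp
          rw [h5, le_div_iff₀ hmx0]
          rw [hmr] at h1
          nlinarith
        have h5 : 0 ≤ η * E := by positivity
        calc 2 * (η * E) = 4 * (η * E) * (1 / 2) := by ring
          _ ≤ 4 * (η * E) * ((dd M x : ℝ)⁻¹ * c) := by gcongr
          _ = 4 * η * E * (dd M x : ℝ)⁻¹ * c := by ring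
    have hsum : SX M Θ q b x τ - (Gx M x : ℝ) * (((q : ℝ) ^ (N - 2))⁻¹ * τ ^ (N - 2) *
        den M Θ (ic x)) = ∑ i, ∑ j, pj M i j (ic x) * (SX M Θ q b x τ - (Gx M x : ℝ) *
        (((q : ℝ) ^ (N - 2))⁻¹ * τ ^ (N - 2) * (Vol M Θ i j (ic x) / |mm M (ic x) i j|))) := by
      have h1 : SX M Θ q b x τ = ∑ i, ∑ j, pj M i j (ic x) * SX M Θ q b x τ := by
        simp only [← Finset.sum_mul]
        rw [pj_sum hN hmr0, one_mul]
      conv_lhs => rw [h1]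
      unfold den
      rw [Finset.mul_sum, Finset.mul_sum, ← Finset.sum_sub_distrib]
      refine Finset.sum_congr rfl fun i _ => ?_
      rw [Finset.mul_sum, Finset.mul_sum, ← Finset.sum_sub_distrib]
      refine Finset.sum_congr rfl fun j _ => ?_
      ring
    rw [hsum]
    refine (Finset.abs_sum_le_sum_abs _ _).trans ?_
    calc ∑ i, |∑ j, pj M i j (ic x) * (SX M Θ q b x τ - (Gx M x : ℝ) *
          (((q : ℝ) ^ (N - 2))⁻¹ * τ ^ (N - 2) * (Vol M Θ i j (ic x) / |mm M (ic x) i j|)))|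
        ≤ ∑ i, ∑ j, pj M i j (ic x) * (4 * η * E * (dd M x : ℝ)⁻¹) := by
          refine Finset.sum_le_sum fun i _ => ?_
          refine (Finset.abs_sum_le_sum_abs _ _).trans ?_
          exact Finset.sum_le_sum fun j _ => hterm i j
      _ = 4 * η * E * (dd M x : ℝ)⁻¹ := by
          simp only [← Finset.sum_mul]
          rw [pj_sum hN hmr0, one_mul]
      _ = _ := by
          rw [hE, mul_pow]
          ring
  · rw [if_neg hex, zero_mul, sub_zero]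
    have h1 : SX M Θ q b x τ = 0 := by
      unfold SX
      have h2 : ∀ y : Fin N → ℤ, (if y ∈ Lx M x ∧ Cg q y b then Θ (ic x) (τ⁻¹ • ic y) else 0) =
          0 := by
        intro y
        rw [if_neg]
        rintro ⟨h3, h4⟩
        exact hex ⟨y, h3, h4⟩
      simp only [h2, tsum_zero]
    rw [h1, abs_zero]
    positivity

theorem main_bound (hM : Nice M) (hΘ : TH M Θ R) : ∃ C : ℝ, 0 < C ∧ ∀ (x : Fin N → ℤ), x ≠ 0 →
    ∀ (q : ℕ), q ≠ 0 → ∀ (b : Fin N → ℤ) (τ : ℝ), 0 < τ →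
    |Wx M q b x * (((q : ℝ) ^ (N - 2))⁻¹ * τ ^ (N - 2) * den M Θ (ic x))| ≤
      C * (τ ^ (N - 2) * (dd M x : ℝ)⁻¹) := by
  classical
  have hN : 0 < N := by have := hM.four; omega
  obtain ⟨C, hC, h⟩ := den_bound hN hΘ
  refine ⟨C, hC, ?_⟩
  intro x hx q hq b τ hτ
  have hmx := mx_ne_zero hM hx
  have hmx0 : (0 : ℝ) < mx M x := by exact_mod_cast Nat.pos_of_ne_zero hmx
  have hmr : mr M (ic x) = mx M x := mr_ic hN M x
  have h1 := h (ic x) (by rw [hmr]; exact hmx0.ne')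
  rw [hmr] at h1
  have hq1 : (1 : ℝ) ≤ q := by exact_mod_cast Nat.pos_of_ne_zero hq
  have hqr : (1 : ℝ) ≤ (q : ℝ) ^ (N - 2) := one_le_pow₀ hq1
  have hqi : ((q : ℝ) ^ (N - 2))⁻¹ ≤ 1 := inv_le_one_of_one_le₀ hqr
  have hW : |Wx M q b x| ≤ Gx M x := by
    unfold Wx
    split_ifs
    · rw [Nat.abs_cast]
    · rw [abs_zero]
      exact Nat.cast_nonneg _
  rw [abs_mul, abs_mul, abs_mul, abs_of_nonneg (by positivity : 0 ≤ ((q : ℝ) ^ (N - 2))⁻¹),
    abs_of_nonneg (by positivity : 0 ≤ τ ^ (N - 2))]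
  calc |Wx M q b x| * (((q : ℝ) ^ (N - 2))⁻¹ * τ ^ (N - 2) * |den M Θ (ic x)|)
      ≤ Gx M x * (1 * τ ^ (N - 2) * (C / mx M x)) := by gcongr
    _ = C * (τ ^ (N - 2) * ((Gx M x : ℝ) / mx M x)) := by ring
    _ = C * (τ ^ (N - 2) * (dd M x : ℝ)⁻¹) := by rw [Gx_div_mx hN hmx]

/-- Lower bound for the number of lattice points in terms of `dd`. -/
theorem pigeon_real (hM : Nice M) {x : Fin N → ℤ} (hx : x ≠ 0) {R τ : ℝ} (hR : 1 ≤ R)
    (hτ : 0 < τ) : τ ^ (N - 2) * (dd M x : ℝ)⁻¹ ≤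
      (N : ℝ) ^ (N - 2) * ((LB M x ⌈R * τ⌉₊).card : ℝ) := by
  have hN : 0 < N := by have := hM.four; omega
  have hN0 : (0 : ℝ) < N := by exact_mod_cast hN
  have hd0 : (0 : ℝ) < dd M x := by
    exact_mod_cast Nat.pos_of_ne_zero (dd_ne_zero hN (mx_ne_zero hM hx))
  obtain ⟨B, hB⟩ : ∃ B : ℕ, B = ⌊R * τ / N⌋₊ := ⟨_, rfl⟩
  have h1 := pigeon hM hx B
  have h2 : N * B ≤ ⌈R * τ⌉₊ := by
    have h3 : ((N * B : ℕ) : ℝ) ≤ (⌈R * τ⌉₊ : ℝ) := by
      push_cast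
      have h4 : (B : ℝ) ≤ R * τ / N := by
        rw [hB]
        exact Nat.floor_le (by positivity)
      rw [le_div_iff₀ hN0] at h4
      have h5 := Nat.le_ceil (R * τ)
      linarith
    exact_mod_cast h3
  have h3 : ((B : ℝ) + 1) ^ (N - 2) ≤ dd M x * ((LB M x ⌈R * τ⌉₊).card : ℝ) := by
    calc ((B : ℝ) + 1) ^ (N - 2) ≤ dd M x * ((LB M x (N * B)).card : ℝ) := by exact_mod_cast h1
      _ ≤ _ := by
        have : ((LB M x (N * B)).card : ℝ) ≤ ((LB M x ⌈R * τ⌉₊).card : ℝ) := by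
          exact_mod_cast Finset.card_le_card (LB_mono h2)
        gcongr
  have h4 : (τ / N) ^ (N - 2) ≤ ((B : ℝ) + 1) ^ (N - 2) := by
    apply pow_le_pow_left₀ (by positivity)
    have h5 : R * τ / N < B + 1 := by
      rw [hB]
      exact Nat.lt_floor_add_one _
    have h6 : τ / N ≤ R * τ / N := by
      apply div_le_div_of_nonneg_right _ hN0.le
      nlinarith
    linarith
  rw [← div_eq_mul_inv, div_le_iff₀ hd0]
  have h5 : τ ^ (N - 2) = (N : ℝ) ^ (N - 2) * (τ / N) ^ (N - 2) := by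
    rw [← mul_pow, mul_div_cancel₀ _ hN0.ne']
  rw [h5]
  calc (N : ℝ) ^ (N - 2) * (τ / N) ^ (N - 2)
      ≤ (N : ℝ) ^ (N - 2) * (dd M x * ((LB M x ⌈R * τ⌉₊).card : ℝ)) := by
        gcongr
        exact h4.trans h3
    _ = _ := by ring

end Pool.Agent.N852
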