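import Mathlib
import Pool.Agent.N852.Block

/-!
The block theorem.
-/

namespace Pool.Agent.N852

open Matrix Module Filter Topology
open Pool.Agent.H548.WM (ht bx le_ht le_ht' ht_le exists_ht mem_bx card_bx ht_pos)
open Pool.Agent.H548.BL (rv cv Inc inc_iff_rv rc norm_rc)

variable {N : ℕ} {M : Fin 2 → Matrix (Fin N) (Fin N) ℤ} {Θ : (Fin N → ℝ) → (Fin N → ℝ) → ℝ}
  {R : ℝ}

open Classical in
/-- One block. -/
noncomputable def Bk (M : Fin 2 → Matrix (Fin N) (Fin N) ℤ) (Θ : (Fin N → ℝ) → (Fin N → ℝ) → ℝ)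
    (q : ℕ) (a b : Fin N → ℤ) (i : ℕ) (T : ℝ) : ℝ :=
  ∑ x ∈ XP N (2 ^ (i + 1)), if Cg q x a then
    phi ((ht x : ℝ) / 2 ^ i) * SX M Θ q b x (T / ht x) else 0

open Classical in
theorem Wt_eq {q : ℕ} {a b x : Fin N → ℤ} (hx : Prm x) :
    Wt M q a b x = if Cg q x a then Wx M q b x else 0 := by
  unfold Wt Wx
  by_cases h1 : Cg q x a
  · rw [if_pos h1]
    by_cases h2 : ∃ y ∈ Lx M x, Cg q y b
    · rw [if_pos h2, if_pos ⟨hx, h1, h2⟩]
    · rw [if_neg h2, if_neg fun h => h2 h.2.2]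
  · rw [if_neg h1, if_neg fun h => h1 h.2.1]

/-- The main term of a block. -/
theorem main_term (hM : Nice M) (hΘ : TH M Θ R) {q : ℕ} (a b : Fin N → ℤ) (i : ℕ) (T : ℝ)
    [∀ x : Fin N → ℤ, Decidable (Cg q x a)] :
    ∑ x ∈ XP N (2 ^ (i + 1)), (if Cg q x a then
      phi ((ht x : ℝ) / 2 ^ i) * (Wx M q b x * (((q : ℝ) ^ (N - 2))⁻¹ * (T / ht x) ^ (N - 2) *
        den M Θ (ic x))) else 0) =
    ((q : ℝ) ^ (N - 2))⁻¹ * T ^ (N - 2) * ((∑' x : Fin N → ℤ, Wt M q a b x *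
      Phi M Θ (((2 : ℝ) ^ i)⁻¹ • ic x)) / ((2 : ℝ) ^ i) ^ N) := by
  classical
  have hN4 := hM.four
  set t : ℝ := (2 : ℝ) ^ i with htt
  have ht0 : 0 < t := by positivity
  have hscale : ∀ x : Fin N → ℤ, ‖(t : ℝ)⁻¹ • ic x‖ = (ht x : ℝ) / t := by
    intro x
    rw [norm_smul, norm_inv, Real.norm_of_nonneg ht0.le, inv_mul_eq_div]
    congr 1
    exact norm_rc x
  have h1 : ∑' x : Fin N → ℤ, Wt M q a b x * Phi M Θ (t⁻¹ • ic x) =
      ∑ x ∈ XP N (2 ^ (i + 1)), Wt M q a b x * Phi M Θ (t⁻¹ • ic x) := by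
    apply tsum_eq_sum
    intro x hx
    by_contra h0
    apply hx
    rw [mem_XP]
    have h2 : Wt M q a b x ≠ 0 := left_ne_zero_of_mul h0
    have h3 : Phi M Θ (t⁻¹ • ic x) ≠ 0 := right_ne_zero_of_mul h0
    constructor
    · have h4 := (Phi_supp h3).2
      rw [hscale, div_le_iff₀ ht0] at h4
      have h5 : (ht x : ℝ) ≤ ((2 ^ (i + 1) : ℕ) : ℝ) := by
        rw [pow_succ]
        push_cast
        rw [← htt]
        linarith
      exact_mod_cast h5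
    · by_contra h4
      apply h2
      unfold Wt
      rw [if_neg fun h => h4 h.1]
  rw [h1, Finset.sum_div, Finset.mul_sum]
  refine Finset.sum_congr rfl fun x hx => ?_
  obtain ⟨hx1, hx2⟩ := mem_XP.1 hx
  rw [Wt_eq hx2]
  by_cases h : Cg q x a
  · rw [if_pos h, if_pos h]
    unfold Phi
    rw [hscale, den_smul hΘ _ (inv_pos.2 ht0)]
    have hh : (0 : ℝ) < ht x := by exact_mod_cast ht_pos hx2.ne
    have htN : t ^ N = t ^ (N - 2) * t ^ 2 := by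
      rw [← pow_add]
      congr 1
      omega
    rw [htN, div_pow, div_pow]
    field_simp
  · rw [if_neg h, if_neg h, zero_mul, zero_div, mul_zero]

theorem tau_large {t T K : ℝ} (ht : 0 < t) (hK : 0 < K) (htT : t ^ 2 ≤ T) (hT : 4 * K ^ 2 ≤ T) :
    K ≤ T / (2 * t) := by
  rw [le_div_iff₀ (by positivity)]
  by_contra hcon
  rw [not_le] at hcon
  have hT0 : 0 < T := lt_of_lt_of_le (by positivity) hT
  have h1 : T * T < (K * (2 * t)) * (K * (2 * t)) := mul_self_lt_mul_self hT0.le hcon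
  have h2 : (K * (2 * t)) * (K * (2 * t)) = 4 * K ^ 2 * t ^ 2 := by ring
  have h3 : 4 * K ^ 2 * t ^ 2 ≤ T * T := by
    apply mul_le_mul hT htT (by positivity) hT0.le
  linarith

/-- The error of a block. -/
theorem block_err (hM : Nice M) (hΘ : TH M Θ R) {q : ℕ} (hq : q ≠ 0) (ε : ℝ) (hε : 0 < ε) :
    ∃ (C T₀ : ℝ) (i₀ : ℕ), 0 < C ∧ 1 ≤ T₀ ∧ ∀ (i : ℕ) (T : ℝ) (b : Fin N → ℤ)
      (S : Finset (Fin N → ℤ)), i₀ ≤ i → T₀ ≤ T →
      ((2 : ℝ) ^ i) ^ 2 ≤ T →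
      (∀ x ∈ S, Prm x ∧ (ht x : ℝ) ≤ 2 * 2 ^ i ∧ (2 : ℝ) ^ i < 2 * ht x) →
      ∑ x ∈ S, |SX M Θ q b x (T / ht x) - Wx M q b x * (((q : ℝ) ^ (N - 2))⁻¹ *
        (T / ht x) ^ (N - 2) * den M Θ (ic x))| ≤
        ε * T ^ (N - 2) + C * T ^ (N - 3) * ((2 : ℝ) ^ i) ^ 2 := by
  classical
  have hN : 0 < N := by have := hM.four; omega
  have hN4 := hM.four
  have hR1 := hΘ.R1
  have hR0 : 0 < R := by linarith
  obtain ⟨C₁, hC1, hmain⟩ := main_bound hM hΘ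
  obtain ⟨Cs, hCs, hshell⟩ := two_shell hM
  obtain ⟨Cd, hCd, hdom⟩ := dom_all hM
  obtain ⟨r, hr⟩ : ∃ r : ℕ, r = N - 2 := ⟨_, rfl⟩
  have hq1 : (1 : ℝ) ≤ q := by exact_mod_cast Nat.pos_of_ne_zero hq
  have hq0 : (0 : ℝ) < q := by linarith
  set CR : ℝ := (2 * R + 4 * (N - 2 : ℕ) + 1) ^ (N - 2) with hCR
  have hCR0 : 0 < CR := by positivity
  set C₂ : ℝ := 5 ^ (N - 2) * ((N - 2).factorial : ℝ) * (2 * R) ^ (N - 2) + C₁ with hC2
  have hC20 : 0 < C₂ := by positivity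
  set K₂ : ℝ := C₂ * Cs * 2 ^ (N - 2) with hK2
  have hK20 : 0 < K₂ := by positivity
  set K₁ : ℝ := 4 * CR * Cd * 4 ^ (N - 2) with hK1
  have hK10 : 0 < K₁ := by positivity
  -- the parameters
  obtain ⟨κ, hκ⟩ : ∃ κ : ℝ, κ = min 1 ((ε / (3 * K₂)) ^ 2) := ⟨_, rfl⟩
  have hκ0 : 0 < κ := by rw [hκ]; positivity
  have hκ1 : κ ≤ 1 := by rw [hκ]; exact min_le_left _ _
  have hκs : K₂ * κ ^ (1 / 2 : ℝ) ≤ ε / 3 := by
    have h1 : κ ^ (1 / 2 : ℝ) ≤ ε / (3 * K₂) := by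
      calc κ ^ (1 / 2 : ℝ) ≤ ((ε / (3 * K₂)) ^ 2) ^ (1 / 2 : ℝ) := by
            apply Real.rpow_le_rpow hκ0.le _ (by norm_num)
            rw [hκ]
            exact min_le_right _ _
        _ = ε / (3 * K₂) := by
            rw [← Real.sqrt_eq_rpow, Real.sqrt_sq (by positivity)]
    calc K₂ * κ ^ (1 / 2 : ℝ) ≤ K₂ * (ε / (3 * K₂)) := by gcongr
      _ = ε / 3 := by field_simp
  obtain ⟨η, hη⟩ : ∃ η : ℝ, η = ε / (3 * K₁) := ⟨_, rfl⟩
  have hη0 : 0 < η := by rw [hη]; positivity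
  have hηK : K₁ * η = ε / 3 := by
    rw [hη]
    field_simp
  have hmods := fun i j => Psi_mod hΘ i j (κ / 2) (by positivity) η hη0
  choose sf hsf0 hsf using hmods
  obtain ⟨s, hs0, hs⟩ : ∃ s : ℝ, 0 < s ∧ ∀ i j, s ≤ sf i j := by
    have : Nonempty (Fin N × Fin N) := ⟨(⟨0, hN⟩, ⟨0, hN⟩)⟩
    obtain ⟨p, hp⟩ := Finite.exists_min (fun p : Fin N × Fin N => sf p.1 p.2)
    exact ⟨sf p.1 p.2, hsf0 _ _, fun i j => hp (i, j)⟩
  obtain ⟨δ, hδ⟩ : ∃ δ : ℝ, δ = min 1 s / (q * (2 * (N - 2 : ℕ) + 1)) := ⟨_, rfl⟩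
  have hrr : (0 : ℝ) ≤ ((N - 2 : ℕ) : ℝ) := Nat.cast_nonneg _
  have hden0 : 0 < (q : ℝ) * (2 * (N - 2 : ℕ) + 1) := by positivity
  have hms0 : 0 < min 1 s := lt_min one_pos hs0
  have hδ0 : 0 < δ := by rw [hδ]; positivity
  have hδe : δ * (q * (2 * (N - 2 : ℕ) + 1)) = min 1 s := by
    rw [hδ]
    field_simp
  have hqδ0 : 0 < q * δ := by positivity
  have hqδ1 : q * δ ≤ 1 := by
    have h1 := min_le_left 1 s
    have h2 : 0 ≤ (q : ℝ) * δ * (2 * (N - 2 : ℕ)) := by positivity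
    have h3 : δ * (q * (2 * (N - 2 : ℕ) + 1)) = q * δ * (2 * (N - 2 : ℕ)) + q * δ := by ring
    linarith
  have hqδ2 : 2 * ((N - 2 : ℕ) * (q * δ)) ≤ s := by
    have h1 := min_le_right 1 s
    have h3 : δ * (q * (2 * (N - 2 : ℕ) + 1)) = 2 * ((N - 2 : ℕ) * (q * δ)) + q * δ := by ring
    linarith
  have hδ1 : δ ≤ 1 := by
    refine le_trans ?_ hqδ1
    exact le_mul_of_one_le_left hδ0.le hq1
  obtain ⟨Cb, Tb, hCb, hTb, hbad⟩ := bad_sum hM δ R hδ0 hδ1 hR1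
  set K : ℝ := 1 + 2 * (N - 2 : ℕ) / s with hK
  have hK0 : 0 < K := by positivity
  have hKs : 2 * (N - 2 : ℕ) ≤ K * s := by
    rw [hK]
    have : (1 + 2 * ((N - 2 : ℕ) : ℝ) / s) * s = s + 2 * (N - 2 : ℕ) := by field_simp
    rw [this]
    linarith
  have hK1' : 1 ≤ K := by
    rw [hK]
    have : 0 ≤ 2 * ((N - 2 : ℕ) : ℝ) / s := by positivity
    linarith
  -- the threshold for `i`
  have hlim : Tendsto (fun i : ℕ => K₂ * ((2 : ℝ) ^ i) ^ (-(1 / 6) : ℝ)) atTop (𝓝 (K₂ * 0)) := by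
    apply Tendsto.const_mul
    exact (tendsto_rpow_neg_atTop (by norm_num : (0 : ℝ) < 1 / 6)).comp
      (tendsto_pow_atTop_atTop_of_one_lt (by norm_num))
  rw [mul_zero] at hlim
  obtain ⟨i₀, hi₀⟩ := (hlim.eventually (ge_mem_nhds (by positivity : (0 : ℝ) < ε / 3))).exists_forall_of_atTop
  refine ⟨(1 + C₁ * (N : ℝ) ^ (N - 2)) * Cb, max Tb (4 * K ^ 2), i₀, by positivity,
    le_max_of_le_left hTb, ?_⟩
  intro i T b S hi hT htT hS
  have hTb' : Tb ≤ T := (le_max_left _ _).trans hT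
  have hTK : 4 * K ^ 2 ≤ T := (le_max_right _ _).trans hT
  have hT1 : 1 ≤ T := hTb.trans hTb'
  have hT0 : 0 < T := by linarith
  obtain ⟨t, ht'⟩ : ∃ t : ℕ, t = 2 ^ i := ⟨_, rfl⟩
  have htR : (2 : ℝ) ^ i = t := by rw [ht']; push_cast; rfl
  have hi' := hi₀ i hi
  rw [htR] at htT hS hi' ⊢
  have ht1 : 1 ≤ t := by rw [ht']; exact Nat.one_le_two_pow
  have ht0 : (0 : ℝ) < t := by exact_mod_cast ht1
  have hτK := tau_large ht0 hK0 htT hTK
  -- facts for each x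
  have hfacts : ∀ x ∈ S, x ≠ 0 ∧ (0 : ℝ) < ht x ∧ K ≤ T / ht x ∧ T / ht x ≤ 2 * T / t := by
    intro x hx
    obtain ⟨h1, h2, h3⟩ := hS x hx
    have hh : (0 : ℝ) < ht x := by exact_mod_cast ht_pos h1.ne
    refine ⟨h1.ne, hh, hτK.trans ?_, ?_⟩
    · gcongr
    · rw [div_le_div_iff₀ hh ht0]
      nlinarith
  set e : (Fin N → ℤ) → ℝ := fun x => |SX M Θ q b x (T / ht x) -
    Wx M q b x * (((q : ℝ) ^ (N - 2))⁻¹ * (T / ht x) ^ (N - 2) * den M Θ (ic x))| with he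
  set G : (Fin N → ℤ) → Prop := fun x => Spn M x (δ * (T / ht x)) with hG
  set L : (Fin N → ℤ) → Prop := fun x => κ * (t : ℝ) ^ 2 ≤ mx M x with hL
  have hdi : ∀ x : Fin N → ℤ, (0 : ℝ) ≤ (dd M x : ℝ)⁻¹ := fun x => by positivity
  -- case 1
  have hc1 : ∀ x ∈ S, G x → L x → e x ≤ 4 * η * CR * ((2 * T / t) ^ (N - 2) * (dd M x : ℝ)⁻¹) := by
    intro x hx hGx hLx
    obtain ⟨hx0, hh, hK', hτ'⟩ := hfacts x hx
    obtain ⟨h1, h2, h3⟩ := hS x hx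
    have hτ0 : 0 < T / ht x := by positivity
    have h4 := fibre_all hM hΘ hx0 hq b (τ := T / ht x) (ρ := δ * (T / ht x)) (η := η) (s := s)
      (hK1'.trans hK') (by positivity) (by
        calc (q : ℝ) * (δ * (T / ht x)) = q * δ * (T / ht x) := by ring
          _ ≤ 1 * (T / ht x) := by gcongr
          _ = _ := one_mul _) hη0.le hGx (by
        rw [div_le_iff₀ hτ0]
        calc 2 * (((N - 2 : ℕ) : ℝ) * (q * (δ * (T / ht x)))) =
              2 * ((N - 2 : ℕ) * (q * δ)) * (T / ht x) := by ring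
          _ ≤ s * (T / ht x) := by gcongr) (by
        rw [div_le_iff₀ hτ0]
        calc 2 * ((N - 2 : ℕ) : ℝ) ≤ K * s := hKs
          _ = s * K := mul_comm _ _
          _ ≤ s * (T / ht x) := by gcongr) (by
        intro k l hkl z w hzw
        have hmr : mr M (ic x) = mx M x := mr_ic hN M x
        have hmx0 : (0 : ℝ) < mx M x := lt_of_lt_of_le (by positivity) hLx
        have hmm : mm M (ic x) k l ≠ 0 := by
          intro h0
          rw [h0, abs_zero, hmr] at hkl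
          linarith
        have hti : (0 : ℝ) < (t : ℝ)⁻¹ := by positivity
        have h5 := hsf k l ((t : ℝ)⁻¹ • ic x) (by
          rw [norm_smul, norm_inv, Real.norm_of_nonneg ht0.le, norm_ic, inv_mul_eq_div,
            div_le_iff₀ ht0]
          exact h2) (by
          rw [mm_smul, abs_mul, abs_of_pos (by positivity : 0 < ((t : ℝ)⁻¹) ^ 2)]
          rw [hmr] at hkl
          have h6 : κ / 2 * (t : ℝ) ^ 2 ≤ |mm M (ic x) k l| := by
            have : κ * (t : ℝ) ^ 2 ≤ mx M x := hLx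
            linarith
          rw [inv_pow, inv_mul_eq_div, le_div_iff₀ (by positivity)]
          exact h6) z w (hzw.trans (hs k l))
        rwa [Psi_homog hΘ hmm hti, Psi_homog hΘ hmm hti] at h5)
    refine h4.trans ?_
    rw [← hCR]
    have hτ0' := hτ0.le
    have := hdi x
    gcongr
  -- cases 2, 3
  have hLBc : ∀ x ∈ S, e x ≤ ((LB M x ⌈R * (T / ht x)⌉₊).card : ℝ) +
      C₁ * ((T / ht x) ^ (N - 2) * (dd M x : ℝ)⁻¹) := by
    intro x hx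
    obtain ⟨hx0, hh, hK', hτ'⟩ := hfacts x hx
    have hτ0 : 0 < T / ht x := by positivity
    have h1 := SX_bound hΘ hx0 q b hτ0
    have h2 := hmain x hx0 q hq b (T / ht x) hτ0
    refine (abs_sub _ _).trans ?_
    rw [abs_of_nonneg h1.1]
    linarith
  have hc2 : ∀ x ∈ S, G x → e x ≤ C₂ * ((2 * T / t) ^ (N - 2) * (dd M x : ℝ)⁻¹) := by
    intro x hx hGx
    obtain ⟨hx0, hh, hK', hτ'⟩ := hfacts x hx
    have hτ0 : 0 < T / ht x := by positivity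
    have hτ1 : 1 ≤ T / ht x := hK1'.trans hK'
    have h1 := good_card hM hx0 (B := ⌈R * (T / ht x)⌉₊) (hGx.mono (by
      refine le_trans ?_ (Nat.le_ceil _)
      have : δ ≤ R := hδ1.trans hR1
      gcongr))
    have hd0 : (0 : ℝ) < dd M x := by
      exact_mod_cast Nat.pos_of_ne_zero (dd_ne_zero hN (mx_ne_zero hM hx0))
    have h2 : ((LB M x ⌈R * (T / ht x)⌉₊).card : ℝ) ≤ 5 ^ (N - 2) * ((N - 2).factorial : ℝ) *
        (2 * R) ^ (N - 2) * ((T / ht x) ^ (N - 2) * (dd M x : ℝ)⁻¹) := by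
      have h3 : ((LB M x ⌈R * (T / ht x)⌉₊).card : ℝ) * dd M x ≤
          5 ^ (N - 2) * ((N - 2).factorial * (⌈R * (T / ht x)⌉₊ : ℝ) ^ (N - 2)) := by
        exact_mod_cast h1
      have h4 : (⌈R * (T / ht x)⌉₊ : ℝ) ≤ 2 * R * (T / ht x) := by
        have h5 := Nat.ceil_lt_add_one (by positivity : 0 ≤ R * (T / ht x))
        have h6 : 1 ≤ R * (T / ht x) := by nlinarith
        linarith
      calc ((LB M x ⌈R * (T / ht x)⌉₊).card : ℝ) =
            ((LB M x ⌈R * (T / ht x)⌉₊).card : ℝ) * dd M x * (dd M x : ℝ)⁻¹ := by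
            field_simp
        _ ≤ 5 ^ (N - 2) * ((N - 2).factorial * (⌈R * (T / ht x)⌉₊ : ℝ) ^ (N - 2)) *
            (dd M x : ℝ)⁻¹ := by gcongr
        _ ≤ 5 ^ (N - 2) * ((N - 2).factorial * (2 * R * (T / ht x)) ^ (N - 2)) *
            (dd M x : ℝ)⁻¹ := by gcongr
        _ = _ := by
            rw [mul_pow (2 * R)]
            ring
    refine (hLBc x hx).trans ?_
    calc ((LB M x ⌈R * (T / ht x)⌉₊).card : ℝ) + C₁ * ((T / ht x) ^ (N - 2) * (dd M x : ℝ)⁻¹)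
        ≤ 5 ^ (N - 2) * ((N - 2).factorial : ℝ) *
        (2 * R) ^ (N - 2) * ((T / ht x) ^ (N - 2) * (dd M x : ℝ)⁻¹) +
        C₁ * ((T / ht x) ^ (N - 2) * (dd M x : ℝ)⁻¹) := by linarith
      _ = C₂ * ((T / ht x) ^ (N - 2) * (dd M x : ℝ)⁻¹) := by rw [hC2]; ring
      _ ≤ _ := by
        have := hdi x
        gcongr
  have hc3 : ∀ x ∈ S, e x ≤ (1 + C₁ * (N : ℝ) ^ (N - 2)) *
      ((LB M x ⌈R * (T / ht x)⌉₊).card : ℝ) := by
    intro x hx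
    obtain ⟨hx0, hh, hK', hτ'⟩ := hfacts x hx
    have hτ0 : 0 < T / ht x := by positivity
    have h1 := pigeon_real hM hx0 hR1 hτ0
    refine (hLBc x hx).trans ?_
    have h2 : C₁ * ((T / ht x) ^ (N - 2) * (dd M x : ℝ)⁻¹) ≤
        C₁ * ((N : ℝ) ^ (N - 2) * ((LB M x ⌈R * (T / ht x)⌉₊).card : ℝ)) := by gcongr
    linarith
  -- the sums
  have hsplit : ∑ x ∈ S, e x ≤ ∑ x ∈ S, 4 * η * CR * ((2 * T / t) ^ (N - 2) * (dd M x : ℝ)⁻¹) +
      ∑ x ∈ S.filter (fun x => ¬ L x), C₂ * ((2 * T / t) ^ (N - 2) * (dd M x : ℝ)⁻¹) +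
      ∑ x ∈ S.filter (fun x => ¬ G x), (1 + C₁ * (N : ℝ) ^ (N - 2)) *
        ((LB M x ⌈R * (T / ht x)⌉₊).card : ℝ) := by
    rw [Finset.sum_filter, Finset.sum_filter, ← Finset.sum_add_distrib, ← Finset.sum_add_distrib]
    refine Finset.sum_le_sum fun x hx => ?_
    have hdx := hdi x
    have hnn1 : 0 ≤ 4 * η * CR * ((2 * T / t) ^ (N - 2) * (dd M x : ℝ)⁻¹) := by positivity
    have hnn2 : 0 ≤ (if ¬ L x then C₂ * ((2 * T / t) ^ (N - 2) * (dd M x : ℝ)⁻¹) else 0) := by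
      split_ifs <;> positivity
    by_cases hGx : G x
    · rw [if_neg (not_not.2 hGx), add_zero]
      by_cases hLx : L x
      · have := hc1 x hx hGx hLx
        linarith
      · rw [if_pos hLx]
        have := hc2 x hx hGx
        linarith
    · rw [if_pos hGx]
      have := hc3 x hx
      linarith
  refine hsplit.trans ?_
  have hS1 : ∑ x ∈ S, 4 * η * CR * ((2 * T / t) ^ (N - 2) * (dd M x : ℝ)⁻¹) ≤
      ε / 3 * T ^ (N - 2) := by
    have h1 := hdom (2 * t) S (by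
      have : (1 : ℝ) ≤ t := by exact_mod_cast ht1
      linarith) (fun x hx => ⟨(hS x hx).1, (hS x hx).2.1⟩)
    rw [← Finset.mul_sum, ← Finset.mul_sum]
    calc 4 * η * CR * ((2 * T / t) ^ (N - 2) * ∑ x ∈ S, (dd M x : ℝ)⁻¹)
        ≤ 4 * η * CR * ((2 * T / t) ^ (N - 2) * (Cd * (2 * t) ^ (N - 2))) := by gcongr
      _ = K₁ * η * T ^ (N - 2) := by
        have h2 : (4 : ℝ) ^ (N - 2) = 2 ^ (N - 2) * 2 ^ (N - 2) := by
          rw [← mul_pow]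
          norm_num
        rw [hK1, h2, div_pow, mul_pow, mul_pow]
        field_simp
      _ = _ := by rw [hηK]
  have hS2 : ∑ x ∈ S.filter (fun x => ¬ L x), C₂ * ((2 * T / t) ^ (N - 2) * (dd M x : ℝ)⁻¹) ≤
      2 * (ε / 3) * T ^ (N - 2) := by
    have h1 := hshell t κ (S.filter fun x => ¬ L x) ht1 hκ0 hκ1 (by
      intro x hx
      rw [Finset.mem_filter] at hx
      obtain ⟨h2, h3, h4⟩ := hS x hx.1
      refine ⟨h2, by exact_mod_cast h3, by exact_mod_cast h4, ?_⟩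
      have h5 : (dd M x : ℝ) ≤ mx M x := by
        exact_mod_cast Nat.div_le_self _ _
      have h6 : (mx M x : ℝ) < κ * (t : ℝ) ^ 2 := not_le.1 hx.2
      linarith)
    rw [← Finset.mul_sum, ← Finset.mul_sum]
    calc C₂ * ((2 * T / t) ^ (N - 2) * ∑ x ∈ S.filter (fun x => ¬ L x), (dd M x : ℝ)⁻¹)
        ≤ C₂ * ((2 * T / t) ^ (N - 2) * (Cs * (t : ℝ) ^ (N - 2) *
          ((t : ℝ) ^ (-(1 / 6) : ℝ) + κ ^ (1 / 2 : ℝ)))) := by gcongr
      _ = (K₂ * (t : ℝ) ^ (-(1 / 6) : ℝ) + K₂ * κ ^ (1 / 2 : ℝ)) * T ^ (N - 2) := by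
        rw [hK2, div_pow, mul_pow]
        field_simp
      _ ≤ (ε / 3 + ε / 3) * T ^ (N - 2) := by gcongr
      _ = _ := by ring
  have hS3 : ∑ x ∈ S.filter (fun x => ¬ G x), (1 + C₁ * (N : ℝ) ^ (N - 2)) *
      ((LB M x ⌈R * (T / ht x)⌉₊).card : ℝ) ≤
      (1 + C₁ * (N : ℝ) ^ (N - 2)) * (Cb * T ^ (N - 3) * (t : ℝ) ^ 2) := by
    rw [← Finset.mul_sum]
    apply mul_le_mul_of_nonneg_left _ (by positivity)
    apply hbad T t _ hTb' ht1 htT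
    intro x hx
    rw [Finset.mem_filter] at hx
    obtain ⟨h2, h3, h4⟩ := hS x hx.1
    refine ⟨h2, by exact_mod_cast h3, ?_, hx.2⟩
    have : t < 2 * ht x := by exact_mod_cast h4
    omega
  calc _ ≤ ε / 3 * T ^ (N - 2) + 2 * (ε / 3) * T ^ (N - 2) +
      (1 + C₁ * (N : ℝ) ^ (N - 2)) * (Cb * T ^ (N - 3) * (t : ℝ) ^ 2) := by linarith
    _ = _ := by ring

/-- **The block theorem.** -/
theorem block (hM : Nice M) (hΘ : TH M Θ R) {q : ℕ} (hq : q ≠ 0) (a b : Fin N → ℤ) :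
    ∃ β : ℝ, ∀ ε : ℝ, 0 < ε → ∃ (C T₀ : ℝ) (i₀ : ℕ), 0 < C ∧ 1 ≤ T₀ ∧ ∀ (i : ℕ) (T : ℝ),
      i₀ ≤ i → T₀ ≤ T → ((2 : ℝ) ^ i) ^ 2 ≤ T →
      |Bk M Θ q a b i T - β * T ^ (N - 2)| ≤
        ε * T ^ (N - 2) + C * T ^ (N - 3) * ((2 : ℝ) ^ i) ^ 2 := by
  classical
  have hN : 0 < N := by have := hM.four; omega
  obtain ⟨C₀, hC0, hΦb⟩ := Phi_bound hN hΘ
  obtain ⟨β, hβ⟩ := mean_value hM hq a b (Phi M Θ) C₀ hC0 (Phi_cont hN hΘ) hΦb
    (fun x h => Phi_supp h)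
  have hq1 : (1 : ℝ) ≤ q := by exact_mod_cast Nat.pos_of_ne_zero hq
  have hqr : (1 : ℝ) ≤ (q : ℝ) ^ (N - 2) := one_le_pow₀ hq1
  have hqi : ((q : ℝ) ^ (N - 2))⁻¹ ≤ 1 := inv_le_one_of_one_le₀ hqr
  have hqi0 : 0 < ((q : ℝ) ^ (N - 2))⁻¹ := by positivity
  refine ⟨((q : ℝ) ^ (N - 2))⁻¹ * β, ?_⟩
  intro ε hε
  obtain ⟨C, T₀, i₀, hC, hT₀, herr⟩ := block_err hM hΘ hq (ε / 2) (by positivity)
  have h1 := (Metric.tendsto_atTop.1 hβ) (ε / 2) (by positivity)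
  obtain ⟨i₁, hi₁⟩ := h1
  refine ⟨C, T₀, max i₀ i₁, hC, hT₀, ?_⟩
  intro i T hi hT htT
  have hi0 : i₀ ≤ i := (le_max_left _ _).trans hi
  have hi1 : i₁ ≤ i := (le_max_right _ _).trans hi
  have hT0 : 0 < T := by linarith
  have hTr : 0 < T ^ (N - 2) := by positivity
  have h2 := hi₁ i hi1
  rw [Real.dist_eq] at h2
  have h3 := main_term hM hΘ (q := q) a b i T
  have h4 : |Bk M Θ q a b i T - ∑ x ∈ XP N (2 ^ (i + 1)), (if Cg q x a then
      phi ((ht x : ℝ) / 2 ^ i) * (Wx M q b x * (((q : ℝ) ^ (N - 2))⁻¹ * (T / ht x) ^ (N - 2) *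
        den M Θ (ic x))) else 0)| ≤
      ε / 2 * T ^ (N - 2) + C * T ^ (N - 3) * ((2 : ℝ) ^ i) ^ 2 := by
    unfold Bk
    rw [← Finset.sum_sub_distrib]
    refine (Finset.abs_sum_le_sum_abs _ _).trans ?_
    have h5 := herr i T b ((XP N (2 ^ (i + 1))).filter fun x => (2 : ℝ) ^ i < 2 * ht x) hi0 hT htT
      (by
        intro x hx
        rw [Finset.mem_filter] at hx
        obtain ⟨h6, h7⟩ := mem_XP.1 hx.1
        refine ⟨h7, ?_, hx.2⟩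
        have h8 : (ht x : ℝ) ≤ ((2 ^ (i + 1) : ℕ) : ℝ) := by exact_mod_cast h6
        rw [pow_succ] at h8
        push_cast at h8
        linarith)
    refine le_trans ?_ h5
    rw [Finset.sum_filter]
    refine Finset.sum_le_sum fun x hx => ?_
    obtain ⟨h6, h7⟩ := mem_XP.1 hx
    have hh : (0 : ℝ) < ht x := by exact_mod_cast ht_pos h7.ne
    by_cases hc : Cg q x a
    · rw [if_pos hc, if_pos hc, ← mul_sub, abs_mul, abs_of_nonneg (phi_nonneg (by positivity))]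
      by_cases hp : phi ((ht x : ℝ) / 2 ^ i) = 0
      · rw [hp, zero_mul]
        split_ifs
        · exact abs_nonneg _
        · exact le_rfl
      · have h8 := (phi_supp hp).1
        rw [lt_div_iff₀ (by positivity)] at h8
        rw [if_pos (by linarith)]
        exact mul_le_of_le_one_left (abs_nonneg _) (phi_le_one _)
    · rw [if_neg hc, if_neg hc, sub_zero, abs_zero]
      split_ifs
      · exact abs_nonneg _
      · exact le_rfl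
  rw [h3] at h4
  set Q : ℝ := (∑' x : Fin N → ℤ, Wt M q a b x * Phi M Θ (((2 : ℝ) ^ i)⁻¹ • ic x)) /
    ((2 : ℝ) ^ i) ^ N with hQ
  have h6 : |((q : ℝ) ^ (N - 2))⁻¹ * T ^ (N - 2) * Q - ((q : ℝ) ^ (N - 2))⁻¹ * β * T ^ (N - 2)| ≤
      ε / 2 * T ^ (N - 2) := by
    have h7 : ((q : ℝ) ^ (N - 2))⁻¹ * T ^ (N - 2) * Q - ((q : ℝ) ^ (N - 2))⁻¹ * β * T ^ (N - 2) =
        ((q : ℝ) ^ (N - 2))⁻¹ * ((Q - β) * T ^ (N - 2)) := by ring
    rw [h7, abs_mul, abs_mul, abs_of_pos hqi0, abs_of_pos hTr]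
    calc ((q : ℝ) ^ (N - 2))⁻¹ * (|Q - β| * T ^ (N - 2)) ≤ 1 * (ε / 2 * T ^ (N - 2)) := by
          gcongr
      _ = _ := one_mul _
  have h8 : Bk M Θ q a b i T - ((q : ℝ) ^ (N - 2))⁻¹ * β * T ^ (N - 2) =
      (Bk M Θ q a b i T - ((q : ℝ) ^ (N - 2))⁻¹ * T ^ (N - 2) * Q) +
      (((q : ℝ) ^ (N - 2))⁻¹ * T ^ (N - 2) * Q - ((q : ℝ) ^ (N - 2))⁻¹ * β * T ^ (N - 2)) := by
    ring
  rw [h8]
  refine (abs_add_le _ _).trans ?_
  linarith

end Pool.Agent.N852
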