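import Mathlib
import Pool.Agent.N852.Block2

/-!
The sum over the blocks.
-/

namespace Pool.Agent.N852

open Matrix Module Filter Topology
open Pool.Agent.H548.WM (ht bx le_ht le_ht' ht_le exists_ht mem_bx card_bx ht_pos)
open Pool.Agent.H548.BL (rv cv Inc inc_iff_rv rc norm_rc)

variable {N : ℕ} {M : Fin 2 → Matrix (Fin N) (Fin N) ℤ} {Θ : (Fin N → ℝ) → (Fin N → ℝ) → ℝ}
  {R : ℝ}

/-- A crude bound for one dyadic range. -/
theorem crude (hM : Nice M) (R : ℝ) (hR : 1 ≤ R) :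
    ∃ C : ℝ, 0 < C ∧ ∀ (T : ℝ) (t : ℕ) (S : Finset (Fin N → ℤ)), 1 ≤ t → (t : ℝ) ^ 2 ≤ T →
      (∀ x ∈ S, Prm x ∧ ht x ≤ 2 * t ∧ t ≤ 2 * ht x) →
      ∑ x ∈ S, ((LB M x ⌈R * (T / ht x)⌉₊).card : ℝ) ≤ C * T ^ (N - 2) := by
  obtain ⟨C, hC, h⟩ := sum_LB_le hM
  have hN4 := hM.four
  refine ⟨C * (2 ^ N + (6 * R) ^ (N - 2)), by positivity, ?_⟩
  intro T t S ht1 htT hS
  have ht1' : (1 : ℝ) ≤ t := by exact_mod_cast ht1
  have ht0 : (0 : ℝ) < t := by linarith
  have hT1 : 1 ≤ T := by nlinarith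
  have hT0 : 0 < T := by linarith
  have hTt : (t : ℝ) ≤ T / t := by
    rw [le_div_iff₀ ht0]
    nlinarith
  obtain ⟨ρ, hρ⟩ : ∃ ρ : ℕ, ρ = ⌈2 * R * (T / t)⌉₊ := ⟨_, rfl⟩
  have hρ0 : 0 < 2 * R * (T / t) := by positivity
  have hρ1 : 1 ≤ ρ := by
    rw [hρ]
    exact Nat.one_le_ceil_iff.2 hρ0
  have hρ2 : (ρ : ℝ) ≤ 3 * R * (T / t) := by
    have h1 := Nat.ceil_lt_add_one hρ0.le
    rw [← hρ] at h1
    have h2 : 1 ≤ R * (T / t) := by nlinarith
    linarith
  have h1 := h (2 * t) ρ S (by omega) hρ1 (fun x hx => ⟨(hS x hx).1, (hS x hx).2.1⟩)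
  calc ∑ x ∈ S, ((LB M x ⌈R * (T / ht x)⌉₊).card : ℝ) ≤ ∑ x ∈ S, ((LB M x ρ).card : ℝ) := by
        refine Finset.sum_le_sum fun x hx => ?_
        obtain ⟨h2, h3, h4⟩ := hS x hx
        have hh : (0 : ℝ) < ht x := by exact_mod_cast ht_pos h2.ne
        have h5 : ⌈R * (T / ht x)⌉₊ ≤ ρ := by
          rw [hρ]
          apply Nat.ceil_le_ceil
          have h6 : T / ht x ≤ 2 * (T / t) := by
            rw [← mul_div_assoc, div_le_div_iff₀ hh ht0]
            have : (t : ℝ) ≤ 2 * ht x := by exact_mod_cast h4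
            nlinarith
          calc R * (T / ht x) ≤ R * (2 * (T / t)) := by gcongr
            _ = _ := by ring
        exact_mod_cast Finset.card_le_card (LB_mono h5)
    _ ≤ C * (((2 * t : ℕ) : ℝ) ^ N + (((2 * t : ℕ) : ℝ) * ρ) ^ (N - 2)) := h1
    _ ≤ C * (2 ^ N * T ^ (N - 2) + (6 * R * T) ^ (N - 2)) := by
        apply mul_le_mul_of_nonneg_left _ hC.le
        push_cast
        apply add_le_add
        · rw [mul_pow]
          apply mul_le_mul_of_nonneg_left _ (by positivity)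
          calc (t : ℝ) ^ N ≤ (t : ℝ) ^ (2 * (N - 2)) := pow_le_pow_right₀ ht1' (by omega)
            _ = ((t : ℝ) ^ 2) ^ (N - 2) := pow_mul _ _ _
            _ ≤ T ^ (N - 2) := by gcongr
        · apply pow_le_pow_left₀ (by positivity)
          calc 2 * (t : ℝ) * ρ ≤ 2 * t * (3 * R * (T / t)) := by gcongr
            _ = 6 * R * T := by
              field_simp
              ring
    _ = _ := by
        rw [mul_pow (6 * R)]
        ring

open Classical in
/-- The weighted count for one pair of residue classes. -/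
noncomputable def Sq (M : Fin 2 → Matrix (Fin N) (Fin N) ℤ) (Θ : (Fin N → ℝ) → (Fin N → ℝ) → ℝ)
    (q : ℕ) (a b : Fin N → ℤ) (T : ℝ) : ℝ :=
  ∑ x ∈ XP N ⌊√T⌋₊, if Cg q x a then SX M Θ q b x (T / ht x) else 0

theorem XP_mono {A B : ℕ} (h : A ≤ B) : XP N A ⊆ XP N B := by
  intro x hx
  rw [mem_XP] at hx ⊢
  exact ⟨hx.1.trans h, hx.2⟩

open Classical in
theorem sum_Bk (q : ℕ) (a b : Fin N → ℤ) (I : ℕ) (T : ℝ) :
    ∑ i ∈ Finset.range (I + 1), Bk M Θ q a b i T = ∑ x ∈ XP N (2 ^ (I + 1)), if Cg q x a then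
      lam ((ht x : ℝ) / 2 ^ I) * SX M Θ q b x (T / ht x) else 0 := by
  classical
  have h1 : ∀ i ∈ Finset.range (I + 1), Bk M Θ q a b i T = ∑ x ∈ XP N (2 ^ (I + 1)),
      if Cg q x a then phi ((ht x : ℝ) / 2 ^ i) * SX M Θ q b x (T / ht x) else 0 := by
    intro i hi
    rw [Finset.mem_range] at hi
    unfold Bk
    have h2 : XP N (2 ^ (i + 1)) ⊆ XP N (2 ^ (I + 1)) :=
      XP_mono (Nat.pow_le_pow_right (by norm_num) (by omega))
    refine Finset.sum_subset h2 ?_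
    intro x hx hx'
    have h3 : phi ((ht x : ℝ) / 2 ^ i) = 0 := by
      by_contra h4
      have h5 := (phi_supp h4).2
      apply hx'
      rw [mem_XP] at hx ⊢
      refine ⟨?_, hx.2⟩
      rw [div_lt_iff₀ (by positivity)] at h5
      have h6 : (ht x : ℝ) < ((2 ^ (i + 1) : ℕ) : ℝ) := by
        push_cast
        rw [pow_succ]
        linarith
      have h7 : ht x < 2 ^ (i + 1) := by exact_mod_cast h6
      exact h7.le
    rw [h3, zero_mul]
    split_ifs <;> rfl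
  rw [Finset.sum_congr rfl h1, Finset.sum_comm]
  refine Finset.sum_congr rfl fun x hx => ?_
  by_cases hc : Cg q x a
  · simp only [if_pos hc]
    rw [← Finset.sum_mul, phi_sum]
    have hh : (1 : ℝ) ≤ ht x := by exact_mod_cast ht_pos (mem_XP.1 hx).2.ne
    rw [lam_zero (s := 2 * (ht x : ℝ)) (by linarith), sub_zero]
  · simp only [if_neg hc, Finset.sum_const_zero]

/-- The sharp cutoff against the blocks. -/
theorem Sq_sub (hM : Nice M) (hΘ : TH M Θ R) : ∃ C : ℝ, 0 < C ∧ ∀ (q : ℕ) (a b : Fin N → ℤ)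
    (T : ℝ) (I : ℕ), ((2 : ℝ) ^ I) ^ 2 ≤ T → 2 ^ I ≤ ⌊√T⌋₊ → ⌊√T⌋₊ < 2 ^ (I + 1) →
    |Sq M Θ q a b T - ∑ i ∈ Finset.range (I + 1), Bk M Θ q a b i T| ≤ C * T ^ (N - 2) := by
  classical
  have hR1 := hΘ.R1
  obtain ⟨C, hC, h⟩ := crude hM R hR1
  refine ⟨C, hC, ?_⟩
  intro q a b T I hT h1 h2
  have hT0 : 0 < T := lt_of_lt_of_le (by positivity) hT
  rw [sum_Bk]
  have h3 : Sq M Θ q a b T = ∑ x ∈ XP N (2 ^ (I + 1)), if Cg q x a then
      (if ht x ≤ ⌊√T⌋₊ then 1 else 0) * SX M Θ q b x (T / ht x) else 0 := by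
    unfold Sq
    refine (Finset.sum_congr rfl fun x hx => ?_).trans (Finset.sum_subset (XP_mono h2.le) ?_)
    · rw [if_pos (mem_XP.1 hx).1, one_mul]
    · intro x hx hx'
      have h4 : ¬ ht x ≤ ⌊√T⌋₊ := fun h5 => hx' (mem_XP.2 ⟨h5, (mem_XP.1 hx).2⟩)
      rw [if_neg h4, zero_mul]
      split_ifs <;> rfl
  rw [h3, ← Finset.sum_sub_distrib]
  refine (Finset.abs_sum_le_sum_abs _ _).trans ?_
  have h4 := h T (2 ^ I) ((XP N (2 ^ (I + 1))).filter fun x => 2 ^ I ≤ 2 * ht x)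
    Nat.one_le_two_pow (by push_cast; exact hT) (by
      intro x hx
      rw [Finset.mem_filter] at hx
      obtain ⟨h5, h6⟩ := mem_XP.1 hx.1
      exact ⟨h6, by rw [pow_succ] at h5; omega, hx.2⟩)
  refine le_trans ?_ h4
  rw [Finset.sum_filter]
  refine Finset.sum_le_sum fun x hx => ?_
  obtain ⟨h5, h6⟩ := mem_XP.1 hx
  have hh : (0 : ℝ) < ht x := by exact_mod_cast ht_pos h6.ne
  have hSX := SX_bound hΘ h6.ne q b (τ := T / ht x) (by positivity)
  have hnn : (0 : ℝ) ≤ if 2 ^ I ≤ 2 * ht x then ((LB M x ⌈R * (T / ht x)⌉₊).card : ℝ) else 0 := by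
    split_ifs
    · positivity
    · exact le_rfl
  by_cases hc : Cg q x a
  · rw [if_pos hc, if_pos hc, ← sub_mul, abs_mul, abs_of_nonneg hSX.1]
    by_cases h7 : 2 ^ I ≤ 2 * ht x
    · rw [if_pos h7]
      refine le_trans ?_ hSX.2
      apply mul_le_of_le_one_left hSX.1
      have h8 := lam_nonneg ((ht x : ℝ) / 2 ^ I)
      have h9 := lam_le_one ((ht x : ℝ) / 2 ^ I)
      split_ifs <;> rw [abs_le] <;> constructor <;> linarith
    · have h8 : ht x ≤ ⌊√T⌋₊ := by omega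
      have h9 : (ht x : ℝ) / 2 ^ I ≤ 1 := by
        rw [div_le_one (by positivity)]
        have : ht x ≤ 2 ^ I := by omega
        exact_mod_cast this
      rw [if_pos h8, lam_one h9, sub_self, abs_zero, zero_mul]
      exact hnn
  · rw [if_neg hc, if_neg hc, sub_self, abs_zero]
    exact hnn

/-- A crude bound for one block. -/
theorem Bk_bound (hM : Nice M) (hΘ : TH M Θ R) : ∃ C : ℝ, 0 < C ∧ ∀ (q : ℕ) (a b : Fin N → ℤ)
    (T : ℝ) (i : ℕ), ((2 : ℝ) ^ i) ^ 2 ≤ T → |Bk M Θ q a b i T| ≤ C * T ^ (N - 2) := by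
  classical
  have hR1 := hΘ.R1
  obtain ⟨C, hC, h⟩ := crude hM R hR1
  refine ⟨C, hC, ?_⟩
  intro q a b T i hT
  have hT0 : 0 < T := lt_of_lt_of_le (by positivity) hT
  unfold Bk
  refine (Finset.abs_sum_le_sum_abs _ _).trans ?_
  have h4 := h T (2 ^ i) ((XP N (2 ^ (i + 1))).filter fun x => 2 ^ i ≤ 2 * ht x)
    Nat.one_le_two_pow (by push_cast; exact hT) (by
      intro x hx
      rw [Finset.mem_filter] at hx
      obtain ⟨h5, h6⟩ := mem_XP.1 hx.1
      exact ⟨h6, by rw [pow_succ] at h5; omega, hx.2⟩)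
  refine le_trans ?_ h4
  rw [Finset.sum_filter]
  refine Finset.sum_le_sum fun x hx => ?_
  obtain ⟨h5, h6⟩ := mem_XP.1 hx
  have hh : (0 : ℝ) < ht x := by exact_mod_cast ht_pos h6.ne
  have hSX := SX_bound hΘ h6.ne q b (τ := T / ht x) (by positivity)
  have hnn : (0 : ℝ) ≤ if 2 ^ i ≤ 2 * ht x then ((LB M x ⌈R * (T / ht x)⌉₊).card : ℝ) else 0 := by
    split_ifs
    · positivity
    · exact le_rfl
  split_ifs with hc h7
  · rw [abs_mul, abs_of_nonneg hSX.1]
    refine le_trans ?_ hSX.2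
    apply mul_le_of_le_one_left hSX.1
    rw [abs_of_nonneg (phi_nonneg (by positivity))]
    exact phi_le_one _
  · have h8 : phi ((ht x : ℝ) / 2 ^ i) = 0 := by
      by_contra h9
      have h10 := (phi_supp h9).1
      rw [lt_div_iff₀ (by positivity)] at h10
      apply h7
      have h11 : ((2 ^ i : ℕ) : ℝ) < ((2 * ht x : ℕ) : ℝ) := by
        push_cast
        linarith
      have h12 : 2 ^ i < 2 * ht x := by exact_mod_cast h11
      exact h12.le
    rw [h8, zero_mul, abs_zero]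
  · rw [abs_zero]
    positivity
  · rw [abs_zero]

/-- **The asymptotic formula for one pair of classes.** -/
theorem Sq_asymp (hM : Nice M) (hΘ : TH M Θ R) {q : ℕ} (hq : q ≠ 0) (a b : Fin N → ℤ) :
    ∃ c : ℝ, Tendsto (fun T : ℝ => Sq M Θ q a b T / (T ^ (N - 2) * Real.log T)) atTop (𝓝 c) := by
  classical
  have hN4 := hM.four
  obtain ⟨β, hβ⟩ := block hM hΘ hq a b
  obtain ⟨C₁, hC1, hsub⟩ := Sq_sub hM hΘ
  obtain ⟨C₂, hC2, hBk⟩ := Bk_bound hM hΘ
  have hl2 : 0 < Real.log 2 := Real.log_pos (by norm_num)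
  refine ⟨β / (2 * Real.log 2), ?_⟩
  rw [Metric.tendsto_atTop]
  intro ε hε
  obtain ⟨C, T₀, i₀, hC, hT₀, hblk⟩ := hβ (ε * Real.log 2 / 4) (by positivity)
  -- the constant
  obtain ⟨K, hK⟩ : ∃ K : ℝ, K = C₁ + i₀ * C₂ + 2 * C + (i₀ + 2) * |β| + ε * Real.log 2 := ⟨_, rfl⟩
  have hK0 : 0 < K := by rw [hK]; positivity
  refine ⟨max (max T₀ 4) (Real.exp (4 * K / ε)), ?_⟩
  intro T hT
  have hT1 : T₀ ≤ T := (le_max_left _ _).trans ((le_max_left _ _).trans hT)
  have hT2 : 4 ≤ T := (le_max_right _ _).trans ((le_max_left _ _).trans hT)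
  have hT3 : Real.exp (4 * K / ε) ≤ T := (le_max_right _ _).trans hT
  have hT0 : 0 < T := by linarith
  have hlog : 4 * K / ε ≤ Real.log T := by
    rw [Real.le_log_iff_exp_le hT0]
    exact hT3
  have hlogK : K ≤ ε / 4 * Real.log T := by
    rw [div_le_iff₀ hε] at hlog
    linarith
  have hlog0 : 0 < Real.log T := Real.log_pos (by linarith)
  obtain ⟨Q, hQ⟩ : ∃ Q : ℕ, Q = ⌊√T⌋₊ := ⟨_, rfl⟩
  have hQ1 : 1 ≤ Q := by
    rw [hQ]
    apply Nat.le_floor
    rw [Nat.cast_one, Real.one_le_sqrt]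
    linarith
  obtain ⟨I, hI⟩ : ∃ I : ℕ, I = Nat.log 2 Q := ⟨_, rfl⟩
  have hI1 : 2 ^ I ≤ Q := by
    rw [hI]
    exact Nat.pow_log_le_self 2 (by omega)
  have hI2 : Q < 2 ^ (I + 1) := by
    rw [hI]
    exact Nat.lt_pow_succ_log_self (by norm_num) Q
  have hI3 : (2 : ℝ) ^ I ≤ √T := by
    calc (2 : ℝ) ^ I = ((2 ^ I : ℕ) : ℝ) := by push_cast; rfl
      _ ≤ Q := by exact_mod_cast hI1
      _ ≤ √T := by rw [hQ]; exact Nat.floor_le (Real.sqrt_nonneg _)
  have hI4 : √T < (2 : ℝ) ^ (I + 1) := by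
    calc √T < (Q : ℝ) + 1 := by rw [hQ]; exact Nat.lt_floor_add_one _
      _ ≤ ((2 ^ (I + 1) : ℕ) : ℝ) := by exact_mod_cast hI2
      _ = _ := by push_cast; rfl
  have hI5 : ((2 : ℝ) ^ I) ^ 2 ≤ T := by
    rw [← Real.sq_sqrt hT0.le]
    gcongr
  have hlogsq : Real.log √T = Real.log T / 2 := Real.log_sqrt hT0.le
  have hIl : (I : ℝ) * Real.log 2 ≤ Real.log T / 2 := by
    rw [← hlogsq, ← Real.log_pow]
    exact Real.log_le_log (by positivity) hI3
  have hIu : Real.log T / 2 ≤ ((I : ℝ) + 1) * Real.log 2 := by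
    rw [← hlogsq]
    have h1 := Real.log_le_log (Real.sqrt_pos.2 hT0) hI4.le
    rw [Real.log_pow] at h1
    push_cast at h1
    exact h1
  have hTr : 0 < T ^ (N - 2) := by positivity
  -- compare with the blocks
  have h1 := hsub q a b T I hI5 (by rw [← hQ]; exact hI1) (by rw [← hQ]; exact hI2)
  have h2 : |∑ i ∈ Finset.range (I + 1), (Bk M Θ q a b i T - β * T ^ (N - 2))| ≤
      i₀ * ((C₂ + |β|) * T ^ (N - 2)) + (I + 1) * (ε * Real.log 2 / 4 * T ^ (N - 2)) +
      2 * C * T ^ (N - 2) := by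
    refine (Finset.abs_sum_le_sum_abs _ _).trans ?_
    have h3 : ∀ i ∈ Finset.range (I + 1), |Bk M Θ q a b i T - β * T ^ (N - 2)| ≤
        (if i < i₀ then (C₂ + |β|) * T ^ (N - 2) else 0) + ε * Real.log 2 / 4 * T ^ (N - 2) +
        C * T ^ (N - 3) * ((4 : ℝ) ^ i) := by
      intro i hi
      rw [Finset.mem_range] at hi
      have h4 : ((2 : ℝ) ^ i) ^ 2 = 4 ^ i := by
        rw [← pow_mul, mul_comm, pow_mul]
        norm_num
      have h5 : ((2 : ℝ) ^ i) ^ 2 ≤ T := by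
        refine le_trans ?_ hI5
        have : (2 : ℝ) ^ i ≤ 2 ^ I := pow_le_pow_right₀ (by norm_num) (by omega)
        gcongr
      by_cases hi0 : i < i₀
      · rw [if_pos hi0]
        have h6 := hBk q a b T i h5
        have h7 : |Bk M Θ q a b i T - β * T ^ (N - 2)| ≤ (C₂ + |β|) * T ^ (N - 2) := by
          refine (abs_sub _ _).trans ?_
          rw [abs_mul, abs_of_pos hTr]
          linarith
        have h8 : 0 ≤ ε * Real.log 2 / 4 * T ^ (N - 2) := by positivity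
        have h9 : 0 ≤ C * T ^ (N - 3) * (4 : ℝ) ^ i := by positivity
        linarith
      · rw [if_neg hi0, zero_add, ← h4]
        exact hblk i T (not_lt.1 hi0) hT1 h5
    refine (Finset.sum_le_sum h3).trans ?_
    rw [Finset.sum_add_distrib, Finset.sum_add_distrib]
    have h4 : ∑ i ∈ Finset.range (I + 1), (if i < i₀ then (C₂ + |β|) * T ^ (N - 2) else 0) ≤
        i₀ * ((C₂ + |β|) * T ^ (N - 2)) := by
      rw [← Finset.sum_filter, Finset.sum_const, nsmul_eq_mul]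
      apply mul_le_mul_of_nonneg_right _ (by positivity)
      have h5 : ((Finset.range (I + 1)).filter fun i => i < i₀) ⊆ Finset.range i₀ := by
        intro i hi
        rw [Finset.mem_filter] at hi
        exact Finset.mem_range.2 hi.2
      have h6 := Finset.card_le_card h5
      rw [Finset.card_range] at h6
      exact_mod_cast h6
    have h5 : ∑ _i ∈ Finset.range (I + 1), ε * Real.log 2 / 4 * T ^ (N - 2) =
        (I + 1) * (ε * Real.log 2 / 4 * T ^ (N - 2)) := by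
      rw [Finset.sum_const, Finset.card_range, nsmul_eq_mul]
      push_cast
      ring
    have h6 : ∑ i ∈ Finset.range (I + 1), C * T ^ (N - 3) * (4 : ℝ) ^ i ≤
        2 * C * T ^ (N - 2) := by
      rw [← Finset.mul_sum, geom_sum_eq (by norm_num)]
      have h7 : ((4 : ℝ) ^ (I + 1) - 1) / (4 - 1) ≤ 2 * T := by
        have h8 : (4 : ℝ) ^ I ≤ T := by
          refine le_trans (le_of_eq ?_) hI5
          rw [← pow_mul, mul_comm, pow_mul]
          norm_num
        rw [pow_succ]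
        linarith
      have h8 : T ^ (N - 2) = T ^ (N - 3) * T := by
        rw [← pow_succ]
        congr 1
        omega
      calc C * T ^ (N - 3) * (((4 : ℝ) ^ (I + 1) - 1) / (4 - 1)) ≤ C * T ^ (N - 3) * (2 * T) := by
            gcongr
        _ = _ := by rw [h8]; ring
    linarith
  have h3 : ∑ i ∈ Finset.range (I + 1), (Bk M Θ q a b i T - β * T ^ (N - 2)) =
      ∑ i ∈ Finset.range (I + 1), Bk M Θ q a b i T - (I + 1) * (β * T ^ (N - 2)) := by
    rw [Finset.sum_sub_distrib, Finset.sum_const, Finset.card_range, nsmul_eq_mul]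
    push_cast
    ring
  rw [h3] at h2
  have h4 : |((I : ℝ) + 1) * (β * T ^ (N - 2)) - β / (2 * Real.log 2) * (T ^ (N - 2) * Real.log T)| ≤
      |β| * T ^ (N - 2) := by
    have h5 : ((I : ℝ) + 1) * (β * T ^ (N - 2)) - β / (2 * Real.log 2) * (T ^ (N - 2) * Real.log T) =
        ((I : ℝ) + 1 - Real.log T / 2 / Real.log 2) * (β * T ^ (N - 2)) := by
      field_simp
    rw [h5, abs_mul, abs_mul, abs_of_pos hTr]
    apply mul_le_of_le_one_left (by positivity)
    have h6 : Real.log T / 2 / Real.log 2 ≤ I + 1 := by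
      rw [div_le_iff₀ hl2]
      exact hIu
    have h7 : (I : ℝ) ≤ Real.log T / 2 / Real.log 2 := by
      rw [le_div_iff₀ hl2]
      exact hIl
    rw [abs_le]
    constructor <;> linarith
  have h5 : |Sq M Θ q a b T - β / (2 * Real.log 2) * (T ^ (N - 2) * Real.log T)| ≤
      C₁ * T ^ (N - 2) + (i₀ * ((C₂ + |β|) * T ^ (N - 2)) +
      (I + 1) * (ε * Real.log 2 / 4 * T ^ (N - 2)) + 2 * C * T ^ (N - 2)) + |β| * T ^ (N - 2) := by
    have h6 : Sq M Θ q a b T - β / (2 * Real.log 2) * (T ^ (N - 2) * Real.log T) =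
        (Sq M Θ q a b T - ∑ i ∈ Finset.range (I + 1), Bk M Θ q a b i T) +
        (∑ i ∈ Finset.range (I + 1), Bk M Θ q a b i T - (I + 1) * (β * T ^ (N - 2))) +
        (((I : ℝ) + 1) * (β * T ^ (N - 2)) - β / (2 * Real.log 2) * (T ^ (N - 2) * Real.log T)) := by
      ring
    rw [h6]
    refine (abs_add_three _ _ _).trans ?_
    linarith
  have h6 : ((I : ℝ) + 1) * (ε * Real.log 2 / 4 * T ^ (N - 2)) ≤
      (ε / 8 * Real.log T + ε * Real.log 2) * T ^ (N - 2) := by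
    have h7 : ((I : ℝ) + 1) * (ε * Real.log 2 / 4 * T ^ (N - 2)) =
        (ε / 4 * ((I : ℝ) * Real.log 2) + ε / 4 * Real.log 2) * T ^ (N - 2) := by ring
    rw [h7]
    apply mul_le_mul_of_nonneg_right _ hTr.le
    have h8 : ε / 4 * ((I : ℝ) * Real.log 2) ≤ ε / 4 * (Real.log T / 2) := by gcongr
    have h9 : 0 ≤ ε * Real.log 2 := by positivity
    linarith
  rw [Real.dist_eq]
  have hg : 0 < T ^ (N - 2) * Real.log T := by positivity
  have h7 : Sq M Θ q a b T / (T ^ (N - 2) * Real.log T) - β / (2 * Real.log 2) =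
      (Sq M Θ q a b T - β / (2 * Real.log 2) * (T ^ (N - 2) * Real.log T)) /
        (T ^ (N - 2) * Real.log T) := by
    rw [sub_div, mul_div_cancel_right₀ _ hg.ne']
  rw [h7, abs_div, abs_of_pos hg, div_lt_iff₀ hg]
  calc |Sq M Θ q a b T - β / (2 * Real.log 2) * (T ^ (N - 2) * Real.log T)|
      ≤ (K + ε / 8 * Real.log T) * T ^ (N - 2) := by
        rw [hK]
        have h8 : 0 ≤ |β| * T ^ (N - 2) := by positivity
        nlinarith
    _ ≤ (ε / 4 * Real.log T + ε / 8 * Real.log T) * T ^ (N - 2) := by gcongr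
    _ < ε * (T ^ (N - 2) * Real.log T) := by
        have : 0 < ε * (T ^ (N - 2) * Real.log T) := by positivity
        nlinarith

end Pool.Agent.N852
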