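import Mathlib
import Pool.Agent.N852.Sum
import Pool.Agent.N852.Conv

/-!
Pairs in hyperbolic regions.
-/

namespace Pool.Agent.N852

open Matrix Module Filter Topology
open Pool.Agent.H548.WM (ht bx le_ht le_ht' ht_le exists_ht mem_bx card_bx ht_pos)
open Pool.Agent.H548.BL (rv cv Inc inc_iff_rv rc norm_rc)

variable {N : ℕ} {M : Fin 2 → Matrix (Fin N) (Fin N) ℤ}

theorem card_le_PN (M : Fin 2 → Matrix (Fin N) (Fin N) ℤ) (A B : ℕ)
    (S : Finset ((Fin N → ℤ) × (Fin N → ℤ)))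
    (hS : ∀ p ∈ S, Prm p.1 ∧ Prm p.2 ∧ Inc M p.1 p.2 ∧ ht p.1 ≤ A ∧ ht p.2 ≤ B) :
    S.card ≤ PN M A B := by
  classical
  unfold PN
  rw [← Finset.card_sigma]
  apply Finset.card_le_card_of_injOn (fun p => (⟨p.1, p.2⟩ : Σ _ : Fin N → ℤ, Fin N → ℤ))
  · intro p hp
    obtain ⟨h1, h2, h3, h4, h5⟩ := hS p hp
    rw [Finset.mem_coe, Finset.mem_sigma]
    exact ⟨mem_XP.2 ⟨h4, h1⟩, mem_LP.2 ⟨h5, mem_Lx_inc.2 h3, h2⟩⟩
  · intro p _ p' _ h
    simp only [Sigma.mk.injEq, heq_eq_eq] at h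
    exact Prod.ext h.1 h.2

/-- Pairs in a hyperbolic region. -/
theorem hyper (hM : Nice M) : ∃ K : ℝ, 0 < K ∧ ∀ (T Z : ℝ)
    (S : Finset ((Fin N → ℤ) × (Fin N → ℤ))), 4 ≤ T → 0 ≤ Z →
    (∀ p ∈ S, Prm p.1 ∧ Prm p.2 ∧ Inc M p.1 p.2 ∧ (ht p.1 : ℝ) ≤ √T ∧
      (ht p.1 : ℝ) * ht p.2 ≤ Z) →
    (S.card : ℝ) ≤ K * Z ^ (N - 2) * Real.log T := by
  classical
  obtain ⟨K, hK, hp⟩ := pairs hM
  have hl2 : 0 < Real.log 2 := Real.log_pos (by norm_num)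
  refine ⟨K * 2 ^ (N - 2) / Real.log 2, by positivity, ?_⟩
  intro T Z S hT hZ hS
  have hT0 : 0 < T := by linarith
  have hT2 : 2 ≤ √T := by
    rw [Real.le_sqrt (by norm_num) hT0.le]
    linarith
  set I : ℕ := Nat.log 2 ⌊√T⌋₊ with hI
  have hfl : ⌊√T⌋₊ ≠ 0 := by
    have : 1 ≤ ⌊√T⌋₊ := Nat.le_floor (by rw [Nat.cast_one]; linarith)
    omega
  have hmaps : ∀ p ∈ S, Nat.log 2 (ht p.1) ∈ Finset.range (I + 1) := by
    intro p hp
    obtain ⟨h1, h2, h3, h4, h5⟩ := hS p hp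
    rw [Finset.mem_range, Nat.lt_succ_iff]
    exact Nat.log_mono_right (Nat.le_floor h4)
  rw [Finset.card_eq_sum_card_fiberwise hmaps]
  push_cast
  have hone : ∀ i ∈ Finset.range (I + 1),
      ((S.filter fun p => Nat.log 2 (ht p.1) = i).card : ℝ) ≤ K * (2 * Z) ^ (N - 2) := by
    intro i _
    rcases (S.filter fun p => Nat.log 2 (ht p.1) = i).eq_empty_or_nonempty with h0 | h0
    · rw [h0, Finset.card_empty, Nat.cast_zero]
      positivity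
    have hfac : ∀ p ∈ S.filter (fun p => Nat.log 2 (ht p.1) = i), Prm p.1 ∧ Prm p.2 ∧
        Inc M p.1 p.2 ∧ ht p.1 ≤ 2 ^ (i + 1) ∧ ht p.2 ≤ ⌊Z / 2 ^ i⌋₊ := by
      intro p hp
      rw [Finset.mem_filter] at hp
      obtain ⟨h1, h2, h3, h4, h5⟩ := hS p hp.1
      have h6 := ht_pos h1.ne
      have h7 : 2 ^ i ≤ ht p.1 := by
        rw [← hp.2]
        exact Nat.pow_log_le_self 2 (by omega)
      have h8 : ht p.1 < 2 ^ (i + 1) := by
        rw [← hp.2]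
        exact Nat.lt_pow_succ_log_self (by norm_num) _
      refine ⟨h1, h2, h3, h8.le, ?_⟩
      apply Nat.le_floor
      rw [le_div_iff₀ (by positivity)]
      have h9 : (2 : ℝ) ^ i ≤ ht p.1 := by exact_mod_cast h7
      have h10 : (0 : ℝ) ≤ ht p.2 := Nat.cast_nonneg _
      nlinarith
    obtain ⟨p₀, hp₀⟩ := h0
    have hB : 1 ≤ ⌊Z / 2 ^ i⌋₊ := by
      have h1 := hfac p₀ hp₀
      have h2 := ht_pos h1.2.1.ne
      omega
    have h1 := card_le_PN M (2 ^ (i + 1)) ⌊Z / 2 ^ i⌋₊ _ hfac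
    have h2 := hp (2 ^ (i + 1)) ⌊Z / 2 ^ i⌋₊ Nat.one_le_two_pow hB
    calc ((S.filter fun p => Nat.log 2 (ht p.1) = i).card : ℝ)
        ≤ (PN M (2 ^ (i + 1)) ⌊Z / 2 ^ i⌋₊ : ℝ) := by exact_mod_cast h1
      _ ≤ K * (((2 ^ (i + 1) : ℕ) : ℝ) * (⌊Z / 2 ^ i⌋₊ : ℝ)) ^ (N - 2) := h2
      _ ≤ K * (2 * Z) ^ (N - 2) := by
        apply mul_le_mul_of_nonneg_left _ hK.le
        apply pow_le_pow_left₀ (by positivity)
        push_cast
        calc (2 : ℝ) ^ (i + 1) * (⌊Z / 2 ^ i⌋₊ : ℝ) ≤ 2 ^ (i + 1) * (Z / 2 ^ i) := by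
              gcongr
              exact Nat.floor_le (by positivity)
          _ = 2 * Z := by
              rw [pow_succ]
              field_simp
  have hIl : ((I : ℝ) + 1) ≤ Real.log T / Real.log 2 := by
    rw [le_div_iff₀ hl2]
    have h1 : (2 : ℝ) ^ I ≤ √T := by
      calc (2 : ℝ) ^ I = ((2 ^ I : ℕ) : ℝ) := by push_cast; rfl
        _ ≤ (⌊√T⌋₊ : ℝ) := by exact_mod_cast Nat.pow_log_le_self 2 hfl
        _ ≤ √T := Nat.floor_le (Real.sqrt_nonneg _)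
    have h2 : (2 : ℝ) ^ (I + 1) ≤ T := by
      rw [pow_succ]
      calc (2 : ℝ) ^ I * 2 ≤ √T * √T := by gcongr
        _ = T := Real.mul_self_sqrt hT0.le
    have h3 := Real.log_le_log (by positivity) h2
    rw [Real.log_pow] at h3
    push_cast at h3
    exact h3
  calc ∑ i ∈ Finset.range (I + 1), ((S.filter fun p => Nat.log 2 (ht p.1) = i).card : ℝ)
      ≤ ∑ _i ∈ Finset.range (I + 1), K * (2 * Z) ^ (N - 2) := Finset.sum_le_sum hone
    _ = ((I : ℝ) + 1) * (K * (2 * Z) ^ (N - 2)) := by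
        rw [Finset.sum_const, Finset.card_range, nsmul_eq_mul]
        push_cast
        ring
    _ ≤ Real.log T / Real.log 2 * (K * (2 * Z) ^ (N - 2)) := by gcongr
    _ = _ := by
        rw [mul_pow]
        ring

end Pool.Agent.N852
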