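import Mathlib
import Pool.Agent.N852.Hyper

/-!
Residue classes, and non-primitive vectors.
-/

namespace Pool.Agent.N852

open Matrix Module Filter Topology
open Pool.Agent.H548.WM (ht bx le_ht le_ht' ht_le exists_ht mem_bx card_bx ht_pos)
open Pool.Agent.H548.BL (rv cv Inc inc_iff_rv rc norm_rc)

variable {N : ℕ} {M : Fin 2 → Matrix (Fin N) (Fin N) ℤ}

/-- The reduced residue. -/
def md (q : ℕ) (x : Fin N → ℤ) : Fin N → ℤ := fun k => x k % q

/-- The reduced residues. -/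
noncomputable def BQ (N q : ℕ) : Finset (Fin N → ℤ) := Fintype.piFinset fun _ => Finset.Ico (0 : ℤ) q

theorem md_mem {q : ℕ} (hq : q ≠ 0) (x : Fin N → ℤ) : md q x ∈ BQ N q := by
  have hqZ : (0 : ℤ) < q := by exact_mod_cast Nat.pos_of_ne_zero hq
  unfold BQ md
  rw [Fintype.mem_piFinset]
  intro k
  rw [Finset.mem_Ico]
  exact ⟨Int.emod_nonneg _ hqZ.ne', Int.emod_lt_of_pos _ hqZ⟩

theorem cg_md (q : ℕ) (x : Fin N → ℤ) : Cg q x (md q x) := by
  refine ⟨fun k => x k / q, ?_⟩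
  funext k
  have := Int.emod_add_mul_ediv (x k) q
  simp only [md, Pi.sub_apply, Pi.smul_apply, smul_eq_mul]
  linarith

theorem eq_md {q : ℕ} {x a : Fin N → ℤ} (ha : a ∈ BQ N q) (h : Cg q x a) : a = md q x := by
  obtain ⟨w, hw⟩ := h
  funext k
  have h1 := congrFun hw k
  rw [Pi.sub_apply, Pi.smul_apply, smul_eq_mul] at h1
  have h2 := (Fintype.mem_piFinset.1 ha) k
  rw [Finset.mem_Ico] at h2
  have h3 : x k = a k + q * w k := by linarith
  unfold md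
  rw [h3, Int.add_mul_emod_self_left, Int.emod_eq_of_lt h2.1 h2.2]

theorem Cg.symm {q : ℕ} {x y : Fin N → ℤ} (h : Cg q x y) : Cg q y x := by
  obtain ⟨w, hw⟩ := h
  exact ⟨-w, by rw [smul_neg, ← hw, neg_sub]⟩

theorem Cg.trans {q : ℕ} {x y z : Fin N → ℤ} (h : Cg q x y) (h' : Cg q y z) : Cg q x z := by
  obtain ⟨w, hw⟩ := h
  obtain ⟨w', hw'⟩ := h'
  exact ⟨w + w', by rw [smul_add, ← hw, ← hw', sub_add_sub_cancel]⟩

theorem Cg.dvd {q p : ℕ} {x y : Fin N → ℤ} (h : Cg q x y) (hp : p ∣ q) : Cg p x y := by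
  obtain ⟨w, hw⟩ := h
  obtain ⟨c, rfl⟩ := hp
  exact ⟨(c : ℤ) • w, by rw [hw, smul_smul]; push_cast; rfl⟩

/-- No prime up to `P` divides the vector. -/
def AL (P : ℕ) (y : Fin N → ℤ) : Prop := ∀ p : ℕ, p.Prime → p ≤ P → ¬ ∀ k, (p : ℤ) ∣ y k

theorem AL_congr {q P : ℕ} (hP : ∀ p : ℕ, p.Prime → p ≤ P → p ∣ q) {x y : Fin N → ℤ}
    (h : Cg q x y) : AL P x → AL P y := by
  intro h1 p hp hpP h2
  apply h1 p hp hpP
  intro k
  obtain ⟨w, hw⟩ := h.dvd (hP p hp hpP)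
  have h3 := congrFun hw k
  rw [Pi.sub_apply, Pi.smul_apply, smul_eq_mul] at h3
  have h4 : x k = y k + p * w k := by linarith
  rw [h4]
  exact dvd_add (h2 k) (Dvd.intro _ rfl)

theorem AL_prm {P : ℕ} {y : Fin N → ℤ} (h : Prm y) : AL P y :=
  fun _ hp _ => not_dvd_prm h hp

theorem AL_large {P : ℕ} {y : Fin N → ℤ} (hy : y ≠ 0) (h : AL P y) (hn : ¬ Prm y) :
    ∃ (m : ℕ) (z : Fin N → ℤ), P < m ∧ Prm z ∧ y = (m : ℤ) • z := by
  obtain ⟨g, z, hg, hz, hyz⟩ := exists_prim hy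
  refine ⟨g, z, ?_, hz, hyz⟩
  have hg1 : g ≠ 1 := by
    intro h1
    apply hn
    rw [hyz, h1]
    simpa using hz
  have hp := Nat.minFac_prime hg1
  by_contra hcon
  rw [not_lt] at hcon
  apply h g.minFac hp ((Nat.minFac_le (by omega)).trans hcon)
  intro k
  rw [hyz, Pi.smul_apply, smul_eq_mul]
  apply Dvd.dvd.mul_right
  exact_mod_cast Nat.minFac_dvd g

/-- **Pairs with non-primitive second vector.** -/
theorem nonprm (hM : Nice M) : ∃ K : ℝ, 0 < K ∧ ∀ (T Z : ℝ) (P : ℕ)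
    (S : Finset ((Fin N → ℤ) × (Fin N → ℤ))), 4 ≤ T → 0 ≤ Z → 1 ≤ P →
    (∀ p ∈ S, Prm p.1 ∧ Inc M p.1 p.2 ∧ (ht p.1 : ℝ) ≤ √T ∧
      (ht p.1 : ℝ) * ht p.2 ≤ Z ∧ ∃ (m : ℕ) (z : Fin N → ℤ), P < m ∧ Prm z ∧
        p.2 = (m : ℤ) • z) →
    (S.card : ℝ) ≤ K * Z ^ (N - 2) * Real.log T / P := by
  classical
  obtain ⟨K, hK, hh⟩ := hyper hM
  have hN4 := hM.four
  refine ⟨K, hK, ?_⟩
  intro T Z P S hT hZ hP hS
  have hlog : 0 < Real.log T := Real.log_pos (by linarith)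
  have hP0 : (0 : ℝ) < P := by exact_mod_cast hP
  have hex : ∀ p : (Fin N → ℤ) × (Fin N → ℤ), ∃ (m : ℕ) (z : Fin N → ℤ), p ∈ S →
      P < m ∧ Prm z ∧ p.2 = (m : ℤ) • z := by
    intro p
    by_cases hp : p ∈ S
    · obtain ⟨_, _, _, _, m, z, h⟩ := hS p hp
      exact ⟨m, z, fun _ => h⟩
    · exact ⟨0, 0, fun h => absurd h hp⟩
  choose m z hmz using hex
  have hmaps : ∀ p ∈ S, m p ∈ Finset.Icc (P + 1) ⌊Z⌋₊ := by
    intro p hp
    obtain ⟨h1, h2, h3, h4, _⟩ := hS p hp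
    obtain ⟨h5, h6, h7⟩ := hmz p hp
    rw [Finset.mem_Icc]
    refine ⟨h5, Nat.le_floor ?_⟩
    rw [h7, ht_smul] at h4
    push_cast at h4
    have h8 : (1 : ℝ) ≤ ht p.1 := by exact_mod_cast ht_pos h1.ne
    have h9 : (1 : ℝ) ≤ ht (z p) := by exact_mod_cast ht_pos h6.ne
    have h10 : (0 : ℝ) ≤ m p := Nat.cast_nonneg _
    have h11 : (m p : ℝ) ≤ m p * ht (z p) := le_mul_of_one_le_right h10 h9
    have h12 : (m p * ht (z p) : ℝ) ≤ ht p.1 * (m p * ht (z p)) :=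
      le_mul_of_one_le_left (by positivity) h8
    linarith
  rw [Finset.card_eq_sum_card_fiberwise hmaps]
  push_cast
  have hone : ∀ k ∈ Finset.Icc (P + 1) ⌊Z⌋₊,
      ((S.filter fun p => m p = k).card : ℝ) ≤ K * Z ^ (N - 2) * Real.log T * (1 / (k : ℝ)) ^ 2 := by
    intro k hk
    rw [Finset.mem_Icc] at hk
    have hk0 : (0 : ℝ) < k := by exact_mod_cast (by omega : 0 < k)
    have hk1 : (1 : ℝ) ≤ k := by exact_mod_cast (by omega : 1 ≤ k)
    have h1 : (S.filter fun p => m p = k).card =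
        ((S.filter fun p => m p = k).image fun p => (p.1, z p)).card := by
      symm
      apply Finset.card_image_of_injOn
      intro p hp p' hp' h
      rw [Finset.mem_coe, Finset.mem_filter] at hp hp'
      simp only [Prod.mk.injEq] at h
      apply Prod.ext h.1
      rw [(hmz p hp.1).2.2, (hmz p' hp'.1).2.2, hp.2, hp'.2, h.2]
    have h2 := hh T (Z / k) ((S.filter fun p => m p = k).image fun p => (p.1, z p)) hT
      (by positivity) (by
      intro p hp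
      obtain ⟨p', hp', rfl⟩ := Finset.mem_image.1 hp
      rw [Finset.mem_filter] at hp'
      obtain ⟨h3, h4, h5, h6, _⟩ := hS p' hp'.1
      obtain ⟨h7, h8, h9⟩ := hmz p' hp'.1
      refine ⟨h3, h8, ?_, h5, ?_⟩
      · rw [← mem_Lx_inc, ← smul_mem_Lx (g := (m p' : ℤ)) (by exact_mod_cast (by omega : m p' ≠ 0)),
          ← h9]
        exact mem_Lx_inc.2 h4
      · rw [h9, ht_smul, hp'.2] at h6
        push_cast at h6
        rw [le_div_iff₀ hk0]
        linarith)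
    rw [h1]
    refine h2.trans ?_
    have h3 : (Z / (k : ℝ)) ^ (N - 2) ≤ Z ^ (N - 2) * (1 / (k : ℝ)) ^ 2 := by
      rw [div_eq_mul_one_div Z, mul_pow]
      apply mul_le_mul_of_nonneg_left _ (by positivity)
      apply pow_le_pow_of_le_one (by positivity) _ (by omega)
      rw [div_le_one hk0]
      exact hk1
    calc K * (Z / (k : ℝ)) ^ (N - 2) * Real.log T
        ≤ K * (Z ^ (N - 2) * (1 / (k : ℝ)) ^ 2) * Real.log T := by gcongr
      _ = _ := by ring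
  calc ∑ k ∈ Finset.Icc (P + 1) ⌊Z⌋₊, ((S.filter fun p => m p = k).card : ℝ)
      ≤ ∑ k ∈ Finset.Icc (P + 1) ⌊Z⌋₊, K * Z ^ (N - 2) * Real.log T * (1 / (k : ℝ)) ^ 2 :=
        Finset.sum_le_sum hone
    _ = K * Z ^ (N - 2) * Real.log T * ∑ k ∈ Finset.Icc (P + 1) ⌊Z⌋₊, (1 / (k : ℝ)) ^ 2 := by
        rw [Finset.mul_sum]
    _ ≤ K * Z ^ (N - 2) * Real.log T * (1 / P) := by
        gcongr
        exact sum_tail_sq P _ hP
    _ = _ := by ring

end Pool.Agent.N852
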