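import Mathlib
import Pool.Agent.N852.Cls

/-!
Local metrics.
-/

namespace Pool.Agent.N852

open Matrix Module Filter Topology
open Pool.Agent.H548.WM (ht bx le_ht le_ht' ht_le exists_ht mem_bx card_bx ht_pos)
open Pool.Agent.H548.BL (rv cv Inc inc_iff_rv rc norm_rc)

variable {N : ℕ}

/-- A local metric on the line bundle of bidegree `(N - 2, N - 2)` of the variety `X`: a positive
function on the pairs of nonzero vectors over the local field which satisfy the two equations,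
continuous, and homogeneous of degree `N - 2` in both arguments. -/
structure LM {K : Type*} [NormedField K] (M : Fin 2 → Matrix (Fin N) (Fin N) ℤ)
    (h : (Fin N → K) → (Fin N → K) → ℝ) : Prop where
  pos : ∀ x y, x ≠ 0 → y ≠ 0 → Inc M x y → 0 < h x y
  cont : ContinuousOn (fun p : (Fin N → K) × (Fin N → K) => h p.1 p.2)
    {p | p.1 ≠ 0 ∧ p.2 ≠ 0 ∧ Inc M p.1 p.2}
  homog : ∀ (s t : K) x y, s ≠ 0 → t ≠ 0 → x ≠ 0 → y ≠ 0 → Inc M x y →
    h (s • x) (t • y) = ‖s‖ ^ (N - 2) * ‖t‖ ^ (N - 2) * h x y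

/-- The pairs of unit vectors. -/
def UU {K : Type*} [NormedField K] (M : Fin 2 → Matrix (Fin N) (Fin N) ℤ) :
    Set ((Fin N → K) × (Fin N → K)) :=
  {p | ‖p.1‖ = 1 ∧ ‖p.2‖ = 1 ∧ Inc M p.1 p.2}

theorem rv_cont' {K : Type*} [NormedField K] (M : Fin 2 → Matrix (Fin N) (Fin N) ℤ) (k : Fin 2)
    (i : Fin N) : Continuous fun x : Fin N → K => rv M x k i := by
  unfold rv
  change Continuous fun x : Fin N → K => ∑ l, x l * _
  exact continuous_finsetSum _ fun l _ => (continuous_apply l).mul continuous_const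

theorem inc_closed {K : Type*} [NormedField K] (M : Fin 2 → Matrix (Fin N) (Fin N) ℤ) :
    IsClosed {p : (Fin N → K) × (Fin N → K) | Inc M p.1 p.2} := by
  have h1 : {p : (Fin N → K) × (Fin N → K) | Inc M p.1 p.2} =
      ⋂ k : Fin 2, {p : (Fin N → K) × (Fin N → K) | rv M p.1 k ⬝ᵥ p.2 = 0} := by
    ext p
    rw [Set.mem_iInter, Set.mem_ofPred_eq, inc_iff_rv]
    rfl
  rw [h1]
  refine isClosed_iInter fun k => ?_
  refine isClosed_eq ?_ continuous_const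
  change Continuous fun p : (Fin N → K) × (Fin N → K) => ∑ l, rv M p.1 k l * p.2 l
  exact continuous_finsetSum _ fun l _ => ((rv_cont' M k l).comp continuous_fst).mul
    ((continuous_apply l).comp continuous_snd)

theorem UU_compact {K : Type*} [NormedField K] [ProperSpace K]
    (M : Fin 2 → Matrix (Fin N) (Fin N) ℤ) : IsCompact (UU (K := K) M) := by
  apply Metric.isCompact_of_isClosed_isBounded
  · unfold UU
    refine (isClosed_eq continuous_fst.norm continuous_const).inter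
      ((isClosed_eq continuous_snd.norm continuous_const).inter (inc_closed M))
  · apply (Metric.isBounded_closedBall (x := (0 : (Fin N → K) × (Fin N → K))) (r := 1)).subset
    rintro ⟨x, y⟩ ⟨hx, hy, _⟩
    rw [Metric.mem_closedBall, dist_zero_right, Prod.norm_def]
    exact max_le hx.le hy.le

theorem UU_sub {K : Type*} [NormedField K] (M : Fin 2 → Matrix (Fin N) (Fin N) ℤ) :
    UU (K := K) M ⊆ {p | p.1 ≠ 0 ∧ p.2 ≠ 0 ∧ Inc M p.1 p.2} := by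
  rintro ⟨x, y⟩ ⟨hx, hy, h⟩
  refine ⟨?_, ?_, h⟩
  · rintro rfl
    simp at hx
  · rintro rfl
    simp at hy

/-- Bounds on unit vectors. -/
theorem LM.bounds {K : Type*} [NormedField K] [ProperSpace K]
    {M : Fin 2 → Matrix (Fin N) (Fin N) ℤ} {h : (Fin N → K) → (Fin N → K) → ℝ} (hh : LM M h) :
    ∃ m C : ℝ, 0 < m ∧ 0 < C ∧ ∀ p ∈ UU (K := K) M, m ≤ h p.1 p.2 ∧ h p.1 p.2 ≤ C := by
  have h1 := hh.cont.mono (UU_sub M)
  obtain ⟨C, hC⟩ := (UU_compact M).exists_bound_of_continuousOn h1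
  have h2 : ContinuousOn (fun p : (Fin N → K) × (Fin N → K) => (h p.1 p.2)⁻¹) (UU M) :=
    h1.inv₀ fun p hp => (hh.pos _ _ (UU_sub M hp).1 (UU_sub M hp).2.1 (UU_sub M hp).2.2).ne'
  obtain ⟨D, hD⟩ := (UU_compact M).exists_bound_of_continuousOn h2
  refine ⟨(|D| + 1)⁻¹, |C| + 1, by positivity, by positivity, ?_⟩
  intro p hp
  have hpos := hh.pos _ _ (UU_sub M hp).1 (UU_sub M hp).2.1 (UU_sub M hp).2.2
  have h3 := hC p hp
  have h4 := hD p hp
  rw [Real.norm_eq_abs, abs_of_pos hpos] at h3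
  rw [Real.norm_eq_abs, abs_of_pos (inv_pos.2 hpos)] at h4
  constructor
  · rw [inv_le_comm₀ (by positivity) hpos]
    linarith [le_abs_self D]
  · linarith [le_abs_self C]

theorem inc_smul {R : Type*} [CommRing R] {M : Fin 2 → Matrix (Fin N) (Fin N) ℤ} {x y : Fin N → R}
    (h : Inc M x y) (s t : R) : Inc M (s • x) (t • y) := by
  rw [inc_iff_rv] at h ⊢
  intro k
  have h1 : rv M (s • x) k = s • rv M x k := by
    unfold rv
    rw [smul_vecMul]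
  rw [h1, smul_dotProduct, dotProduct_smul, h k, smul_zero, smul_zero]

/-- Bounds for real vectors. -/
theorem LM.real_bounds {M : Fin 2 → Matrix (Fin N) (Fin N) ℤ}
    {h : (Fin N → ℝ) → (Fin N → ℝ) → ℝ} (hh : LM M h) :
    ∃ m C : ℝ, 0 < m ∧ 0 < C ∧ ∀ x y, x ≠ 0 → y ≠ 0 → Inc M x y →
      m * (‖x‖ * ‖y‖) ^ (N - 2) ≤ h x y ∧ h x y ≤ C * (‖x‖ * ‖y‖) ^ (N - 2) := by
  obtain ⟨m, C, hm, hC, hb⟩ := hh.bounds
  refine ⟨m, C, hm, hC, ?_⟩
  intro x y hx hy hxy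
  have hx0 : 0 < ‖x‖ := norm_pos_iff.2 hx
  have hy0 : 0 < ‖y‖ := norm_pos_iff.2 hy
  have hx1 : ‖x‖⁻¹ ≠ 0 := (inv_pos.2 hx0).ne'
  have hy1 : ‖y‖⁻¹ ≠ 0 := (inv_pos.2 hy0).ne'
  have h1 := hh.homog (‖x‖⁻¹) (‖y‖⁻¹) x y hx1 hy1 hx hy hxy
  rw [norm_inv, norm_inv, norm_norm, norm_norm] at h1
  have h2 := hb (‖x‖⁻¹ • x, ‖y‖⁻¹ • y) ⟨by
    simp only
    rw [norm_smul, norm_inv, norm_norm, inv_mul_cancel₀ hx0.ne'], by
    simp only
    rw [norm_smul, norm_inv, norm_norm, inv_mul_cancel₀ hy0.ne'], inc_smul hxy _ _⟩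
  simp only at h2
  rw [h1] at h2
  have h3 : ‖x‖⁻¹ ^ (N - 2) * ‖y‖⁻¹ ^ (N - 2) * h x y = h x y / (‖x‖ * ‖y‖) ^ (N - 2) := by
    rw [mul_pow, inv_pow, inv_pow]
    field_simp
  rw [h3, le_div_iff₀ (by positivity), div_le_iff₀ (by positivity)] at h2
  exact h2

/-- The normalised function on the fibres. -/
noncomputable def Fh (h : (Fin N → ℝ) → (Fin N → ℝ) → ℝ) (x w : Fin N → ℝ) : ℝ :=
  open Classical in if w = 0 then 0 else h x w / ‖x‖ ^ (N - 2)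

theorem Fh_bounds {M : Fin 2 → Matrix (Fin N) (Fin N) ℤ}
    {h : (Fin N → ℝ) → (Fin N → ℝ) → ℝ} (hh : LM M h) (hN : 2 < N) :
    ∃ m C : ℝ, 0 < m ∧ 0 < C ∧ ∀ x w, x ≠ 0 → Inc M x w →
      m * ‖w‖ ^ (N - 2) ≤ Fh h x w ∧ Fh h x w ≤ C * ‖w‖ ^ (N - 2) := by
  obtain ⟨m, C, hm, hC, hb⟩ := hh.real_bounds
  refine ⟨m, C, hm, hC, ?_⟩
  intro x w hx hxw
  have hx0 : 0 < ‖x‖ := norm_pos_iff.2 hx
  unfold Fh
  by_cases hw : w = 0
  · rw [if_pos hw, hw, norm_zero, zero_pow (by omega), mul_zero, mul_zero]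
    exact ⟨le_rfl, le_rfl⟩
  · rw [if_neg hw, le_div_iff₀ (by positivity), div_le_iff₀ (by positivity)]
    have h1 := hb x w hx hw hxw
    rw [mul_pow] at h1
    constructor
    · calc m * ‖w‖ ^ (N - 2) * ‖x‖ ^ (N - 2) = m * (‖x‖ ^ (N - 2) * ‖w‖ ^ (N - 2)) := by ring
        _ ≤ _ := h1.1
    · calc h x w ≤ C * (‖x‖ ^ (N - 2) * ‖w‖ ^ (N - 2)) := h1.2
        _ = _ := by ring

theorem Fh_cont {M : Fin 2 → Matrix (Fin N) (Fin N) ℤ}
    {h : (Fin N → ℝ) → (Fin N → ℝ) → ℝ} (hh : LM M h) (hN : 2 < N) :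
    ContinuousOn (fun p : (Fin N → ℝ) × (Fin N → ℝ) => Fh h p.1 p.2)
      {p | p.1 ≠ 0 ∧ ∀ k, rv M p.1 k ⬝ᵥ p.2 = 0} := by
  obtain ⟨m, C, hm, hC, hb⟩ := Fh_bounds hh hN
  rintro ⟨x₀, w₀⟩ ⟨hx₀, hi₀⟩
  simp only at hx₀ hi₀
  by_cases hw : w₀ = 0
  · -- at the zero section
    have h0 : Fh h x₀ w₀ = 0 := by
      unfold Fh
      rw [if_pos hw]
    change Tendsto (fun p : (Fin N → ℝ) × (Fin N → ℝ) => Fh h p.1 p.2) _ (𝓝 (Fh h x₀ w₀))
    rw [h0]
    have h1 : Tendsto (fun p : (Fin N → ℝ) × (Fin N → ℝ) => C * ‖p.2‖ ^ (N - 2))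
        (𝓝[{p | p.1 ≠ 0 ∧ ∀ k, rv M p.1 k ⬝ᵥ p.2 = 0}] (x₀, w₀)) (𝓝 0) := by
      have h2 : Continuous fun p : (Fin N → ℝ) × (Fin N → ℝ) => C * ‖p.2‖ ^ (N - 2) :=
        continuous_const.mul (continuous_snd.norm.pow _)
      have h3 := (h2.tendsto (x₀, w₀)).mono_left
        (nhdsWithin_le_nhds (s := {p : (Fin N → ℝ) × (Fin N → ℝ) | p.1 ≠ 0 ∧
          ∀ k, rv M p.1 k ⬝ᵥ p.2 = 0}))
      simp only [hw, norm_zero] at h3
      rw [zero_pow (by omega), mul_zero] at h3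
      rw [hw]
      exact h3
    apply squeeze_zero' _ _ h1
    · filter_upwards [self_mem_nhdsWithin] with p hp
      have h2 := (hb p.1 p.2 hp.1 ((inc_iff_rv).2 hp.2)).1
      exact le_trans (by positivity) h2
    · filter_upwards [self_mem_nhdsWithin] with p hp
      exact (hb p.1 p.2 hp.1 ((inc_iff_rv).2 hp.2)).2
  · have hxn : ‖x₀‖ ^ (N - 2) ≠ 0 := pow_ne_zero _ (norm_ne_zero_iff.2 hx₀)
    have h1 : ContinuousWithinAt (fun p : (Fin N → ℝ) × (Fin N → ℝ) => h p.1 p.2 / ‖p.1‖ ^ (N - 2))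
        {p | p.1 ≠ 0 ∧ p.2 ≠ 0 ∧ Inc M p.1 p.2} (x₀, w₀) := by
      apply ContinuousWithinAt.div (hh.cont (x₀, w₀) ⟨hx₀, hw, (inc_iff_rv).2 hi₀⟩)
      · exact (continuous_fst.norm.pow _).continuousWithinAt
      · exact hxn
    have hopen : {p : (Fin N → ℝ) × (Fin N → ℝ) | p.2 ≠ 0} ∈ 𝓝 (x₀, w₀) :=
      (isOpen_ne_fun continuous_snd continuous_const).mem_nhds hw
    have h2 : ContinuousWithinAt (fun p : (Fin N → ℝ) × (Fin N → ℝ) => h p.1 p.2 / ‖p.1‖ ^ (N - 2))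
        ({p | p.1 ≠ 0 ∧ ∀ k, rv M p.1 k ⬝ᵥ p.2 = 0} ∩ {p | p.2 ≠ 0}) (x₀, w₀) := by
      apply h1.mono
      rintro p ⟨⟨h3, h4⟩, h5⟩
      exact ⟨h3, h5, (inc_iff_rv).2 h4⟩
    rw [continuousWithinAt_inter hopen] at h2
    apply h2.congr_of_eventuallyEq
    · filter_upwards [mem_nhdsWithin_of_mem_nhds hopen] with p hp
      unfold Fh
      exact if_neg hp
    · unfold Fh
      exact if_neg hw

theorem Fh_homog {M : Fin 2 → Matrix (Fin N) (Fin N) ℤ}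
    {h : (Fin N → ℝ) → (Fin N → ℝ) → ℝ} (hh : LM M h) {c : ℝ} (hc : 0 < c) {x w : Fin N → ℝ}
    (hx : x ≠ 0) (hxw : Inc M x w) : Fh h (c • x) w = Fh h x w := by
  have hx0 : 0 < ‖x‖ := norm_pos_iff.2 hx
  unfold Fh
  by_cases hw : w = 0
  · rw [if_pos hw, if_pos hw]
  · rw [if_neg hw, if_neg hw]
    have h1 := hh.homog c 1 x w hc.ne' one_ne_zero hx hw hxw
    rw [one_smul, norm_one, one_pow, mul_one, Real.norm_of_nonneg hc.le] at h1
    rw [h1, norm_smul, Real.norm_of_nonneg hc.le, mul_pow]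
    field_simp

/-- The cutoff. -/
noncomputable def om (ε t : ℝ) : ℝ := max 0 (min 1 ((1 + ε - t) / ε))

theorem om_nonneg (ε t : ℝ) : 0 ≤ om ε t := le_max_left _ _

theorem om_le_one (ε t : ℝ) : om ε t ≤ 1 := max_le (by norm_num) (min_le_left _ _)

theorem om_one {ε t : ℝ} (hε : 0 < ε) (h : t ≤ 1) : om ε t = 1 := by
  unfold om
  have : 1 ≤ (1 + ε - t) / ε := by
    rw [le_div_iff₀ hε]
    linarith
  rw [min_eq_left this, max_eq_right (by norm_num)]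

theorem om_zero {ε t : ℝ} (hε : 0 < ε) (h : 1 + ε ≤ t) : om ε t = 0 := by
  unfold om
  have : (1 + ε - t) / ε ≤ 0 := div_nonpos_of_nonpos_of_nonneg (by linarith) hε.le
  rw [max_eq_left ((min_le_right _ _).trans this)]

theorem om_cont (ε : ℝ) : Continuous (om ε) := by
  unfold om
  exact continuous_const.max (continuous_const.min
    ((continuous_const.sub continuous_id).div_const ε))

/-- The weight function. -/
noncomputable def Th (h : (Fin N → ℝ) → (Fin N → ℝ) → ℝ) (κ ε : ℝ) (x w : Fin N → ℝ) : ℝ :=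
  om ε (κ * Fh h x w)

theorem Th_TH {M : Fin 2 → Matrix (Fin N) (Fin N) ℤ}
    {h : (Fin N → ℝ) → (Fin N → ℝ) → ℝ} (hh : LM M h) (hN : 2 < N) {m : ℝ}
    (hm : ∀ x w, x ≠ 0 → Inc M x w → m * ‖w‖ ^ (N - 2) ≤ Fh h x w) {κ ε R : ℝ} (hκ : 0 < κ)
    (hε : 0 < ε) (hm0 : 0 < m) (hR : 1 ≤ R) (hRκ : 1 + ε ≤ κ * (m * R ^ (N - 2))) :
    TH M (Th h κ ε) R := by
  refine ⟨hR, ?_, fun x y => om_nonneg _ _, fun x y => om_le_one _ _, ?_, ?_⟩
  · exact (om_cont ε).comp_continuousOn (continuousOn_const.mul (Fh_cont hh hN))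
  · intro x y hx hxy hRy
    unfold Th
    apply om_zero hε
    refine hRκ.trans ?_
    apply mul_le_mul_of_nonneg_left _ hκ.le
    refine le_trans ?_ (hm x y hx ((inc_iff_rv).2 hxy))
    gcongr
  · intro c x y hc hx hxy
    unfold Th
    rw [Fh_homog hh hc hx ((inc_iff_rv).2 hxy)]

end Pool.Agent.N852
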