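import Mathlib
import Pool.Agent.N852.Loc

/-!
The asymptotic formula for the points with small first factor.
-/

namespace Pool.Agent.N852

open Matrix Module Filter Topology
open Pool.Agent.H548.WM (ht bx le_ht le_ht' ht_le exists_ht mem_bx card_bx ht_pos)
open Pool.Agent.H548.BL (rv cv Inc inc_iff_rv rc norm_rc)

variable {N : ℕ}

/-- A function of pairs of primitive vectors which can be approximated by functions of residue
classes. -/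
structure CA (M : Fin 2 → Matrix (Fin N) (Fin N) ℤ) (φ : (Fin N → ℤ) → (Fin N → ℤ) → ℝ) :
    Prop where
  low : ∃ m : ℝ, 0 < m ∧ ∀ x y, Prm x → Prm y → Inc M x y → m ≤ φ x y
  apx : ∀ ε : ℝ, 0 < ε → ∃ q : ℕ, q ≠ 0 ∧ ∀ x y x' y', Prm x → Prm y → Inc M x y →
    Prm x' → Prm y' → Inc M x' y' → Cg q x x' → Cg q y y' → φ x y ≤ (1 + ε) * φ x' y'

variable {M : Fin 2 → Matrix (Fin N) (Fin N) ℤ} {Θ : (Fin N → ℝ) → (Fin N → ℝ) → ℝ}
  {R : ℝ}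

/-- The pairs counted. -/
def FS (M : Fin 2 → Matrix (Fin N) (Fin N) ℤ) (φ : (Fin N → ℤ) → (Fin N → ℤ) → ℝ)
    (h : (Fin N → ℝ) → (Fin N → ℝ) → ℝ) (T : ℝ) : Set ((Fin N → ℤ) × (Fin N → ℤ)) :=
  {p | Prm p.1 ∧ Prm p.2 ∧ Inc M p.1 p.2 ∧ (ht p.1 : ℝ) ≤ √T ∧
    φ p.1 p.2 * h (ic p.1) (ic p.2) ≤ T ^ (N - 2)}

open Classical in
/-- The value on a class. -/
noncomputable def kap (M : Fin 2 → Matrix (Fin N) (Fin N) ℤ)
    (φ : (Fin N → ℤ) → (Fin N → ℤ) → ℝ) (q : ℕ) (m ε : ℝ) (a b : Fin N → ℤ) : ℝ :=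
  if h : ∃ p : (Fin N → ℤ) × (Fin N → ℤ), Prm p.1 ∧ Prm p.2 ∧ Inc M p.1 p.2 ∧ Cg q p.1 a ∧
    Cg q p.2 b then φ h.choose.1 h.choose.2 / (1 + ε) else m

theorem kap_low {φ : (Fin N → ℤ) → (Fin N → ℤ) → ℝ} {q : ℕ} {m ε : ℝ} {a b : Fin N → ℤ}
    (hε : 0 < ε) (hε1 : ε ≤ 1) (hm0 : 0 < m)
    (hm : ∀ x y, Prm x → Prm y → Inc M x y → m ≤ φ x y) : m / 2 ≤ kap M φ q m ε a b := by
  unfold kap
  split_ifs with h
  · have h1 := h.choose_spec
    have h2 := hm _ _ h1.1 h1.2.1 h1.2.2.1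
    rw [div_le_div_iff₀ (by norm_num) (by linarith)]
    nlinarith
  · linarith

theorem kap_spec {φ : (Fin N → ℤ) → (Fin N → ℤ) → ℝ} {q : ℕ} {m ε : ℝ}
    (hε : 0 < ε)
    (hq : ∀ x y x' y', Prm x → Prm y → Inc M x y →
      Prm x' → Prm y' → Inc M x' y' → Cg q x x' → Cg q y y' → φ x y ≤ (1 + ε) * φ x' y')
    {x y a b : Fin N → ℤ} (hx : Prm x) (hy : Prm y) (hxy : Inc M x y) (ha : Cg q x a)
    (hb : Cg q y b) :
    kap M φ q m ε a b ≤ φ x y ∧ φ x y ≤ (1 + ε) ^ 2 * kap M φ q m ε a b := by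
  have hex : ∃ p : (Fin N → ℤ) × (Fin N → ℤ), Prm p.1 ∧ Prm p.2 ∧ Inc M p.1 p.2 ∧ Cg q p.1 a ∧
    Cg q p.2 b := ⟨(x, y), hx, hy, hxy, ha, hb⟩
  have h1 := hex.choose_spec
  unfold kap
  rw [dif_pos hex]
  obtain ⟨h2, h3, h4, h5, h6⟩ := h1
  have h7 := hq _ _ _ _ h2 h3 h4 hx hy hxy (h5.trans ha.symm) (h6.trans hb.symm)
  have h8 := hq _ _ _ _ hx hy hxy h2 h3 h4 (ha.trans h5.symm) (hb.trans h6.symm)
  constructor
  · rw [div_le_iff₀ (by linarith)]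
    linarith
  · have : (1 + ε) ^ 2 * (φ hex.choose.1 hex.choose.2 / (1 + ε)) =
        (1 + ε) * φ hex.choose.1 hex.choose.2 := by
      field_simp
    rw [this]
    exact h8

open Classical in
theorem SX_eq (hΘ : TH M Θ R) {x : Fin N → ℤ} (hx : x ≠ 0) (q : ℕ) (b : Fin N → ℤ) {τ : ℝ}
    (hτ : 0 < τ) : SX M Θ q b x τ = ∑ y ∈ LB M x ⌈R * τ⌉₊,
      if Cg q y b then Θ (ic x) (τ⁻¹ • ic y) else 0 := by
  have hxR : ic x ≠ 0 := by
    intro h0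
    have h1 := norm_ic x
    rw [h0, norm_zero] at h1
    have h2 := ht_pos hx
    have h3 : (ht x : ℝ) ≠ 0 := by exact_mod_cast (by omega : ht x ≠ 0)
    exact h3 h1.symm
  have h1 : SX M Θ q b x τ = ∑ y ∈ LB M x ⌈R * τ⌉₊,
      if y ∈ Lx M x ∧ Cg q y b then Θ (ic x) (τ⁻¹ • ic y) else 0 := by
    apply tsum_eq_sum
    intro y hy
    by_cases h : y ∈ Lx M x ∧ Cg q y b
    · rw [if_pos h]
      apply hΘ.supp _ _ hxR
      · intro k
        rw [dotProduct_smul, mem_Lx_real h.1 k, smul_zero]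
      · rw [norm_smul, norm_inv, Real.norm_of_nonneg hτ.le, lt_inv_mul_iff₀ hτ, norm_ic]
        by_contra hcon
        rw [not_lt] at hcon
        apply hy
        rw [mem_LB]
        refine ⟨?_, h.1⟩
        have h2 : (ht y : ℝ) ≤ (⌈R * τ⌉₊ : ℝ) := by
          refine le_trans ?_ (Nat.le_ceil _)
          linarith
        exact_mod_cast h2
    · rw [if_neg h]
  rw [h1]
  refine Finset.sum_congr rfl fun y hy => ?_
  have h2 := (mem_LB.1 hy).2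
  by_cases h3 : Cg q y b
  · rw [if_pos ⟨h2, h3⟩, if_pos h3]
  · rw [if_neg h3, if_neg fun h => h3 h.2]

open Classical in
/-- The finite set of all pairs. -/
noncomputable def PP (M : Fin 2 → Matrix (Fin N) (Fin N) ℤ) (R T : ℝ) :
    Finset ((Fin N → ℤ) × (Fin N → ℤ)) :=
  (XP N ⌊√T⌋₊).biUnion fun x => (LB M x ⌈R * (T / ht x)⌉₊).image (Prod.mk x)

theorem mem_PP {R T : ℝ} {p : (Fin N → ℤ) × (Fin N → ℤ)} :
    p ∈ PP M R T ↔ p.1 ∈ XP N ⌊√T⌋₊ ∧ p.2 ∈ LB M p.1 ⌈R * (T / ht p.1)⌉₊ := by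
  classical
  unfold PP
  rw [Finset.mem_biUnion]
  constructor
  · rintro ⟨x, hx, hp⟩
    obtain ⟨y, hy, rfl⟩ := Finset.mem_image.1 hp
    exact ⟨hx, hy⟩
  · rintro ⟨h1, h2⟩
    exact ⟨p.1, h1, Finset.mem_image.2 ⟨p.2, h2, rfl⟩⟩

open Classical in
theorem Sq_eq (hΘ : TH M Θ R) (q : ℕ) (a b : Fin N → ℤ) {T : ℝ} (hT : 0 < T) :
    Sq M Θ q a b T = ∑ p ∈ PP M R T, if Cg q p.1 a ∧ Cg q p.2 b then
      Θ (ic p.1) ((T / ht p.1)⁻¹ • ic p.2) else 0 := by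
  rw [Finset.sum_finset_product (PP M R T) (XP N ⌊√T⌋₊) (fun x => LB M x ⌈R * (T / ht x)⌉₊)
    (fun p => mem_PP)]
  unfold Sq
  refine Finset.sum_congr rfl fun x hx => ?_
  have hx2 := (mem_XP.1 hx).2
  have hh : (0 : ℝ) < ht x := by exact_mod_cast ht_pos hx2.ne
  by_cases hc : Cg q x a
  · rw [if_pos hc, SX_eq hΘ hx2.ne q b (by positivity)]
    refine Finset.sum_congr rfl fun y _ => ?_
    by_cases h1 : Cg q y b
    · rw [if_pos h1, if_pos ⟨hc, h1⟩]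
    · rw [if_neg h1, if_neg fun h => h1 h.2]
  · rw [if_neg hc]
    symm
    apply Finset.sum_eq_zero
    intro y _
    rw [if_neg fun h => hc h.1]

open Classical in
/-- The total weighted count. -/
noncomputable def TS (M : Fin 2 → Matrix (Fin N) (Fin N) ℤ)
    (Θ : (Fin N → ℤ) → (Fin N → ℤ) → (Fin N → ℝ) → (Fin N → ℝ) → ℝ) (q P : ℕ) (T : ℝ) : ℝ :=
  ∑ a ∈ BQ N q, ∑ b ∈ (BQ N q).filter (AL P), Sq M (Θ a b) q a b T

open Classical in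
theorem TS_eq {Θ : (Fin N → ℤ) → (Fin N → ℤ) → (Fin N → ℝ) → (Fin N → ℝ) → ℝ}
    (hΘ : ∀ a b, TH M (Θ a b) R) {q P : ℕ} (hq : q ≠ 0)
    (hP : ∀ p : ℕ, p.Prime → p ≤ P → p ∣ q) {T : ℝ} (hT : 0 < T) :
    TS M Θ q P T = ∑ p ∈ PP M R T, if AL P p.2 then
      Θ (md q p.1) (md q p.2) (ic p.1) ((T / ht p.1)⁻¹ • ic p.2) else 0 := by
  unfold TS
  have h1 : ∀ a ∈ BQ N q, ∀ b ∈ (BQ N q).filter (AL P), Sq M (Θ a b) q a b T =
      ∑ p ∈ PP M R T, if Cg q p.1 a ∧ Cg q p.2 b then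
      Θ a b (ic p.1) ((T / ht p.1)⁻¹ • ic p.2) else 0 := by
    intro a _ b _
    exact Sq_eq (hΘ a b) q a b hT
  rw [Finset.sum_congr rfl fun a ha => Finset.sum_congr rfl (h1 a ha)]
  have h2 : ∑ a ∈ BQ N q, ∑ b ∈ (BQ N q).filter (AL P), ∑ p ∈ PP M R T,
      (if Cg q p.1 a ∧ Cg q p.2 b then Θ a b (ic p.1) ((T / ht p.1)⁻¹ • ic p.2) else 0) =
      ∑ p ∈ PP M R T, ∑ a ∈ BQ N q, ∑ b ∈ (BQ N q).filter (AL P),
      (if Cg q p.1 a ∧ Cg q p.2 b then Θ a b (ic p.1) ((T / ht p.1)⁻¹ • ic p.2) else 0) := by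
    rw [Finset.sum_congr rfl fun a _ => Finset.sum_comm]
    exact Finset.sum_comm
  rw [h2]
  refine Finset.sum_congr rfl fun p _ => ?_
  have hmd1 := md_mem hq p.1
  have hmd2 := md_mem hq p.2
  rw [Finset.sum_eq_single (md q p.1)]
  · by_cases hA : AL P p.2
    · rw [if_pos hA, Finset.sum_eq_single (md q p.2)]
      · rw [if_pos ⟨cg_md q p.1, cg_md q p.2⟩]
      · intro b hb hne
        rw [if_neg]
        rintro ⟨_, h3⟩
        exact hne (eq_md (Finset.mem_filter.1 hb).1 h3)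
      · intro h3
        exact absurd (Finset.mem_filter.2 ⟨hmd2, AL_congr hP (cg_md q p.2) hA⟩) h3
    · rw [if_neg hA]
      apply Finset.sum_eq_zero
      intro b hb
      rw [Finset.mem_filter] at hb
      rw [if_neg]
      rintro ⟨_, h3⟩
      exact hA (AL_congr hP h3.symm hb.2)
  · intro a ha hne
    apply Finset.sum_eq_zero
    intro b _
    rw [if_neg]
    rintro ⟨h3, _⟩
    exact hne (eq_md ha h3)
  · intro h3
    exact absurd hmd1 h3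

end Pool.Agent.N852
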