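import Mathlib
import Pool.Agent.N852.RegI

/-!
The asymptotic formula for the points with small first factor, continued.
-/

namespace Pool.Agent.N852

open Matrix Module Filter Topology
open Pool.Agent.H548.WM (ht bx le_ht le_ht' ht_le exists_ht mem_bx card_bx ht_pos)
open Pool.Agent.H548.BL (rv cv Inc inc_iff_rv rc norm_rc)

variable {N : ℕ} {M : Fin 2 → Matrix (Fin N) (Fin N) ℤ}

theorem ic_ne {x : Fin N → ℤ} (hx : x ≠ 0) : ic x ≠ 0 := by
  intro h0
  have h1 := norm_ic x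
  rw [h0, norm_zero] at h1
  have h2 := ht_pos hx
  have h3 : (ht x : ℝ) ≠ 0 := by exact_mod_cast (by omega : ht x ≠ 0)
  exact h3 h1.symm

theorem inc_ic {x y : Fin N → ℤ} (h : Inc M x y) : Inc M (ic x) (ic y) :=
  inc_iff_rv.2 (mem_Lx_real (mem_Lx_inc.2 h))

theorem Fh_scale {h : (Fin N → ℝ) → (Fin N → ℝ) → ℝ} (hh : LM M h) {x y : Fin N → ℤ}
    (hx : x ≠ 0) (hy : y ≠ 0) (hxy : Inc M x y) {T : ℝ} (hT : 0 < T) :
    Fh h (ic x) ((T / ht x)⁻¹ • ic y) = h (ic x) (ic y) / T ^ (N - 2) := by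
  have hhx : (0 : ℝ) < ht x := by exact_mod_cast ht_pos hx
  have hτ : 0 < (T / ht x)⁻¹ := by positivity
  unfold Fh
  rw [if_neg (smul_ne_zero hτ.ne' (ic_ne hy))]
  have h1 := hh.homog 1 ((T / ht x)⁻¹) (ic x) (ic y) one_ne_zero hτ.ne' (ic_ne hx) (ic_ne hy)
    (inc_ic hxy)
  rw [one_smul, norm_one, one_pow, one_mul, Real.norm_of_nonneg hτ.le] at h1
  rw [h1, norm_ic, inv_div, div_pow]
  field_simp

theorem RegI_card_le {m₁ mF R : ℝ} {φ : (Fin N → ℤ) → (Fin N → ℤ) → ℝ}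
    {h : (Fin N → ℝ) → (Fin N → ℝ) → ℝ} (hh : LM M h) (hm1 : 0 < m₁) (hmF : 0 < mF)
    (hm : ∀ x y, Prm x → Prm y → Inc M x y → m₁ ≤ φ x y)
    (hF : ∀ x w, x ≠ 0 → Inc M x w → mF * ‖w‖ ^ (N - 2) ≤ Fh h x w)
    (hR : 1 ≤ R) (hRm : 1 < m₁ * (mF * R ^ (N - 2))) {T : ℝ} (hT : 0 < T)
    {p : (Fin N → ℤ) × (Fin N → ℤ)} (hp1 : Prm p.1) (hp2 : Prm p.2) (hinc : Inc M p.1 p.2)
    (hp : φ p.1 p.2 * h (ic p.1) (ic p.2) ≤ T ^ (N - 2)) :
    (ht p.1 : ℝ) * ht p.2 ≤ R * T := by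
  by_contra hcon
  rw [not_le] at hcon
  have hhx : (0 : ℝ) < ht p.1 := by exact_mod_cast ht_pos hp1.ne
  have h1 := hF (ic p.1) ((T / ht p.1)⁻¹ • ic p.2) (ic_ne hp1.ne)
    (by
      have := inc_smul (inc_ic hinc) (1 : ℝ) ((T / ht p.1)⁻¹)
      rwa [one_smul] at this)
  rw [Fh_scale hh hp1.ne hp2.ne hinc hT, norm_smul, norm_ic, Real.norm_of_nonneg (by positivity)]
    at h1
  have h2 : R ≤ (T / (ht p.1 : ℝ))⁻¹ * (ht p.2 : ℝ) := by
    rw [inv_div, div_mul_eq_mul_div, le_div_iff₀ hT]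
    exact hcon.le
  have h3 : mF * R ^ (N - 2) ≤ h (ic p.1) (ic p.2) / T ^ (N - 2) := by
    refine le_trans ?_ h1
    gcongr
  have h4 : m₁ * (mF * R ^ (N - 2)) ≤ φ p.1 p.2 * (h (ic p.1) (ic p.2) / T ^ (N - 2)) := by
    have := hm p.1 p.2 hp1 hp2 hinc
    have h5 : 0 < mF * R ^ (N - 2) := by positivity
    calc m₁ * (mF * R ^ (N - 2)) ≤ φ p.1 p.2 * (mF * R ^ (N - 2)) := by gcongr
      _ ≤ _ := by
        apply mul_le_mul_of_nonneg_left h3
        linarith
  have h5 : φ p.1 p.2 * (h (ic p.1) (ic p.2) / T ^ (N - 2)) ≤ 1 := by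
    rw [← mul_div_assoc, div_le_one (by positivity)]
    exact hp
  linarith

/-- **Region I.** -/
theorem regI (hM : Nice M) {φ : (Fin N → ℤ) → (Fin N → ℤ) → ℝ} (hφ : CA M φ)
    {h : (Fin N → ℝ) → (Fin N → ℝ) → ℝ} (hh : LM M h) :
    ∃ c : ℝ, Tendsto (fun T : ℝ => ((FS M φ h T).ncard : ℝ) / (T ^ (N - 2) * Real.log T)) atTop
      (𝓝 c) := by
  classical
  have hN4 := hM.four
  obtain ⟨m₁, hm1, hm⟩ := hφ.low
  obtain ⟨mF, CF, hmF, hCF, hF⟩ := Fh_bounds hh (by omega)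
  obtain ⟨K, hK, hnp⟩ := nonprm hM
  obtain ⟨R, hR⟩ : ∃ R : ℝ, R = max 1 (4 / (m₁ * mF)) := ⟨_, rfl⟩
  have hR1 : 1 ≤ R := by rw [hR]; exact le_max_left _ _
  have hR0 : 0 < R := by linarith
  have hR4 : 4 ≤ m₁ * (mF * R ^ (N - 2)) := by
    have h1 : 4 / (m₁ * mF) ≤ R := by rw [hR]; exact le_max_right _ _
    have h2 : R ≤ R ^ (N - 2) := le_self_pow₀ hR1 (by omega)
    rw [div_le_iff₀ (by positivity)] at h1
    calc (4 : ℝ) ≤ R * (m₁ * mF) := h1
      _ ≤ R ^ (N - 2) * (m₁ * mF) := by gcongr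
      _ = _ := by ring
  have hFS : ∀ T : ℝ, 0 < T → ∀ p ∈ FS M φ h T, p ∈ PP M R T := by
    intro T hT p hp
    obtain ⟨h1, h2, h3, h4, h5⟩ := hp
    have hhx : (0 : ℝ) < ht p.1 := by exact_mod_cast ht_pos h1.ne
    rw [mem_PP, mem_XP, mem_LB]
    refine ⟨⟨Nat.le_floor h4, h1⟩, ?_, mem_Lx_inc.2 h3⟩
    have h6 := RegI_card_le hh hm1 hmF hm (fun x w hx hxw => (hF x w hx hxw).1) hR1
      (by linarith) hT h1 h2 h3 h5
    have h7 : (ht p.2 : ℝ) ≤ (⌈R * (T / ht p.1)⌉₊ : ℝ) := by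
      refine le_trans ?_ (Nat.le_ceil _)
      rw [← mul_div_assoc, le_div_iff₀ hhx]
      linarith
    exact_mod_cast h7
  have hfin : ∀ T : ℝ, 0 < T → (FS M φ h T).Finite := fun T hT =>
    (PP M R T).finite_toSet.subset (hFS T hT)
  apply conv_crit (N - 2) (fun T => ((FS M φ h T).ncard : ℝ)) (fun T => Nat.cast_nonneg _)
  intro ε hε
  obtain ⟨ε₁, hε₁⟩ : ∃ ε₁ : ℝ, ε₁ = min 1 (ε / 3) := ⟨_, rfl⟩
  have he0 : 0 < ε₁ := by rw [hε₁]; positivity
  have he1 : ε₁ ≤ 1 := by rw [hε₁]; exact min_le_left _ _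
  have he2 : 3 * ε₁ ≤ ε := by
    have : ε₁ ≤ ε / 3 := by rw [hε₁]; exact min_le_right _ _
    linarith
  obtain ⟨q₀, hq0, hapx⟩ := hφ.apx ε₁ he0
  obtain ⟨P, hPdef⟩ : ∃ P : ℕ, P = ⌈K * R ^ (N - 2) / ε⌉₊ + 2 := ⟨_, rfl⟩
  have hP2 : 2 ≤ P := by omega
  have hP0 : (0 : ℝ) < P := by exact_mod_cast (by omega : 0 < P)
  have hPε : K * R ^ (N - 2) / P ≤ ε := by
    rw [div_le_iff₀ hP0]
    have h1 := Nat.le_ceil (K * R ^ (N - 2) / ε)
    have h2 : (⌈K * R ^ (N - 2) / ε⌉₊ : ℝ) ≤ P := by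
      have : ⌈K * R ^ (N - 2) / ε⌉₊ ≤ P := by omega
      exact_mod_cast this
    have h3 := h1.trans h2
    rw [div_le_iff₀ hε] at h3
    linarith
  obtain ⟨q, hqdef⟩ : ∃ q : ℕ, q = q₀ * P.factorial := ⟨_, rfl⟩
  have hq : q ≠ 0 := by rw [hqdef]; exact mul_ne_zero hq0 (Nat.factorial_ne_zero P)
  have hPq : ∀ p : ℕ, p.Prime → p ≤ P → p ∣ q := by
    intro p hp hpP
    rw [hqdef]
    exact Dvd.dvd.mul_left (hp.dvd_factorial.2 hpP) q₀
  have hqq : ∀ x y x' y', Prm x → Prm y → Inc M x y →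
      Prm x' → Prm y' → Inc M x' y' → Cg q x x' → Cg q y y' → φ x y ≤ (1 + ε₁) * φ x' y' := by
    intro x y x' y' h1 h2 h3 h4 h5 h6 h7 h8
    exact hapx x y x' y' h1 h2 h3 h4 h5 h6 (h7.dvd (by rw [hqdef]; exact Dvd.intro _ rfl))
      (h8.dvd (by rw [hqdef]; exact Dvd.intro _ rfl))
  set Θ : (Fin N → ℤ) → (Fin N → ℤ) → (Fin N → ℝ) → (Fin N → ℝ) → ℝ :=
    fun a b => Th h (kap M φ q m₁ ε₁ a b) ε₁ with hΘdef
  have hκ : ∀ a b, m₁ / 2 ≤ kap M φ q m₁ ε₁ a b := fun a b => kap_low he0 he1 hm1 hm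
  have hκ0 : ∀ a b, 0 < kap M φ q m₁ ε₁ a b := fun a b => by
    have := hκ a b
    linarith
  have hΘ : ∀ a b, TH M (Θ a b) R := by
    intro a b
    apply Th_TH hh (by omega) (fun x w hx hxw => (hF x w hx hxw).1) (hκ0 a b) he0 hmF hR1
    have h1 : m₁ / 2 * (mF * R ^ (N - 2)) ≤ kap M φ q m₁ ε₁ a b * (mF * R ^ (N - 2)) := by
      have := hκ a b
      gcongr
    linarith
  have hlim := fun a b => Sq_asymp hM (hΘ a b) hq a b
  choose c hc using hlim
  refine ⟨(1 + ε₁) ^ 2, TS M Θ q P, ∑ a ∈ BQ N q, ∑ b ∈ (BQ N q).filter (AL P), c a b, ?_, ?_,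
    ?_, ?_⟩
  · nlinarith
  · nlinarith
  · have h1 : (fun T : ℝ => TS M Θ q P T / (T ^ (N - 2) * Real.log T)) =
        fun T : ℝ => ∑ a ∈ BQ N q, ∑ b ∈ (BQ N q).filter (AL P),
          Sq M (Θ a b) q a b T / (T ^ (N - 2) * Real.log T) := by
      funext T
      unfold TS
      simp only [Finset.sum_div]
    rw [h1]
    exact tendsto_finsetSum _ fun a _ => tendsto_finsetSum _ fun b _ => hc a b
  · filter_upwards [eventually_ge_atTop 4] with T hT
    have hT0 : 0 < T := by linarith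
    have hlog : 0 < Real.log T := Real.log_pos (by linarith)
    rw [TS_eq hΘ hq hPq hT0]
    constructor
    · -- the lower inequality
      have h1 : FS M φ h T = ((PP M R T).filter fun p => p ∈ FS M φ h T : Finset _) := by
        ext p
        rw [Finset.mem_coe, Finset.mem_filter]
        exact ⟨fun h => ⟨hFS T hT0 p h, h⟩, fun h => h.2⟩
      have h2 : ((FS M φ h T).ncard : ℝ) = ∑ p ∈ PP M R T, if p ∈ FS M φ h T then 1 else 0 := by
        rw [Finset.sum_boole, ← Set.ncard_coe_finset, ← h1]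
      rw [h2]
      refine Finset.sum_le_sum fun p hp => ?_
      by_cases hpF : p ∈ FS M φ h T
      · rw [if_pos hpF]
        obtain ⟨h3, h4, h5, h6, h7⟩ := hpF
        rw [if_pos (AL_prm h4)]
        simp only [hΘdef, Th]
        rw [om_one he0]
        rw [Fh_scale hh h3.ne h4.ne h5 hT0]
        have h8 := (kap_spec he0 hqq h3 h4 h5 (cg_md q p.1) (cg_md q p.2) (m := m₁)).1
        have h9 : 0 < h (ic p.1) (ic p.2) := hh.pos _ _ (ic_ne h3.ne) (ic_ne h4.ne) (inc_ic h5)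
        rw [← mul_div_assoc, div_le_one (by positivity)]
        refine le_trans ?_ h7
        gcongr
      · rw [if_neg hpF]
        split_ifs
        · exact om_nonneg _ _
        · exact le_rfl
    · -- the upper inequality
      set l : ℝ := (1 + ε₁) ^ 2 with hl
      have hl1 : 1 ≤ l := by nlinarith
      have hlT : T ≤ l * T := by nlinarith
      set NP : (Fin N → ℤ) × (Fin N → ℤ) → Prop := fun p => Prm p.1 ∧ Inc M p.1 p.2 ∧
        (ht p.1 : ℝ) ≤ √T ∧ (ht p.1 : ℝ) * ht p.2 ≤ R * T ∧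
        ∃ (m : ℕ) (z : Fin N → ℤ), P < m ∧ Prm z ∧ p.2 = (m : ℤ) • z with hNP
      have hpt : ∀ p ∈ PP M R T, (if AL P p.2 then
          Θ (md q p.1) (md q p.2) (ic p.1) ((T / ht p.1)⁻¹ • ic p.2) else 0) ≤
          (if p ∈ FS M φ h (l * T) then 1 else 0) + (if NP p then (1 : ℝ) else 0) := by
        intro p hp
        rw [mem_PP, mem_XP, mem_LB] at hp
        obtain ⟨⟨h1, h2⟩, h3, h4⟩ := hp
        have hhx : (0 : ℝ) < ht p.1 := by exact_mod_cast ht_pos h2.ne
        have hnn1 : (0 : ℝ) ≤ if p ∈ FS M φ h (l * T) then 1 else 0 := by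
          split_ifs <;> norm_num
        have hnn2 : (0 : ℝ) ≤ if NP p then (1 : ℝ) else 0 := by
          split_ifs <;> norm_num
        have h1' : (ht p.1 : ℝ) ≤ √T := by
          calc (ht p.1 : ℝ) ≤ (⌊√T⌋₊ : ℝ) := by exact_mod_cast h1
            _ ≤ √T := Nat.floor_le (Real.sqrt_nonneg _)
        by_cases hA : AL P p.2
        swap
        · rw [if_neg hA]
          linarith
        rw [if_pos hA]
        by_cases h0 : Θ (md q p.1) (md q p.2) (ic p.1) ((T / ht p.1)⁻¹ • ic p.2) = 0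
        · rw [h0]
          linarith
        have hle1 : Θ (md q p.1) (md q p.2) (ic p.1) ((T / ht p.1)⁻¹ • ic p.2) ≤ 1 :=
          (hΘ _ _).le_one _ _
        have hτ : 0 < T / (ht p.1 : ℝ) := by positivity
        have hbd : (ht p.1 : ℝ) * ht p.2 ≤ R * T := by
          by_contra hcon
          rw [not_le] at hcon
          apply h0
          apply (hΘ _ _).supp _ _ (ic_ne h2.ne)
          · intro k
            rw [dotProduct_smul, mem_Lx_real h4 k, smul_zero]
          · rw [norm_smul, norm_inv, Real.norm_of_nonneg hτ.le, lt_inv_mul_iff₀ hτ, norm_ic,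
              div_mul_eq_mul_div, div_lt_iff₀ hhx]
            linarith
        have hp20 : p.2 ≠ 0 := by
          intro h5
          apply hA 2 Nat.prime_two hP2
          intro k
          rw [h5]
          exact dvd_zero _
        by_cases hprm : Prm p.2
        · have hpF : p ∈ FS M φ h (l * T) := by
            refine ⟨h2, hprm, mem_Lx_inc.1 h4, h1'.trans (Real.sqrt_le_sqrt hlT), ?_⟩
            have h5 : kap M φ q m₁ ε₁ (md q p.1) (md q p.2) *
                Fh h (ic p.1) ((T / ht p.1)⁻¹ • ic p.2) < 1 + ε₁ := by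
              by_contra hcon
              rw [not_lt] at hcon
              exact h0 (om_zero he0 hcon)
            rw [Fh_scale hh h2.ne hprm.ne (mem_Lx_inc.1 h4) hT0] at h5
            have h8 := (kap_spec he0 hqq h2 hprm (mem_Lx_inc.1 h4) (cg_md q p.1) (cg_md q p.2)
              (m := m₁)).2
            have h9 : 0 < h (ic p.1) (ic p.2) :=
              hh.pos _ _ (ic_ne h2.ne) (ic_ne hprm.ne) (inc_ic (mem_Lx_inc.1 h4))
            rw [← mul_div_assoc, div_lt_iff₀ (by positivity)] at h5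
            have h10 : l * (1 + ε₁) ≤ l ^ (N - 2) := by
              calc l * (1 + ε₁) ≤ l * l := by
                    apply mul_le_mul_of_nonneg_left _ (by linarith)
                    rw [hl]
                    nlinarith
                _ = l ^ 2 := by ring
                _ ≤ l ^ (N - 2) := pow_le_pow_right₀ hl1 (by omega)
            calc φ p.1 p.2 * h (ic p.1) (ic p.2)
                ≤ l * kap M φ q m₁ ε₁ (md q p.1) (md q p.2) * h (ic p.1) (ic p.2) := by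
                  gcongr
              _ = l * (kap M φ q m₁ ε₁ (md q p.1) (md q p.2) * h (ic p.1) (ic p.2)) := by ring
              _ ≤ l * ((1 + ε₁) * T ^ (N - 2)) := by gcongr
              _ = l * (1 + ε₁) * T ^ (N - 2) := by ring
              _ ≤ l ^ (N - 2) * T ^ (N - 2) := by gcongr
              _ = (l * T) ^ (N - 2) := by rw [mul_pow]
          rw [if_pos hpF]
          linarith
        · have hNPp : NP p := ⟨h2, mem_Lx_inc.1 h4, h1', hbd, AL_large hp20 hA hprm⟩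
          rw [if_pos hNPp]
          linarith
      refine (Finset.sum_le_sum hpt).trans ?_
      rw [Finset.sum_add_distrib, Finset.sum_boole, Finset.sum_boole]
      have h1 : (((PP M R T).filter fun p => p ∈ FS M φ h (l * T)).card : ℝ) ≤
          ((FS M φ h (l * T)).ncard : ℝ) := by
        rw [← Set.ncard_coe_finset]
        exact_mod_cast Set.ncard_le_ncard (fun p hp => (Finset.mem_filter.1 (Finset.mem_coe.1 hp)).2)
          (hfin _ (by positivity))
      have h2 := hnp T (R * T) P ((PP M R T).filter NP) hT (by positivity) (by omega)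
        (fun p hp => (Finset.mem_filter.1 hp).2)
      have h3 : K * (R * T) ^ (N - 2) * Real.log T / P ≤ ε * (T ^ (N - 2) * Real.log T) := by
        calc K * (R * T) ^ (N - 2) * Real.log T / P =
              K * R ^ (N - 2) / P * (T ^ (N - 2) * Real.log T) := by
              rw [mul_pow]
              ring
          _ ≤ _ := by gcongr
      linarith

end Pool.Agent.N852
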