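import Mathlib
import Pool.Agent.N852.RegI2

/-!
The asymptotic formula for all pairs.
-/

namespace Pool.Agent.N852

open Matrix Module Filter Topology
open Pool.Agent.H548.WM (ht bx le_ht le_ht' ht_le exists_ht mem_bx card_bx ht_pos)
open Pool.Agent.H548.BL (rv cv Inc inc_iff_rv rc norm_rc tr inc_tr)

variable {N : ℕ} {M : Fin 2 → Matrix (Fin N) (Fin N) ℤ}

theorem CA.swap {φ : (Fin N → ℤ) → (Fin N → ℤ) → ℝ} (h : CA M φ) :
    CA (tr M) fun y x => φ x y := by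
  obtain ⟨⟨m, hm, h1⟩, h2⟩ := h
  refine ⟨⟨m, hm, fun y x hy hx hyx => h1 x y hx hy (inc_tr.1 hyx)⟩, fun ε hε => ?_⟩
  obtain ⟨q, hq, h3⟩ := h2 ε hε
  refine ⟨q, hq, ?_⟩
  intro y x y' x' hy hx hyx hy' hx' hyx' hyy hxx
  exact h3 x y x' y' hx hy (inc_tr.1 hyx) hx' hy' (inc_tr.1 hyx') hxx hyy

theorem LM.swap {K : Type*} [NormedField K] {h : (Fin N → K) → (Fin N → K) → ℝ} (hh : LM M h) :
    LM (tr M) fun y x => h x y := by
  refine ⟨fun y x hy hx hyx => hh.pos x y hx hy (inc_tr.1 hyx), ?_, ?_⟩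
  · have h1 : ContinuousOn (fun p : (Fin N → K) × (Fin N → K) => (p.2, p.1))
        {p | p.1 ≠ 0 ∧ p.2 ≠ 0 ∧ Inc (tr M) p.1 p.2} := continuous_swap.continuousOn
    exact hh.cont.comp h1 fun p hp => ⟨hp.2.1, hp.1, inc_tr.1 hp.2.2⟩
  · intro s t y x hs ht hy hx hyx
    rw [hh.homog t s x y ht hs hx hy (inc_tr.1 hyx)]
    ring

/-- All pairs. -/
def AS (M : Fin 2 → Matrix (Fin N) (Fin N) ℤ) (φ : (Fin N → ℤ) → (Fin N → ℤ) → ℝ)
    (h : (Fin N → ℝ) → (Fin N → ℝ) → ℝ) (T : ℝ) : Set ((Fin N → ℤ) × (Fin N → ℤ)) :=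
  {p | Prm p.1 ∧ Prm p.2 ∧ Inc M p.1 p.2 ∧ φ p.1 p.2 * h (ic p.1) (ic p.2) ≤ T ^ (N - 2)}

/-- The product of the heights is bounded. -/
theorem exists_R (hN : 2 < N) {φ : (Fin N → ℤ) → (Fin N → ℤ) → ℝ} (hφ : CA M φ)
    {h : (Fin N → ℝ) → (Fin N → ℝ) → ℝ} (hh : LM M h) : ∃ R : ℝ, 1 ≤ R ∧ ∀ T : ℝ, 0 < T →
    ∀ p ∈ AS M φ h T, (ht p.1 : ℝ) * ht p.2 ≤ R * T := by
  obtain ⟨m₁, hm1, hm⟩ := hφ.low
  obtain ⟨mF, CF, hmF, hCF, hF⟩ := Fh_bounds hh (by omega)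
  obtain ⟨R, hR⟩ : ∃ R : ℝ, R = max 1 (4 / (m₁ * mF)) := ⟨_, rfl⟩
  have hR1 : 1 ≤ R := by rw [hR]; exact le_max_left _ _
  have hR4 : 4 ≤ m₁ * (mF * R ^ (N - 2)) := by
    have h1 : 4 / (m₁ * mF) ≤ R := by rw [hR]; exact le_max_right _ _
    have h2 : R ≤ R ^ (N - 2) := le_self_pow₀ hR1 (by omega)
    rw [div_le_iff₀ (by positivity)] at h1
    calc (4 : ℝ) ≤ R * (m₁ * mF) := h1
      _ ≤ R ^ (N - 2) * (m₁ * mF) := by gcongr
      _ = _ := by ring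
  refine ⟨R, hR1, ?_⟩
  intro T hT p hp
  exact RegI_card_le hh hm1 hmF hm (fun x w hx hxw => (hF x w hx hxw).1) hR1
    (by linarith) hT hp.1 hp.2.1 hp.2.2.1 hp.2.2.2

theorem AS_finite (hN : 2 < N) {φ : (Fin N → ℤ) → (Fin N → ℤ) → ℝ} (hφ : CA M φ)
    {h : (Fin N → ℝ) → (Fin N → ℝ) → ℝ} (hh : LM M h) {T : ℝ} (hT : 0 < T) :
    (AS M φ h T).Finite := by
  obtain ⟨R, hR, h1⟩ := exists_R hN hφ hh
  apply ((bx N ⌊R * T⌋₊ ×ˢ bx N ⌊R * T⌋₊).finite_toSet).subset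
  intro p hp
  have h2 := h1 T hT p hp
  have h3 : (1 : ℝ) ≤ ht p.1 := by exact_mod_cast ht_pos hp.1.ne
  have h4 : (1 : ℝ) ≤ ht p.2 := by exact_mod_cast ht_pos hp.2.1.ne
  rw [Finset.mem_coe, Finset.mem_product, mem_bx, mem_bx]
  constructor <;> apply Nat.le_floor <;> nlinarith

open Classical in
theorem ind_id (a b : Prop) : (1 : ℝ) = (if a then 1 else 0) + (if b then 1 else 0) -
    (if a ∧ b then 1 else 0) + (if ¬ a ∧ ¬ b then 1 else 0) := by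
  by_cases ha : a <;> by_cases hb : b <;> simp [ha, hb]

/-- **All pairs.** -/
theorem total (hM : Nice M) {φ : (Fin N → ℤ) → (Fin N → ℤ) → ℝ} (hφ : CA M φ)
    {h : (Fin N → ℝ) → (Fin N → ℝ) → ℝ} (hh : LM M h) :
    ∃ c : ℝ, Tendsto (fun T : ℝ => ((AS M φ h T).ncard : ℝ) / (T ^ (N - 2) * Real.log T)) atTop
      (𝓝 c) := by
  classical
  have hN4 := hM.four
  obtain ⟨c₁, hc1⟩ := regI hM hφ hh
  obtain ⟨c₂, hc2⟩ := regI (nice_tr hM) hφ.swap hh.swap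
  obtain ⟨K, hK, hpairs⟩ := pairs hM
  obtain ⟨R, hR1, hR⟩ := exists_R (by omega) hφ hh
  have hR0 : 0 < R := by linarith
  refine ⟨c₁ + c₂, ?_⟩
  have hsum := hc1.add hc2
  have hsmall : Tendsto (fun T : ℝ => K * (R ^ 2) ^ (N - 2) / Real.log T) atTop (𝓝 0) :=
    Tendsto.div_atTop tendsto_const_nhds Real.tendsto_log_atTop
  rw [Metric.tendsto_atTop] at hsum hsmall ⊢
  intro ε hε
  obtain ⟨T₁, hT₁⟩ := hsum (ε / 2) (by positivity)
  obtain ⟨T₂, hT₂⟩ := hsmall (ε / 2) (by positivity)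
  refine ⟨max (max T₁ T₂) 4, ?_⟩
  intro T hT
  have hT1 := hT₁ T ((le_max_left _ _).trans ((le_max_left _ _).trans hT))
  have hT2 := hT₂ T ((le_max_right _ _).trans ((le_max_left _ _).trans hT))
  have hT4 : 4 ≤ T := (le_max_right _ _).trans hT
  have hT0 : 0 < T := by linarith
  have hlog : 0 < Real.log T := Real.log_pos (by linarith)
  have hg : 0 < T ^ (N - 2) * Real.log T := by positivity
  have hfin := AS_finite (by omega : 2 < N) hφ hh hT0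
  set A := hfin.toFinset with hA
  have hmem : ∀ p, p ∈ A ↔ p ∈ AS M φ h T := fun p => by rw [hA, Set.Finite.mem_toFinset]
  have hAc : (AS M φ h T).ncard = A.card := by
    rw [hA, Set.ncard_eq_toFinset_card _ hfin]
  set P1 : (Fin N → ℤ) × (Fin N → ℤ) → Prop := fun p => (ht p.1 : ℝ) ≤ √T with hP1
  set P2 : (Fin N → ℤ) × (Fin N → ℤ) → Prop := fun p => (ht p.2 : ℝ) ≤ √T with hP2
  -- the first region
  have h1 : (FS M φ h T).ncard = (A.filter P1).card := by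
    rw [← Set.ncard_coe_finset]
    congr 1
    ext p
    rw [Finset.mem_coe, Finset.mem_filter, hmem]
    constructor
    · rintro ⟨h1, h2, h3, h4, h5⟩
      exact ⟨⟨h1, h2, h3, h5⟩, h4⟩
    · rintro ⟨⟨h1, h2, h3, h5⟩, h4⟩
      exact ⟨h1, h2, h3, h4, h5⟩
  have h2 : (FS (tr M) (fun y x => φ x y) (fun y x => h x y) T).ncard = (A.filter P2).card := by
    rw [← Set.ncard_coe_finset]
    have h3 : FS (tr M) (fun y x => φ x y) (fun y x => h x y) T =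
        Prod.swap '' (A.filter P2 : Set ((Fin N → ℤ) × (Fin N → ℤ))) := by
      ext p
      rw [Set.image_swap_eq_preimage_swap, Set.mem_preimage, Finset.mem_coe, Finset.mem_filter,
        hmem]
      constructor
      · rintro ⟨h1, h2, h3, h4, h5⟩
        exact ⟨⟨h2, h1, inc_tr.1 h3, h5⟩, h4⟩
      · rintro ⟨⟨h1, h2, h3, h5⟩, h4⟩
        exact ⟨h2, h1, inc_tr.2 h3, h4, h5⟩
    rw [h3, Set.ncard_image_of_injective _ Prod.swap_injective]
  -- inclusion and exclusion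
  have h3 : (A.card : ℝ) = (A.filter P1).card + (A.filter P2).card -
      (A.filter fun p => P1 p ∧ P2 p).card + (A.filter fun p => ¬ P1 p ∧ ¬ P2 p).card := by
    rw [← Finset.sum_boole, ← Finset.sum_boole, ← Finset.sum_boole, ← Finset.sum_boole,
      ← Finset.sum_add_distrib, ← Finset.sum_sub_distrib, ← Finset.sum_add_distrib,
      Finset.card_eq_sum_ones]
    push_cast
    refine Finset.sum_congr rfl fun p _ => ?_
    exact ind_id (P1 p) (P2 p)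
  have hsq1 : (1 : ℝ) ≤ √T := by
    rw [Real.one_le_sqrt]
    linarith
  have hfl : 1 ≤ ⌊R * √T⌋₊ := by
    apply Nat.le_floor
    rw [Nat.cast_one]
    nlinarith
  have hbox : ∀ S : Finset ((Fin N → ℤ) × (Fin N → ℤ)), (∀ p ∈ S, p ∈ AS M φ h T ∧
      (ht p.1 : ℝ) ≤ R * √T ∧ (ht p.2 : ℝ) ≤ R * √T) →
      (S.card : ℝ) ≤ K * (R ^ 2) ^ (N - 2) * T ^ (N - 2) := by
    intro S hS
    have h4 := card_le_PN M ⌊R * √T⌋₊ ⌊R * √T⌋₊ S (fun p hp =>
      ⟨(hS p hp).1.1, (hS p hp).1.2.1, (hS p hp).1.2.2.1, Nat.le_floor (hS p hp).2.1,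
        Nat.le_floor (hS p hp).2.2⟩)
    have h5 := hpairs ⌊R * √T⌋₊ ⌊R * √T⌋₊ hfl hfl
    calc (S.card : ℝ) ≤ (PN M ⌊R * √T⌋₊ ⌊R * √T⌋₊ : ℝ) := by exact_mod_cast h4
      _ ≤ K * ((⌊R * √T⌋₊ : ℝ) * (⌊R * √T⌋₊ : ℝ)) ^ (N - 2) := h5
      _ ≤ K * ((R * √T) * (R * √T)) ^ (N - 2) := by
        have h6 : (⌊R * √T⌋₊ : ℝ) ≤ R * √T := Nat.floor_le (by positivity)
        gcongr
      _ = K * (R ^ 2) ^ (N - 2) * T ^ (N - 2) := by
        have h6 : (R * √T) * (R * √T) = R ^ 2 * T := by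
          rw [mul_mul_mul_comm, Real.mul_self_sqrt hT0.le]
          ring
        rw [h6, mul_pow]
        ring
  have h4 : ((A.filter fun p => P1 p ∧ P2 p).card : ℝ) ≤ K * (R ^ 2) ^ (N - 2) * T ^ (N - 2) := by
    apply hbox
    intro p hp
    rw [Finset.mem_filter, hmem] at hp
    obtain ⟨h4, h5, h6⟩ := hp
    have h7 : √T ≤ R * √T := le_mul_of_one_le_left (by positivity) hR1
    exact ⟨h4, le_trans h5 h7, le_trans h6 h7⟩
  have h5 : ((A.filter fun p => ¬ P1 p ∧ ¬ P2 p).card : ℝ) ≤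
      K * (R ^ 2) ^ (N - 2) * T ^ (N - 2) := by
    apply hbox
    intro p hp
    rw [Finset.mem_filter, hmem] at hp
    obtain ⟨h4, h5, h6⟩ := hp
    have h7 := hR T hT0 p h4
    have h8 : √T < (ht p.1 : ℝ) := not_le.1 h5
    have h9 : √T < (ht p.2 : ℝ) := not_le.1 h6
    have h10 : R * T = R * √T * √T := by rw [mul_assoc, Real.mul_self_sqrt hT0.le]
    rw [h10] at h7
    have hs0 : 0 < √T := by linarith
    refine ⟨h4, ?_, ?_⟩
    · by_contra hcon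
      rw [not_le] at hcon
      have : R * √T * √T < (ht p.1 : ℝ) * ht p.2 := by
        apply mul_lt_mul'' hcon h9 (by positivity) hs0.le
      linarith
    · by_contra hcon
      rw [not_le] at hcon
      have : R * √T * √T < (ht p.2 : ℝ) * ht p.1 := by
        apply mul_lt_mul'' hcon h8 (by positivity) hs0.le
      linarith
  have h6 : (0 : ℝ) ≤ ((A.filter fun p => P1 p ∧ P2 p).card : ℝ) := Nat.cast_nonneg _
  have h7 : (0 : ℝ) ≤ ((A.filter fun p => ¬ P1 p ∧ ¬ P2 p).card : ℝ) := Nat.cast_nonneg _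
  have h8 : |((AS M φ h T).ncard : ℝ) - (((FS M φ h T).ncard : ℝ) +
      ((FS (tr M) (fun y x => φ x y) (fun y x => h x y) T).ncard : ℝ))| ≤
      K * (R ^ 2) ^ (N - 2) * T ^ (N - 2) := by
    rw [hAc, h1, h2, h3, abs_le]
    constructor <;> linarith
  have h9 : |((AS M φ h T).ncard : ℝ) / (T ^ (N - 2) * Real.log T) -
      (((FS M φ h T).ncard : ℝ) / (T ^ (N - 2) * Real.log T) +
      ((FS (tr M) (fun y x => φ x y) (fun y x => h x y) T).ncard : ℝ) /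
        (T ^ (N - 2) * Real.log T))| ≤ K * (R ^ 2) ^ (N - 2) / Real.log T := by
    rw [← add_div, ← sub_div, abs_div, abs_of_pos hg, div_le_div_iff₀ hg hlog]
    calc _ ≤ K * (R ^ 2) ^ (N - 2) * T ^ (N - 2) * Real.log T := by gcongr
      _ = _ := by ring
  rw [Real.dist_eq] at hT1 hT2 ⊢
  rw [sub_zero, abs_of_nonneg (by positivity)] at hT2
  have h10 : ((AS M φ h T).ncard : ℝ) / (T ^ (N - 2) * Real.log T) - (c₁ + c₂) =
      (((AS M φ h T).ncard : ℝ) / (T ^ (N - 2) * Real.log T) -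
      (((FS M φ h T).ncard : ℝ) / (T ^ (N - 2) * Real.log T) +
      ((FS (tr M) (fun y x => φ x y) (fun y x => h x y) T).ncard : ℝ) /
        (T ^ (N - 2) * Real.log T))) +
      ((((FS M φ h T).ncard : ℝ) / (T ^ (N - 2) * Real.log T) +
      ((FS (tr M) (fun y x => φ x y) (fun y x => h x y) T).ncard : ℝ) /
        (T ^ (N - 2) * Real.log T)) - (c₁ + c₂)) := by ring
  rw [h10]
  refine lt_of_le_of_lt (abs_add_le _ _) ?_
  linarith

end Pool.Agent.N852
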