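import Mathlib
import Pool.Agent.N852.Total

/-!
Local metrics at finite places are approximated by functions of residue classes.
-/

namespace Pool.Agent.N852

open Matrix Module Filter Topology
open Pool.Agent.H548.WM (ht bx le_ht le_ht' ht_le exists_ht mem_bx card_bx ht_pos)
open Pool.Agent.H548.BL (rv cv Inc inc_iff_rv rc norm_rc tr inc_tr)

variable {N : ℕ} {M : Fin 2 → Matrix (Fin N) (Fin N) ℤ}

theorem CA_one (M : Fin 2 → Matrix (Fin N) (Fin N) ℤ) : CA M fun _ _ => 1 := by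
  refine ⟨⟨1, one_pos, fun _ _ _ _ _ => le_rfl⟩, fun ε hε => ⟨1, one_ne_zero, ?_⟩⟩
  intro x y x' y' _ _ _ _ _ _ _ _
  linarith

theorem CA_mul {φ ψ : (Fin N → ℤ) → (Fin N → ℤ) → ℝ} (hφ : CA M φ) (hψ : CA M ψ) :
    CA M fun x y => φ x y * ψ x y := by
  obtain ⟨m₁, hm1, h1⟩ := hφ.low
  obtain ⟨m₂, hm2, h2⟩ := hψ.low
  refine ⟨⟨m₁ * m₂, by positivity, fun x y hx hy hxy => ?_⟩, fun ε hε => ?_⟩
  · have h3 := h1 x y hx hy hxy
    have h4 := h2 x y hx hy hxy
    exact mul_le_mul h3 h4 hm2.le (by linarith)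
  · obtain ⟨ε₁, hε₁⟩ : ∃ ε₁ : ℝ, ε₁ = min 1 (ε / 3) := ⟨_, rfl⟩
    have he0 : 0 < ε₁ := by rw [hε₁]; positivity
    have he1 : ε₁ ≤ 1 := by rw [hε₁]; exact min_le_left _ _
    have he2 : 3 * ε₁ ≤ ε := by
      have : ε₁ ≤ ε / 3 := by rw [hε₁]; exact min_le_right _ _
      linarith
    obtain ⟨q₁, hq1, h3⟩ := hφ.apx ε₁ he0
    obtain ⟨q₂, hq2, h4⟩ := hψ.apx ε₁ he0
    refine ⟨q₁ * q₂, mul_ne_zero hq1 hq2, ?_⟩
    intro x y x' y' hx hy hxy hx' hy' hxy' hxx hyy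
    have h5 := h3 x y x' y' hx hy hxy hx' hy' hxy' (hxx.dvd (Dvd.intro _ rfl))
      (hyy.dvd (Dvd.intro _ rfl))
    have h6 := h4 x y x' y' hx hy hxy hx' hy' hxy' (hxx.dvd (Dvd.intro_left _ rfl))
      (hyy.dvd (Dvd.intro_left _ rfl))
    have h7 := h1 x y hx hy hxy
    have h8 := h2 x y hx hy hxy
    have h9 := h1 x' y' hx' hy' hxy'
    have h10 := h2 x' y' hx' hy' hxy'
    have h11 : 0 < φ x' y' * ψ x' y' := mul_pos (by linarith) (by linarith)
    calc φ x y * ψ x y ≤ ((1 + ε₁) * φ x' y') * ((1 + ε₁) * ψ x' y') :=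
          mul_le_mul h5 h6 (by linarith) (by nlinarith)
      _ = (1 + ε₁) ^ 2 * (φ x' y' * ψ x' y') := by ring
      _ ≤ (1 + ε) * (φ x' y' * ψ x' y') := by
        apply mul_le_mul_of_nonneg_right _ h11.le
        nlinarith

theorem CA_prod {ι : Type*} (S : Finset ι) (φ : ι → (Fin N → ℤ) → (Fin N → ℤ) → ℝ)
    (h : ∀ i ∈ S, CA M (φ i)) : CA M fun x y => ∏ i ∈ S, φ i x y := by
  classical
  induction S using Finset.induction_on with
  | empty => simpa using CA_one M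
  | insert i S hi ih =>
    have h1 := CA_mul (h i (Finset.mem_insert_self i S))
      (ih fun j hj => h j (Finset.mem_insert_of_mem hj))
    have h2 : (fun x y => ∏ j ∈ insert i S, φ j x y) =
        fun x y => φ i x y * ∏ j ∈ S, φ j x y := by
      funext x y
      rw [Finset.prod_insert hi]
    rw [h2]
    exact h1

variable {p : ℕ} [hp : Fact p.Prime]

/-- The `p`-adic vector. -/
noncomputable def pc (p : ℕ) [Fact p.Prime] (x : Fin N → ℤ) : Fin N → ℚ_[p] := fun i => (x i : ℚ_[p])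

theorem pc_norm {x : Fin N → ℤ} (hx : Prm x) : ‖pc p x‖ = 1 := by
  apply le_antisymm
  · rw [pi_norm_le_iff_of_nonneg (by norm_num)]
    intro i
    exact Padic.norm_int_le_one _
  · by_contra hcon
    rw [not_le] at hcon
    apply not_dvd_prm hx hp.out
    intro k
    rw [← Padic.norm_intCast_lt_one_iff (p := p)]
    exact lt_of_le_of_lt (norm_le_pi_norm (pc p x) k) hcon

theorem pc_inc {x y : Fin N → ℤ} (h : Inc M x y) : Inc M (pc p x) (pc p y) := by
  have h1 : ∀ k, rv M (pc p x) k = fun i => ((rv M x k i : ℤ) : ℚ_[p]) := by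
    intro k
    funext i
    unfold rv pc vecMul dotProduct
    push_cast
    refine Finset.sum_congr rfl fun l _ => ?_
    simp
  rw [inc_iff_rv] at h ⊢
  intro k
  rw [h1]
  have h2 := congrArg (Int.cast : ℤ → ℚ_[p]) (h k)
  unfold dotProduct at h2
  push_cast at h2
  exact h2

theorem pc_mem {x y : Fin N → ℤ} (hx : Prm x) (hy : Prm y) (h : Inc M x y) :
    (pc p x, pc p y) ∈ UU (K := ℚ_[p]) M := ⟨pc_norm hx, pc_norm hy, pc_inc h⟩

theorem pc_sub {k : ℕ} {x x' : Fin N → ℤ} (h : Cg (p ^ k) x x') :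
    ‖pc p x - pc p x'‖ ≤ (p : ℝ) ^ (-k : ℤ) := by
  have hp0 : (0 : ℝ) < p := by exact_mod_cast hp.out.pos
  rw [pi_norm_le_iff_of_nonneg (by positivity)]
  intro i
  obtain ⟨w, hw⟩ := h
  have h1 := congrFun hw i
  rw [Pi.sub_apply, Pi.smul_apply, smul_eq_mul] at h1
  have h2 : (pc p x - pc p x') i = ((x i - x' i : ℤ) : ℚ_[p]) := by
    rw [Pi.sub_apply]
    unfold pc
    push_cast
    rfl
  rw [h2, Padic.norm_int_le_pow_iff_dvd, h1]
  push_cast
  exact Dvd.intro _ rfl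

/-- **Local metrics at finite places.** -/
theorem CA_padic {h : (Fin N → ℚ_[p]) → (Fin N → ℚ_[p]) → ℝ} (hh : LM M h) :
    CA M fun x y => h (pc p x) (pc p y) := by
  obtain ⟨m, C, hm, hC, hb⟩ := hh.bounds
  refine ⟨⟨m, hm, fun x y hx hy hxy => (hb _ (pc_mem hx hy hxy)).1⟩, fun ε hε => ?_⟩
  have h1 := hh.cont.mono (UU_sub M)
  have hposU : ∀ q ∈ UU (K := ℚ_[p]) M, 0 < h q.1 q.2 := fun q hq =>
    lt_of_lt_of_le hm (hb q hq).1
  have h2 : ContinuousOn (fun q : (Fin N → ℚ_[p]) × (Fin N → ℚ_[p]) => Real.log (h q.1 q.2))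
      (UU M) := h1.log fun q hq => (hposU q hq).ne'
  have h3 := (UU_compact (K := ℚ_[p]) M).uniformContinuousOn_of_continuous h2
  rw [Metric.uniformContinuousOn_iff] at h3
  obtain ⟨δ, hδ, h4⟩ := h3 (Real.log (1 + ε)) (Real.log_pos (by linarith))
  have hp1 : (1 : ℝ) < p := by exact_mod_cast hp.out.one_lt
  obtain ⟨k, hk⟩ := exists_pow_lt_of_lt_one hδ (inv_lt_one_of_one_lt₀ hp1)
  have hk' : (p : ℝ) ^ (-k : ℤ) < δ := by
    rw [_root_.zpow_neg, zpow_natCast, ← inv_pow]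
    exact hk
  refine ⟨p ^ k, pow_ne_zero _ hp.out.ne_zero, ?_⟩
  intro x y x' y' hx hy hxy hx' hy' hxy' hxx hyy
  have hU := pc_mem (p := p) hx hy hxy
  have hU' := pc_mem (p := p) hx' hy' hxy'
  have h5 := h4 _ hU _ hU' (by
    rw [Prod.dist_eq, dist_eq_norm, dist_eq_norm]
    exact max_lt (lt_of_le_of_lt (pc_sub hxx) hk') (lt_of_le_of_lt (pc_sub hyy) hk'))
  rw [Real.dist_eq] at h5
  have h6 := (abs_lt.1 h5).2
  simp only at h6
  have h7 := hposU _ hU
  have h8 := hposU _ hU'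
  simp only at h7 h8
  have h9 : Real.log (h (pc p x) (pc p y)) < Real.log ((1 + ε) * h (pc p x') (pc p y')) := by
    rw [Real.log_mul (by linarith) h8.ne']
    linarith
  exact ((Real.log_lt_log_iff h7 (by positivity)).1 h9).le

end Pool.Agent.N852
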