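import Mathlib
import Pool.Agent.N852.Padic

/-!
Normalised representatives and signs.
-/

namespace Pool.Agent.N852

open Matrix Module Filter Topology
open Pool.Agent.H548.WM (ht bx le_ht le_ht' ht_le exists_ht mem_bx card_bx ht_pos Rep)
open Pool.Agent.H548.BL (rv cv Inc inc_iff_rv rc norm_rc tr inc_tr)

variable {N : ℕ} {M : Fin 2 → Matrix (Fin N) (Fin N) ℤ}

theorem prm_iff {v : Fin N → ℤ} : Prm v ↔ Finset.univ.gcd v = 1 := by
  constructor
  · rintro ⟨w, hw⟩
    have h1 : Finset.univ.gcd v ∣ v ⬝ᵥ w :=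
      Finset.dvd_sum fun k _ => Dvd.dvd.mul_right (Finset.gcd_dvd (Finset.mem_univ k)) _
    rw [hw] at h1
    have h2 : IsUnit (Finset.univ.gcd v) := isUnit_of_dvd_one h1
    rw [← Finset.normalize_gcd]
    exact normalize_eq_one.2 h2
  · intro h
    have hne : ∃ k, v k ≠ 0 := by
      by_contra hc
      push Not at hc
      have h1 : Finset.univ.gcd v = 0 := Finset.gcd_eq_zero_iff.2 fun k _ => hc k
      rw [h1] at h
      exact zero_ne_one h
    obtain ⟨g, u, hg, hu, hd⟩ := Pool.Agent.H548.WM.exists_gcd v hne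
    have h1 : (g : ℤ) ∣ 1 := by
      rw [← h]
      exact Finset.dvd_gcd fun k _ => hd k
    have h2 : g = 1 := by
      have : (g : ℤ) ∣ ((1 : ℕ) : ℤ) := by exact_mod_cast h1
      exact Nat.dvd_one.1 (Int.natCast_dvd_natCast.1 this)
    refine ⟨u, ?_⟩
    rw [h2] at hu
    rw [← hu.trans (by norm_num : ((1 : ℕ) : ℤ) = 1)]
    unfold dotProduct
    exact Finset.sum_congr rfl fun k _ => mul_comm _ _

theorem prm_neg {v : Fin N → ℤ} : Prm (-v) ↔ Prm v := by
  constructor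
  · rintro ⟨w, hw⟩
    exact ⟨-w, by rw [dotProduct_neg, ← neg_dotProduct]; exact hw⟩
  · rintro ⟨w, hw⟩
    exact ⟨-w, by rw [neg_dotProduct, dotProduct_neg, neg_neg]; exact hw⟩

theorem Rep.prm {v : Fin N → ℤ} (h : Rep v) : Prm v := prm_iff.2 h.1

/-- Exactly one of the two signs is normalised. -/
theorem rep_or {v : Fin N → ℤ} (h : Prm v) : (Rep v ∧ ¬ Rep (-v)) ∨ (¬ Rep v ∧ Rep (-v)) := by
  classical
  have hne : ∃ k, v k ≠ 0 := by
    by_contra hc
    push Not at hc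
    exact h.ne (funext hc)
  obtain ⟨i, hi, hmin⟩ : ∃ i, v i ≠ 0 ∧ ∀ j < i, v j = 0 := by
    have hS : (Finset.univ.filter fun k => v k ≠ 0).Nonempty := by
      obtain ⟨k, hk⟩ := hne
      exact ⟨k, Finset.mem_filter.2 ⟨Finset.mem_univ k, hk⟩⟩
    refine ⟨(Finset.univ.filter fun k => v k ≠ 0).min' hS, ?_, ?_⟩
    · exact (Finset.mem_filter.1 (Finset.min'_mem _ hS)).2
    · intro j hj
      by_contra hc
      exact absurd (Finset.min'_le _ j (Finset.mem_filter.2 ⟨Finset.mem_univ j, hc⟩))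
        (not_le.2 hj)
  have huniq : ∀ (w : Fin N → ℤ), (w = v ∨ w = -v) → ∀ k, 0 < w k → (∀ j < k, w j = 0) → k = i := by
    intro w hw k hk hk'
    have h1 : ∀ j, w j = 0 ↔ v j = 0 := by
      intro j
      rcases hw with rfl | rfl
      · exact Iff.rfl
      · rw [Pi.neg_apply, neg_eq_zero]
    rcases lt_trichotomy k i with h2 | h2 | h2
    · exact absurd ((h1 k).2 (hmin k h2)) hk.ne'
    · exact h2
    · exact absurd ((h1 i).1 (hk' i h2)) hi
  rcases lt_or_gt_of_ne hi with h1 | h1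
  · right
    refine ⟨?_, prm_iff.1 (prm_neg.2 h), i, ?_, fun j hj => ?_⟩
    · rintro ⟨_, k, hk, hk'⟩
      have := huniq v (Or.inl rfl) k hk hk'
      rw [this] at hk
      linarith
    · rw [Pi.neg_apply]
      linarith
    · rw [Pi.neg_apply, hmin j hj, neg_zero]
  · left
    refine ⟨⟨prm_iff.1 h, i, h1, hmin⟩, ?_⟩
    rintro ⟨_, k, hk, hk'⟩
    have := huniq (-v) (Or.inr rfl) k hk hk'
    rw [this, Pi.neg_apply] at hk
    linarith

/-- **Four signs.** -/
theorem four_signs {A : Set ((Fin N → ℤ) × (Fin N → ℤ))} (hA : A.Finite)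
    (hprm : ∀ p ∈ A, Prm p.1 ∧ Prm p.2) (h1 : ∀ p, p ∈ A ↔ (-p.1, p.2) ∈ A)
    (h2 : ∀ p, p ∈ A ↔ (p.1, -p.2) ∈ A) :
    A.ncard = 4 * {p | p ∈ A ∧ Rep p.1 ∧ Rep p.2}.ncard := by
  classical
  set F := hA.toFinset with hF
  have hmem : ∀ p, p ∈ F ↔ p ∈ A := fun p => by rw [hF, Set.Finite.mem_toFinset]
  have hAc : A.ncard = F.card := Set.ncard_eq_toFinset_card _ hA
  have hR : {p | p ∈ A ∧ Rep p.1 ∧ Rep p.2}.ncard =
      (F.filter fun p => Rep p.1 ∧ Rep p.2).card := by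
    rw [← Set.ncard_coe_finset]
    congr 1
    ext p
    rw [Finset.mem_coe, Finset.mem_filter, hmem]
    rfl
  have e1 : (F.filter fun p => Rep (-p.1) ∧ Rep p.2).card =
      (F.filter fun p => Rep p.1 ∧ Rep p.2).card := by
    apply Finset.card_bij (fun p _ => (-p.1, p.2))
    · intro p hp
      rw [Finset.mem_filter, hmem] at hp ⊢
      exact ⟨(h1 p).1 hp.1, hp.2⟩
    · intro p _ p' _ h
      simp only [Prod.mk.injEq, neg_inj] at h
      exact Prod.ext h.1 h.2
    · intro p hp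
      rw [Finset.mem_filter, hmem] at hp
      refine ⟨(-p.1, p.2), ?_, by simp⟩
      rw [Finset.mem_filter, hmem]
      exact ⟨(h1 p).1 hp.1, by simpa using hp.2⟩
  have e2 : (F.filter fun p => Rep p.1 ∧ Rep (-p.2)).card =
      (F.filter fun p => Rep p.1 ∧ Rep p.2).card := by
    apply Finset.card_bij (fun p _ => (p.1, -p.2))
    · intro p hp
      rw [Finset.mem_filter, hmem] at hp ⊢
      exact ⟨(h2 p).1 hp.1, hp.2⟩
    · intro p _ p' _ h
      simp only [Prod.mk.injEq, neg_inj] at h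
      exact Prod.ext h.1 h.2
    · intro p hp
      rw [Finset.mem_filter, hmem] at hp
      refine ⟨(p.1, -p.2), ?_, by simp⟩
      rw [Finset.mem_filter, hmem]
      exact ⟨(h2 p).1 hp.1, by simpa using hp.2⟩
  have e3 : (F.filter fun p => Rep (-p.1) ∧ Rep (-p.2)).card =
      (F.filter fun p => Rep (-p.1) ∧ Rep p.2).card := by
    apply Finset.card_bij (fun p _ => (p.1, -p.2))
    · intro p hp
      rw [Finset.mem_filter, hmem] at hp ⊢
      exact ⟨(h2 p).1 hp.1, hp.2⟩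
    · intro p _ p' _ h
      simp only [Prod.mk.injEq, neg_inj] at h
      exact Prod.ext h.1 h.2
    · intro p hp
      rw [Finset.mem_filter, hmem] at hp
      refine ⟨(p.1, -p.2), ?_, by simp⟩
      rw [Finset.mem_filter, hmem]
      exact ⟨(h2 p).1 hp.1, by simpa using hp.2⟩
  have e4 : F.card = (F.filter fun p => Rep p.1 ∧ Rep p.2).card +
      (F.filter fun p => Rep (-p.1) ∧ Rep p.2).card +
      (F.filter fun p => Rep p.1 ∧ Rep (-p.2)).card +
      (F.filter fun p => Rep (-p.1) ∧ Rep (-p.2)).card := by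
    rw [Finset.card_filter, Finset.card_filter, Finset.card_filter, Finset.card_filter,
      ← Finset.sum_add_distrib, ← Finset.sum_add_distrib, ← Finset.sum_add_distrib,
      Finset.card_eq_sum_ones]
    refine Finset.sum_congr rfl fun p hp => ?_
    obtain ⟨h3, h4⟩ := hprm p ((hmem p).1 hp)
    rcases rep_or h3 with ⟨a1, a2⟩ | ⟨a1, a2⟩ <;> rcases rep_or h4 with ⟨b1, b2⟩ | ⟨b1, b2⟩ <;>
      simp [a1, a2, b1, b2]
  rw [hAc, hR, e4, e3, e1, e2]
  ring

end Pool.Agent.N852
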