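import Mathlib
import Pool.Agent.N852.RepN

/-!
The irreducibility hypothesis.
-/

namespace Pool.Agent.N852

open Matrix Module Filter Topology Polynomial

variable {N : ℕ} {M : Fin 2 → Matrix (Fin N) (Fin N) ℤ}

/-- The discriminant form. -/
noncomputable def DF (M : Fin 2 → Matrix (Fin N) (Fin N) ℤ) : ℚ[X] :=
  ((X : ℚ[X]) • (M 0).map (fun a => (C (a : ℚ) : ℚ[X])) + (M 1).map fun a => (C (a : ℚ) : ℚ[X])).det

theorem nice_of_irr (hN : 4 ≤ N) (hdet : (M 0).det ≠ 0) (hirr : Irreducible (DF M)) : Nice M := by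
  refine ⟨hN, hdet, ?_⟩
  set A₀ : Matrix (Fin N) (Fin N) ℚ := (M 0).map (Int.castRingHom ℚ) with hA0
  set A₁ : Matrix (Fin N) (Fin N) ℚ := (M 1).map (Int.castRingHom ℚ) with hA1
  set d : ℚ := ((M 0).det : ℚ) with hd
  have hd0 : d ≠ 0 := by
    rw [hd]
    exact_mod_cast hdet
  have hdA : A₀.det = d := by
    rw [hA0, ← RingHom.mapMatrix_apply, ← RingHom.map_det]
    rfl
  have h1 : (PM M).charpoly.map (Int.castRingHom ℚ) = (A₀.adjugate * A₁).charpoly := by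
    rw [← Matrix.charpoly_map]
    congr 1
    unfold PM
    rw [Matrix.map_mul, hA0, hA1, ← RingHom.mapMatrix_apply, ← RingHom.mapMatrix_apply,
      RingHom.map_adjugate]
    rfl
  rw [h1]
  -- the relation
  have h2 : C d * (A₀.adjugate * A₁).charpoly = ((X : ℚ[X]) • A₀.map (C : ℚ →+* ℚ[X]) - (C d : ℚ[X]) • A₁.map (C : ℚ →+* ℚ[X])).det := by
    unfold Matrix.charpoly charmatrix
    have h3 : C d = (A₀.map (C : ℚ →+* ℚ[X])).det := by
      rw [← RingHom.mapMatrix_apply, ← RingHom.map_det, hdA]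
    rw [h3, ← det_mul]
    congr 1
    rw [mul_sub, ← h3, Matrix.scalar_apply]
    congr 1
    · rw [← smul_one_eq_diagonal, Matrix.mul_smul, Matrix.mul_one]
    · rw [RingHom.mapMatrix_apply, ← Matrix.map_mul, ← Matrix.mul_assoc, mul_adjugate, hdA,
        smul_mul_assoc, one_mul]
      ext i j
      simp
  have hdinv : Invertible (-d) := invertibleOfNonzero (neg_ne_zero.2 hd0)
  set σ : ℚ[X] ≃ₐ[ℚ] ℚ[X] := algEquivCMulXAddC (-d) 0 with hσ
  have hσX : σ X = C (-d) * X := by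
    rw [hσ]
    simp
  have hσC : ∀ a : ℚ, σ (C a) = C a := fun a => σ.commutes a
  have h3 : σ (((X : ℚ[X]) • A₀.map (C : ℚ →+* ℚ[X]) - (C d : ℚ[X]) • A₁.map (C : ℚ →+* ℚ[X])).det) = C ((-d) ^ N) * DF M := by
    have h4 : σ (((X : ℚ[X]) • A₀.map (C : ℚ →+* ℚ[X]) - (C d : ℚ[X]) • A₁.map (C : ℚ →+* ℚ[X])).det) =
        (((X : ℚ[X]) • A₀.map (C : ℚ →+* ℚ[X]) - (C d : ℚ[X]) • A₁.map (C : ℚ →+* ℚ[X])).map σ).det :=
      AlgEquiv.map_det σ _
    rw [h4]
    have h5 : ((X : ℚ[X]) • A₀.map (C : ℚ →+* ℚ[X]) - (C d : ℚ[X]) • A₁.map (C : ℚ →+* ℚ[X])).map σ = C (-d) •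
        ((X : ℚ[X]) • (M 0).map (fun a => (C (a : ℚ) : ℚ[X])) +
          (M 1).map fun a => (C (a : ℚ) : ℚ[X])) := by
      ext1 i j
      simp only [Matrix.map_apply, Matrix.sub_apply, Matrix.smul_apply, Matrix.add_apply,
        smul_eq_mul, map_sub, map_mul, hσX, hσC, hA0, hA1]
      simp only [eq_intCast, map_neg]
      ring
    rw [h5, det_smul, Fintype.card_fin, map_pow]
    rfl
  have h4 : σ (C d * (A₀.adjugate * A₁).charpoly) = C ((-d) ^ N) * DF M := by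
    rw [h2, h3]
  rw [map_mul, hσC] at h4
  have hu1 : IsUnit (C d : ℚ[X]) := isUnit_C.2 (isUnit_iff_ne_zero.2 hd0)
  have hu2 : IsUnit (C ((-d) ^ N) : ℚ[X]) :=
    isUnit_C.2 (isUnit_iff_ne_zero.2 (pow_ne_zero _ (neg_ne_zero.2 hd0)))
  have h5 : Irreducible (C ((-d) ^ N) * DF M) := (irreducible_isUnit_mul hu2).2 hirr
  rw [← h4, irreducible_isUnit_mul hu1] at h5
  exact (MulEquiv.irreducible_iff σ).1 h5

end Pool.Agent.N852
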