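import Mathlib
import Pool.Agent.N852.IrrN

/-!
Smoothness.
-/

namespace Pool.Agent.N852

open Matrix Module Filter Topology Polynomial
open Pool.Agent.H548.BL (rv cv Inc inc_iff_rv rc norm_rc tr inc_tr Smooth)

variable {N : ℕ} {M : Fin 2 → Matrix (Fin N) (Fin N) ℤ}

/-- A double zero of the determinant. -/
theorem double_zero {K : Type*} [Field K] (A B : Matrix (Fin N) (Fin N) K) (x y : Fin N → K)
    (hx : x ≠ 0) (hy : y ≠ 0) (h1 : A *ᵥ y = 0) (h2 : x ᵥ* A = 0) (h3 : x ⬝ᵥ B *ᵥ y = 0) :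
    (X : K[X]) ^ 2 ∣ (A.map (C : K →+* K[X]) + (X : K[X]) • B.map (C : K →+* K[X])).det := by
  obtain ⟨i₀, hi₀⟩ : ∃ i, x i ≠ 0 := by
    by_contra hc
    push Not at hc
    exact hx (funext hc)
  obtain ⟨j₀, hj₀⟩ : ∃ j, y j ≠ 0 := by
    by_contra hc
    push Not at hc
    exact hy (funext hc)
  set P : Matrix (Fin N) (Fin N) K[X] :=
    A.map (C : K →+* K[X]) + (X : K[X]) • B.map (C : K →+* K[X]) with hP
  set u : Fin N → K[X] := fun j => C ((x ᵥ* B) j) with hu
  have e1 : ∑ k, (C (x k) : K[X]) • P k = (X : K[X]) • u := by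
    funext j
    have h4 := congrFun h2 j
    simp only [Finset.sum_apply, Pi.smul_apply, smul_eq_mul, hP, Matrix.add_apply,
      Matrix.smul_apply, Matrix.map_apply, hu]
    rw [vecMul, dotProduct, map_sum, Finset.mul_sum]
    have h5 : ∑ k, (C (x k) : K[X]) * C (A k j) = 0 := by
      have h6 : ∑ k, (C (x k) : K[X]) * C (A k j) = C ((x ᵥ* A) j) := by
        rw [vecMul, dotProduct, map_sum]
        exact Finset.sum_congr rfl fun k _ => (map_mul _ _ _).symm
      rw [h6, h4, Pi.zero_apply, map_zero]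
    simp only [mul_add, Finset.sum_add_distrib]
    rw [h5, zero_add]
    refine Finset.sum_congr rfl fun k _ => ?_
    rw [map_mul]
    ring
  have e2 : (C (x i₀) : K[X]) * P.det = X * (P.updateRow i₀ u).det := by
    have h4 := det_updateRow_sum P i₀ fun k => (C (x k) : K[X])
    rw [e1, det_updateRow_smul, smul_eq_mul] at h4
    exact h4.symm
  set Q := P.updateRow i₀ u with hQ
  set v : Fin N → K[X] := fun i => if i = i₀ then 0 else C ((B *ᵥ y) i) with hv
  have e3 : (fun i => ∑ k, (C (y k) : K[X]) • Q i k) = (X : K[X]) • v := by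
    funext i
    simp only [Pi.smul_apply, smul_eq_mul, hv]
    by_cases hi : i = i₀
    · rw [if_pos hi, mul_zero, hi]
      have h4 : ∀ k, Q i₀ k = u k := fun k => by rw [hQ, updateRow_self]
      simp only [h4, hu]
      have h5 : ∑ k, (C (y k) : K[X]) * C ((x ᵥ* B) k) = C (x ⬝ᵥ B *ᵥ y) := by
        rw [dotProduct_mulVec, dotProduct, map_sum]
        refine Finset.sum_congr rfl fun k _ => ?_
        rw [map_mul, mul_comm]
      rw [h5, h3, map_zero]
    · rw [if_neg hi]
      have h4 : ∀ k, Q i k = P i k := fun k => by rw [hQ, updateRow_ne hi]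
      simp only [h4, hP, Matrix.add_apply, Matrix.smul_apply, Matrix.map_apply, smul_eq_mul]
      have h5 : ∑ k, (C (y k) : K[X]) * C (A i k) = 0 := by
        have h6 : ∑ k, (C (y k) : K[X]) * C (A i k) = C ((A *ᵥ y) i) := by
          rw [mulVec, dotProduct, map_sum]
          refine Finset.sum_congr rfl fun k _ => ?_
          rw [map_mul, mul_comm]
        rw [h6, h1, Pi.zero_apply, map_zero]
      simp only [mul_add, Finset.sum_add_distrib]
      rw [h5, zero_add, mulVec, dotProduct, map_sum, Finset.mul_sum]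
      refine Finset.sum_congr rfl fun k _ => ?_
      rw [map_mul]
      ring
  have e4 : (C (y j₀) : K[X]) * Q.det = X * (Q.updateCol j₀ v).det := by
    have h4 := det_updateCol_sum Q j₀ fun k => (C (y k) : K[X])
    rw [e3, det_updateCol_smul, smul_eq_mul] at h4
    exact h4.symm
  have e5 : (C (x i₀ * y j₀) : K[X]) * P.det = X ^ 2 * (Q.updateCol j₀ v).det := by
    rw [map_mul]
    linear_combination (C (y j₀) : K[X]) * e2 + X * e4
  have hu' : IsUnit (C (x i₀ * y j₀) : K[X]) :=
    isUnit_C.2 (isUnit_iff_ne_zero.2 (mul_ne_zero hi₀ hj₀))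
  rw [← hu'.dvd_mul_left, e5]
  exact Dvd.intro _ rfl

theorem smooth_of_irr (hdet : (M 0).det ≠ 0) (hirr : Irreducible (DF M)) : Smooth M := by
  intro x y hx hy hxy
  rw [Fintype.linearIndependent_iff]
  intro g hg
  by_contra hcon
  push Not at hcon
  obtain ⟨i, hi⟩ := hcon
  set ι : ℚ →+* ℂ := algebraMap ℚ ℂ with hι
  set A₀ : Matrix (Fin N) (Fin N) ℂ := (M 0).map (Int.castRingHom ℂ) with hA0
  set A₁ : Matrix (Fin N) (Fin N) ℂ := (M 1).map (Int.castRingHom ℂ) with hA1
  have hdA : A₀.det ≠ 0 := by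
    rw [hA0, ← RingHom.mapMatrix_apply, ← RingHom.map_det]
    change (((M 0).det : ℤ) : ℂ) ≠ 0
    exact_mod_cast hdet
  have hg1 : g 0 • (A₀ *ᵥ y) + g 1 • (A₁ *ᵥ y) = 0 := by
    have h1 := congrArg Prod.fst hg
    rw [Prod.fst_sum, Fin.sum_univ_two] at h1
    exact h1
  have hg2 : g 0 • (x ᵥ* A₀) + g 1 • (x ᵥ* A₁) = 0 := by
    have h1 := congrArg Prod.snd hg
    rw [Prod.snd_sum, Fin.sum_univ_two] at h1
    exact h1
  have h10 : g 1 ≠ 0 := by
    intro h0
    have hg0 : g 0 ≠ 0 := by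
      intro h1
      fin_cases i
      · exact hi h1
      · exact hi h0
    rw [h0, zero_smul, add_zero] at hg1
    have h2 : A₀ *ᵥ y = 0 := (smul_eq_zero.1 hg1).resolve_left hg0
    exact hdA ((exists_mulVec_eq_zero_iff).1 ⟨y, hy, h2⟩)
  set l : ℂ := g 0 / g 1 with hl
  have hl1 : (A₁ + l • A₀) *ᵥ y = 0 := by
    rw [add_mulVec, smul_mulVec]
    have h2 : g 1 • (A₁ *ᵥ y + l • A₀ *ᵥ y) = 0 := by
      rw [smul_add, smul_smul, hl, mul_div_cancel₀ _ h10, add_comm]
      exact hg1
    exact (smul_eq_zero.1 h2).resolve_left h10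
  have hl2 : x ᵥ* (A₁ + l • A₀) = 0 := by
    rw [vecMul_add, vecMul_smul]
    have h2 : g 1 • (x ᵥ* A₁ + l • x ᵥ* A₀) = 0 := by
      rw [smul_add, smul_smul, hl, mul_div_cancel₀ _ h10, add_comm]
      exact hg2
    exact (smul_eq_zero.1 h2).resolve_left h10
  have h3 : x ⬝ᵥ A₀ *ᵥ y = 0 := hxy 0
  have h4 := double_zero (A₁ + l • A₀) A₀ x y hx hy hl1 hl2 h3
  -- the determinant
  have h5 : ((A₁ + l • A₀).map (C : ℂ →+* ℂ[X]) + (X : ℂ[X]) • A₀.map (C : ℂ →+* ℂ[X])).det =
      ((DF M).map ι).comp (X + C l) := by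
    set ψ : ℚ[X] →+* ℂ[X] := (compRingHom (X + C l)).comp (mapRingHom ι) with hψ
    have h6 : ((DF M).map ι).comp (X + C l) = ψ (DF M) := rfl
    rw [h6]
    unfold DF
    rw [RingHom.map_det]
    congr 1
    ext1 i j
    have h7 : ψ X = X + C l := by
      rw [hψ]
      simp
    have h8 : ∀ a : ℚ, ψ (C a) = C (ι a) := by
      intro a
      rw [hψ]
      simp
    simp only [RingHom.mapMatrix_apply, Matrix.map_apply, Matrix.add_apply, Matrix.smul_apply,
      smul_eq_mul, map_add, map_mul, h7, h8, hA0, hA1]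
    simp only [eq_intCast, map_intCast]
    ring
  rw [h5] at h4
  have hsep : (DF M).Separable := hirr.separable
  have h6 : ((DF M).map ι).eval l = 0 := by
    obtain ⟨w, hw⟩ := h4
    have h7 := congrArg (Polynomial.eval 0) hw
    rw [eval_comp, eval_add, eval_X, eval_C, zero_add, eval_mul, eval_pow, eval_X] at h7
    rw [h7]
    ring
  have h7 : ((derivative (DF M)).map ι).eval l = 0 := by
    obtain ⟨w, hw⟩ := h4
    have h8 := congrArg (fun p => Polynomial.eval 0 (derivative p)) hw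
    simp only [derivative_comp, derivative_mul, derivative_X_pow, derivative_add, derivative_X,
      derivative_C, derivative_map] at h8
    simp only [eval_comp, eval_add, eval_mul, eval_X, eval_C, eval_pow, zero_add, add_zero,
      mul_one, one_mul] at h8
    rw [h8]
    simp
  rw [eval_map] at h6 h7
  exact hsep.eval₂_derivative_ne_zero ι h6 h7

end Pool.Agent.N852
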