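import Mathlib
import Pool.Agent.N852.Smo
import Pool.Agent.H548.BK.Order

/-!
The asymptotic formula with a positive constant.
-/

namespace Pool.Agent.N852

open Matrix Module Filter Topology
open Pool.Agent.H548.WM (ht bx le_ht le_ht' ht_le exists_ht mem_bx card_bx ht_pos Rep)
open Pool.Agent.H548.BL (rv cv Inc inc_iff_rv rc norm_rc tr inc_tr rv_tr)
open Pool.Agent.H548.BK (InV Pts low two)
open Pool.Agent.H548.TL (evz)

variable {N : ℕ} {M : Fin 2 → Matrix (Fin N) (Fin N) ℤ}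

theorem exists_Lx (hM : Nice M) {x : Fin N → ℤ} (hx : x ≠ 0) : ∃ y ∈ Lx M x, y ≠ 0 := by
  have hN4 := hM.four
  have h1 := pigeon hM hx (dd M x)
  have h2 : dd M x + 1 ≤ (dd M x + 1) ^ (N - 2) := Nat.le_self_pow (by omega) _
  have h3 : 1 < (LB M x (N * dd M x)).card := by
    by_contra hcon
    rw [not_lt] at hcon
    have : dd M x * (LB M x (N * dd M x)).card ≤ dd M x * 1 := Nat.mul_le_mul_left _ hcon
    omega
  obtain ⟨y, hy, hy0⟩ := Finset.exists_mem_ne h3 0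
  exact ⟨y, (mem_LB.1 hy).2, hy0⟩

theorem indep_of_mx (hN : 0 < N) {x : Fin N → ℤ} (h : mx M x ≠ 0) :
    LinearIndependent ℂ (rv M fun i => (x i : ℂ)) := by
  obtain ⟨i, j, hij⟩ := exists_mx hN M x
  have h1 : mm M x i j ≠ 0 := by
    intro h0
    rw [h0, Int.natAbs_zero] at hij
    exact h hij.symm
  have h2 : ∀ k, rv M (fun i => (x i : ℂ)) k = fun l => ((rv M x k l : ℤ) : ℂ) := by
    intro k
    funext l
    unfold rv vecMul dotProduct
    push_cast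
    refine Finset.sum_congr rfl fun m _ => ?_
    simp
  rw [Fintype.linearIndependent_iff]
  intro g hg
  rw [Fin.sum_univ_two] at hg
  have e1 := congrFun hg i
  have e2 := congrFun hg j
  simp only [h2, Pi.add_apply, Pi.smul_apply, smul_eq_mul, Pi.zero_apply] at e1 e2
  have h3 : ((mm M x i j : ℤ) : ℂ) ≠ 0 := by exact_mod_cast h1
  have h4 : ((mm M x i j : ℤ) : ℂ) = ((rv M x 0 i : ℤ) : ℂ) * ((rv M x 1 j : ℤ) : ℂ) -
      ((rv M x 0 j : ℤ) : ℂ) * ((rv M x 1 i : ℤ) : ℂ) := by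
    unfold mm
    push_cast
    ring
  rw [h4] at h3
  have g0 : g 0 = 0 := by
    have : g 0 * (((rv M x 0 i : ℤ) : ℂ) * ((rv M x 1 j : ℤ) : ℂ) -
      ((rv M x 0 j : ℤ) : ℂ) * ((rv M x 1 i : ℤ) : ℂ)) = 0 := by
      linear_combination ((rv M x 1 j : ℤ) : ℂ) * e1 - ((rv M x 1 i : ℤ) : ℂ) * e2
    exact (mul_eq_zero.1 this).resolve_right h3
  have g1 : g 1 = 0 := by
    have : g 1 * (((rv M x 0 i : ℤ) : ℂ) * ((rv M x 1 j : ℤ) : ℂ) -
      ((rv M x 0 j : ℤ) : ℂ) * ((rv M x 1 i : ℤ) : ℂ)) = 0 := by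
      linear_combination ((rv M x 0 i : ℤ) : ℂ) * e2 - ((rv M x 0 j : ℤ) : ℂ) * e1
    exact (mul_eq_zero.1 this).resolve_right h3
  intro k
  fin_cases k
  · exact g0
  · exact g1

theorem exists_InV (hM : Nice M) : ∃ x y : Fin N → ℂ, InV M 1 x y := by
  have hN4 := hM.four
  have hN : 0 < N := by omega
  obtain ⟨x, hx⟩ : ∃ x : Fin N → ℤ, x ≠ 0 := by
    refine ⟨fun _ => 1, fun h => ?_⟩
    have := congrFun h ⟨0, hN⟩
    simp at this
  obtain ⟨y, hy, hy0⟩ := exists_Lx hM hx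
  refine ⟨fun i => (x i : ℂ), fun i => (y i : ℂ), ?_, indep_of_mx hN (mx_ne_zero hM hx), ?_, ?_⟩
  · rw [inc_iff_rv]
    intro k
    have h1 := mem_Lx.1 hy k
    have h2 : rv M (fun i => (x i : ℂ)) k = fun l => ((rv M x k l : ℤ) : ℂ) := by
      funext l
      unfold rv vecMul dotProduct
      push_cast
      refine Finset.sum_congr rfl fun m _ => ?_
      simp
    rw [h2]
    have h3 := congrArg (Int.cast : ℤ → ℂ) h1
    unfold dotProduct at h3
    push_cast at h3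
    exact h3
  · rw [← rv_tr]
    exact indep_of_mx hN (mx_ne_zero (nice_tr hM) hy0)
  · unfold evz
    rw [MvPolynomial.eval₂_one]
    exact one_ne_zero

/-- The points counted. -/
def RS (M : Fin 2 → Matrix (Fin N) (Fin N) ℤ) (φ : (Fin N → ℤ) → (Fin N → ℤ) → ℝ)
    (h : (Fin N → ℝ) → (Fin N → ℝ) → ℝ) (B : ℝ) : Set ((Fin N → ℤ) × (Fin N → ℤ)) :=
  {p | Rep p.1 ∧ Rep p.2 ∧ Inc M p.1 p.2 ∧ φ p.1 p.2 * h (ic p.1) (ic p.2) ≤ B}

theorem inc_neg_left {R : Type*} [CommRing R] {x y : Fin N → R} :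
    Inc M (-x) y ↔ Inc M x y := by
  unfold Inc
  simp only [neg_dotProduct, neg_eq_zero]

theorem inc_neg_right {R : Type*} [CommRing R] {x y : Fin N → R} :
    Inc M x (-y) ↔ Inc M x y := by
  rw [← inc_tr, inc_neg_left, inc_tr]

theorem ic_neg' (x : Fin N → ℤ) : ic (-x) = -ic x := by
  funext i
  simp [ic]

theorem LM.neg_left {h : (Fin N → ℝ) → (Fin N → ℝ) → ℝ} (hh : LM M h) {x y : Fin N → ℝ}
    (hx : x ≠ 0) (hy : y ≠ 0) (hxy : Inc M x y) : h (-x) y = h x y := by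
  have h1 := hh.homog (-1) 1 x y (by norm_num) one_ne_zero hx hy hxy
  simpa using h1

theorem LM.neg_right {h : (Fin N → ℝ) → (Fin N → ℝ) → ℝ} (hh : LM M h) {x y : Fin N → ℝ}
    (hx : x ≠ 0) (hy : y ≠ 0) (hxy : Inc M x y) : h x (-y) = h x y := by
  have h1 := hh.homog 1 (-1) x y one_ne_zero (by norm_num) hx hy hxy
  simpa using h1

theorem AS_signs {φ : (Fin N → ℤ) → (Fin N → ℤ) → ℝ}
    {h : (Fin N → ℝ) → (Fin N → ℝ) → ℝ} (hh : LM M h)
    (hs1 : ∀ x y, Prm x → Prm y → Inc M x y → φ (-x) y = φ x y)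
    (hs2 : ∀ x y, Prm x → Prm y → Inc M x y → φ x (-y) = φ x y) (T : ℝ) :
    (∀ p, p ∈ AS M φ h T ↔ (-p.1, p.2) ∈ AS M φ h T) ∧
    (∀ p, p ∈ AS M φ h T ↔ (p.1, -p.2) ∈ AS M φ h T) := by
  have k1 : ∀ p : (Fin N → ℤ) × (Fin N → ℤ), p ∈ AS M φ h T → (-p.1, p.2) ∈ AS M φ h T := by
    rintro ⟨x, y⟩ ⟨h1, h2, h3, h4⟩
    refine ⟨prm_neg.2 h1, h2, inc_neg_left.2 h3, ?_⟩
    simp only at h1 h2 h3 h4 ⊢
    rw [hs1 x y h1 h2 h3, ic_neg', hh.neg_left (ic_ne h1.ne) (ic_ne h2.ne) (inc_ic h3)]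
    exact h4
  have k2 : ∀ p : (Fin N → ℤ) × (Fin N → ℤ), p ∈ AS M φ h T → (p.1, -p.2) ∈ AS M φ h T := by
    rintro ⟨x, y⟩ ⟨h1, h2, h3, h4⟩
    refine ⟨h1, prm_neg.2 h2, inc_neg_right.2 h3, ?_⟩
    simp only at h1 h2 h3 h4 ⊢
    rw [hs2 x y h1 h2 h3, ic_neg', hh.neg_right (ic_ne h1.ne) (ic_ne h2.ne) (inc_ic h3)]
    exact h4
  refine ⟨fun p => ⟨k1 p, fun h => ?_⟩, fun p => ⟨k2 p, fun h => ?_⟩⟩
  · have := k1 _ h
    simpa using this
  · have := k2 _ h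
    simpa using this

/-- **The asymptotic formula.** -/
theorem main_abs (hM : Nice M) {φ : (Fin N → ℤ) → (Fin N → ℤ) → ℝ} (hφ : CA M φ)
    {h : (Fin N → ℝ) → (Fin N → ℝ) → ℝ} (hh : LM M h)
    (hup : ∃ C : ℝ, 0 < C ∧ ∀ x y, Prm x → Prm y → Inc M x y → φ x y ≤ C)
    (hs1 : ∀ x y, Prm x → Prm y → Inc M x y → φ (-x) y = φ x y)
    (hs2 : ∀ x y, Prm x → Prm y → Inc M x y → φ x (-y) = φ x y) :
    ∃ c : ℝ, 0 < c ∧ Tendsto (fun B : ℝ => ((RS M φ h B).ncard : ℝ) / (B * Real.log B)) atTop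
      (𝓝 c) := by
  have hN4 := hM.four
  obtain ⟨c₀, hc0⟩ := total hM hφ hh
  obtain ⟨r, hr⟩ : ∃ r : ℕ, r = N - 2 := ⟨_, rfl⟩
  have hr2 : 2 ≤ r := by omega
  have hr0 : (0 : ℝ) < r := by exact_mod_cast (by omega : 0 < r)
  -- the points
  have hRA : ∀ B : ℝ, 0 < B → (RS M φ h B).ncard * 4 =
      (AS M φ h (B ^ (1 / (r : ℝ)))).ncard ∧ (RS M φ h B).Finite := by
    intro B hB
    have hT0 : 0 < B ^ (1 / (r : ℝ)) := Real.rpow_pos_of_pos hB _
    have hTr : (B ^ (1 / (r : ℝ))) ^ (N - 2) = B := by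
      rw [← hr, ← Real.rpow_natCast, ← Real.rpow_mul hB.le, one_div, inv_mul_cancel₀ hr0.ne',
        Real.rpow_one]
    have hfin := AS_finite (by omega : 2 < N) hφ hh hT0
    have hsg := AS_signs hh hs1 hs2 (B ^ (1 / (r : ℝ)))
    have h1 := four_signs hfin (fun p hp => ⟨hp.1, hp.2.1⟩) hsg.1 hsg.2
    have h2 : {p | p ∈ AS M φ h (B ^ (1 / (r : ℝ))) ∧ Rep p.1 ∧ Rep p.2} = RS M φ h B := by
      ext p
      constructor
      · rintro ⟨⟨h3, h4, h5, h6⟩, h7, h8⟩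
        rw [hTr] at h6
        exact ⟨h7, h8, h5, h6⟩
      · rintro ⟨h7, h8, h5, h6⟩
        refine ⟨⟨Rep.prm h7, Rep.prm h8, h5, ?_⟩, h7, h8⟩
        rw [hTr]
        exact h6
    rw [h2] at h1
    refine ⟨by rw [h1]; ring, ?_⟩
    rw [← h2]
    exact hfin.subset fun p hp => hp.1
  -- the limit
  have hlim : Tendsto (fun B : ℝ => ((RS M φ h B).ncard : ℝ) / (B * Real.log B)) atTop
      (𝓝 (c₀ / (4 * r))) := by
    have h1 : Tendsto (fun B : ℝ => B ^ (1 / (r : ℝ))) atTop atTop :=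
      tendsto_rpow_atTop (by positivity)
    have h2 := (hc0.comp h1).div_const (4 * (r : ℝ))
    apply h2.congr'
    filter_upwards [eventually_gt_atTop 1] with B hB
    have hB0 : 0 < B := by linarith
    have hlogB : 0 < Real.log B := Real.log_pos hB
    have hTr : (B ^ (1 / (r : ℝ))) ^ (N - 2) = B := by
      rw [← hr, ← Real.rpow_natCast, ← Real.rpow_mul hB0.le, one_div, inv_mul_cancel₀ hr0.ne',
        Real.rpow_one]
    have hlog : Real.log (B ^ (1 / (r : ℝ))) = Real.log B / r := by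
      rw [Real.log_rpow hB0]
      ring
    simp only [Function.comp_apply]
    rw [hTr, hlog, ← (hRA B hB0).1]
    push_cast
    field_simp
  refine ⟨c₀ / (4 * r), ?_, hlim⟩
  -- positivity
  obtain ⟨c₁, B₀, hc1, hlow⟩ := low (by norm_num) (by omega) (exists_InV hM)
  obtain ⟨Cφ, hCφ, hφup⟩ := hup
  obtain ⟨m, Ch, hm, hCh, hhb⟩ := hh.real_bounds
  set C : ℝ := Cφ * Ch with hC
  have hC0 : 0 < C := by positivity
  have hsub : ∀ B : ℝ, Pts M 1 (B / C) ⊆ RS M φ h B := by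
    rintro B p ⟨h1, h2, h3, h4⟩
    have hp1 := Rep.prm h1
    have hp2 := Rep.prm h2
    refine ⟨h1, h2, h3.1, ?_⟩
    rw [le_div_iff₀ hC0] at h4
    have h5 := hφup p.1 p.2 hp1 hp2 h3.1
    have h6 := (hhb (ic p.1) (ic p.2) (ic_ne hp1.ne) (ic_ne hp2.ne) (inc_ic h3.1)).2
    have h7 := hh.pos (ic p.1) (ic p.2) (ic_ne hp1.ne) (ic_ne hp2.ne) (inc_ic h3.1)
    rw [norm_ic, norm_ic, mul_pow] at h6
    calc φ p.1 p.2 * h (ic p.1) (ic p.2) ≤ Cφ * h (ic p.1) (ic p.2) := by gcongr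
      _ ≤ Cφ * (Ch * ((ht p.1 : ℝ) ^ (N - 2) * (ht p.2 : ℝ) ^ (N - 2))) := by gcongr
      _ = (ht p.1 : ℝ) ^ (N - 2) * (ht p.2 : ℝ) ^ (N - 2) * C := by rw [hC]; ring
      _ ≤ B := h4
  have hge : c₁ / (2 * C) ≤ c₀ / (4 * r) := by
    apply ge_of_tendsto hlim
    filter_upwards [eventually_ge_atTop (max (max (C * B₀) (C ^ 2)) 2)] with B hB
    have hB1 : C * B₀ ≤ B := (le_max_left _ _).trans ((le_max_left _ _).trans hB)
    have hB2 : C ^ 2 ≤ B := (le_max_right _ _).trans ((le_max_left _ _).trans hB)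
    have hB3 : 2 ≤ B := (le_max_right _ _).trans hB
    have hB0 : 0 < B := by linarith
    have hlogB : 0 < Real.log B := Real.log_pos (by linarith)
    have h1 := hlow (B / C) (by rw [le_div_iff₀ hC0]; linarith)
    have h2 : ((Pts M 1 (B / C)).ncard : ℝ) ≤ ((RS M φ h B).ncard : ℝ) := by
      exact_mod_cast Set.ncard_le_ncard (hsub B) (hRA B hB0).2
    have h3 : Real.log B / 2 ≤ Real.log (B / C) := by
      rw [Real.log_div hB0.ne' hC0.ne']
      have h4 := Real.log_le_log (by positivity) hB2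
      rw [Real.log_pow] at h4
      push_cast at h4
      linarith
    rw [div_le_div_iff₀ (by positivity) (by positivity)]
    have h5 : c₁ * (B / C) * (Real.log B / 2) ≤ ((RS M φ h B).ncard : ℝ) := by
      refine le_trans ?_ (h1.trans h2)
      gcongr
    calc c₁ * (B * Real.log B) = c₁ * (B / C) * (Real.log B / 2) * (2 * C) := by
          field_simp
      _ ≤ ((RS M φ h B).ncard : ℝ) * (2 * C) := by gcongr
  exact lt_of_lt_of_le (by positivity) hge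

end Pool.Agent.N852
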