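import Mathlib
import Pool.Agent.N852.Main

/-!
Rational points of projective space and their normalised representatives.
-/

namespace Pool.Agent.N852

open Matrix Module Filter Topology
open Pool.Agent.H548.WM (ht bx le_ht le_ht' ht_le exists_ht mem_bx card_bx ht_pos Rep)
open Pool.Agent.H548.BL (rv cv Inc inc_iff_rv rc norm_rc tr inc_tr rv_tr)

variable {N : ℕ} {M : Fin 2 → Matrix (Fin N) (Fin N) ℤ}

/-- The rational vector of an integer vector. -/
def qc (x : Fin N → ℤ) : Fin N → ℚ := fun i => (x i : ℚ)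

theorem qc_inj {x y : Fin N → ℤ} (h : qc x = qc y) : x = y := by
  funext i
  have := congrFun h i
  unfold qc at this
  exact_mod_cast this

theorem qc_ne {x : Fin N → ℤ} (h : x ≠ 0) : qc x ≠ 0 := by
  intro h0
  apply h
  apply qc_inj
  rw [h0]
  funext i
  simp [qc]

/-- Every rational vector has a normalised primitive multiple. -/
theorem exists_repz {v : Fin N → ℚ} (hv : v ≠ 0) :
    ∃ (z : Fin N → ℤ) (a : ℚ), Rep z ∧ a ≠ 0 ∧ qc z = a • v := by
  -- common denominator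
  obtain ⟨D, hD, hDv⟩ : ∃ D : ℕ, D ≠ 0 ∧ ∀ i, ∃ n : ℤ, (D : ℚ) * v i = n := by
    refine ⟨∏ i, (v i).den, Finset.prod_ne_zero_iff.2 fun i _ => (v i).den_nz, fun i => ?_⟩
    refine ⟨(∏ j ∈ Finset.univ.erase i, ((v j).den : ℤ)) * (v i).num, ?_⟩
    rw [← Finset.mul_prod_erase Finset.univ _ (Finset.mem_univ i)]
    push_cast
    have h1 := Rat.den_mul_eq_num (v i)
    rw [← h1]
    ring
  choose w hw using hDv
  have hw0 : w ≠ 0 := by
    intro h0
    apply hv
    funext i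
    have h1 := hw i
    rw [h0, Pi.zero_apply, Int.cast_zero, mul_eq_zero] at h1
    exact h1.resolve_left (by exact_mod_cast hD)
  obtain ⟨g, z, hg, hz, hwz⟩ := exists_prim hw0
  have hg0 : (g : ℚ) ≠ 0 := by exact_mod_cast (by omega : g ≠ 0)
  have hD0 : (D : ℚ) ≠ 0 := by exact_mod_cast hD
  have hzv : qc z = ((D : ℚ) / g) • v := by
    funext i
    have h1 := hw i
    rw [congrFun hwz i, Pi.smul_apply, smul_eq_mul] at h1
    push_cast at h1
    unfold qc
    rw [Pi.smul_apply, smul_eq_mul, div_mul_eq_mul_div, h1, mul_div_cancel_left₀ _ hg0]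
  rcases rep_or hz with ⟨h1, _⟩ | ⟨_, h1⟩
  · exact ⟨z, (D : ℚ) / g, h1, div_ne_zero hD0 hg0, hzv⟩
  · refine ⟨-z, -((D : ℚ) / g), h1, neg_ne_zero.2 (div_ne_zero hD0 hg0), ?_⟩
    rw [neg_smul, ← hzv]
    funext i
    simp [qc]

/-- The normalised representative is unique. -/
theorem rep_unique {z w : Fin N → ℤ} (hz : Rep z) (hw : Rep w) {c : ℚ} (h : qc w = c • qc z) :
    w = z := by
  have hzp := Rep.prm hz
  have hwp := Rep.prm hw
  have hc0 : c ≠ 0 := by
    rintro rfl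
    rw [zero_smul] at h
    exact qc_ne hwp.ne h
  obtain ⟨u, hu⟩ := hzp
  obtain ⟨t, htw⟩ := hwp
  -- `c` and its inverse are integers
  have h1 : ((w ⬝ᵥ u : ℤ) : ℚ) = c := by
    have h2 : ((w ⬝ᵥ u : ℤ) : ℚ) = c * ((z ⬝ᵥ u : ℤ) : ℚ) := by
      unfold dotProduct
      push_cast
      rw [Finset.mul_sum]
      refine Finset.sum_congr rfl fun i _ => ?_
      have h3 := congrFun h i
      unfold qc at h3
      rw [Pi.smul_apply, smul_eq_mul] at h3
      rw [h3]
      ring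
    rw [h2, hu]
    simp
  have h2 : ((z ⬝ᵥ t : ℤ) : ℚ) * c = 1 := by
    have h2 : ((z ⬝ᵥ t : ℤ) : ℚ) * c = ((w ⬝ᵥ t : ℤ) : ℚ) := by
      unfold dotProduct
      push_cast
      rw [Finset.sum_mul]
      refine Finset.sum_congr rfl fun i _ => ?_
      have h3 := congrFun h i
      unfold qc at h3
      rw [Pi.smul_apply, smul_eq_mul] at h3
      rw [h3]
      ring
    rw [h2, htw]
    simp
  have h3 : (z ⬝ᵥ t) * (w ⬝ᵥ u) = 1 := by
    have : (((z ⬝ᵥ t) * (w ⬝ᵥ u) : ℤ) : ℚ) = 1 := by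
      push_cast at h1 h2 ⊢
      rw [h1]
      exact h2
    exact_mod_cast this
  rcases Int.isUnit_iff.1 (IsUnit.of_mul_eq_one _ (by rw [mul_comm]; exact h3) :
    IsUnit (w ⬝ᵥ u)) with h4 | h4
  · rw [h4] at h1
    rw [← h1] at h
    apply qc_inj
    rw [h]
    simp
  · exfalso
    rw [h4] at h1
    rw [← h1] at h
    have h5 : w = -z := by
      apply qc_inj
      rw [h]
      funext i
      simp [qc]
    rcases rep_or (Rep.prm hz) with ⟨_, h6⟩ | ⟨h6, _⟩
    · exact h6 (h5 ▸ hw)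
    · exact h6 hz

/-- The normalised representative. -/
theorem exists_nr (P : Projectivization ℚ (Fin N → ℚ)) :
    ∃ (z : Fin N → ℤ) (a : ℚ), Rep z ∧ a ≠ 0 ∧ P.rep = a • qc z := by
  obtain ⟨z, a, h1, h2, h3⟩ := exists_repz P.rep_nonzero
  refine ⟨z, a⁻¹, h1, inv_ne_zero h2, ?_⟩
  rw [h3, smul_smul, inv_mul_cancel₀ h2, one_smul]

/-- The normalised representative. -/
noncomputable def nr (P : Projectivization ℚ (Fin N → ℚ)) : Fin N → ℤ := (exists_nr P).choose

theorem nr_rep (P : Projectivization ℚ (Fin N → ℚ)) : Rep (nr P) :=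
  (exists_nr P).choose_spec.choose_spec.1

theorem nr_spec (P : Projectivization ℚ (Fin N → ℚ)) : ∃ a : ℚ, a ≠ 0 ∧ P.rep = a • qc (nr P) :=
  ⟨_, (exists_nr P).choose_spec.choose_spec.2.1, (exists_nr P).choose_spec.choose_spec.2.2⟩

theorem nr_inj {P Q : Projectivization ℚ (Fin N → ℚ)} (h : nr P = nr Q) : P = Q := by
  obtain ⟨a, ha, h1⟩ := nr_spec P
  obtain ⟨b, hb, h2⟩ := nr_spec Q
  rw [← P.mk_rep, ← Q.mk_rep, Projectivization.mk_eq_mk_iff']
  refine ⟨a / b, ?_⟩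
  rw [h2, h1, h, smul_smul, div_mul_cancel₀ _ hb]

theorem nr_surj {z : Fin N → ℤ} (hz : Rep z) : ∃ P : Projectivization ℚ (Fin N → ℚ), nr P = z := by
  have hz0 := (Rep.prm hz).ne
  refine ⟨Projectivization.mk ℚ (qc z) (qc_ne hz0), ?_⟩
  obtain ⟨a, ha, h1⟩ := nr_spec (Projectivization.mk ℚ (qc z) (qc_ne hz0))
  obtain ⟨b, hb⟩ := Projectivization.exists_smul_eq_mk_rep ℚ (qc z) (qc_ne hz0)
  apply rep_unique hz (nr_rep _) (c := a⁻¹ * b)
  have h2 : (b : ℚ) • qc z = a • qc (nr (Projectivization.mk ℚ (qc z) (qc_ne hz0))) := by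
    rw [← h1, ← hb]
    rfl
  rw [mul_smul, h2, smul_smul, inv_mul_cancel₀ ha, one_smul]

/-- The height of a projective point. -/
theorem mulHeight_nr [NeZero N] (P : Projectivization ℚ (Fin N → ℚ)) :
    P.mulHeight = ht (nr P) := by
  obtain ⟨a, ha, h1⟩ := nr_spec P
  conv_lhs => rw [← P.mk_rep, Projectivization.mulHeight_mk]
  rw [h1, Height.mulHeight_smul_eq_mulHeight _ ha]
  have h2 : qc (nr P) = ((↑) : ℤ → ℚ) ∘ (nr P) := rfl
  rw [h2, Rat.mulHeight_eq_max_abs_of_gcd_eq_one (nr_rep P).1]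
  have hne := (Rep.prm (nr_rep P)).ne
  have h3 : (⨆ i, |nr P i|) = (ht (nr P) : ℤ) := by
    apply le_antisymm
    · apply ciSup_le
      intro i
      rw [Int.abs_eq_natAbs]
      exact_mod_cast le_ht (nr P) i
    · obtain ⟨i, hi⟩ := exists_ht (Nat.pos_of_ne_zero (NeZero.ne N)) (nr P)
      rw [← hi]
      exact le_ciSup (Set.finite_range fun i => |nr P i|).bddAbove i
  rw [h3]
  simp

end Pool.Agent.N852
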