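import Mathlib
import Pool.Agent.N852.Pt

/-!
The asymptotic formula for the rational points and all adelic heights.
-/

namespace Pool.Agent.N852

open Matrix Module Filter Topology
open Pool.Agent.H548.WM (ht bx le_ht le_ht' ht_le exists_ht mem_bx card_bx ht_pos Rep)
open Pool.Agent.H548.BL (rv cv Inc inc_iff_rv rc norm_rc tr inc_tr rv_tr)

variable {N : ℕ} {M : Fin 2 → Matrix (Fin N) (Fin N) ℤ}

instance primes_fact (p : Nat.Primes) : Fact (p : ℕ).Prime := ⟨p.2⟩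

/-- Positive continuous functions on `X(K)`. -/
structure LF {K : Type*} [NormedField K] (M : Fin 2 → Matrix (Fin N) (Fin N) ℤ)
    (φ : (Fin N → K) → (Fin N → K) → ℝ) : Prop where
  continuous : ContinuousOn (fun p : (Fin N → K) × (Fin N → K) => φ p.1 p.2)
    {p | p.1 ≠ 0 ∧ p.2 ≠ 0 ∧ Inc M p.1 p.2}
  positive : ∀ x y, x ≠ 0 → y ≠ 0 → Inc M x y → 0 < φ x y
  invariant : ∀ x y, x ≠ 0 → y ≠ 0 → Inc M x y → ∀ s t : K, s ≠ 0 → t ≠ 0 →
    φ (s • x) (t • y) = φ x y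

theorem LF.lm {K : Type*} [NormedField K] {φ : (Fin N → K) → (Fin N → K) → ℝ} (h : LF M φ) :
    LM M fun x y => ‖x‖ ^ (N - 2) * ‖y‖ ^ (N - 2) * φ x y := by
  refine ⟨fun x y hx hy hxy => ?_, ?_, ?_⟩
  · have h1 := norm_pos_iff.2 hx
    have h2 := norm_pos_iff.2 hy
    have h3 := h.positive x y hx hy hxy
    positivity
  · refine ContinuousOn.mul ?_ h.continuous
    exact ((continuous_fst.norm.pow _).mul (continuous_snd.norm.pow _)).continuousOn
  · intro s t x y hs ht hx hy hxy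
    rw [h.invariant x y hx hy hxy s t hs ht, norm_smul, norm_smul, mul_pow, mul_pow]
    ring

theorem inc_qc {x y : Fin N → ℤ} : Inc M (qc x) (qc y) ↔ Inc M x y := by
  have h2 : ∀ k, rv M (qc x) k = fun l => ((rv M x k l : ℤ) : ℚ) := by
    intro k
    funext l
    unfold rv qc vecMul dotProduct
    push_cast
    refine Finset.sum_congr rfl fun m _ => ?_
    simp
  rw [inc_iff_rv, inc_iff_rv]
  refine forall_congr' fun k => ?_
  rw [h2]
  have h3 : (fun l => ((rv M x k l : ℤ) : ℚ)) ⬝ᵥ qc y = ((rv M x k ⬝ᵥ y : ℤ) : ℚ) := by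
    unfold dotProduct qc
    push_cast
    rfl
  rw [h3]
  exact_mod_cast Iff.rfl

theorem inc_smul_iff {R : Type*} [Field R] {x y : Fin N → R} {s t : R} (hs : s ≠ 0)
    (ht : t ≠ 0) : Inc M (s • x) (t • y) ↔ Inc M x y := by
  constructor
  · intro h
    have h1 := inc_smul h s⁻¹ t⁻¹
    rw [smul_smul, smul_smul, inv_mul_cancel₀ hs, inv_mul_cancel₀ ht, one_smul, one_smul] at h1
    exact h1
  · intro h
    exact inc_smul h s t

/-- The vector over an extension field. -/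
def emb (K : Type*) [Field K] (v : Fin N → ℚ) : Fin N → K := fun i => (v i : K)

theorem emb_smul_qc {K : Type*} [Field K] [CharZero K] (a : ℚ) (z : Fin N → ℤ) :
    emb K (a • qc z) = (a : K) • fun i => (z i : K) := by
  funext i
  unfold emb qc
  rw [Pi.smul_apply, smul_eq_mul, Pi.smul_apply, smul_eq_mul]
  push_cast
  rfl

theorem pc_neg (p : ℕ) [Fact p.Prime] (x : Fin N → ℤ) : pc p (-x) = -pc p x := by
  funext i
  simp [pc]

/-- **The asymptotic formula for all adelic heights.** -/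
theorem main_adel (hM : Nice M) (S : Finset Nat.Primes) (φ₀ : (Fin N → ℝ) → (Fin N → ℝ) → ℝ)
    (h₀ : LF M φ₀) (φ : ∀ p : Nat.Primes, (Fin N → ℚ_[p]) → (Fin N → ℚ_[p]) → ℝ)
    (hφ : ∀ p ∈ S, LF M (φ p)) :
    ∃ c : ℝ, 0 < c ∧ Tendsto (fun B : ℝ =>
      (({P : Projectivization ℚ (Fin N → ℚ) × Projectivization ℚ (Fin N → ℚ) |
        Inc M P.1.rep P.2.rep ∧ (P.1.mulHeight * P.2.mulHeight) ^ (N - 2) *
          (φ₀ (emb ℝ P.1.rep) (emb ℝ P.2.rep) *
            ∏ p ∈ S, φ p (emb ℚ_[p] P.1.rep) (emb ℚ_[p] P.2.rep)) ≤ B} :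
        Set (Projectivization ℚ (Fin N → ℚ) × Projectivization ℚ (Fin N → ℚ))).ncard : ℝ) /
        (B * Real.log B)) atTop (𝓝 c) := by
  have hN4 := hM.four
  have : NeZero N := ⟨by omega⟩
  -- the finite part
  set Φ : (Fin N → ℤ) → (Fin N → ℤ) → ℝ := fun x y => ∏ p ∈ S,
    (‖pc p x‖ ^ (N - 2) * ‖pc p y‖ ^ (N - 2) * φ p (pc p x) (pc p y)) with hΦ
  have hCA : CA M Φ := CA_prod S _ fun p hp => CA_padic (hφ p hp).lm
  have hup : ∃ C : ℝ, 0 < C ∧ ∀ x y, Prm x → Prm y → Inc M x y → Φ x y ≤ C := by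
    have hex : ∀ p : Nat.Primes, ∃ C : ℝ, 0 < C ∧ (p ∈ S → ∀ x y : Fin N → ℤ, Prm x → Prm y →
        Inc M x y → 0 < ‖pc p x‖ ^ (N - 2) * ‖pc p y‖ ^ (N - 2) * φ p (pc p x) (pc p y) ∧
        ‖pc p x‖ ^ (N - 2) * ‖pc p y‖ ^ (N - 2) * φ p (pc p x) (pc p y) ≤ C) := by
      intro p
      by_cases hp : p ∈ S
      · obtain ⟨m, C, hm, hC, hb⟩ := (hφ p hp).lm.bounds
        refine ⟨C, hC, fun _ x y hx hy hxy => ?_⟩
        have h1 := hb _ (pc_mem (p := p) hx hy hxy)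
        exact ⟨lt_of_lt_of_le hm h1.1, h1.2⟩
      · exact ⟨1, one_pos, fun h => absurd h hp⟩
    choose C hC hCb using hex
    refine ⟨∏ p ∈ S, C p, Finset.prod_pos fun p _ => hC p, ?_⟩
    intro x y hx hy hxy
    exact Finset.prod_le_prod (fun p hp => (hCb p hp x y hx hy hxy).1.le)
      fun p hp => (hCb p hp x y hx hy hxy).2
  have hne : ∀ (p : ℕ) [Fact p.Prime] {x : Fin N → ℤ}, Prm x → pc p x ≠ 0 := by
    intro p _ x hx h0
    have h1 := pc_norm (p := p) hx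
    rw [h0, norm_zero] at h1
    exact zero_ne_one h1
  have hs1 : ∀ x y, Prm x → Prm y → Inc M x y → Φ (-x) y = Φ x y := by
    intro x y hx hy hxy
    simp only [hΦ]
    refine Finset.prod_congr rfl fun p hp => ?_
    have h1 := (hφ p hp).invariant _ _ (hne p hx) (hne p hy) (pc_inc hxy) (-1) 1
      (by norm_num) one_ne_zero
    rw [neg_one_smul, one_smul] at h1
    rw [pc_neg, norm_neg, h1]
  have hs2 : ∀ x y, Prm x → Prm y → Inc M x y → Φ x (-y) = Φ x y := by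
    intro x y hx hy hxy
    simp only [hΦ]
    refine Finset.prod_congr rfl fun p hp => ?_
    have h1 := (hφ p hp).invariant _ _ (hne p hx) (hne p hy) (pc_inc hxy) 1 (-1)
      one_ne_zero (by norm_num)
    rw [neg_one_smul, one_smul] at h1
    rw [pc_neg, norm_neg, h1]
  obtain ⟨c, hc, hlim⟩ := main_abs hM hCA h₀.lm hup hs1 hs2
  refine ⟨c, hc, ?_⟩
  refine hlim.congr fun B => ?_
  congr 1
  norm_cast
  symm
  -- the bijection
  have hkey : ∀ P : Projectivization ℚ (Fin N → ℚ) × Projectivization ℚ (Fin N → ℚ),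
      (Inc M P.1.rep P.2.rep ∧ (P.1.mulHeight * P.2.mulHeight) ^ (N - 2) *
          (φ₀ (emb ℝ P.1.rep) (emb ℝ P.2.rep) *
            ∏ p ∈ S, φ p (emb ℚ_[p] P.1.rep) (emb ℚ_[p] P.2.rep)) ≤ B) ↔
      (nr P.1, nr P.2) ∈ RS M Φ (fun x y => ‖x‖ ^ (N - 2) * ‖y‖ ^ (N - 2) * φ₀ x y) B := by
    rintro ⟨P, Q⟩
    simp only
    obtain ⟨a, ha, hPa⟩ := nr_spec P
    obtain ⟨b, hb, hQb⟩ := nr_spec Q
    have hP := nr_rep P
    have hQ := nr_rep Q
    have hPp := Rep.prm hP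
    have hQp := Rep.prm hQ
    have hinc : Inc M P.rep Q.rep ↔ Inc M (nr P) (nr Q) := by
      rw [hPa, hQb, inc_smul_iff ha hb, inc_qc]
    have hval : Inc M (nr P) (nr Q) → (P.mulHeight * Q.mulHeight) ^ (N - 2) *
          (φ₀ (emb ℝ P.rep) (emb ℝ Q.rep) *
            ∏ p ∈ S, φ p (emb ℚ_[p] P.rep) (emb ℚ_[p] Q.rep)) =
          Φ (nr P) (nr Q) * (‖ic (nr P)‖ ^ (N - 2) * ‖ic (nr Q)‖ ^ (N - 2) *
            φ₀ (ic (nr P)) (ic (nr Q))) := by
      intro hi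
      have h1 : φ₀ (emb ℝ P.rep) (emb ℝ Q.rep) = φ₀ (ic (nr P)) (ic (nr Q)) := by
        rw [hPa, hQb, emb_smul_qc, emb_smul_qc]
        exact h₀.invariant _ _ (ic_ne hPp.ne) (ic_ne hQp.ne) (inc_ic hi) _ _
          (by exact_mod_cast ha) (by exact_mod_cast hb)
      have h2 : ∏ p ∈ S, φ p (emb ℚ_[p] P.rep) (emb ℚ_[p] Q.rep) = Φ (nr P) (nr Q) := by
        simp only [hΦ]
        refine Finset.prod_congr rfl fun p hp => ?_
        rw [pc_norm hPp, pc_norm hQp, one_pow, one_mul, one_mul, hPa, hQb, emb_smul_qc,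
          emb_smul_qc]
        exact (hφ p hp).invariant _ _ (hne p hPp) (hne p hQp) (pc_inc hi) _ _
          (by exact_mod_cast ha) (by exact_mod_cast hb)
      rw [h1, h2, mulHeight_nr, mulHeight_nr, norm_ic, norm_ic, mul_pow]
      ring
    constructor
    · rintro ⟨h1, h2⟩
      rw [hinc] at h1
      rw [hval h1] at h2
      exact ⟨hP, hQ, h1, h2⟩
    · rintro ⟨_, _, h1, h2⟩
      refine ⟨hinc.2 h1, ?_⟩
      rw [hval h1]
      exact h2
  apply Set.ncard_congr (fun P _ => (nr P.1, nr P.2))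
  · intro P hP
    exact (hkey P).1 hP
  · intro P Q _ _ h
    simp only [Prod.mk.injEq] at h
    exact Prod.ext (nr_inj h.1) (nr_inj h.2)
  · rintro ⟨x, y⟩ hxy
    obtain ⟨P, rfl⟩ := nr_surj hxy.1
    obtain ⟨Q, rfl⟩ := nr_surj hxy.2.1
    exact ⟨(P, Q), (hkey (P, Q)).2 hxy, rfl⟩

end Pool.Agent.N852
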